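import Mathlib

/-!
# The Froelicher spectral sequence of a complex manifold

Smooth complex-valued differential forms on a complex manifold `X` of dimension `n`
(charts in `ℂⁿ = Fin n → ℂ`, holomorphic transition maps), the exterior derivative, forms of
type `(p,q)`, the filtration by `p`-degree, and the pages `E_r^{p,q}` with their
differentials `d_r : E_r^{p,q} → E_r^{p+r,q-r+1}`.
-/

namespace Pool.Agent.H73.Fro

open Set
open scoped Manifold ContDiff ComplexConjugate Topology

/-- complex `n`-space -/
abbrev Cn (n : ℕ) : Type := Fin n → ℂ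

theorem two_le_infty : minSmoothness ℝ 2 ≤ (∞ : ℕ∞ω) := by
  simp only [minSmoothness_of_isRCLikeNormedField]
  exact WithTop.coe_le_coe.mpr (le_top : (2 : ℕ∞) ≤ ⊤)

section Forms

variable (n : ℕ) (X : Type*) [TopologicalSpace X] [ChartedSpace (Cn n) X]

/-- Smooth complex-valued differential `k`-forms on `X`.  A form is a family `a` of local
expressions: to every chart `e` of the atlas it assigns a smooth map from the target of `e`
(an open subset of `ℂⁿ`) to the real-multilinear alternating `k`-forms on `ℂⁿ` with values in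
`ℂ`; the local expressions in two charts are related by pull-back under the transition map.
(Local expressions are extended by `0` outside the target of the chart.) -/
def Form (k : ℕ) : Submodule ℂ (atlas (Cn n) X → Cn n → (Cn n) [⋀^Fin k]→L[ℝ] ℂ) where
  carrier := {a | (∀ e, ContDiffOn ℝ ∞ (a e) e.1.target) ∧
    (∀ e, ∀ y ∉ e.1.target, a e y = 0) ∧
    ∀ e e' : atlas (Cn n) X, ∀ y ∈ e.1.target, e.1.symm y ∈ e'.1.source →
      a e y = (a e' (e'.1 (e.1.symm y))).compContinuousLinearMap
        (fderiv ℝ (fun z => e'.1 (e.1.symm z)) y)}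
  add_mem' := by
    rintro a η ⟨h1, h2, h3⟩ ⟨g1, g2, g3⟩
    refine ⟨fun e => (h1 e).add (g1 e), fun e y hy => ?_, fun e e' y hy hy' => ?_⟩
    · simp [h2 e y hy, g2 e y hy]
    · have := h3 e e' y hy hy'
      have := g3 e e' y hy hy'
      ext v
      simp_all
  zero_mem' := by
    refine ⟨fun e => contDiffOn_const, fun e y hy => rfl, fun e e' y hy hy' => ?_⟩
    ext v
    simp
  smul_mem' := by
    rintro c a ⟨h1, h2, h3⟩
    refine ⟨fun e => (h1 e).const_smul c, fun e y hy => ?_, fun e e' y hy hy' => ?_⟩
    · simp [h2 e y hy]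
    · have := h3 e e' y hy hy'
      ext v
      simp_all

variable {n X}

theorem form_smooth {k : ℕ} (a : Form n X k) (e : atlas (Cn n) X) :
    ContDiffOn ℝ ∞ (a.1 e) e.1.target := a.2.1 e

theorem form_zero_off {k : ℕ} (a : Form n X k) (e : atlas (Cn n) X) {y : Cn n}
    (hy : y ∉ e.1.target) : a.1 e y = 0 := a.2.2.1 e y hy

theorem form_compat {k : ℕ} (a : Form n X k) (e e' : atlas (Cn n) X) {y : Cn n}
    (hy : y ∈ e.1.target) (hy' : e.1.symm y ∈ e'.1.source) :
    a.1 e y = (a.1 e' (e'.1 (e.1.symm y))).compContinuousLinearMap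
        (fderiv ℝ (fun z => e'.1 (e.1.symm z)) y) := a.2.2.2 e e' y hy hy'

/-- two forms with the same local expressions on the targets of the charts are equal -/
theorem form_ext {k : ℕ} {a η : Form n X k}
    (h : ∀ e : atlas (Cn n) X, ∀ y ∈ e.1.target, a.1 e y = η.1 e y) : a = η := by
  apply Subtype.ext
  funext e y
  by_cases hy : y ∈ e.1.target
  · exact h e y hy
  · rw [form_zero_off a e hy, form_zero_off η e hy]

/-- transition maps between charts of a complex manifold are smooth (in the real sense) -/
theorem contDiffAt_transition [IsManifold 𝓘(ℂ, Cn n) ω X] (e e' : atlas (Cn n) X) {y : Cn n}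
    (hy : y ∈ e.1.target) (hy' : e.1.symm y ∈ e'.1.source) :
    ContDiffAt ℂ ω (fun z => e'.1 (e.1.symm z)) y := by
  have h := (contDiffGroupoid ω 𝓘(ℂ, Cn n)).compatible e.2 e'.2
  rw [contDiffGroupoid, mem_groupoid_of_pregroupoid] at h
  have h1 := h.1
  simp only [contDiffPregroupoid, modelWithCornersSelf_coe, modelWithCornersSelf_coe_symm,
    Function.comp_id, Function.id_comp, preimage_id, range_id, inter_univ] at h1
  have hmem : y ∈ (e.1.symm ≫ₕ e'.1).source := by
    rw [OpenPartialHomeomorph.trans_source]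
    exact ⟨by simpa using hy, hy'⟩
  exact (h1 y hmem).contDiffAt ((e.1.symm ≫ₕ e'.1).open_source.mem_nhds hmem)

section ExtD

variable [IsManifold 𝓘(ℂ, Cn n) ω X]

variable (n X) in
/-- The exterior derivative, computed in every chart. -/
noncomputable def extD (k : ℕ) : Form n X k →ₗ[ℂ] Form n X (k + 1) where
  toFun a := ⟨fun e => e.1.target.indicator (extDeriv (a.1 e)), by
    refine ⟨fun e => ?_, fun e y hy => ?_, fun e e' y hy hy' => ?_⟩
    · have h1 : ContDiffOn ℝ ∞ (fun y => fderiv ℝ (a.1 e) y) e.1.target :=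
        (form_smooth a e).fderiv_of_isOpen e.1.open_target (by simp)
      have h2 : ContDiffOn ℝ ∞ (extDeriv (a.1 e)) e.1.target := by
        have h3 := (ContinuousAlternatingMap.alternatizeUncurryFinCLM (n := k) ℝ (Cn n)
          ℂ).contDiff.comp_contDiffOn (n := ∞) h1
        exact h3
      exact h2.congr fun y hy => indicator_of_mem hy _
    · exact indicator_of_notMem hy _
    · have hy2 : e'.1 (e.1.symm y) ∈ e'.1.target := e'.1.map_source hy'
      change e.1.target.indicator (extDeriv (a.1 e)) y =
        (e'.1.target.indicator (extDeriv (a.1 e')) _).compContinuousLinearMap _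
      rw [indicator_of_mem hy, indicator_of_mem hy2]
      have hmem : y ∈ (e.1.symm ≫ₕ e'.1).source := by
        rw [OpenPartialHomeomorph.trans_source]
        exact ⟨by simpa using hy, hy'⟩
      have hev : a.1 e =ᶠ[𝓝 y] fun z => (a.1 e' (e'.1 (e.1.symm z))).compContinuousLinearMap
          (fderiv ℝ (fun z => e'.1 (e.1.symm z)) z) := by
        filter_upwards [(e.1.symm ≫ₕ e'.1).open_source.mem_nhds hmem] with z hz
        rw [OpenPartialHomeomorph.trans_source] at hz
        exact form_compat a e e' (by simpa using hz.1) hz.2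
      rw [hev.extDeriv_eq]
      have hf : ContDiffAt ℝ ∞ (fun z => e'.1 (e.1.symm z)) y :=
        ((contDiffAt_transition e e' hy hy').restrict_scalars ℝ).of_le (by simp)
      refine extDeriv_pullback (r := ∞) ?_ hf two_le_infty
      exact ((form_smooth a e').contDiffAt (e'.1.open_target.mem_nhds hy2)).differentiableAt (by simp)⟩
  map_add' a η := by
    apply form_ext
    intro e y hy
    change e.1.target.indicator (extDeriv (a.1 e + η.1 e)) y =
      e.1.target.indicator (extDeriv (a.1 e)) y + e.1.target.indicator (extDeriv (η.1 e)) y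
    rw [indicator_of_mem hy, indicator_of_mem hy, indicator_of_mem hy]
    exact extDeriv_add
      (((form_smooth a e).contDiffAt (e.1.open_target.mem_nhds hy)).differentiableAt (by simp))
      (((form_smooth η e).contDiffAt (e.1.open_target.mem_nhds hy)).differentiableAt (by simp))
  map_smul' c a := by
    apply form_ext
    intro e y hy
    change e.1.target.indicator (extDeriv (c • a.1 e)) y =
      c • e.1.target.indicator (extDeriv (a.1 e)) y
    rw [indicator_of_mem hy, indicator_of_mem hy]
    have hd : DifferentiableAt ℝ (a.1 e) y :=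
      ((form_smooth a e).contDiffAt (e.1.open_target.mem_nhds hy)).differentiableAt (by simp)
    rw [extDeriv, extDeriv, fderiv_const_smul hd,
      ContinuousAlternatingMap.alternatizeUncurryFin_smul]

theorem extD_apply {k : ℕ} (a : Form n X k) (e : atlas (Cn n) X) {y : Cn n}
    (hy : y ∈ e.1.target) : (extD n X k a).1 e y = extDeriv (a.1 e) y :=
  indicator_of_mem hy _

theorem extD_extD {k : ℕ} (a : Form n X k) : extD n X (k + 1) (extD n X k a) = 0 := by
  apply form_ext
  intro e y hy
  rw [extD_apply _ _ hy]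
  have hev : (extD n X k a).1 e =ᶠ[𝓝 y] extDeriv (a.1 e) := by
    filter_upwards [e.1.open_target.mem_nhds hy] with z hz
    exact extD_apply _ _ hz
  rw [hev.extDeriv_eq]
  exact extDeriv_extDeriv_apply (r := ∞)
    ((form_smooth a e).contDiffAt (e.1.open_target.mem_nhds hy)) two_le_infty

end ExtD

/-- A real-multilinear alternating `k`-form on `ℂⁿ` is of type `(p,q)` if it is multiplied by
`c ^ p * conj c ^ q` when all its arguments are multiplied by the complex number `c`. -/
def IsType (p q : ℕ) {k : ℕ} (f : (Cn n) [⋀^Fin k]→L[ℝ] ℂ) : Prop :=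
  ∀ (c : ℂ) (v : Fin k → Cn n), f (fun i => c • v i) = c ^ p * (conj c) ^ q * f v

variable (n X)

/-- The space `A^{p,q}(X)` of smooth forms of type `(p,q)`, as a subspace of the `k`-forms
(to be used for `k = p + q`). -/
noncomputable def Apq (p q k : ℕ) : Submodule ℂ (Form n X k) where
  carrier := {a | ∀ e y, IsType p q (a.1 e y)}
  add_mem' := by
    intro a b ha hb e y c v
    have h1 := ha e y c v
    have h2 := hb e y c v
    change (a.1 e y) _ + (b.1 e y) _ = _ * ((a.1 e y) _ + (b.1 e y) _)
    rw [h1, h2, mul_add]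
  zero_mem' := by
    intro e y c v
    simp
  smul_mem' := by
    intro z a ha e y c v
    have h1 := ha e y c v
    change z • (a.1 e y) _ = _ * (z • (a.1 e y) _)
    rw [h1, smul_eq_mul, smul_eq_mul]
    ring

/-- `F^p A^k(X)`: the sum of the spaces `A^{i,j}(X)` with `i + j = k` and `i ≥ p`. -/
noncomputable def Fil (p : ℤ) (k : ℕ) : Submodule ℂ (Form n X k) :=
  ⨆ (i : ℕ) (j : ℕ) (_ : i + j = k) (_ : p ≤ i), Apq n X i j k

/-- Differential forms of all degrees: a form in each degree. -/
def AllForms : Type _ := (k : ℕ) → Form n X k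

noncomputable instance : AddCommGroup (AllForms n X) := inferInstanceAs (AddCommGroup ((k : ℕ) → Form n X k))

noncomputable instance : Module ℂ (AllForms n X) := inferInstanceAs (Module ℂ ((k : ℕ) → Form n X k))

/-- `F^p A^m(X)`, inside the forms of all degrees. -/
noncomputable def filtration (p m : ℤ) : Submodule ℂ (AllForms n X) where
  carrier := {a | ∀ k : ℕ, ((k : ℤ) = m → a k ∈ Fil n X p k) ∧ ((k : ℤ) ≠ m → a k = 0)}
  add_mem' := by
    intro a b ha hb k
    refine ⟨fun h => add_mem ((ha k).1 h) ((hb k).1 h), fun h => ?_⟩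
    change a k + b k = 0
    rw [(ha k).2 h, (hb k).2 h, add_zero]
  zero_mem' := fun k => ⟨fun _ => zero_mem _, fun _ => rfl⟩
  smul_mem' := by
    intro c a ha k
    refine ⟨fun h => Submodule.smul_mem _ c ((ha k).1 h), fun h => ?_⟩
    change c • a k = 0
    rw [(ha k).2 h, smul_zero]

/-- The exterior derivative on forms of all degrees. -/
noncomputable def totalD [IsManifold 𝓘(ℂ, Cn n) ω X] : AllForms n X →ₗ[ℂ] AllForms n X where
  toFun a := fun k => match k with
    | 0 => 0
    | k + 1 => extD n X k (a k)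
  map_add' a b := by
    funext k
    cases k with
    | zero => exact (add_zero (0 : Form n X 0)).symm
    | succ k => exact map_add (extD n X k) (a k) (b k)
  map_smul' c a := by
    funext k
    cases k with
    | zero => exact (smul_zero c (A := Form n X 0)).symm
    | succ k => exact map_smul (extD n X k) c (a k)

theorem totalD_totalD [IsManifold 𝓘(ℂ, Cn n) ω X] (a : AllForms n X) :
    totalD n X (totalD n X a) = 0 := by
  funext k
  match k with
  | 0 => rfl
  | 1 => exact map_zero (extD n X 0)
  | k + 2 => exact extD_extD (a k)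

end Forms

section Pages

/-- A filtered complex of complex vector spaces: `A` is the sum of the spaces in all degrees,
`D` the differential, and `F p m` the `p`-th step of the filtration in degree `m`. -/
structure FComplex where
  A : Type*
  [grp : AddCommGroup A]
  [mod : Module ℂ A]
  D : A →ₗ[ℂ] A
  D_D : ∀ a, D (D a) = 0
  F : ℤ → ℤ → Submodule ℂ A

attribute [instance] FComplex.grp FComplex.mod

namespace FComplex

variable (C : FComplex)

/-- `Z_r^{p,q}`: the elements of `F^p` in degree `p + q` whose differential lies in `F^{p+r}`. -/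
def Z (r p q : ℤ) : Submodule ℂ C.A := C.F p (p + q) ⊓ (C.F (p + r) (p + q + 1)).comap C.D

/-- `B_r^{p,q} = Z_{r-1}^{p+1,q-1} + D Z_{r-1}^{p-r+1,q+r-2}`. -/
def B (r p q : ℤ) : Submodule ℂ C.A :=
  C.Z (r - 1) (p + 1) (q - 1) ⊔ (C.Z (r - 1) (p - r + 1) (q + r - 2)).map C.D

/-- The entry `E_r^{p,q} = Z_r^{p,q} / (B_r^{p,q} ∩ Z_r^{p,q})` of the `r`-th page of the spectral
sequence of the filtered complex. -/
abbrev E (r p q : ℤ) : Type _ := C.Z r p q ⧸ (C.B r p q).submoduleOf (C.Z r p q)

/-- the differential maps `Z_r^{p,q}` to `Z_r^{p+r,q-r+1}` -/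
theorem D_mem_Z (r p q : ℤ) {a : C.A} (ha : a ∈ C.Z r p q) :
    C.D a ∈ C.Z r (p + r) (q - r + 1) := by
  refine ⟨?_, ?_⟩
  · have h : C.D a ∈ C.F (p + r) (p + q + 1) := ha.2
    have e : p + r + (q - r + 1) = p + q + 1 := by ring
    rw [SetLike.mem_coe, e]
    exact h
  · change C.D (C.D a) ∈ C.F _ _
    rw [C.D_D]
    exact zero_mem _

/-- the differential maps `B_r^{p,q}` to `B_r^{p+r,q-r+1}` -/
theorem D_mem_B (r p q : ℤ) {a : C.A} (ha : a ∈ C.B r p q) :
    C.D a ∈ C.B r (p + r) (q - r + 1) := by
  obtain ⟨x, hx, y, ⟨z, hz, rfl⟩, rfl⟩ := Submodule.mem_sup.mp ha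
  rw [map_add, C.D_D, add_zero]
  apply Submodule.mem_sup_right
  refine ⟨x, ?_, rfl⟩
  have e1 : p + r - r + 1 = p + 1 := by ring
  have e2 : q - r + 1 + r - 2 = q - 1 := by ring
  rw [e1, e2]
  exact hx

/-- the differential `d_r : E_r^{p,q} → E_r^{p+r,q-r+1}` of the `r`-th page, induced by `D` -/
def d (r p q : ℤ) : C.E r p q →ₗ[ℂ] C.E r (p + r) (q - r + 1) :=
  Submodule.mapQ _ _ (C.D.restrict (fun _ ha => C.D_mem_Z r p q ha))
    (fun _ ha => C.D_mem_B r p q ha)

/-- `d_r` is nonzero if and only if the differential of some element of `Z_r` is not in `B_r` -/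
theorem d_ne_zero_iff (r p q : ℤ) :
    C.d r p q ≠ 0 ↔ ∃ a ∈ C.Z r p q, C.D a ∉ C.B r (p + r) (q - r + 1) := by
  constructor
  · intro h
    by_contra hcon
    push Not at hcon
    apply h
    apply LinearMap.ext
    intro x
    obtain ⟨x, rfl⟩ := Submodule.mkQ_surjective _ x
    exact (Submodule.Quotient.mk_eq_zero _).mpr (hcon x.1 x.2)
  · rintro ⟨a, ha, hb⟩ h
    apply hb
    have h2 : (Submodule.Quotient.mk ⟨C.D a, C.D_mem_Z r p q ha⟩ : C.E r (p + r) (q - r + 1)) = 0 :=
      LinearMap.congr_fun h (Submodule.Quotient.mk ⟨a, ha⟩)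
    exact (Submodule.Quotient.mk_eq_zero ((C.B r (p + r) (q - r + 1)).submoduleOf _)).mp h2

end FComplex

end Pages

/-- The filtered complex of smooth forms on the complex manifold `X`, whose spectral sequence is
the Froelicher spectral sequence of `X`. -/
noncomputable def frolicher (n : ℕ) (X : Type*) [TopologicalSpace X] [ChartedSpace (Cn n) X]
    [IsManifold 𝓘(ℂ, Cn n) ω X] : FComplex where
  A := AllForms n X
  D := totalD n X
  D_D := totalD_totalD n X
  F := filtration n X

end Pool.Agent.H73.Fro
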