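import Pool.Agent.H73.Fro.Holo

/-!
# The differentials `d_r`, `r ≥ n`, of the Froelicher spectral sequence vanish

`upper_of`: this follows from the hypothesis `hS` that for every `n`-form `x` on `X` there is an
`n`-form `b` in `F^1` with `dx = db` (top-degree duality, module SERRE).
-/

namespace Pool.Agent.H73.Fro

open Set Function
open scoped Manifold ContDiff ComplexConjugate Topology

variable {n : ℕ} {X : Type*} [TopologicalSpace X] [ChartedSpace (Cn n) X]

theorem mem_filtration {p m : ℤ} {a : AllForms n X} : a ∈ filtration n X p m ↔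
    ∀ k : ℕ, ((k : ℤ) = m → a k ∈ Fil n X p k) ∧ ((k : ℤ) ≠ m → a k = 0) := Iff.rfl

theorem filtration_eq_zero {p m : ℤ} (h : ∀ k : ℕ, (k : ℤ) = m → Fil n X p k = ⊥)
    {a : AllForms n X} (ha : a ∈ filtration n X p m) : a = 0 := by
  funext k
  by_cases hk : (k : ℤ) = m
  · have h1 := (ha k).1 hk
    rw [h k hk, Submodule.mem_bot] at h1
    exact h1
  · exact (ha k).2 hk

theorem filtration_mono {p p' m : ℤ} (h : ∀ k : ℕ, (k : ℤ) = m → Fil n X p k ≤ Fil n X p' k)
    {a : AllForms n X} (ha : a ∈ filtration n X p m) : a ∈ filtration n X p' m :=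
  fun k => ⟨fun hk => h k hk ((ha k).1 hk), (ha k).2⟩

theorem fil_top : Fil n X (n : ℤ) n ≤ Apq n X n 0 n := by
  refine fil_le fun i j hij hi => ?_
  have h1 : i = n := by omega
  have h2 : j = 0 := by omega
  subst h1
  subst h2
  exact le_rfl

theorem totalD_succ [IsManifold 𝓘(ℂ, Cn n) ω X] (a : AllForms n X) (k : ℕ) :
    totalD n X a (k + 1) = extD n X k (a k) := rfl

theorem totalD_zero [IsManifold 𝓘(ℂ, Cn n) ω X] (a : AllForms n X) :
    totalD n X a 0 = 0 := rfl

/-- membership of `D a` in `B_r` -/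
theorem D_mem_B_of [IsManifold 𝓘(ℂ, Cn n) ω X] {r p q : ℤ} {a b : AllForms n X}
    (hb : b ∈ filtration n X (p + 1) (p + q))
    (hDb : totalD n X b ∈ filtration n X (p + r) (p + q + 1)) (hab : totalD n X b = totalD n X a) :
    (frolicher n X).D a ∈ (frolicher n X).B r (p + r) (q - r + 1) := by
  apply Submodule.mem_sup_right
  refine ⟨b, ⟨?_, ?_⟩, hab⟩
  · change b ∈ filtration n X (p + r - r + 1) (p + r - r + 1 + (q - r + 1 + r - 2))
    have e1 : p + r - r + 1 = p + 1 := by ring
    have e2 : p + r - r + 1 + (q - r + 1 + r - 2) = p + q := by ring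
    rw [e2, e1]
    exact hb
  · change totalD n X b ∈ filtration n X (p + r - r + 1 + (r - 1))
      (p + r - r + 1 + (q - r + 1 + r - 2) + 1)
    have e1 : p + r - r + 1 + (r - 1) = p + r := by ring
    have e2 : p + r - r + 1 + (q - r + 1 + r - 2) + 1 = p + q + 1 := by ring
    rw [e2, e1]
    exact hDb

/-- a form as an element of the total space -/
noncomputable def single {k : ℕ} (x : Form n X k) : AllForms n X :=
  fun j => if hj : k = j then hj ▸ x else 0

theorem single_same {k : ℕ} (x : Form n X k) : single x k = x := dif_pos rfl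

theorem single_of_ne {k j : ℕ} (h : k ≠ j) (x : Form n X k) : single x j = 0 := dif_neg h

theorem totalD_single [IsManifold 𝓘(ℂ, Cn n) ω X] {k : ℕ} {x : Form n X k} {a : AllForms n X}
    (hx : extD n X k x = extD n X k (a k)) (ha : ∀ j, j ≠ k → a j = 0) :
    totalD n X (single x) = totalD n X a := by
  funext j
  cases j with
  | zero => rw [totalD_zero, totalD_zero]
  | succ j =>
    rw [totalD_succ, totalD_succ]
    by_cases hj : k = j
    · subst hj
      rw [single_same, hx]
    · rw [single_of_ne hj, ha j (Ne.symm hj)]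

theorem D_mem_B_of_ge (n : ℕ) (hn : 1 ≤ n) (X : Type*) [TopologicalSpace X]
    [ChartedSpace (Cn n) X] [IsManifold 𝓘(ℂ, Cn n) ω X] [CompactSpace X] [T2Space X]
    (hS : ∀ x : Form n X n, ∃ b ∈ Fil n X 1 n, extD n X n x = extD n X n b)
    (r p q : ℤ) (hr : (n : ℤ) ≤ r) (a : AllForms n X) (haF : a ∈ filtration n X p (p + q))
    (haD : totalD n X a ∈ filtration n X (p + r) (p + q + 1)) :
    (frolicher n X).D a ∈ (frolicher n X).B r (p + r) (q - r + 1) := by
  have hzero : totalD n X a = 0 →
      (frolicher n X).D a ∈ (frolicher n X).B r (p + r) (q - r + 1) := by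
    intro h0
    have h1 : (frolicher n X).D a = 0 := h0
    rw [h1]
    exact Submodule.zero_mem _
  by_cases hpr : (n : ℤ) < p + r
  · apply hzero
    exact filtration_eq_zero (fun k _ => fil_eq_bot hpr) haD
  by_cases hp : p < 0
  · refine D_mem_B_of (b := a) ?_ haD rfl
    refine filtration_mono (fun k _ => fil_le fun i j hij hpi => ?_) haF
    exact apq_le_fil hij (by omega)
  have hp0 : p = 0 := by omega
  have hrn : r = n := by omega
  by_cases hq : q < 0
  · apply hzero
    have h1 : a = 0 := by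
      funext k
      exact (haF k).2 (by omega)
    rw [h1]
    exact map_zero _
  obtain ⟨Q, hQq⟩ : ∃ Q : ℕ, q = Q := ⟨q.toNat, by omega⟩
  rcases lt_trichotomy Q n with hQ | hQ | hQ
  · apply hzero
    by_cases hQ1 : Q + 1 = n
    · subst hQ1
      funext k
      by_cases hk : k = Q + 1
      · subst hk
        have h1 := (haD (Q + 1)).1 (by push_cast; omega)
        have e1 : p + r = ((Q + 1 : ℕ) : ℤ) := by omega
        rw [e1] at h1
        exact exact_top Q X (a Q) (fil_top h1)
      · exact (haD k).2 (by omega)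
    · refine filtration_eq_zero (fun k hk => ?_) haD
      rw [eq_bot_iff]
      refine fil_le fun i j hij hi => ?_
      omega
  · subst hQ
    obtain ⟨b0, hb0, hb1⟩ := hS (a Q)
    have hDab : totalD Q X (single b0) = totalD Q X a :=
      totalD_single hb1.symm fun j hj => (haF j).2 (by omega)
    refine D_mem_B_of (b := single b0) ?_ (hDab ▸ haD) hDab
    intro k
    refine ⟨fun hk => ?_, fun hk => single_of_ne (by omega) b0⟩
    have hkQ : k = Q := by omega
    subst hkQ
    rw [single_same]
    have e1 : p + 1 = 1 := by omega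
    rw [e1]
    exact hb0
  · refine D_mem_B_of (b := a) ?_ haD rfl
    refine filtration_mono (fun k hk => fil_le fun i j hij hpi => ?_) haF
    by_cases hi : i = 0
    · rw [apq_eq_bot hij (Or.inr (by omega))]
      exact bot_le
    · exact apq_le_fil hij (by omega)

theorem upper_of (n : ℕ) (hn : 1 ≤ n) (X : Type*) [TopologicalSpace X] [ChartedSpace (Cn n) X]
    [IsManifold 𝓘(ℂ, Cn n) ω X] [CompactSpace X] [T2Space X]
    (hS : ∀ x : Form n X n, ∃ b ∈ Fil n X 1 n, extD n X n x = extD n X n b)
    (r p q : ℤ) (hr : (n : ℤ) ≤ r) : (frolicher n X).d r p q = 0 := by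
  by_contra hne
  obtain ⟨a, ⟨haF, haD⟩, haB⟩ := ((frolicher n X).d_ne_zero_iff r p q).mp hne
  exact haB (D_mem_B_of_ge n hn X hS r p q hr a haF haD)

theorem form_sub_add {k : ℕ} (a b : Form n X k) : (a - b) + b = a := by
  apply Subtype.ext
  rw [Submodule.coe_add, AddSubgroupClass.coe_sub]
  exact sub_add_cancel a.1 b.1

theorem aux_add {A B : Type*} [AddCommMonoid A] [AddCommMonoid B] [Module ℂ A] [Module ℂ B]
    (D : A →ₗ[ℂ] B) {x u P w h v e : A} (h1 : u + P = x) (h2 : w + h = P) (h3 : v + e = w)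
    (h4 : D h = 0) (h5 : D e = 0) : D x = D (u + v) := by
  rw [← h1, ← h2, ← h3, map_add, map_add, map_add, map_add, h4, h5, add_zero, add_zero]

/-- the hypothesis `hS` from top-degree Serre duality in the form `serre_top` -/
theorem hS_of_serre_top (k : ℕ) (X : Type*) [TopologicalSpace X] [ChartedSpace (Cn (k + 1)) X]
    [IsManifold 𝓘(ℂ, Cn (k + 1)) ω X]
    (hST : ∀ f ∈ Apq (k + 1) X 0 (k + 1) (k + 1),
      ∃ h ∈ Apq (k + 1) X 0 (k + 1) (k + 1), extD (k + 1) X (k + 1) h = 0 ∧
      ∃ g ∈ Apq (k + 1) X 0 k k, f - h - extD (k + 1) X k g ∈ Apq (k + 1) X 1 k (k + 1))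
    (x : Form (k + 1) X (k + 1)) :
    ∃ b ∈ Fil (k + 1) X 1 (k + 1), extD (k + 1) X (k + 1) x = extD (k + 1) X (k + 1) b := by
  obtain ⟨h, -, hh, g, -, hg⟩ := hST _ (projF_top_mem x)
  refine ⟨(x - projF (k + 1) x) + (projF (k + 1) x - h - extD (k + 1) X k g),
    Submodule.add_mem _ (sub_projF_mem x) (apq_le_fil (by omega) (by simp) hg), ?_⟩
  exact aux_add (extD (k + 1) X (k + 1)) (form_sub_add x (projF (k + 1) x))
    (form_sub_add (projF (k + 1) x) h)
    (form_sub_add (projF (k + 1) x - h) (extD (k + 1) X k g)) hh (extD_extD g)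

end Pool.Agent.H73.Fro
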