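import Pool.Agent.H73.Fro.AlgDefs

/-!
# Common facts for the algebra of the even and the odd family
-/

set_option linter.unusedSimpArgs false
set_option linter.unusedVariables false
set_option linter.unusedSectionVars false

namespace Pool.Agent.H73.Fro.AC

section Abs

variable {R : Type*} [Ring R]

/-- use: `simp only [..., h.s10, sw10 h.s10]` for normal ordering -/
theorem sw10 {s t : R} (h : s * t = -(t * s)) (x : R) : s * (t * x) = -(t * (s * x)) := by
  rw [← mul_assoc, h, neg_mul, mul_assoc]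

theorem sz10 {s : R} (h : s * s = 0) (x : R) : s * (s * x) = 0 := by
  rw [← mul_assoc, h, zero_mul]

theorem cw10 {s t : R} (h : s * t = t * s) (x : R) : s * (t * x) = t * (s * x) := by
  rw [← mul_assoc, h, mul_assoc]

end Abs

section EvenElts

variable {σ : Type} [Fintype σ] [DecidableEq σ]

theorem ι_anti (u v : σ → ℂ) : ExteriorAlgebra.ι ℂ u * ExteriorAlgebra.ι ℂ v =
    -(ExteriorAlgebra.ι ℂ v * ExteriorAlgebra.ι ℂ u) :=
  eq_neg_of_add_eq_zero_left (ExteriorAlgebra.ι_add_mul_swap u v)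

theorem gen_anti (s t : σ) : (gen s : EA σ) * gen t = -(gen t * gen s) := ι_anti _ _

theorem gen_sq (s : σ) : (gen s : EA σ) * gen s = 0 := ExteriorAlgebra.ι_sq_zero _

/-- central elements -/
def Ev (z : EA σ) : Prop := ∀ v : σ → ℂ, z * ExteriorAlgebra.ι ℂ v = ExteriorAlgebra.ι ℂ v * z

theorem Ev.comm {z : EA σ} (hz : Ev z) (x : EA σ) : z * x = x * z := by
  induction x using CliffordAlgebra.left_induction with
  | algebraMap c => exact (Algebra.commutes c z).symm
  | add x y hx hy => rw [mul_add, add_mul, hx, hy]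
  | ι_mul x v hx =>
    have h := hz v
    rw [ExteriorAlgebra.ι] at h
    rw [← mul_assoc, h, mul_assoc, hx, mul_assoc]

theorem Ev.add {x y : EA σ} (hx : Ev x) (hy : Ev y) : Ev (x + y) := by
  intro v
  rw [add_mul, mul_add, hx, hy]

theorem Ev.smul {x : EA σ} (c : ℂ) (hx : Ev x) : Ev (c • x) := by
  intro v
  rw [smul_mul_assoc, mul_smul_comm, hx]

theorem Ev.zero : Ev (0 : EA σ) := by
  intro v
  rw [zero_mul, mul_zero]

theorem Ev.one : Ev (1 : EA σ) := by
  intro v
  rw [one_mul, mul_one]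

theorem Ev.mul {x y : EA σ} (hx : Ev x) (hy : Ev y) : Ev (x * y) := by
  intro v
  rw [mul_assoc, hy, ← mul_assoc, hx, mul_assoc]

theorem Ev.sum {κ : Type} {s : Finset κ} {f : κ → EA σ} (h : ∀ i ∈ s, Ev (f i)) :
    Ev (∑ i ∈ s, f i) := by
  intro v
  rw [Finset.sum_mul, Finset.mul_sum]
  exact Finset.sum_congr rfl fun i hi => h i hi v

theorem Ev.ι_mul (u v : σ → ℂ) : Ev (ExteriorAlgebra.ι ℂ u * ExteriorAlgebra.ι ℂ v) := by
  intro w
  rw [mul_assoc, ι_anti v w, mul_neg, ← mul_assoc, ι_anti u w, neg_mul, neg_neg, mul_assoc]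

theorem Ev.gen_mul (s t : σ) : Ev (gen s * gen t) := Ev.ι_mul _ _

end EvenElts

section Pairs

variable {m k : ℕ}

theorem WP_ι {x : GA m k} (hx : x ∈ WP m k) : ∃ v, x = ExteriorAlgebra.ι ℂ v := by
  have h : WP m k ≤ LinearMap.range (ExteriorAlgebra.ι ℂ (M := Idx m k ⊕ Idx m k → ℂ)) := by
    rw [WP, Submodule.span_le]
    rintro _ (((⟨j, rfl⟩ | ⟨j, rfl⟩) | ⟨j, rfl⟩) | ⟨j, rfl⟩) <;> exact ⟨_, rfl⟩
  obtain ⟨v, hv⟩ := h hx
  exact ⟨v, hv.symm⟩

theorem WP_ev (j : ℕ) {x : GA m k} (hx : x ∈ WP m k ^ (2 * j)) : Ev x := by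
  induction j generalizing x with
  | zero =>
    rw [mul_zero, pow_zero, Submodule.mem_one] at hx
    obtain ⟨c, rfl⟩ := hx
    intro v
    exact Algebra.commutes c _
  | succ j ih =>
    rw [mul_add, mul_one, pow_add] at hx
    induction hx using Submodule.mul_induction_on' with
    | mem_mul_mem a ha b hb =>
      refine (ih ha).mul ?_
      rw [pow_two] at hb
      induction hb using Submodule.mul_induction_on' with
      | mem_mul_mem y hy z hz =>
        obtain ⟨u, rfl⟩ := WP_ι hy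
        obtain ⟨v, rfl⟩ := WP_ι hz
        exact Ev.ι_mul u v
      | add y _ z _ hy hz => exact hy.add hz
    | add a _ b _ ha hb => exact ha.add hb

theorem L1_ev : Ev (L1 m k) :=
  Ev.sum fun _ _ => (Ev.smul _ (Ev.gen_mul _ _)).add
    (Ev.smul _ ((Ev.gen_mul _ _).add (Ev.gen_mul _ _)))

theorem L2_ev : Ev (L2 m k) :=
  Ev.sum fun _ _ => (Ev.smul _ (Ev.gen_mul _ _)).add
    (Ev.smul _ ((Ev.gen_mul _ _).add (Ev.gen_mul _ _)))

theorem L1_four_L2 : L1 m k + (4 : ℂ) • L2 m k = (5 : ℂ) • pp m k := by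
  rw [L1, L2, pp, Finset.smul_sum, Finset.smul_sum, ← Finset.sum_add_distrib]
  refine Finset.sum_congr rfl fun j _ => ?_
  simp only [mul_add, add_mul, smul_mul_assoc, mul_smul_comm, smul_add]
  module

theorem four_L1_L2 : (4 : ℂ) • L1 m k + L2 m k = (5 : ℂ) • qq m k := by
  rw [L1, L2, qq, Finset.smul_sum, Finset.smul_sum, ← Finset.sum_add_distrib]
  refine Finset.sum_congr rfl fun j _ => ?_
  simp only [mul_add, add_mul, smul_mul_assoc, mul_smul_comm, smul_add]
  module

theorem L1_mul_N {N : GA m k} (h1 : pp m k * N = 0) (h2 : qq m k * N = 0) : L1 m k * N = 0 := by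
  have h : L1 m k = (4 / 3 : ℂ) • qq m k - (1 / 3 : ℂ) • pp m k := by
    have e1 : pp m k = (1 / 5 : ℂ) • (L1 m k + (4 : ℂ) • L2 m k) := by
      rw [L1_four_L2, smul_smul]
      norm_num
    have e2 : qq m k = (1 / 5 : ℂ) • ((4 : ℂ) • L1 m k + L2 m k) := by
      rw [four_L1_L2, smul_smul]
      norm_num
    rw [e1, e2]
    module
  rw [h, sub_mul, smul_mul_assoc, smul_mul_assoc, h1, h2, smul_zero, smul_zero, sub_zero]

theorem L2_mul_N {N : GA m k} (h1 : pp m k * N = 0) (h2 : qq m k * N = 0) : L2 m k * N = 0 := by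
  have h : L2 m k = (4 / 3 : ℂ) • pp m k - (1 / 3 : ℂ) • qq m k := by
    have e1 : pp m k = (1 / 5 : ℂ) • (L1 m k + (4 : ℂ) • L2 m k) := by
      rw [L1_four_L2, smul_smul]
      norm_num
    have e2 : qq m k = (1 / 5 : ℂ) • ((4 : ℂ) • L1 m k + L2 m k) := by
      rw [four_L1_L2, smul_smul]
      norm_num
    rw [e1, e2]
    module
  rw [h, sub_mul, smul_mul_assoc, smul_mul_assoc, h1, h2, smul_zero, smul_zero, sub_zero]

theorem gen_mul_prod {σ : Type} [Fintype σ] [DecidableEq σ] {κ : Type} (f : κ → EA σ)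
    (hf : ∀ j, Ev (f j)) {u : EA σ} {j : κ} (hu : u * f j = 0) (l : List κ) (hj : j ∈ l) :
    u * (l.map f).prod = 0 := by
  induction l with
  | nil => simp at hj
  | cons i l ih =>
    rw [List.map_cons, List.prod_cons]
    rcases List.mem_cons.1 hj with rfl | h
    · rw [← mul_assoc, hu, zero_mul]
    · rw [← mul_assoc, ← (hf i).comm, mul_assoc, ih h, mul_zero]

theorem L1_mul_Pi1 : L1 m k * Pi1 m k = 0 := by
  have hx : ∀ j, xg m k j * Pi1 m k = 0 := fun j =>
    gen_mul_prod (fun j => xg m k j * yg m k j) (fun j => Ev.gen_mul _ _) (j := j)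
      (by rw [xg, ← mul_assoc, gen_sq, zero_mul]) _ (List.mem_finRange j)
  have hy : ∀ j, yg m k j * Pi1 m k = 0 := fun j =>
    gen_mul_prod (fun j => xg m k j * yg m k j) (fun j => Ev.gen_mul _ _) (j := j)
      (by rw [xg, yg, gen_anti, mul_neg, ← mul_assoc, gen_sq, zero_mul, neg_zero]) _
      (List.mem_finRange j)
  rw [L1, Finset.sum_mul]
  refine Finset.sum_eq_zero fun j _ => ?_
  have h1 : xg m k j * yg m k j * Pi1 m k = 0 := by rw [mul_assoc, hy, mul_zero]
  have h2 : xg m k j * yg' m k j * Pi1 m k = 0 := by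
    rw [xg, yg', gen_anti, neg_mul, mul_assoc]
    have := hx j
    rw [xg] at this
    rw [this, mul_zero, neg_zero]
  have h3 : xg' m k j * yg m k j * Pi1 m k = 0 := by rw [mul_assoc, hy, mul_zero]
  rw [add_mul, smul_mul_assoc, smul_mul_assoc, add_mul, h1, h2, h3]
  simp

theorem Pi1_mem : Pi1 m k ∈ WP m k ^ (2 * k) := by
  have h : ∀ l : List (Fin k), (l.map fun j => xg m k j * yg m k j).prod ∈
      WP m k ^ (2 * l.length) := by
    intro l
    induction l with
    | nil => simp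
    | cons i l ih =>
      rw [List.map_cons, List.prod_cons, List.length_cons, mul_add, mul_one, add_comm, pow_add]
      refine Submodule.mul_mem_mul ?_ ih
      rw [pow_two]
      exact Submodule.mul_mem_mul (Submodule.subset_span (by simp))
        (Submodule.subset_span (by simp))
  have := h (List.finRange k)
  rwa [List.length_finRange] at this

theorem Pi1_mem_UU : Pi1 m k ∈ UU (Idx m k) ^ (2 * k) := by
  have h : ∀ l : List (Fin k), (l.map fun j => xg m k j * yg m k j).prod ∈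
      UU (Idx m k) ^ (2 * l.length) := by
    intro l
    induction l with
    | nil => simp
    | cons i l ih =>
      rw [List.map_cons, List.prod_cons, List.length_cons, mul_add, mul_one, add_comm, pow_add]
      refine Submodule.mul_mem_mul ?_ ih
      rw [pow_two]
      exact Submodule.mul_mem_mul (Submodule.subset_span ⟨_, rfl⟩)
        (Submodule.subset_span ⟨_, rfl⟩)
  have := h (List.finRange k)
  rwa [List.length_finRange] at this

theorem WP_le : WP m k ≤ WW (Idx m k) := by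
  rw [WP, Submodule.span_le]
  rintro _ (((⟨j, rfl⟩ | ⟨j, rfl⟩) | ⟨j, rfl⟩) | ⟨j, rfl⟩) <;>
    exact Submodule.subset_span ⟨_, rfl⟩

theorem WP_pow_le (j : ℕ) : WP m k ^ j ≤ WW (Idx m k) ^ j := by
  induction j with
  | zero => rw [pow_zero, pow_zero]
  | succ j ih =>
    rw [pow_succ, pow_succ]
    exact mul_le_mul' ih WP_le

/-- structure equations for which the pair generators are closed -/
theorem delta_WP {D : Idx m k ⊕ Idx m k → GA m k}
    (hD : ∀ s (v : Idx m k ⊕ Idx m k → ℂ), D s * ExteriorAlgebra.ι ℂ v = ExteriorAlgebra.ι ℂ v * D s)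
    (h1 : ∀ i, D (Sum.inl (Sum.inr i)) = 0) (h2 : ∀ i, D (Sum.inr (Sum.inr i)) = 0) (j : ℕ)
    {x : GA m k} (hx : x ∈ WP m k ^ j) : delta D x = 0 := by
  induction j generalizing x with
  | zero =>
    rw [pow_zero, Submodule.mem_one] at hx
    obtain ⟨c, rfl⟩ := hx
    exact delta_algebraMap D c
  | succ j ih =>
    rw [pow_succ] at hx
    induction hx using Submodule.mul_induction_on' with
    | mem_mul_mem a ha b hb =>
      have hb' : delta D b = 0 := by
        have h : WP m k ≤ LinearMap.ker (delta D) := by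
          rw [WP, Submodule.span_le]
          rintro _ (((⟨j, rfl⟩ | ⟨j, rfl⟩) | ⟨j, rfl⟩) | ⟨j, rfl⟩)
          · exact (delta_gen D _).trans (h1 _)
          · exact (delta_gen D _).trans (h1 _)
          · exact (delta_gen D _).trans (h2 _)
          · exact (delta_gen D _).trans (h2 _)
        exact h hb
      rw [delta_mul hD, ih ha, hb', zero_mul, mul_zero, add_zero]
    | add a _ b _ ha hb => rw [map_add, ha, hb, add_zero]

theorem delta_mul_closed {D : Idx m k ⊕ Idx m k → GA m k}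
    (hD : ∀ s (v : Idx m k ⊕ Idx m k → ℂ), D s * ExteriorAlgebra.ι ℂ v = ExteriorAlgebra.ι ℂ v * D s)
    {z : GA m k} (hz : delta D z = 0) (x : GA m k) : delta D (x * z) = delta D x * z := by
  rw [delta_mul hD, hz, mul_zero, add_zero]

theorem delta_gen_mul {D : Idx m k ⊕ Idx m k → GA m k}
    (hD : ∀ s (v : Idx m k ⊕ Idx m k → ℂ), D s * ExteriorAlgebra.ι ℂ v = ExteriorAlgebra.ι ℂ v * D s)
    (s : Idx m k ⊕ Idx m k) (x : GA m k) :
    delta D (gen s * x) = delta D (gen s) * x - gen s * delta D x :=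
  delta_ι_mul hD _ x

theorem pairs_prod {σ : Type} [Fintype σ] [DecidableEq σ] {κ : Type} (s t : κ → σ) (l : List κ) :
    ((l.flatMap fun j => [s j, t j]).map gen).prod = (l.map fun j => gen (s j) * gen (t j)).prod := by
  induction l with
  | nil => rfl
  | cons i l ih =>
    rw [List.flatMap_cons, List.map_append, List.prod_append, ih, List.map_cons, List.prod_cons]
    simp

end Pairs

/-! ### memberships -/

section Mem

variable {m k : ℕ}

theorem gen_WW (s : Idx m k ⊕ Idx m k) : gen s ∈ WW (Idx m k) ^ 1 := by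
  rw [pow_one]
  exact Submodule.subset_span ⟨_, rfl⟩

theorem gen_UU (i : Idx m k) : gen (Sum.inl i) ∈ UU (Idx m k) ^ 1 := by
  rw [pow_one]
  exact Submodule.subset_span ⟨_, rfl⟩

theorem WW_mul {i j : ℕ} {x y : GA m k} (hx : x ∈ WW (Idx m k) ^ i) (hy : y ∈ WW (Idx m k) ^ j) :
    x * y ∈ WW (Idx m k) ^ (i + j) := by
  rw [pow_add]
  exact Submodule.mul_mem_mul hx hy

theorem WW_mul' (i j : ℕ) {n : ℕ} (h : i + j = n) {x y : GA m k} (hx : x ∈ WW (Idx m k) ^ i)
    (hy : y ∈ WW (Idx m k) ^ j) : x * y ∈ WW (Idx m k) ^ n := by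
  rw [← h]
  exact WW_mul hx hy

theorem UU_mul' (i j : ℕ) {n : ℕ} (h : i + j = n) {x y : GA m k} (hx : x ∈ UU (Idx m k) ^ i)
    (hy : y ∈ UU (Idx m k) ^ j) : x * y ∈ UU (Idx m k) ^ n := by
  rw [← h, pow_add]
  exact Submodule.mul_mem_mul hx hy

theorem gen_WW_mul (s : Idx m k ⊕ Idx m k) {j : ℕ} {y : GA m k} (hy : y ∈ WW (Idx m k) ^ j) :
    gen s * y ∈ WW (Idx m k) ^ (j + 1) :=
  WW_mul' 1 j (by omega) (gen_WW s) hy

theorem gen_UU_mul (i : Idx m k) {j : ℕ} {y : GA m k} (hy : y ∈ UU (Idx m k) ^ j) :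
    gen (Sum.inl i) * y ∈ UU (Idx m k) ^ (j + 1) :=
  UU_mul' 1 j (by omega) (gen_UU i) hy

theorem UW_mul (i j l : ℕ) {n : ℕ} (h : j + l = n) {x y : GA m k}
    (hx : x ∈ UU (Idx m k) ^ i * WW (Idx m k) ^ j) (hy : y ∈ WW (Idx m k) ^ l) :
    x * y ∈ UU (Idx m k) ^ i * WW (Idx m k) ^ n := by
  rw [← h, pow_add, ← mul_assoc]
  exact Submodule.mul_mem_mul hx hy

end Mem

end Pool.Agent.H73.Fro.AC
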