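import Pool.Agent.H73.Fro.Filt

/-!
# Definitions for the algebraic part: pairs, the even and the odd family
-/

namespace Pool.Agent.H73.Fro

/-- index set: `m` core coordinates and `k` pairs -/
abbrev Idx (m k : ℕ) : Type := Fin m ⊕ (Fin k × Fin 2)

/-- generators of the exterior algebra: coordinates and their conjugates -/
abbrev GA (m k : ℕ) : Type := EA (Idx m k ⊕ Idx m k)

section

variable (m k : ℕ)

/-- core generator of type `(1,0)` -/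
noncomputable def cg (i : Fin m) : GA m k := gen (Sum.inl (Sum.inl i))

/-- core generator of type `(0,1)` -/
noncomputable def cg' (i : Fin m) : GA m k := gen (Sum.inr (Sum.inl i))

noncomputable def xg (j : Fin k) : GA m k := gen (Sum.inl (Sum.inr (j, 0)))

noncomputable def yg (j : Fin k) : GA m k := gen (Sum.inl (Sum.inr (j, 1)))

noncomputable def xg' (j : Fin k) : GA m k := gen (Sum.inr (Sum.inr (j, 0)))

noncomputable def yg' (j : Fin k) : GA m k := gen (Sum.inr (Sum.inr (j, 1)))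

/-- `L₁ = Σ 5 x y + 2 (x y' + x' y)` -/
noncomputable def L1 : GA m k :=
  ∑ j, ((5 : ℂ) • (xg m k j * yg m k j) + (2 : ℂ) • (xg m k j * yg' m k j + xg' m k j * yg m k j))

/-- `L₂ = Σ 5 x' y' + 2 (x y' + x' y)` -/
noncomputable def L2 : GA m k :=
  ∑ j, ((5 : ℂ) • (xg' m k j * yg' m k j) + (2 : ℂ) • (xg m k j * yg' m k j + xg' m k j * yg m k j))

/-- `p = Σ (x + 2 x') (y + 2 y')` -/
noncomputable def pp : GA m k :=
  ∑ j, (xg m k j + (2 : ℂ) • xg' m k j) * (yg m k j + (2 : ℂ) • yg' m k j)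

/-- `q = Σ (2 x + x') (2 y + y')` -/
noncomputable def qq : GA m k :=
  ∑ j, ((2 : ℂ) • xg m k j + xg' m k j) * ((2 : ℂ) • yg m k j + yg' m k j)

/-- `Π = Π x_j y_j` -/
noncomputable def Pi1 : GA m k := ((List.finRange k).map fun j => xg m k j * yg m k j).prod

/-- `Π' = Π x'_j y'_j` -/
noncomputable def Pi2 : GA m k := ((List.finRange k).map fun j => xg' m k j * yg' m k j).prod

/-- the span of the generators in the pairs -/
noncomputable def WP : Submodule ℂ (GA m k) :=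
  Submodule.span ℂ (Set.range (xg m k) ∪ Set.range (yg m k) ∪ Set.range (xg' m k) ∪
    Set.range (yg' m k))

end

/-- the main properties of the pair part (MODULE ALG-PAIR) -/
def PairMain (m k : ℕ) : Prop :=
  ∃ N Rp Rq : GA m k, ∃ c ν : ℂ, c ≠ 0 ∧ ν ≠ 0 ∧ pp m k * N = 0 ∧ qq m k * N = 0 ∧
    Pi1 m k = c • N + pp m k * Rp + qq m k * Rq ∧
    Pi1 m k * N = ν • (Pi1 m k * Pi2 m k) ∧
    N ∈ WP m k ^ (2 * k) ∧
    (k = 0 → Rp = 0 ∧ Rq = 0) ∧ Rp ∈ WP m k ^ (2 * k - 2) ∧ Rq ∈ WP m k ^ (2 * k - 2)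

/-- structure equations of the even family, `n = 4 + 2 k`, coordinates `a, b, c, w`:
`db = a a'`, `dc = a b'`, `dw = a c + c a' + a c' + b b' + L₁`. -/
noncomputable def DE (k : ℕ) : Idx 4 k ⊕ Idx 4 k → GA 4 k
  | Sum.inl (Sum.inl 0) => 0
  | Sum.inl (Sum.inl 1) => cg 4 k 0 * cg' 4 k 0
  | Sum.inl (Sum.inl 2) => cg 4 k 0 * cg' 4 k 1
  | Sum.inl (Sum.inl 3) => cg 4 k 0 * cg 4 k 2 + cg 4 k 2 * cg' 4 k 0 + cg 4 k 0 * cg' 4 k 2 +
      cg 4 k 1 * cg' 4 k 1 + L1 4 k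
  | Sum.inr (Sum.inl 0) => 0
  | Sum.inr (Sum.inl 1) => cg' 4 k 0 * cg 4 k 0
  | Sum.inr (Sum.inl 2) => cg' 4 k 0 * cg 4 k 1
  | Sum.inr (Sum.inl 3) => cg' 4 k 0 * cg' 4 k 2 + cg' 4 k 2 * cg 4 k 0 + cg' 4 k 0 * cg 4 k 2 +
      cg' 4 k 1 * cg 4 k 1 + L2 4 k
  | Sum.inl (Sum.inr _) => 0
  | Sum.inr (Sum.inr _) => 0

/-- structure equations of the odd family, `n = 5 + 2 k`, coordinates `a, c, b, d, w`:
`db = a a'`, `dd = a c + a b' + c c'`, `dw = b a' + L₁`. -/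
noncomputable def DO (k : ℕ) : Idx 5 k ⊕ Idx 5 k → GA 5 k
  | Sum.inl (Sum.inl 0) => 0
  | Sum.inl (Sum.inl 1) => 0
  | Sum.inl (Sum.inl 2) => cg 5 k 0 * cg' 5 k 0
  | Sum.inl (Sum.inl 3) => cg 5 k 0 * cg 5 k 1 + cg 5 k 0 * cg' 5 k 2 + cg 5 k 1 * cg' 5 k 1
  | Sum.inl (Sum.inl 4) => cg 5 k 2 * cg' 5 k 0 + L1 5 k
  | Sum.inr (Sum.inl 0) => 0
  | Sum.inr (Sum.inl 1) => 0
  | Sum.inr (Sum.inl 2) => cg' 5 k 0 * cg 5 k 0
  | Sum.inr (Sum.inl 3) => cg' 5 k 0 * cg' 5 k 1 + cg' 5 k 0 * cg 5 k 2 + cg' 5 k 1 * cg 5 k 1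
  | Sum.inr (Sum.inl 4) => cg' 5 k 2 * cg 5 k 0 + L2 5 k
  | Sum.inl (Sum.inr _) => 0
  | Sum.inr (Sum.inr _) => 0

/-- structure equations in dimension 3, coordinates `a, b, w`: `db = a a'`, `dw = b a'`. -/
noncomputable def D3 : Idx 3 0 ⊕ Idx 3 0 → GA 3 0
  | Sum.inl (Sum.inl 0) => 0
  | Sum.inl (Sum.inl 1) => cg 3 0 0 * cg' 3 0 0
  | Sum.inl (Sum.inl 2) => cg 3 0 1 * cg' 3 0 0
  | Sum.inr (Sum.inl 0) => 0
  | Sum.inr (Sum.inl 1) => cg' 3 0 0 * cg 3 0 0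
  | Sum.inr (Sum.inl 2) => cg' 3 0 1 * cg 3 0 0
  | Sum.inl (Sum.inr _) => 0
  | Sum.inr (Sum.inr _) => 0

/-- what the algebra has to provide for the structure equations `D` in dimension `n` -/
def AlgData {m k : ℕ} (D : Idx m k ⊕ Idx m k → GA m k) (n : ℕ) : Prop :=
  ∃ α ψ : GA m k, ∃ l : List (Idx m k ⊕ Idx m k), ∃ c : ℂ, l.Nodup ∧ l.length = 2 * n ∧ c ≠ 0 ∧
    α ∈ WW (Idx m k) ^ (n - 1) ∧
    delta D α ∈ UU (Idx m k) ^ (n - 1) * WW (Idx m k) ^ 1 ∧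
    ψ ∈ UU (Idx m k) ^ 1 * WW (Idx m k) ^ (n - 1) ∧
    delta D ψ ∈ UU (Idx m k) ^ n * WW (Idx m k) ^ 1 ∧
    delta D ψ * α = c • (l.map gen).prod

end Pool.Agent.H73.Fro
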