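import Pool.Agent.H73.Fro.AlgTac

/-!
# The even family: abstract identities
-/

set_option linter.unusedSimpArgs false

namespace Pool.Agent.H73.Fro
variable {R : Type*} [Ring R] [Algebra ℂ R] {e : Fin 8 → R}

/-- the derivation rules of the even family -/
structure EvenRules (e : Fin 8 → R) (L1 L2 : R) (d : R →ₗ[ℂ] R) : Prop where
  oct : Oct e
  c1 : ∀ i, L1 * e i = e i * L1
  c2 : ∀ i, L2 * e i = e i * L2
  d0 : ∀ x, d (e 0 * x) = -(e 0 * d x)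
  d1 : ∀ x, d (e 1 * x) = e 0 * e 4 * x - e 1 * d x
  d2 : ∀ x, d (e 2 * x) = e 0 * e 5 * x - e 2 * d x
  d3 : ∀ x, d (e 3 * x) = (e 0 * e 2 + e 2 * e 4 + e 0 * e 6 + e 1 * e 5 + L1) * x - e 3 * d x
  d4 : ∀ x, d (e 4 * x) = -(e 4 * d x)
  d5 : ∀ x, d (e 5 * x) = e 4 * e 0 * x - e 5 * d x
  d6 : ∀ x, d (e 6 * x) = e 4 * e 1 * x - e 6 * d x
  d7 : ∀ x, d (e 7 * x) = (e 4 * e 6 + e 6 * e 0 + e 4 * e 2 + e 5 * e 1 + L2) * x - e 7 * d x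

/-- `A₀` -/
def A0 (e : Fin 8 → R) : R :=
  (2 : ℂ) • (e 5 * e 6 * e 7) + (2 : ℂ) • (e 3 * e 5 * e 6) + (2 : ℂ) • (e 3 * e 4 * e 7) +
  (4 : ℂ) • (e 1 * e 6 * e 7) + (2 : ℂ) • (e 2 * e 3 * e 5) + (-3 : ℂ) • (e 1 * e 3 * e 6) +
  e 1 * e 2 * e 7 + e 0 * e 3 * e 7 + e 1 * e 2 * e 3

/-- `B₀` -/
def B0 (e : Fin 8 → R) : R :=
  (2 : ℂ) • (e 3 * e 4 * e 5 * e 7) + (2 : ℂ) • (e 2 * e 4 * e 6 * e 7) +
  (3 : ℂ) • (e 2 * e 3 * e 4 * e 6) + e 1 * e 3 * e 5 * e 6 + (2 : ℂ) • (e 1 * e 2 * e 5 * e 7) +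
  (3 : ℂ) • (e 0 * e 2 * e 6 * e 7) - e 0 * e 2 * e 3 * e 6 - e 0 * e 1 * e 3 * e 7

/-- `ζ` -/
def zeta (e : Fin 8 → R) : R := e 0 * e 1 * e 2 * e 6

/-- `ζ'` -/
def zetap (e : Fin 8 → R) : R := e 0 * e 1 * e 2 * e 5 * e 6

/-- `η` -/
def eta (e : Fin 8 → R) : R := e 0 * e 2 * e 6

namespace EvenRules

variable {L1 L2 : R} {d : R →ₗ[ℂ] R} (H : EvenRules e L1 L2 d)
include H

theorem c1' (i : Fin 8) (x : R) : L1 * (e i * x) = e i * (L1 * x) := by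
  rw [← mul_assoc, H.c1, mul_assoc]

theorem c2' (i : Fin 8) (x : R) : L2 * (e i * x) = e i * (L2 * x) := by
  rw [← mul_assoc, H.c2, mul_assoc]

theorem dA0 {N : R} (hN : d N = 0) (h1 : L1 * N = 0)
    (h2 : L2 * N = 0) : d (A0 e * N) = (-3 : ℂ) • (zeta e * N) := by
  simp only [A0, zeta, add_mul, mul_assoc, smul_mul_assoc, map_add, map_smul, H.d0, H.d1, H.d2,
    H.d3, H.d4, H.d5, H.d6, H.d7, hN]
  simp only [
    H.oct.sq 0, H.oct.sq' 0, H.oct.sq 1, H.oct.sq' 1, H.oct.sq 2, H.oct.sq' 2, H.oct.sq 3, H.oct.sq' 3,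
    H.oct.sq 4, H.oct.sq' 4, H.oct.sq 5, H.oct.sq' 5, H.oct.sq 6, H.oct.sq' 6, H.oct.sq 7, H.oct.sq' 7,
    H.oct.anti 1 0, H.oct.anti' 1 0, H.oct.anti 2 0, H.oct.anti' 2 0, H.oct.anti 2 1, H.oct.anti' 2 1,
    H.oct.anti 3 0, H.oct.anti' 3 0, H.oct.anti 3 1, H.oct.anti' 3 1, H.oct.anti 3 2, H.oct.anti' 3 2,
    H.oct.anti 4 0, H.oct.anti' 4 0, H.oct.anti 4 1, H.oct.anti' 4 1, H.oct.anti 4 2, H.oct.anti' 4 2,
    H.oct.anti 4 3, H.oct.anti' 4 3, H.oct.anti 5 0, H.oct.anti' 5 0, H.oct.anti 5 1, H.oct.anti' 5 1,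
    H.oct.anti 5 2, H.oct.anti' 5 2, H.oct.anti 5 3, H.oct.anti' 5 3, H.oct.anti 5 4, H.oct.anti' 5 4,
    H.oct.anti 6 0, H.oct.anti' 6 0, H.oct.anti 6 1, H.oct.anti' 6 1, H.oct.anti 6 2, H.oct.anti' 6 2,
    H.oct.anti 6 3, H.oct.anti' 6 3, H.oct.anti 6 4, H.oct.anti' 6 4, H.oct.anti 6 5, H.oct.anti' 6 5,
    H.oct.anti 7 0, H.oct.anti' 7 0, H.oct.anti 7 1, H.oct.anti' 7 1, H.oct.anti 7 2, H.oct.anti' 7 2,
    H.oct.anti 7 3, H.oct.anti' 7 3, H.oct.anti 7 4, H.oct.anti' 7 4, H.oct.anti 7 5, H.oct.anti' 7 5,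
    H.oct.anti 7 6, H.oct.anti' 7 6,
    mul_add, add_mul, mul_sub, sub_mul, neg_mul, mul_neg, neg_neg, mul_assoc, smul_mul_assoc,
    mul_smul_comm, smul_add, smul_sub, smul_neg, mul_zero, zero_mul, neg_zero, sub_zero, zero_sub,
    add_zero, zero_add, smul_zero, smul_smul]
  simp only [H.c1', H.c2', h1, h2, mul_zero, neg_zero, add_zero, zero_add, smul_zero]
  module

theorem dB0 {N : R} (hN : d N = 0) (h1 : L1 * N = 0)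
    (h2 : L2 * N = 0) : d (B0 e * N) = (-3 : ℂ) • (zetap e * N) := by
  simp only [B0, zetap, add_mul, sub_mul, mul_assoc, smul_mul_assoc, map_add, map_sub, map_smul,
    H.d0, H.d1, H.d2, H.d3, H.d4, H.d5, H.d6, H.d7, hN]
  simp only [
    H.oct.sq 0, H.oct.sq' 0, H.oct.sq 1, H.oct.sq' 1, H.oct.sq 2, H.oct.sq' 2, H.oct.sq 3, H.oct.sq' 3,
    H.oct.sq 4, H.oct.sq' 4, H.oct.sq 5, H.oct.sq' 5, H.oct.sq 6, H.oct.sq' 6, H.oct.sq 7, H.oct.sq' 7,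
    H.oct.anti 1 0, H.oct.anti' 1 0, H.oct.anti 2 0, H.oct.anti' 2 0, H.oct.anti 2 1, H.oct.anti' 2 1,
    H.oct.anti 3 0, H.oct.anti' 3 0, H.oct.anti 3 1, H.oct.anti' 3 1, H.oct.anti 3 2, H.oct.anti' 3 2,
    H.oct.anti 4 0, H.oct.anti' 4 0, H.oct.anti 4 1, H.oct.anti' 4 1, H.oct.anti 4 2, H.oct.anti' 4 2,
    H.oct.anti 4 3, H.oct.anti' 4 3, H.oct.anti 5 0, H.oct.anti' 5 0, H.oct.anti 5 1, H.oct.anti' 5 1,
    H.oct.anti 5 2, H.oct.anti' 5 2, H.oct.anti 5 3, H.oct.anti' 5 3, H.oct.anti 5 4, H.oct.anti' 5 4,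
    H.oct.anti 6 0, H.oct.anti' 6 0, H.oct.anti 6 1, H.oct.anti' 6 1, H.oct.anti 6 2, H.oct.anti' 6 2,
    H.oct.anti 6 3, H.oct.anti' 6 3, H.oct.anti 6 4, H.oct.anti' 6 4, H.oct.anti 6 5, H.oct.anti' 6 5,
    H.oct.anti 7 0, H.oct.anti' 7 0, H.oct.anti 7 1, H.oct.anti' 7 1, H.oct.anti 7 2, H.oct.anti' 7 2,
    H.oct.anti 7 3, H.oct.anti' 7 3, H.oct.anti 7 4, H.oct.anti' 7 4, H.oct.anti 7 5, H.oct.anti' 7 5,
    H.oct.anti 7 6, H.oct.anti' 7 6,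
    mul_add, add_mul, mul_sub, sub_mul, neg_mul, mul_neg, neg_neg, mul_assoc, smul_mul_assoc,
    mul_smul_comm, smul_add, smul_sub, smul_neg, mul_zero, zero_mul, neg_zero, sub_zero, zero_sub,
    add_zero, zero_add, smul_zero, smul_smul]
  simp only [H.c1', H.c2', h1, h2, mul_zero, neg_zero, add_zero, zero_add, smul_zero]
  module

/-- `w ζ r` -/
theorem d_w_zeta {r : R} (hr : d r = 0) : d (e 3 * (zeta e * r)) = zeta e * (L1 * r) := by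
  simp only [zeta, mul_assoc, H.d0, H.d1, H.d2, H.d3, H.d4, H.d5, H.d6, H.d7, hr]
  simp only [
    H.oct.sq 0, H.oct.sq' 0, H.oct.sq 1, H.oct.sq' 1, H.oct.sq 2, H.oct.sq' 2, H.oct.sq 3, H.oct.sq' 3,
    H.oct.sq 4, H.oct.sq' 4, H.oct.sq 5, H.oct.sq' 5, H.oct.sq 6, H.oct.sq' 6, H.oct.sq 7, H.oct.sq' 7,
    H.oct.anti 1 0, H.oct.anti' 1 0, H.oct.anti 2 0, H.oct.anti' 2 0, H.oct.anti 2 1, H.oct.anti' 2 1,
    H.oct.anti 3 0, H.oct.anti' 3 0, H.oct.anti 3 1, H.oct.anti' 3 1, H.oct.anti 3 2, H.oct.anti' 3 2,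
    H.oct.anti 4 0, H.oct.anti' 4 0, H.oct.anti 4 1, H.oct.anti' 4 1, H.oct.anti 4 2, H.oct.anti' 4 2,
    H.oct.anti 4 3, H.oct.anti' 4 3, H.oct.anti 5 0, H.oct.anti' 5 0, H.oct.anti 5 1, H.oct.anti' 5 1,
    H.oct.anti 5 2, H.oct.anti' 5 2, H.oct.anti 5 3, H.oct.anti' 5 3, H.oct.anti 5 4, H.oct.anti' 5 4,
    H.oct.anti 6 0, H.oct.anti' 6 0, H.oct.anti 6 1, H.oct.anti' 6 1, H.oct.anti 6 2, H.oct.anti' 6 2,
    H.oct.anti 6 3, H.oct.anti' 6 3, H.oct.anti 6 4, H.oct.anti' 6 4, H.oct.anti 6 5, H.oct.anti' 6 5,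
    H.oct.anti 7 0, H.oct.anti' 7 0, H.oct.anti 7 1, H.oct.anti' 7 1, H.oct.anti 7 2, H.oct.anti' 7 2,
    H.oct.anti 7 3, H.oct.anti' 7 3, H.oct.anti 7 4, H.oct.anti' 7 4, H.oct.anti 7 5, H.oct.anti' 7 5,
    H.oct.anti 7 6, H.oct.anti' 7 6,
    mul_add, add_mul, mul_sub, sub_mul, neg_mul, mul_neg, neg_neg, mul_assoc, smul_mul_assoc,
    mul_smul_comm, smul_add, smul_sub, smul_neg, mul_zero, zero_mul, neg_zero, sub_zero, zero_sub,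
    add_zero, zero_add, smul_zero, smul_smul]
  simp only [H.c1', mul_zero, neg_zero, add_zero, zero_add, smul_zero]

theorem d_w'_zeta {r : R} (hr : d r = 0) : d (e 7 * (zeta e * r)) = zeta e * (L2 * r) := by
  simp only [zeta, mul_assoc, H.d0, H.d1, H.d2, H.d3, H.d4, H.d5, H.d6, H.d7, hr]
  simp only [
    H.oct.sq 0, H.oct.sq' 0, H.oct.sq 1, H.oct.sq' 1, H.oct.sq 2, H.oct.sq' 2, H.oct.sq 3, H.oct.sq' 3,
    H.oct.sq 4, H.oct.sq' 4, H.oct.sq 5, H.oct.sq' 5, H.oct.sq 6, H.oct.sq' 6, H.oct.sq 7, H.oct.sq' 7,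
    H.oct.anti 1 0, H.oct.anti' 1 0, H.oct.anti 2 0, H.oct.anti' 2 0, H.oct.anti 2 1, H.oct.anti' 2 1,
    H.oct.anti 3 0, H.oct.anti' 3 0, H.oct.anti 3 1, H.oct.anti' 3 1, H.oct.anti 3 2, H.oct.anti' 3 2,
    H.oct.anti 4 0, H.oct.anti' 4 0, H.oct.anti 4 1, H.oct.anti' 4 1, H.oct.anti 4 2, H.oct.anti' 4 2,
    H.oct.anti 4 3, H.oct.anti' 4 3, H.oct.anti 5 0, H.oct.anti' 5 0, H.oct.anti 5 1, H.oct.anti' 5 1,
    H.oct.anti 5 2, H.oct.anti' 5 2, H.oct.anti 5 3, H.oct.anti' 5 3, H.oct.anti 5 4, H.oct.anti' 5 4,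
    H.oct.anti 6 0, H.oct.anti' 6 0, H.oct.anti 6 1, H.oct.anti' 6 1, H.oct.anti 6 2, H.oct.anti' 6 2,
    H.oct.anti 6 3, H.oct.anti' 6 3, H.oct.anti 6 4, H.oct.anti' 6 4, H.oct.anti 6 5, H.oct.anti' 6 5,
    H.oct.anti 7 0, H.oct.anti' 7 0, H.oct.anti 7 1, H.oct.anti' 7 1, H.oct.anti 7 2, H.oct.anti' 7 2,
    H.oct.anti 7 3, H.oct.anti' 7 3, H.oct.anti 7 4, H.oct.anti' 7 4, H.oct.anti 7 5, H.oct.anti' 7 5,
    H.oct.anti 7 6, H.oct.anti' 7 6,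
    mul_add, add_mul, mul_sub, sub_mul, neg_mul, mul_neg, neg_neg, mul_assoc, smul_mul_assoc,
    mul_smul_comm, smul_add, smul_sub, smul_neg, mul_zero, zero_mul, neg_zero, sub_zero, zero_sub,
    add_zero, zero_add, smul_zero, smul_smul]
  simp only [H.c2', mul_zero, neg_zero, add_zero, zero_add, smul_zero]

theorem d_w_zetap {r : R} (hr : d r = 0) : d (e 3 * (zetap e * r)) = zetap e * (L1 * r) := by
  simp only [zetap, mul_assoc, H.d0, H.d1, H.d2, H.d3, H.d4, H.d5, H.d6, H.d7, hr]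
  simp only [
    H.oct.sq 0, H.oct.sq' 0, H.oct.sq 1, H.oct.sq' 1, H.oct.sq 2, H.oct.sq' 2, H.oct.sq 3, H.oct.sq' 3,
    H.oct.sq 4, H.oct.sq' 4, H.oct.sq 5, H.oct.sq' 5, H.oct.sq 6, H.oct.sq' 6, H.oct.sq 7, H.oct.sq' 7,
    H.oct.anti 1 0, H.oct.anti' 1 0, H.oct.anti 2 0, H.oct.anti' 2 0, H.oct.anti 2 1, H.oct.anti' 2 1,
    H.oct.anti 3 0, H.oct.anti' 3 0, H.oct.anti 3 1, H.oct.anti' 3 1, H.oct.anti 3 2, H.oct.anti' 3 2,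
    H.oct.anti 4 0, H.oct.anti' 4 0, H.oct.anti 4 1, H.oct.anti' 4 1, H.oct.anti 4 2, H.oct.anti' 4 2,
    H.oct.anti 4 3, H.oct.anti' 4 3, H.oct.anti 5 0, H.oct.anti' 5 0, H.oct.anti 5 1, H.oct.anti' 5 1,
    H.oct.anti 5 2, H.oct.anti' 5 2, H.oct.anti 5 3, H.oct.anti' 5 3, H.oct.anti 5 4, H.oct.anti' 5 4,
    H.oct.anti 6 0, H.oct.anti' 6 0, H.oct.anti 6 1, H.oct.anti' 6 1, H.oct.anti 6 2, H.oct.anti' 6 2,
    H.oct.anti 6 3, H.oct.anti' 6 3, H.oct.anti 6 4, H.oct.anti' 6 4, H.oct.anti 6 5, H.oct.anti' 6 5,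
    H.oct.anti 7 0, H.oct.anti' 7 0, H.oct.anti 7 1, H.oct.anti' 7 1, H.oct.anti 7 2, H.oct.anti' 7 2,
    H.oct.anti 7 3, H.oct.anti' 7 3, H.oct.anti 7 4, H.oct.anti' 7 4, H.oct.anti 7 5, H.oct.anti' 7 5,
    H.oct.anti 7 6, H.oct.anti' 7 6,
    mul_add, add_mul, mul_sub, sub_mul, neg_mul, mul_neg, neg_neg, mul_assoc, smul_mul_assoc,
    mul_smul_comm, smul_add, smul_sub, smul_neg, mul_zero, zero_mul, neg_zero, sub_zero, zero_sub,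
    add_zero, zero_add, smul_zero, smul_smul]
  simp only [H.c1', mul_zero, neg_zero, add_zero, zero_add, smul_zero]

theorem d_w'_zetap {r : R} (hr : d r = 0) : d (e 7 * (zetap e * r)) = zetap e * (L2 * r) := by
  simp only [zetap, mul_assoc, H.d0, H.d1, H.d2, H.d3, H.d4, H.d5, H.d6, H.d7, hr]
  simp only [
    H.oct.sq 0, H.oct.sq' 0, H.oct.sq 1, H.oct.sq' 1, H.oct.sq 2, H.oct.sq' 2, H.oct.sq 3, H.oct.sq' 3,
    H.oct.sq 4, H.oct.sq' 4, H.oct.sq 5, H.oct.sq' 5, H.oct.sq 6, H.oct.sq' 6, H.oct.sq 7, H.oct.sq' 7,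
    H.oct.anti 1 0, H.oct.anti' 1 0, H.oct.anti 2 0, H.oct.anti' 2 0, H.oct.anti 2 1, H.oct.anti' 2 1,
    H.oct.anti 3 0, H.oct.anti' 3 0, H.oct.anti 3 1, H.oct.anti' 3 1, H.oct.anti 3 2, H.oct.anti' 3 2,
    H.oct.anti 4 0, H.oct.anti' 4 0, H.oct.anti 4 1, H.oct.anti' 4 1, H.oct.anti 4 2, H.oct.anti' 4 2,
    H.oct.anti 4 3, H.oct.anti' 4 3, H.oct.anti 5 0, H.oct.anti' 5 0, H.oct.anti 5 1, H.oct.anti' 5 1,
    H.oct.anti 5 2, H.oct.anti' 5 2, H.oct.anti 5 3, H.oct.anti' 5 3, H.oct.anti 5 4, H.oct.anti' 5 4,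
    H.oct.anti 6 0, H.oct.anti' 6 0, H.oct.anti 6 1, H.oct.anti' 6 1, H.oct.anti 6 2, H.oct.anti' 6 2,
    H.oct.anti 6 3, H.oct.anti' 6 3, H.oct.anti 6 4, H.oct.anti' 6 4, H.oct.anti 6 5, H.oct.anti' 6 5,
    H.oct.anti 7 0, H.oct.anti' 7 0, H.oct.anti 7 1, H.oct.anti' 7 1, H.oct.anti 7 2, H.oct.anti' 7 2,
    H.oct.anti 7 3, H.oct.anti' 7 3, H.oct.anti 7 4, H.oct.anti' 7 4, H.oct.anti 7 5, H.oct.anti' 7 5,
    H.oct.anti 7 6, H.oct.anti' 7 6,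
    mul_add, add_mul, mul_sub, sub_mul, neg_mul, mul_neg, neg_neg, mul_assoc, smul_mul_assoc,
    mul_smul_comm, smul_add, smul_sub, smul_neg, mul_zero, zero_mul, neg_zero, sub_zero, zero_sub,
    add_zero, zero_add, smul_zero, smul_smul]
  simp only [H.c2', mul_zero, neg_zero, add_zero, zero_add, smul_zero]

theorem d_w_eta {r : R} (hr : d r = 0) (h1 : L1 * r = 0) :
    d (e 3 * (eta e * r)) = e 0 * e 1 * e 2 * e 3 * e 4 * r - zetap e * r := by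
  simp only [eta, zetap, mul_assoc, H.d0, H.d1, H.d2, H.d3, H.d4, H.d5, H.d6, H.d7, hr]
  simp only [
    H.oct.sq 0, H.oct.sq' 0, H.oct.sq 1, H.oct.sq' 1, H.oct.sq 2, H.oct.sq' 2, H.oct.sq 3, H.oct.sq' 3,
    H.oct.sq 4, H.oct.sq' 4, H.oct.sq 5, H.oct.sq' 5, H.oct.sq 6, H.oct.sq' 6, H.oct.sq 7, H.oct.sq' 7,
    H.oct.anti 1 0, H.oct.anti' 1 0, H.oct.anti 2 0, H.oct.anti' 2 0, H.oct.anti 2 1, H.oct.anti' 2 1,
    H.oct.anti 3 0, H.oct.anti' 3 0, H.oct.anti 3 1, H.oct.anti' 3 1, H.oct.anti 3 2, H.oct.anti' 3 2,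
    H.oct.anti 4 0, H.oct.anti' 4 0, H.oct.anti 4 1, H.oct.anti' 4 1, H.oct.anti 4 2, H.oct.anti' 4 2,
    H.oct.anti 4 3, H.oct.anti' 4 3, H.oct.anti 5 0, H.oct.anti' 5 0, H.oct.anti 5 1, H.oct.anti' 5 1,
    H.oct.anti 5 2, H.oct.anti' 5 2, H.oct.anti 5 3, H.oct.anti' 5 3, H.oct.anti 5 4, H.oct.anti' 5 4,
    H.oct.anti 6 0, H.oct.anti' 6 0, H.oct.anti 6 1, H.oct.anti' 6 1, H.oct.anti 6 2, H.oct.anti' 6 2,
    H.oct.anti 6 3, H.oct.anti' 6 3, H.oct.anti 6 4, H.oct.anti' 6 4, H.oct.anti 6 5, H.oct.anti' 6 5,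
    H.oct.anti 7 0, H.oct.anti' 7 0, H.oct.anti 7 1, H.oct.anti' 7 1, H.oct.anti 7 2, H.oct.anti' 7 2,
    H.oct.anti 7 3, H.oct.anti' 7 3, H.oct.anti 7 4, H.oct.anti' 7 4, H.oct.anti 7 5, H.oct.anti' 7 5,
    H.oct.anti 7 6, H.oct.anti' 7 6,
    mul_add, add_mul, mul_sub, sub_mul, neg_mul, mul_neg, neg_neg, mul_assoc, smul_mul_assoc,
    mul_smul_comm, smul_add, smul_sub, smul_neg, mul_zero, zero_mul, neg_zero, sub_zero, zero_sub,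
    add_zero, zero_add, smul_zero, smul_smul]
  simp only [H.c1', h1, mul_zero, neg_zero, add_zero, zero_add, smul_zero]
  try abel

theorem d_alpha {p q N Rp Rq P : R} {c : ℂ} (hN : d N = 0) (hRp : d Rp = 0) (hRq : d Rq = 0)
    (h1 : L1 * N = 0) (h2 : L2 * N = 0) (hp : L1 + (4 : ℂ) • L2 = (5 : ℂ) • p)
    (hq : (4 : ℂ) • L1 + L2 = (5 : ℂ) • q) (hP : P = c • N + p * Rp + q * Rq) :
    d ((-(c / 3)) • (A0 e * N) + (1 / 5 : ℂ) • (e 3 * (zeta e * Rp) + (4 : ℂ) • (e 7 * (zeta e * Rp))) +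
      (1 / 5 : ℂ) • ((4 : ℂ) • (e 3 * (zeta e * Rq)) + e 7 * (zeta e * Rq))) = zeta e * P := by
  have hp' : p = (1 / 5 : ℂ) • (L1 + (4 : ℂ) • L2) := by rw [hp, smul_smul]; norm_num
  have hq' : q = (1 / 5 : ℂ) • ((4 : ℂ) • L1 + L2) := by rw [hq, smul_smul]; norm_num
  rw [hP, hp', hq']
  simp only [map_add, map_smul, H.dA0 hN h1 h2, H.d_w_zeta hRp, H.d_w_zeta hRq, H.d_w'_zeta hRp,
    H.d_w'_zeta hRq, mul_add, add_mul, smul_mul_assoc, mul_smul_comm, smul_add, smul_smul]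
  module

theorem d_psi {p q N Rp Rq P : R} {c : ℂ} (hN : d N = 0) (hRp : d Rp = 0) (hRq : d Rq = 0)
    (hdP : d P = 0) (h1P : L1 * P = 0)
    (h1 : L1 * N = 0) (h2 : L2 * N = 0) (hp : L1 + (4 : ℂ) • L2 = (5 : ℂ) • p)
    (hq : (4 : ℂ) • L1 + L2 = (5 : ℂ) • q) (hP : P = c • N + p * Rp + q * Rq) :
    d (e 3 * (eta e * P) + (-(c / 3)) • (B0 e * N) +
      (1 / 5 : ℂ) • (e 3 * (zetap e * Rp) + (4 : ℂ) • (e 7 * (zetap e * Rp))) +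
      (1 / 5 : ℂ) • ((4 : ℂ) • (e 3 * (zetap e * Rq)) + e 7 * (zetap e * Rq))) =
      e 0 * e 1 * e 2 * e 3 * e 4 * P := by
  have hp' : p = (1 / 5 : ℂ) • (L1 + (4 : ℂ) • L2) := by rw [hp, smul_smul]; norm_num
  have hq' : q = (1 / 5 : ℂ) • ((4 : ℂ) • L1 + L2) := by rw [hq, smul_smul]; norm_num
  have e1 : zetap e * P = zetap e * (c • N + p * Rp + q * Rq) := by rw [← hP]
  rw [hp', hq'] at e1
  simp only [map_add, map_smul, H.dB0 hN h1 h2, H.d_w_zetap hRp, H.d_w_zetap hRq,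
    H.d_w'_zetap hRp, H.d_w'_zetap hRq, H.d_w_eta hdP h1P, e1]
  simp only [mul_add, add_mul, smul_mul_assoc, mul_smul_comm, smul_add, smul_smul]
  module

end EvenRules

theorem even_top (h : Oct e) {N Rp Rq P P' : R} {c ν : ℂ} (cP : ∀ i, P * e i = e i * P)
    (hPN : P * N = ν • (P * P')) :
    (e 0 * e 1 * e 2 * e 3 * e 4 * P) * ((-(c / 3)) • (A0 e * N) +
      (1 / 5 : ℂ) • (e 3 * (zeta e * Rp) + (4 : ℂ) • (e 7 * (zeta e * Rp))) +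
      (1 / 5 : ℂ) • ((4 : ℂ) • (e 3 * (zeta e * Rq)) + e 7 * (zeta e * Rq))) =
      (-(2 * c * ν / 3)) • (e 0 * (e 1 * (e 2 * (e 3 * (P * (e 4 * (e 5 * (e 6 * (e 7 * P'))))))))) := by
  have cP' : ∀ i x, P * (e i * x) = e i * (P * x) := by
    intro i x
    rw [← mul_assoc, cP, mul_assoc]
  simp only [A0, zeta, mul_add, add_mul, smul_mul_assoc, mul_smul_comm, mul_assoc, smul_add, cP']
  simp only [
    h.sq 0, h.sq' 0, h.sq 1, h.sq' 1, h.sq 2, h.sq' 2, h.sq 3, h.sq' 3,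
    h.sq 4, h.sq' 4, h.sq 5, h.sq' 5, h.sq 6, h.sq' 6, h.sq 7, h.sq' 7,
    h.anti 1 0, h.anti' 1 0, h.anti 2 0, h.anti' 2 0, h.anti 2 1, h.anti' 2 1,
    h.anti 3 0, h.anti' 3 0, h.anti 3 1, h.anti' 3 1, h.anti 3 2, h.anti' 3 2,
    h.anti 4 0, h.anti' 4 0, h.anti 4 1, h.anti' 4 1, h.anti 4 2, h.anti' 4 2,
    h.anti 4 3, h.anti' 4 3, h.anti 5 0, h.anti' 5 0, h.anti 5 1, h.anti' 5 1,
    h.anti 5 2, h.anti' 5 2, h.anti 5 3, h.anti' 5 3, h.anti 5 4, h.anti' 5 4,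
    h.anti 6 0, h.anti' 6 0, h.anti 6 1, h.anti' 6 1, h.anti 6 2, h.anti' 6 2,
    h.anti 6 3, h.anti' 6 3, h.anti 6 4, h.anti' 6 4, h.anti 6 5, h.anti' 6 5,
    h.anti 7 0, h.anti' 7 0, h.anti 7 1, h.anti' 7 1, h.anti 7 2, h.anti' 7 2,
    h.anti 7 3, h.anti' 7 3, h.anti 7 4, h.anti' 7 4, h.anti 7 5, h.anti' 7 5,
    h.anti 7 6, h.anti' 7 6,
    mul_add, add_mul, mul_sub, sub_mul, neg_mul, mul_neg, neg_neg, mul_assoc, smul_mul_assoc,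
    mul_smul_comm, smul_add, smul_sub, smul_neg, mul_zero, zero_mul, neg_zero, sub_zero, zero_sub,
    add_zero, zero_add, smul_zero, smul_smul]
  simp only [hPN, mul_smul_comm, smul_smul, add_zero, zero_add]
  module

end Pool.Agent.H73.Fro
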