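import Pool.Agent.H73.Fro.AlgGen
import Pool.Agent.H73.Fro.AlgEvenAbs

/-!
# The even family
-/

namespace Pool.Agent.H73.Fro

variable (k : ℕ)

/-- the eight core generators of the even family -/
noncomputable def eE : Fin 8 → GA 4 k :=
  ![cg 4 k 0, cg 4 k 1, cg 4 k 2, cg 4 k 3, cg' 4 k 0, cg' 4 k 1, cg' 4 k 2, cg' 4 k 3]

theorem eE_gen (i : Fin 8) : ∃ s, eE k i = gen s := by
  fin_cases i
  · exact ⟨Sum.inl (Sum.inl 0), rfl⟩
  · exact ⟨Sum.inl (Sum.inl 1), rfl⟩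
  · exact ⟨Sum.inl (Sum.inl 2), rfl⟩
  · exact ⟨Sum.inl (Sum.inl 3), rfl⟩
  · exact ⟨Sum.inr (Sum.inl 0), rfl⟩
  · exact ⟨Sum.inr (Sum.inl 1), rfl⟩
  · exact ⟨Sum.inr (Sum.inl 2), rfl⟩
  · exact ⟨Sum.inr (Sum.inl 3), rfl⟩

theorem eE_mem (i : Fin 8) : eE k i ∈ WW (Idx 4 k) := by
  obtain ⟨s, hs⟩ := eE_gen k i
  rw [hs]
  exact gen_mem_WW s

theorem eE_oct : Oct (eE k) := by
  constructor
  · intro i j
    exact WW_anti (eE_mem k i) (eE_mem k j)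
  · intro i
    obtain ⟨s, hs⟩ := eE_gen k i
    rw [hs]
    exact gen_sq s

theorem cg_mem (m : ℕ) (i : Fin m) : cg m k i ∈ WW (Idx m k) := gen_mem_WW _

theorem cg'_mem (m : ℕ) (i : Fin m) : cg' m k i ∈ WW (Idx m k) := gen_mem_WW _

theorem mul_mem_WW2 {κ : Type} [DecidableEq κ] {x y : EA (κ ⊕ κ)} (hx : x ∈ WW κ)
    (hy : y ∈ WW κ) : x * y ∈ WW κ ^ 2 := by
  rw [pow_two]
  exact Submodule.mul_mem_mul hx hy

theorem DE_mem (s : Idx 4 k ⊕ Idx 4 k) : DE k s ∈ WW (Idx 4 k) ^ 2 := by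
  have hL1 := WP_pow_le_WW 4 k 2 (L1_mem 4 k)
  have hL2 := WP_pow_le_WW 4 k 2 (L2_mem 4 k)
  rcases s with (i | i) | (i | i)
  · fin_cases i
    · exact zero_mem _
    · exact mul_mem_WW2 (cg_mem k 4 0) (cg'_mem k 4 0)
    · exact mul_mem_WW2 (cg_mem k 4 0) (cg'_mem k 4 1)
    · exact add_mem (add_mem (add_mem (add_mem (mul_mem_WW2 (cg_mem k 4 0) (cg_mem k 4 2))
        (mul_mem_WW2 (cg_mem k 4 2) (cg'_mem k 4 0)))
        (mul_mem_WW2 (cg_mem k 4 0) (cg'_mem k 4 2)))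
        (mul_mem_WW2 (cg_mem k 4 1) (cg'_mem k 4 1))) hL1
  · exact zero_mem _
  · fin_cases i
    · exact zero_mem _
    · exact mul_mem_WW2 (cg'_mem k 4 0) (cg_mem k 4 0)
    · exact mul_mem_WW2 (cg'_mem k 4 0) (cg_mem k 4 1)
    · exact add_mem (add_mem (add_mem (add_mem (mul_mem_WW2 (cg'_mem k 4 0) (cg'_mem k 4 2))
        (mul_mem_WW2 (cg'_mem k 4 2) (cg_mem k 4 0)))
        (mul_mem_WW2 (cg'_mem k 4 0) (cg_mem k 4 2)))
        (mul_mem_WW2 (cg'_mem k 4 1) (cg_mem k 4 1))) hL2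
  · exact zero_mem _

theorem evenRules : EvenRules (eE k) (L1 4 k) (L2 4 k) (delta (DE k)) := by
  refine ⟨eE_oct k, ?_, ?_, ?_, ?_, ?_, ?_, ?_, ?_, ?_, ?_⟩
  · intro i
    exact WW_even_comm (m := 1) (WP_pow_le_WW 4 k 2 (L1_mem 4 k)) (eE_mem k i)
  · intro i
    exact WW_even_comm (m := 1) (WP_pow_le_WW 4 k 2 (L2_mem 4 k)) (eE_mem k i)
  · intro x
    refine (delta_gen_mul (DE_mem k) (Sum.inl (Sum.inl 0)) x).trans ?_
    rw [show DE k (Sum.inl (Sum.inl 0)) = 0 from rfl, zero_mul, zero_sub]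
    rfl
  · intro x
    exact delta_gen_mul (DE_mem k) (Sum.inl (Sum.inl 1)) x
  · intro x
    exact delta_gen_mul (DE_mem k) (Sum.inl (Sum.inl 2)) x
  · intro x
    exact delta_gen_mul (DE_mem k) (Sum.inl (Sum.inl 3)) x
  · intro x
    refine (delta_gen_mul (DE_mem k) (Sum.inr (Sum.inl 0)) x).trans ?_
    rw [show DE k (Sum.inr (Sum.inl 0)) = 0 from rfl, zero_mul, zero_sub]
    rfl
  · intro x
    exact delta_gen_mul (DE_mem k) (Sum.inr (Sum.inl 1)) x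
  · intro x
    exact delta_gen_mul (DE_mem k) (Sum.inr (Sum.inl 2)) x
  · intro x
    exact delta_gen_mul (DE_mem k) (Sum.inr (Sum.inl 3)) x

variable {k}

theorem e_mul_mem (i : Fin 8) {n : ℕ} {y : GA 4 k} (hy : y ∈ WW (Idx 4 k) ^ n) :
    eE k i * y ∈ WW (Idx 4 k) ^ (n + 1) := by
  rw [pow_succ']
  exact Submodule.mul_mem_mul (eE_mem k i) hy

/-- the unprimed core generators -/
theorem eU_mem (i : Fin 4) : eE k (Fin.castLE (by norm_num) i) ∈ UU (Idx 4 k) := by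
  fin_cases i
  · exact gen_mem_UU _
  · exact gen_mem_UU _
  · exact gen_mem_UU _
  · exact gen_mem_UU _

theorem u_mul_mem {u : GA 4 k} (hu : u ∈ UU (Idx 4 k)) {n : ℕ} {y : GA 4 k}
    (hy : y ∈ WW (Idx 4 k) ^ n) : u * y ∈ UU (Idx 4 k) ^ 1 * WW (Idx 4 k) ^ n := by
  rw [pow_one]
  exact Submodule.mul_mem_mul hu hy

theorem A0_mem {N : GA 4 k} {n : ℕ} (hN : N ∈ WW (Idx 4 k) ^ n) :
    A0 (eE k) * N ∈ WW (Idx 4 k) ^ (n + 3) := by
  have h : ∀ i j l : Fin 8, eE k i * (eE k j * (eE k l * N)) ∈ WW (Idx 4 k) ^ (n + 3) :=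
    fun i j l => e_mul_mem i (e_mul_mem j (e_mul_mem l hN))
  have hs : ∀ (c : ℂ) (i j l : Fin 8), c • (eE k i * (eE k j * (eE k l * N))) ∈
      WW (Idx 4 k) ^ (n + 3) := fun c i j l => Submodule.smul_mem _ _ (h i j l)
  simp only [A0, add_mul, smul_mul_assoc, mul_assoc]
  refine add_mem (add_mem (add_mem (add_mem (add_mem (add_mem (add_mem (add_mem ?_ ?_) ?_) ?_)
    ?_) ?_) ?_) ?_) ?_ <;> first | exact hs _ _ _ _ | exact h _ _ _

theorem B0_mem {N : GA 4 k} {n : ℕ} (hN : N ∈ WW (Idx 4 k) ^ n) :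
    B0 (eE k) * N ∈ UU (Idx 4 k) ^ 1 * WW (Idx 4 k) ^ (n + 3) := by
  have h : ∀ i j l : Fin 8, eE k i * (eE k j * (eE k l * N)) ∈ WW (Idx 4 k) ^ (n + 3) :=
    fun i j l => e_mul_mem i (e_mul_mem j (e_mul_mem l hN))
  have h0 : ∀ i j l : Fin 8, eE k 0 * (eE k i * (eE k j * (eE k l * N))) ∈
      UU (Idx 4 k) ^ 1 * WW (Idx 4 k) ^ (n + 3) := fun i j l => u_mul_mem (eU_mem 0) (h i j l)
  have h1 : ∀ i j l : Fin 8, eE k 1 * (eE k i * (eE k j * (eE k l * N))) ∈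
      UU (Idx 4 k) ^ 1 * WW (Idx 4 k) ^ (n + 3) := fun i j l => u_mul_mem (eU_mem 1) (h i j l)
  have h2 : ∀ i j l : Fin 8, eE k 2 * (eE k i * (eE k j * (eE k l * N))) ∈
      UU (Idx 4 k) ^ 1 * WW (Idx 4 k) ^ (n + 3) := fun i j l => u_mul_mem (eU_mem 2) (h i j l)
  have h3 : ∀ i j l : Fin 8, eE k 3 * (eE k i * (eE k j * (eE k l * N))) ∈
      UU (Idx 4 k) ^ 1 * WW (Idx 4 k) ^ (n + 3) := fun i j l => u_mul_mem (eU_mem 3) (h i j l)
  simp only [B0, add_mul, sub_mul, smul_mul_assoc, mul_assoc]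
  refine sub_mem (sub_mem (add_mem (add_mem (add_mem (add_mem (add_mem ?_ ?_) ?_) ?_) ?_) ?_) ?_)
    ?_
  · exact Submodule.smul_mem _ _ (h3 _ _ _)
  · exact Submodule.smul_mem _ _ (h2 _ _ _)
  · exact Submodule.smul_mem _ _ (h2 _ _ _)
  · exact h1 _ _ _
  · exact Submodule.smul_mem _ _ (h1 _ _ _)
  · exact Submodule.smul_mem _ _ (h0 _ _ _)
  · exact h0 _ _ _
  · exact h0 _ _ _

theorem zeta_mem {N : GA 4 k} {n : ℕ} (hN : N ∈ WW (Idx 4 k) ^ n) :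
    zeta (eE k) * N ∈ WW (Idx 4 k) ^ (n + 4) := by
  simp only [zeta, mul_assoc]
  exact e_mul_mem _ (e_mul_mem _ (e_mul_mem _ (e_mul_mem _ hN)))

theorem zetap_mem {N : GA 4 k} {n : ℕ} (hN : N ∈ WW (Idx 4 k) ^ n) :
    zetap (eE k) * N ∈ WW (Idx 4 k) ^ (n + 5) := by
  simp only [zetap, mul_assoc]
  exact e_mul_mem _ (e_mul_mem _ (e_mul_mem _ (e_mul_mem _ (e_mul_mem _ hN))))

theorem eta_mem {N : GA 4 k} {n : ℕ} (hN : N ∈ WW (Idx 4 k) ^ n) :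
    eta (eE k) * N ∈ WW (Idx 4 k) ^ (n + 3) := by
  simp only [eta, mul_assoc]
  exact e_mul_mem _ (e_mul_mem _ (e_mul_mem _ hN))

theorem w'_zetap_mem {N : GA 4 k} {n : ℕ} (hN : N ∈ WW (Idx 4 k) ^ n) :
    eE k 7 * (zetap (eE k) * N) ∈ UU (Idx 4 k) ^ 1 * WW (Idx 4 k) ^ (n + 5) := by
  simp only [zetap, mul_assoc]
  rw [(eE_oct k).anti' 7 0]
  exact neg_mem (u_mul_mem (eU_mem 0) (e_mul_mem _ (e_mul_mem _ (e_mul_mem _ (e_mul_mem _
    (e_mul_mem _ hN))))))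

theorem uu_mul_mem {u : GA 4 k} (hu : u ∈ UU (Idx 4 k)) {n : ℕ} {y : GA 4 k}
    (hy : y ∈ UU (Idx 4 k) ^ n) : u * y ∈ UU (Idx 4 k) ^ (n + 1) := by
  rw [pow_succ']
  exact Submodule.mul_mem_mul hu hy

theorem algEven (k : ℕ) (hP : PairMain 4 k) : AlgData (DE k) (4 + 2 * k) := by
  obtain ⟨N, Rp, Rq, c, ν, hc, hν, hpN, hqN, hPi, hPN, hN, h0, hRp, hRq⟩ := hP
  have H := evenRules k
  have h1 := L1_mul_of_pp_qq hpN hqN
  have h2 := L2_mul_of_pp_qq hpN hqN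
  have dl : ∀ {n : ℕ} {x : GA 4 k}, x ∈ WP 4 k ^ n → delta (DE k) x = 0 := fun hx =>
    delta_WP (DE_mem k) (fun _ => rfl) (fun _ => rfl) hx
  have hNW := WP_pow_le_WW 4 k _ hN
  have hRpW := WP_pow_le_WW 4 k _ hRp
  have hRqW := WP_pow_le_WW 4 k _ hRq
  have hPW := WP_pow_le_WW 4 k _ (Pi1_mem (m := 4) (k := k))
  have hPc : ∀ i, Pi1 4 k * eE k i = eE k i * Pi1 4 k := fun i => Pi1_comm (eE_mem k i)
  have hal := H.d_alpha (dl hN) (dl hRp) (dl hRq) h1 h2 (L1_add_L2 4 k) (L1_add_L2' 4 k) hPi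
  have hps := H.d_psi (dl hN) (dl hRp) (dl hRq) (dl Pi1_mem) L1_mul_Pi1 h1 h2 (L1_add_L2 4 k)
    (L1_add_L2' 4 k) hPi
  have htop := even_top (eE_oct k) (Rp := Rp) (Rq := Rq) (c := c) hPc hPN
  -- degree of the terms with `Rp`, `Rq`
  have hz : ∀ R : GA 4 k, (k = 0 → R = 0) → R ∈ WW (Idx 4 k) ^ (2 * k - 2) → ∀ i : Fin 8,
      eE k i * (zeta (eE k) * R) ∈ WW (Idx 4 k) ^ (3 + 2 * k) := by
    intro R hR0 hR i
    rcases Nat.eq_zero_or_pos k with hk | hk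
    · rw [hR0 hk, mul_zero, mul_zero]
      exact zero_mem _
    · have h := e_mul_mem i (zeta_mem hR)
      rwa [show 2 * k - 2 + 4 + 1 = 3 + 2 * k by omega] at h
  have hz3 : ∀ R : GA 4 k, (k = 0 → R = 0) → R ∈ WW (Idx 4 k) ^ (2 * k - 2) →
      eE k 3 * (zetap (eE k) * R) ∈ UU (Idx 4 k) ^ 1 * WW (Idx 4 k) ^ (3 + 2 * k) := by
    intro R hR0 hR
    rcases Nat.eq_zero_or_pos k with hk | hk
    · rw [hR0 hk, mul_zero, mul_zero]
      exact zero_mem _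
    · have h := u_mul_mem (eU_mem (k := k) 3) (zetap_mem hR)
      rwa [show 2 * k - 2 + 5 = 3 + 2 * k by omega] at h
  have hz7 : ∀ R : GA 4 k, (k = 0 → R = 0) → R ∈ WW (Idx 4 k) ^ (2 * k - 2) →
      eE k 7 * (zetap (eE k) * R) ∈ UU (Idx 4 k) ^ 1 * WW (Idx 4 k) ^ (3 + 2 * k) := by
    intro R hR0 hR
    rcases Nat.eq_zero_or_pos k with hk | hk
    · rw [hR0 hk, mul_zero, mul_zero]
      exact zero_mem _
    · have h := w'_zetap_mem hR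
      rwa [show 2 * k - 2 + 5 = 3 + 2 * k by omega] at h
  have hp0 : k = 0 → Rp = 0 := fun h => (h0 h).1
  have hq0 : k = 0 → Rq = 0 := fun h => (h0 h).2
  refine ⟨_, _, fullList 4 k, -(2 * c * ν / 3), fullList_nodup, fullList_length, ?_, ?_, ?_, ?_,
    ?_, (congrArg (· * _) hps).trans (htop.trans ?_)⟩
  · exact neg_ne_zero.2 (div_ne_zero (mul_ne_zero (mul_ne_zero two_ne_zero hc) hν)
      three_ne_zero)
  · rw [show 4 + 2 * k - 1 = 3 + 2 * k by omega]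
    refine add_mem (add_mem (Submodule.smul_mem _ _ ?_) (Submodule.smul_mem _ _ (add_mem
      (hz Rp hp0 hRpW 3) (Submodule.smul_mem _ _ (hz Rp hp0 hRpW 7)))))
      (Submodule.smul_mem _ _ (add_mem (Submodule.smul_mem _ _ (hz Rq hq0 hRqW 3))
      (hz Rq hq0 hRqW 7)))
    have h := A0_mem hNW
    rwa [add_comm] at h
  · rw [hal, show 4 + 2 * k - 1 = 3 + 2 * k by omega]
    have e1 : zeta (eE k) * Pi1 4 k = eE k 0 * (eE k 1 * (eE k 2 * Pi1 4 k)) * eE k 6 := by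
      simp only [zeta, mul_assoc, hPc]
    rw [e1]
    refine Submodule.mul_mem_mul ?_ (by rw [pow_one]; exact eE_mem k 6)
    have h := uu_mul_mem (eU_mem (k := k) 0) (uu_mul_mem (eU_mem (k := k) 1)
      (uu_mul_mem (eU_mem (k := k) 2) (Pi1_mem_UU (m := 4) (k := k))))
    rwa [show 2 * k + 1 + 1 + 1 = 3 + 2 * k by omega] at h
  · rw [show 4 + 2 * k - 1 = 3 + 2 * k by omega]
    refine add_mem (add_mem (add_mem ?_ (Submodule.smul_mem _ _ ?_)) (Submodule.smul_mem _ _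
      (add_mem (hz3 Rp hp0 hRpW) (Submodule.smul_mem _ _ (hz7 Rp hp0 hRpW)))))
      (Submodule.smul_mem _ _ (add_mem (Submodule.smul_mem _ _ (hz3 Rq hq0 hRqW))
      (hz7 Rq hq0 hRqW)))
    · have h := u_mul_mem (eU_mem (k := k) 3) (eta_mem hPW)
      rwa [add_comm (2 * k) 3] at h
    · have h := B0_mem hNW
      rwa [add_comm (2 * k) 3] at h
  · rw [hps]
    have e1 : eE k 0 * eE k 1 * eE k 2 * eE k 3 * eE k 4 * Pi1 4 k =
        eE k 0 * (eE k 1 * (eE k 2 * (eE k 3 * Pi1 4 k))) * eE k 4 := by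
      simp only [mul_assoc, hPc]
    rw [e1]
    refine Submodule.mul_mem_mul ?_ (by rw [pow_one]; exact eE_mem k 4)
    have h := uu_mul_mem (eU_mem (k := k) 0) (uu_mul_mem (eU_mem (k := k) 1)
      (uu_mul_mem (eU_mem (k := k) 2) (uu_mul_mem (eU_mem (k := k) 3)
      (Pi1_mem_UU (m := 4) (k := k)))))
    rwa [show 2 * k + 1 + 1 + 1 + 1 = 4 + 2 * k by omega] at h
  · rw [fullList_prod]
    congr 1
    have f4 : List.finRange 4 = [0, 1, 2, 3] := by decide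
    rw [f4]
    simp only [List.map_cons, List.map_nil, List.prod_cons, List.prod_nil, mul_one, mul_assoc]
    rfl

end Pool.Agent.H73.Fro
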