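import Pool.Agent.H73.Fro.AlgDefs

/-!
# General facts on the exterior algebra of the coframe, and the pair part
-/

namespace Pool.Agent.H73.Fro

section General

variable {σ : Type} [DecidableEq σ]

theorem gen_anti (s t : σ) : (gen s : EA σ) * gen t = -(gen t * gen s) := by
  rw [eq_neg_iff_add_eq_zero]
  exact ExteriorAlgebra.ι_add_mul_swap _ _

theorem gen_sq (s : σ) : (gen s : EA σ) * gen s = 0 := ExteriorAlgebra.ι_sq_zero _

end General

section Parity

variable {κ : Type} [DecidableEq κ]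

theorem ι_mem_WW [Fintype κ] (v : κ ⊕ κ → ℂ) : ExteriorAlgebra.ι ℂ v ∈ WW κ := by
  have h : v = ∑ s, v s • (Pi.single s (1 : ℂ) : κ ⊕ κ → ℂ) := by
    funext t
    rw [Finset.sum_apply, Finset.sum_eq_single t]
    · simp
    · intro s _ hs
      simp [Ne.symm hs]
    · intro h
      exact absurd (Finset.mem_univ t) h
  rw [h, map_sum]
  refine Submodule.sum_mem _ fun s _ => ?_
  rw [map_smul]
  exact Submodule.smul_mem _ _ (Submodule.subset_span ⟨s, rfl⟩)

theorem gen_mem_WW (s : κ ⊕ κ) : gen s ∈ WW κ := Submodule.subset_span ⟨s, rfl⟩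

theorem gen_mem_UU (i : κ) : gen (Sum.inl i) ∈ UU κ := Submodule.subset_span ⟨i, rfl⟩

theorem UU_le_WW : UU κ ≤ WW κ := by
  rw [UU, Submodule.span_le]
  rintro _ ⟨i, rfl⟩
  exact gen_mem_WW _

theorem WW_anti {x y : EA (κ ⊕ κ)} (hx : x ∈ WW κ) (hy : y ∈ WW κ) : x * y = -(y * x) := by
  induction hx using Submodule.span_induction with
  | mem a ha =>
    obtain ⟨s, rfl⟩ := ha
    induction hy using Submodule.span_induction with
    | mem b hb =>
      obtain ⟨t, rfl⟩ := hb
      rw [eq_neg_iff_add_eq_zero]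
      exact ExteriorAlgebra.ι_add_mul_swap _ _
    | zero => simp
    | add a b _ _ ha hb => rw [mul_add, add_mul, ha, hb, neg_add]
    | smul c a _ ha => rw [mul_smul_comm, ha, smul_mul_assoc, smul_neg]
  | zero => simp
  | add a b _ _ ha hb => rw [mul_add, add_mul, ha, hb, neg_add]
  | smul c a _ ha => rw [mul_smul_comm, smul_mul_assoc, ha, smul_neg]

theorem WW_pow_comm {m : ℕ} {x y : EA (κ ⊕ κ)} (hx : x ∈ WW κ ^ m) (hy : y ∈ WW κ) :
    x * y = (-1 : ℂ) ^ m • (y * x) := by
  induction m generalizing x with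
  | zero =>
    rw [pow_zero, Submodule.mem_one] at hx
    obtain ⟨c, rfl⟩ := hx
    rw [pow_zero, one_smul]
    exact Algebra.commutes c y
  | succ m ih =>
    rw [pow_succ] at hx
    induction hx using Submodule.mul_induction_on' with
    | mem_mul_mem a ha b hb =>
      rw [mul_assoc, WW_anti hb hy, mul_neg, ← mul_assoc, ih ha, smul_mul_assoc, mul_assoc,
        pow_succ, mul_neg_one, neg_smul]
    | add a _ b _ ha hb => rw [add_mul, mul_add, ha, hb, smul_add]

/-- elements of even degree are central -/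
theorem WW_even_comm {m : ℕ} {x y : EA (κ ⊕ κ)} (hx : x ∈ WW κ ^ (2 * m)) (hy : y ∈ WW κ) :
    x * y = y * x := by
  rw [WW_pow_comm hx hy, pow_mul]
  simp

theorem comm_of_WW2 [Fintype κ] {D : κ ⊕ κ → EA (κ ⊕ κ)} (hD : ∀ s, D s ∈ WW κ ^ 2) (s : κ ⊕ κ)
    (v : κ ⊕ κ → ℂ) : D s * ExteriorAlgebra.ι ℂ v = ExteriorAlgebra.ι ℂ v * D s :=
  WW_even_comm (m := 1) (hD s) (ι_mem_WW v)

theorem delta_gen_mul [Fintype κ] {D : κ ⊕ κ → EA (κ ⊕ κ)} (hD : ∀ s, D s ∈ WW κ ^ 2) (s : κ ⊕ κ)
    (x : EA (κ ⊕ κ)) : delta D (gen s * x) = D s * x - gen s * delta D x := by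
  have h := delta_ι_mul (comm_of_WW2 hD) (Pi.single s (1 : ℂ)) x
  have h2 := delta_gen D s
  rw [gen] at h2 ⊢
  rw [h, h2]

theorem WW_mul_mem {m n : ℕ} {x y : EA (κ ⊕ κ)} (hx : x ∈ WW κ ^ m) (hy : y ∈ WW κ ^ n) :
    x * y ∈ WW κ ^ (m + n) := by
  rw [pow_add]
  exact Submodule.mul_mem_mul hx hy

theorem gen_mul_mem {m : ℕ} (s : κ ⊕ κ) {y : EA (κ ⊕ κ)} (hy : y ∈ WW κ ^ m) :
    gen s * y ∈ WW κ ^ (m + 1) := by
  rw [pow_succ']
  exact Submodule.mul_mem_mul (gen_mem_WW s) hy

theorem genU_mul_mem {m : ℕ} (i : κ) {y : EA (κ ⊕ κ)} (hy : y ∈ UU κ ^ m) :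
    gen (Sum.inl i) * y ∈ UU κ ^ (m + 1) := by
  rw [pow_succ']
  exact Submodule.mul_mem_mul (gen_mem_UU i) hy

/-- a form with an unprimed factor in front -/
theorem genU_mul_mem' {m : ℕ} (i : κ) {y : EA (κ ⊕ κ)} (hy : y ∈ WW κ ^ m) :
    gen (Sum.inl i) * y ∈ UU κ ^ 1 * WW κ ^ m := by
  rw [pow_one]
  exact Submodule.mul_mem_mul (gen_mem_UU i) hy

end Parity

section Pairs

variable (m k : ℕ)

theorem xg_mem_WP (j : Fin k) : xg m k j ∈ WP m k :=
  Submodule.subset_span (Or.inl (Or.inl (Or.inl ⟨j, rfl⟩)))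

theorem yg_mem_WP (j : Fin k) : yg m k j ∈ WP m k :=
  Submodule.subset_span (Or.inl (Or.inl (Or.inr ⟨j, rfl⟩)))

theorem xg'_mem_WP (j : Fin k) : xg' m k j ∈ WP m k :=
  Submodule.subset_span (Or.inl (Or.inr ⟨j, rfl⟩))

theorem yg'_mem_WP (j : Fin k) : yg' m k j ∈ WP m k :=
  Submodule.subset_span (Or.inr ⟨j, rfl⟩)

theorem WP_le_WW : WP m k ≤ WW (Idx m k) := by
  rw [WP, Submodule.span_le]
  rintro _ (((⟨j, rfl⟩ | ⟨j, rfl⟩) | ⟨j, rfl⟩) | ⟨j, rfl⟩) <;> exact gen_mem_WW _

theorem WP_pow_le_WW (n : ℕ) : WP m k ^ n ≤ WW (Idx m k) ^ n :=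
  pow_le_pow_left' (WP_le_WW m k) n

theorem L1_mem : L1 m k ∈ WP m k ^ 2 := by
  rw [L1, pow_two]
  refine Submodule.sum_mem _ fun j _ => add_mem (Submodule.smul_mem _ _ ?_)
    (Submodule.smul_mem _ _ (add_mem ?_ ?_))
  · exact Submodule.mul_mem_mul (xg_mem_WP m k j) (yg_mem_WP m k j)
  · exact Submodule.mul_mem_mul (xg_mem_WP m k j) (yg'_mem_WP m k j)
  · exact Submodule.mul_mem_mul (xg'_mem_WP m k j) (yg_mem_WP m k j)

theorem L2_mem : L2 m k ∈ WP m k ^ 2 := by
  rw [L2, pow_two]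
  refine Submodule.sum_mem _ fun j _ => add_mem (Submodule.smul_mem _ _ ?_)
    (Submodule.smul_mem _ _ (add_mem ?_ ?_))
  · exact Submodule.mul_mem_mul (xg'_mem_WP m k j) (yg'_mem_WP m k j)
  · exact Submodule.mul_mem_mul (xg_mem_WP m k j) (yg'_mem_WP m k j)
  · exact Submodule.mul_mem_mul (xg'_mem_WP m k j) (yg_mem_WP m k j)

theorem L1_add_L2 : L1 m k + (4 : ℂ) • L2 m k = (5 : ℂ) • pp m k := by
  rw [L1, L2, pp, Finset.smul_sum, Finset.smul_sum, ← Finset.sum_add_distrib]
  refine Finset.sum_congr rfl fun j _ => ?_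
  simp only [mul_add, add_mul, smul_mul_assoc, mul_smul_comm, smul_add, smul_smul]
  module

theorem L1_add_L2' : (4 : ℂ) • L1 m k + L2 m k = (5 : ℂ) • qq m k := by
  rw [L1, L2, qq, Finset.smul_sum, Finset.smul_sum, ← Finset.sum_add_distrib]
  refine Finset.sum_congr rfl fun j _ => ?_
  simp only [mul_add, add_mul, smul_mul_assoc, mul_smul_comm, smul_add, smul_smul]
  module

variable {m k}

theorem L1_mul_of_pp_qq {N : GA m k} (hp : pp m k * N = 0) (hq : qq m k * N = 0) :
    L1 m k * N = 0 := by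
  have h1 := L1_add_L2 m k
  have h2 := L1_add_L2' m k
  have h3 : L1 m k = (1 / 3 : ℂ) • ((4 : ℂ) • qq m k - pp m k) := by
    have : (15 : ℂ) • L1 m k = (5 : ℂ) • ((4 : ℂ) • qq m k - pp m k) := by
      rw [smul_sub, smul_comm (5 : ℂ) (4 : ℂ), ← h2, ← h1]
      module
    calc L1 m k = (1 / 15 : ℂ) • ((15 : ℂ) • L1 m k) := by rw [smul_smul]; norm_num
      _ = (1 / 3 : ℂ) • ((4 : ℂ) • qq m k - pp m k) := by rw [this, smul_smul]; norm_num
  rw [h3, smul_mul_assoc, sub_mul, smul_mul_assoc, hp, hq]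
  simp

theorem L2_mul_of_pp_qq {N : GA m k} (hp : pp m k * N = 0) (hq : qq m k * N = 0) :
    L2 m k * N = 0 := by
  have h1 := L1_add_L2 m k
  have h2 := L1_add_L2' m k
  have h3 : L2 m k = (1 / 3 : ℂ) • ((4 : ℂ) • pp m k - qq m k) := by
    have : (15 : ℂ) • L2 m k = (5 : ℂ) • ((4 : ℂ) • pp m k - qq m k) := by
      rw [smul_sub, smul_comm (5 : ℂ) (4 : ℂ), ← h2, ← h1]
      module
    calc L2 m k = (1 / 15 : ℂ) • ((15 : ℂ) • L2 m k) := by rw [smul_smul]; norm_num
      _ = (1 / 3 : ℂ) • ((4 : ℂ) • pp m k - qq m k) := by rw [this, smul_smul]; norm_num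
  rw [h3, smul_mul_assoc, sub_mul, smul_mul_assoc, hp, hq]
  simp

/-- the pair part is closed -/
theorem delta_WP {D : Idx m k ⊕ Idx m k → GA m k} (hD : ∀ s, D s ∈ WW (Idx m k) ^ 2)
    (h1 : ∀ j, D (Sum.inl (Sum.inr j)) = 0) (h2 : ∀ j, D (Sum.inr (Sum.inr j)) = 0) {n : ℕ}
    {x : GA m k} (hx : x ∈ WP m k ^ n) : delta D x = 0 := by
  induction n generalizing x with
  | zero =>
    rw [pow_zero, Submodule.mem_one] at hx
    obtain ⟨c, rfl⟩ := hx
    exact delta_algebraMap D c
  | succ n ih =>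
    rw [pow_succ'] at hx
    induction hx using Submodule.mul_induction_on' with
    | mem_mul_mem a ha b hb =>
      rw [WP] at ha
      induction ha using Submodule.span_induction with
      | mem a ha =>
        rcases ha with ((⟨j, rfl⟩ | ⟨j, rfl⟩) | ⟨j, rfl⟩) | ⟨j, rfl⟩
        · rw [xg, delta_gen_mul hD, ih hb, h1]; simp
        · rw [yg, delta_gen_mul hD, ih hb, h1]; simp
        · rw [xg', delta_gen_mul hD, ih hb, h2]; simp
        · rw [yg', delta_gen_mul hD, ih hb, h2]; simp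
      | zero => simp
      | add a a' _ _ ha ha' => rw [add_mul, map_add, ha, ha', add_zero]
      | smul c a _ ha => rw [smul_mul_assoc, map_smul, ha, smul_zero]
    | add a _ b _ ha hb => rw [map_add, ha, hb, add_zero]

theorem xy_central (j : Fin k) {y : GA m k} (hy : y ∈ WW (Idx m k)) :
    xg m k j * yg m k j * y = y * (xg m k j * yg m k j) := by
  refine WW_even_comm (m := 1) ?_ hy
  rw [mul_one, pow_two]
  exact Submodule.mul_mem_mul (gen_mem_WW _) (gen_mem_WW _)

theorem listProd_zero {R : Type*} [Ring R] {ι : Type*} (f : ι → R) (u : R)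
    (hc : ∀ i, u * f i = f i * u) {j : ι} (hj : u * f j = 0) (l : List ι) (hl : j ∈ l) :
    u * (l.map f).prod = 0 := by
  induction l with
  | nil => exact absurd hl (List.not_mem_nil)
  | cons a l ih =>
    rw [List.map_cons, List.prod_cons]
    rcases List.mem_cons.1 hl with rfl | h
    · rw [← mul_assoc, hj, zero_mul]
    · rw [← mul_assoc, hc, mul_assoc, ih h, mul_zero]

theorem xg_mul_Pi1 (j : Fin k) : xg m k j * Pi1 m k = 0 := by
  rw [Pi1]
  refine listProd_zero (fun j => xg m k j * yg m k j) (xg m k j) ?_ (j := j) ?_ _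
    (List.mem_finRange j)
  · intro i
    exact (xy_central i (gen_mem_WW _)).symm
  · rw [← mul_assoc, xg, gen_sq, zero_mul]

theorem yg_mul_Pi1 (j : Fin k) : yg m k j * Pi1 m k = 0 := by
  rw [Pi1]
  refine listProd_zero (fun j => xg m k j * yg m k j) (yg m k j) ?_ (j := j) ?_ _
    (List.mem_finRange j)
  · intro i
    exact (xy_central i (gen_mem_WW _)).symm
  · rw [xg, yg, gen_anti (Sum.inl (Sum.inr (j, 0)))]
    rw [mul_neg, ← mul_assoc, gen_sq, zero_mul, neg_zero]

theorem Pi1_comm {y : GA m k} (hy : y ∈ WW (Idx m k)) : Pi1 m k * y = y * Pi1 m k := by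
  rw [Pi1]
  induction List.finRange k with
  | nil => simp
  | cons a l ih =>
    rw [List.map_cons, List.prod_cons, mul_assoc, ih, ← mul_assoc, xy_central a hy, mul_assoc]

theorem mul_Pi1_xg (j : Fin k) : Pi1 m k * xg m k j = 0 := by
  have h2 : Pi1 m k * xg m k j = xg m k j * Pi1 m k := Pi1_comm (gen_mem_WW _)
  rw [h2, xg_mul_Pi1]

theorem mul_Pi1_yg (j : Fin k) : Pi1 m k * yg m k j = 0 := by
  have h2 : Pi1 m k * yg m k j = yg m k j * Pi1 m k := Pi1_comm (gen_mem_WW _)
  rw [h2, yg_mul_Pi1]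

theorem L1_mul_Pi1 : L1 m k * Pi1 m k = 0 := by
  rw [L1, Finset.sum_mul]
  refine Finset.sum_eq_zero fun j _ => ?_
  have h1 : xg m k j * yg' m k j * Pi1 m k = 0 := by
    have h2 : Pi1 m k * yg' m k j = yg' m k j * Pi1 m k := Pi1_comm (gen_mem_WW _)
    rw [mul_assoc, ← h2, ← mul_assoc, xg_mul_Pi1, zero_mul]
  rw [add_mul, smul_mul_assoc, smul_mul_assoc, add_mul, mul_assoc (xg m k j) (yg m k j),
    yg_mul_Pi1, h1, mul_assoc (xg' m k j) (yg m k j), yg_mul_Pi1]
  simp

theorem listPairs_mem (l : List (Fin k)) (P Q : Fin k → GA m k) (S : Submodule ℂ (GA m k))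
    (hP : ∀ j, P j ∈ S) (hQ : ∀ j, Q j ∈ S) :
    (l.map fun j => P j * Q j).prod ∈ S ^ (2 * l.length) := by
  induction l with
  | nil => simp
  | cons a l ih =>
    rw [List.map_cons, List.prod_cons, List.length_cons, mul_add, mul_one, add_comm, pow_add,
      pow_two]
    exact Submodule.mul_mem_mul (Submodule.mul_mem_mul (hP a) (hQ a)) ih

theorem Pi1_mem : Pi1 m k ∈ WP m k ^ (2 * k) := by
  have h := listPairs_mem (List.finRange k) (xg m k) (yg m k) (WP m k) (xg_mem_WP m k)
    (yg_mem_WP m k)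
  rwa [List.length_finRange] at h

theorem Pi1_mem_UU : Pi1 m k ∈ UU (Idx m k) ^ (2 * k) := by
  have h := listPairs_mem (List.finRange k) (xg m k) (yg m k) (UU (Idx m k))
    (fun j => gen_mem_UU _) (fun j => gen_mem_UU _)
  rwa [List.length_finRange] at h

/-- the list of the unprimed pairs -/
def pairs1 (m k : ℕ) : List (Idx m k ⊕ Idx m k) :=
  (List.finRange k).flatMap fun j => [Sum.inl (Sum.inr (j, 0)), Sum.inl (Sum.inr (j, 1))]

/-- the list of the primed pairs -/
def pairs2 (m k : ℕ) : List (Idx m k ⊕ Idx m k) :=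
  (List.finRange k).flatMap fun j => [Sum.inr (Sum.inr (j, 0)), Sum.inr (Sum.inr (j, 1))]

theorem prod_pairs1 : ((pairs1 m k).map gen).prod = Pi1 m k := by
  rw [pairs1, Pi1]
  induction List.finRange k with
  | nil => simp
  | cons a l ih =>
    rw [List.flatMap_cons, List.map_append, List.prod_append, ih, List.map_cons, List.prod_cons]
    simp [xg, yg]

theorem prod_pairs2 : ((pairs2 m k).map gen).prod = Pi2 m k := by
  rw [pairs2, Pi2]
  induction List.finRange k with
  | nil => simp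
  | cons a l ih =>
    rw [List.flatMap_cons, List.map_append, List.prod_append, ih, List.map_cons, List.prod_cons]
    simp [xg', yg']

theorem length_pairs1 : (pairs1 m k).length = 2 * k := by
  rw [pairs1, List.length_flatMap]
  simp [mul_comm]

theorem length_pairs2 : (pairs2 m k).length = 2 * k := by
  rw [pairs2, List.length_flatMap]
  simp [mul_comm]

theorem nodup_pairs1 : (pairs1 m k).Nodup := by
  rw [pairs1, List.nodup_flatMap]
  refine ⟨fun j _ => by simp, ?_⟩
  refine (List.nodup_finRange k).imp ?_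
  intro a b hab
  rw [Function.onFun, List.disjoint_left]
  intro s hs hs'
  simp only [List.mem_cons, List.not_mem_nil, or_false] at hs hs'
  rcases hs with rfl | rfl <;> rcases hs' with h | h <;> simp_all

theorem nodup_pairs2 : (pairs2 m k).Nodup := by
  rw [pairs2, List.nodup_flatMap]
  refine ⟨fun j _ => by simp, ?_⟩
  refine (List.nodup_finRange k).imp ?_
  intro a b hab
  rw [Function.onFun, List.disjoint_left]
  intro s hs hs'
  simp only [List.mem_cons, List.not_mem_nil, or_false] at hs hs'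
  rcases hs with rfl | rfl <;> rcases hs' with h | h <;> simp_all

theorem mem_pairs1 {s : Idx m k ⊕ Idx m k} : s ∈ pairs1 m k ↔ ∃ j, s = Sum.inl (Sum.inr j) := by
  rw [pairs1, List.mem_flatMap]
  constructor
  · rintro ⟨j, _, h⟩
    simp only [List.mem_cons, List.not_mem_nil, or_false] at h
    rcases h with rfl | rfl
    · exact ⟨_, rfl⟩
    · exact ⟨_, rfl⟩
  · rintro ⟨⟨j, t⟩, rfl⟩
    refine ⟨j, List.mem_finRange j, ?_⟩
    fin_cases t <;> simp

theorem mem_pairs2 {s : Idx m k ⊕ Idx m k} : s ∈ pairs2 m k ↔ ∃ j, s = Sum.inr (Sum.inr j) := by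
  rw [pairs2, List.mem_flatMap]
  constructor
  · rintro ⟨j, _, h⟩
    simp only [List.mem_cons, List.not_mem_nil, or_false] at h
    rcases h with rfl | rfl
    · exact ⟨_, rfl⟩
    · exact ⟨_, rfl⟩
  · rintro ⟨⟨j, t⟩, rfl⟩
    refine ⟨j, List.mem_finRange j, ?_⟩
    fin_cases t <;> simp

/-- the list of all the generators: core, pairs, primed core, primed pairs -/
def fullList (m k : ℕ) : List (Idx m k ⊕ Idx m k) :=
  ((List.finRange m).map fun i => Sum.inl (Sum.inl i)) ++ pairs1 m k ++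
    ((List.finRange m).map fun i => Sum.inr (Sum.inl i)) ++ pairs2 m k

theorem fullList_nodup : (fullList m k).Nodup := by
  rw [fullList, List.nodup_append', List.nodup_append', List.nodup_append']
  refine ⟨⟨⟨?_, nodup_pairs1, ?_⟩, ?_, ?_⟩, nodup_pairs2, ?_⟩
  · exact (List.nodup_finRange m).map fun a b h => by simpa using h
  · intro s hs hs'
    rw [mem_pairs1] at hs'
    obtain ⟨j, rfl⟩ := hs'
    simp at hs
  · exact (List.nodup_finRange m).map fun a b h => by simpa using h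
  · intro s hs hs'
    rw [List.mem_append, mem_pairs1] at hs
    simp only [List.mem_map] at hs hs'
    obtain ⟨i, _, rfl⟩ := hs'
    rcases hs with ⟨i', _, h⟩ | ⟨j, h⟩
    · exact absurd h (by simp)
    · exact absurd h (by simp)
  · intro s hs hs'
    rw [mem_pairs2] at hs'
    obtain ⟨j, rfl⟩ := hs'
    rw [List.mem_append, List.mem_append, mem_pairs1] at hs
    simp at hs

theorem fullList_length : (fullList m k).length = 2 * (m + 2 * k) := by
  rw [fullList, List.length_append, List.length_append, List.length_append, length_pairs1,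
    length_pairs2]
  simp
  ring

theorem fullList_prod : ((fullList m k).map gen).prod =
    ((List.finRange m).map (cg m k)).prod * (Pi1 m k * (((List.finRange m).map (cg' m k)).prod *
      Pi2 m k)) := by
  rw [fullList, List.map_append, List.map_append, List.map_append, List.prod_append,
    List.prod_append, List.prod_append, prod_pairs1, prod_pairs2, List.map_map, List.map_map,
    mul_assoc, mul_assoc]
  rfl

end Pairs

end Pool.Agent.H73.Fro
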