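import Pool.Agent.H73.Fro.AlgCommon

/-!
# The algebra of the odd family and of dimension 3
-/

set_option linter.unusedSimpArgs false
set_option linter.unusedVariables false
set_option linter.unusedSectionVars false

namespace Pool.Agent.H73.Fro.Odd

open Pool.Agent.H73.Fro.AC

section Abs

variable {R : Type*} [Ring R]

/-- ten anticommuting elements -/
structure Sys10 {R : Type*} [Ring R] (g0 g1 g2 g3 g4 g5 g6 g7 g8 g9 : R) : Prop where
  s00 : g0 * g0 = 0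
  s11 : g1 * g1 = 0
  s22 : g2 * g2 = 0
  s33 : g3 * g3 = 0
  s44 : g4 * g4 = 0
  s55 : g5 * g5 = 0
  s66 : g6 * g6 = 0
  s77 : g7 * g7 = 0
  s88 : g8 * g8 = 0
  s99 : g9 * g9 = 0
  s10 : g1 * g0 = -(g0 * g1)
  s20 : g2 * g0 = -(g0 * g2)
  s21 : g2 * g1 = -(g1 * g2)
  s30 : g3 * g0 = -(g0 * g3)
  s31 : g3 * g1 = -(g1 * g3)
  s32 : g3 * g2 = -(g2 * g3)
  s40 : g4 * g0 = -(g0 * g4)
  s41 : g4 * g1 = -(g1 * g4)
  s42 : g4 * g2 = -(g2 * g4)
  s43 : g4 * g3 = -(g3 * g4)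
  s50 : g5 * g0 = -(g0 * g5)
  s51 : g5 * g1 = -(g1 * g5)
  s52 : g5 * g2 = -(g2 * g5)
  s53 : g5 * g3 = -(g3 * g5)
  s54 : g5 * g4 = -(g4 * g5)
  s60 : g6 * g0 = -(g0 * g6)
  s61 : g6 * g1 = -(g1 * g6)
  s62 : g6 * g2 = -(g2 * g6)
  s63 : g6 * g3 = -(g3 * g6)
  s64 : g6 * g4 = -(g4 * g6)
  s65 : g6 * g5 = -(g5 * g6)
  s70 : g7 * g0 = -(g0 * g7)
  s71 : g7 * g1 = -(g1 * g7)
  s72 : g7 * g2 = -(g2 * g7)
  s73 : g7 * g3 = -(g3 * g7)
  s74 : g7 * g4 = -(g4 * g7)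
  s75 : g7 * g5 = -(g5 * g7)
  s76 : g7 * g6 = -(g6 * g7)
  s80 : g8 * g0 = -(g0 * g8)
  s81 : g8 * g1 = -(g1 * g8)
  s82 : g8 * g2 = -(g2 * g8)
  s83 : g8 * g3 = -(g3 * g8)
  s84 : g8 * g4 = -(g4 * g8)
  s85 : g8 * g5 = -(g5 * g8)
  s86 : g8 * g6 = -(g6 * g8)
  s87 : g8 * g7 = -(g7 * g8)
  s90 : g9 * g0 = -(g0 * g9)
  s91 : g9 * g1 = -(g1 * g9)
  s92 : g9 * g2 = -(g2 * g9)
  s93 : g9 * g3 = -(g3 * g9)
  s94 : g9 * g4 = -(g4 * g9)
  s95 : g9 * g5 = -(g5 * g9)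
  s96 : g9 * g6 = -(g6 * g9)
  s97 : g9 * g7 = -(g7 * g9)
  s98 : g9 * g8 = -(g8 * g9)

/-- the structure equations of the odd family -/
structure OddD (δ : R →+ R) (a c b d w a' c' b' d' w' L1 L2 : R) : Prop where
  da : δ a = 0
  dc : δ c = 0
  db : δ b = a * a'
  dd : δ d = a * c + a * b' + c * c'
  dw : δ w = b * a' + L1
  da' : δ a' = 0
  dc' : δ c' = 0
  db' : δ b' = a' * a
  dd' : δ d' = a' * c' + a' * b + c' * c
  dw' : δ w' = b' * a + L2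
  ma : ∀ x, δ (a * x) = δ a * x - a * δ x
  mc : ∀ x, δ (c * x) = δ c * x - c * δ x
  mb : ∀ x, δ (b * x) = δ b * x - b * δ x
  md : ∀ x, δ (d * x) = δ d * x - d * δ x
  mw : ∀ x, δ (w * x) = δ w * x - w * δ x
  ma' : ∀ x, δ (a' * x) = δ a' * x - a' * δ x
  mc' : ∀ x, δ (c' * x) = δ c' * x - c' * δ x
  mb' : ∀ x, δ (b' * x) = δ b' * x - b' * δ x
  md' : ∀ x, δ (d' * x) = δ d' * x - d' * δ x
  mw' : ∀ x, δ (w' * x) = δ w' * x - w' * δ x

/-- the form `A₀` -/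
def oA (a c b d w a' c' b' d' w' : R) : R :=
  c' * (b' * (d' * w')) - d * (c' * (b' * d')) + w * (c' * (b' * w')) - b * (c' * (d' * w')) - d
  * (w * (c' * b')) - c * (d * (c' * d')) - b * (d * (c' * d')) + b * (w * (c' * w')) - a * (d *
  (w * c')) + c * (d * (w * c')) + b * (d * (w * c')) + a * (b * (d * d')) + a * (b * (d * w))

/-- the form `B₀` -/
def oB (a c b d w a' c' b' d' w' : R) : R :=
  -(w * (a' * (b' * (d' * w')))) + d * (w * (a' * (b' * w'))) - c * (d * (w * (c' * b'))) - c *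
  (d * (w * (a' * w'))) - c * (b * (d * (w * b'))) + a * (c * (d * (w * d')))

/-- the form `ζ` -/
def oZ (a c b d c' : R) : R := a * (c * (b * (d * c')))

/-- the form `ζ'` -/
def oY (a c b d a' c' b' d' : R) : R :=
  c * (b * (d * (a' * (c' * b')))) + a * (c * (b * (d * (a' * d'))))

/-- the form `η` -/
def oE (a c d c' b' d' : R) : R := -(c * (d * (c' * b'))) - a * (c * (d * d'))

variable {δ : R →+ R} {a c b d w a' c' b' d' w' L1 L2 : R}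

theorem oA_main (h : Sys10 a c b d w a' c' b' d' w') (hD : OddD δ a c b d w a' c' b' d' w' L1 L2)
    (h1 : ∀ x, L1 * x = x * L1) (h2 : ∀ x, L2 * x = x * L2) {N : R} (e1 : L1 * N = 0)
    (e2 : L2 * N = 0) :
    δ (oA a c b d w a' c' b' d' w') * N = oZ a c b d c' * N := by
  unfold oA oZ
  simp only [map_add, map_sub, map_neg, hD.ma, hD.mc, hD.mb, hD.md, hD.mw, hD.ma', hD.mc', hD.mb', hD.md',
    hD.mw', hD.da, hD.dc, hD.db, hD.dd, hD.dw, hD.da', hD.dc', hD.db', hD.dd', hD.dw']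
  simp only [add_mul, mul_add, sub_mul, mul_sub, neg_mul, mul_neg, mul_assoc,
    h1 a, cw10 (h1 a), h1 c, cw10 (h1 c), h1 b, cw10 (h1 b), h1 d, cw10 (h1 d), h1 w,
    cw10 (h1 w), h1 a', cw10 (h1 a'), h1 c', cw10 (h1 c'), h1 b', cw10 (h1 b'), h1 d',
    cw10 (h1 d'), h1 w', cw10 (h1 w'), h2 a, cw10 (h2 a), h2 c, cw10 (h2 c), h2 b, cw10 (h2 b),
    h2 d, cw10 (h2 d), h2 w, cw10 (h2 w), h2 a', cw10 (h2 a'), h2 c', cw10 (h2 c'), h2 b',
    cw10 (h2 b'), h2 d', cw10 (h2 d'), h2 w', cw10 (h2 w'), e1, e2, mul_zero, zero_mul, add_zero, zero_add,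
    sub_zero, neg_zero, zero_sub]
  simp only [mul_add, add_mul, mul_sub, sub_mul, mul_neg,
    neg_mul, mul_assoc, neg_neg, mul_zero, zero_mul, neg_zero, sub_zero, zero_sub, add_zero,
    zero_add, sub_self,
    h.s00, sz10 h.s00, h.s10, sw10 h.s10, h.s11, sz10 h.s11, h.s20,
    sw10 h.s20, h.s21, sw10 h.s21, h.s22, sz10 h.s22, h.s30, sw10 h.s30,
    h.s31, sw10 h.s31, h.s32, sw10 h.s32, h.s33, sz10 h.s33, h.s40,
    sw10 h.s40, h.s41, sw10 h.s41, h.s42, sw10 h.s42, h.s43, sw10 h.s43,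
    h.s44, sz10 h.s44, h.s50, sw10 h.s50, h.s51, sw10 h.s51, h.s52,
    sw10 h.s52, h.s53, sw10 h.s53, h.s54, sw10 h.s54, h.s55, sz10 h.s55,
    h.s60, sw10 h.s60, h.s61, sw10 h.s61, h.s62, sw10 h.s62, h.s63,
    sw10 h.s63, h.s64, sw10 h.s64, h.s65, sw10 h.s65, h.s66, sz10 h.s66,
    h.s70, sw10 h.s70, h.s71, sw10 h.s71, h.s72, sw10 h.s72, h.s73,
    sw10 h.s73, h.s74, sw10 h.s74, h.s75, sw10 h.s75, h.s76, sw10 h.s76,
    h.s77, sz10 h.s77, h.s80, sw10 h.s80, h.s81, sw10 h.s81, h.s82,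
    sw10 h.s82, h.s83, sw10 h.s83, h.s84, sw10 h.s84, h.s85, sw10 h.s85,
    h.s86, sw10 h.s86, h.s87, sw10 h.s87, h.s88, sz10 h.s88, h.s90,
    sw10 h.s90, h.s91, sw10 h.s91, h.s92, sw10 h.s92, h.s93, sw10 h.s93,
    h.s94, sw10 h.s94, h.s95, sw10 h.s95, h.s96, sw10 h.s96, h.s97,
    sw10 h.s97, h.s98, sw10 h.s98, h.s99, sz10 h.s99]
  try abel

theorem oB_main (h : Sys10 a c b d w a' c' b' d' w') (hD : OddD δ a c b d w a' c' b' d' w' L1 L2)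
    (h1 : ∀ x, L1 * x = x * L1) (h2 : ∀ x, L2 * x = x * L2) {N : R} (e1 : L1 * N = 0)
    (e2 : L2 * N = 0) :
    δ (oB a c b d w a' c' b' d' w') * N = oY a c b d a' c' b' d' * N := by
  unfold oB oY
  simp only [map_add, map_sub, map_neg, hD.ma, hD.mc, hD.mb, hD.md, hD.mw, hD.ma', hD.mc', hD.mb', hD.md',
    hD.mw', hD.da, hD.dc, hD.db, hD.dd, hD.dw, hD.da', hD.dc', hD.db', hD.dd', hD.dw']
  simp only [add_mul, mul_add, sub_mul, mul_sub, neg_mul, mul_neg, mul_assoc,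
    h1 a, cw10 (h1 a), h1 c, cw10 (h1 c), h1 b, cw10 (h1 b), h1 d, cw10 (h1 d), h1 w,
    cw10 (h1 w), h1 a', cw10 (h1 a'), h1 c', cw10 (h1 c'), h1 b', cw10 (h1 b'), h1 d',
    cw10 (h1 d'), h1 w', cw10 (h1 w'), h2 a, cw10 (h2 a), h2 c, cw10 (h2 c), h2 b, cw10 (h2 b),
    h2 d, cw10 (h2 d), h2 w, cw10 (h2 w), h2 a', cw10 (h2 a'), h2 c', cw10 (h2 c'), h2 b',
    cw10 (h2 b'), h2 d', cw10 (h2 d'), h2 w', cw10 (h2 w'), e1, e2, mul_zero, zero_mul, add_zero, zero_add,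
    sub_zero, neg_zero, zero_sub]
  simp only [mul_add, add_mul, mul_sub, sub_mul, mul_neg,
    neg_mul, mul_assoc, neg_neg, mul_zero, zero_mul, neg_zero, sub_zero, zero_sub, add_zero,
    zero_add, sub_self,
    h.s00, sz10 h.s00, h.s10, sw10 h.s10, h.s11, sz10 h.s11, h.s20,
    sw10 h.s20, h.s21, sw10 h.s21, h.s22, sz10 h.s22, h.s30, sw10 h.s30,
    h.s31, sw10 h.s31, h.s32, sw10 h.s32, h.s33, sz10 h.s33, h.s40,
    sw10 h.s40, h.s41, sw10 h.s41, h.s42, sw10 h.s42, h.s43, sw10 h.s43,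
    h.s44, sz10 h.s44, h.s50, sw10 h.s50, h.s51, sw10 h.s51, h.s52,
    sw10 h.s52, h.s53, sw10 h.s53, h.s54, sw10 h.s54, h.s55, sz10 h.s55,
    h.s60, sw10 h.s60, h.s61, sw10 h.s61, h.s62, sw10 h.s62, h.s63,
    sw10 h.s63, h.s64, sw10 h.s64, h.s65, sw10 h.s65, h.s66, sz10 h.s66,
    h.s70, sw10 h.s70, h.s71, sw10 h.s71, h.s72, sw10 h.s72, h.s73,
    sw10 h.s73, h.s74, sw10 h.s74, h.s75, sw10 h.s75, h.s76, sw10 h.s76,
    h.s77, sz10 h.s77, h.s80, sw10 h.s80, h.s81, sw10 h.s81, h.s82,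
    sw10 h.s82, h.s83, sw10 h.s83, h.s84, sw10 h.s84, h.s85, sw10 h.s85,
    h.s86, sw10 h.s86, h.s87, sw10 h.s87, h.s88, sz10 h.s88, h.s90,
    sw10 h.s90, h.s91, sw10 h.s91, h.s92, sw10 h.s92, h.s93, sw10 h.s93,
    h.s94, sw10 h.s94, h.s95, sw10 h.s95, h.s96, sw10 h.s96, h.s97,
    sw10 h.s97, h.s98, sw10 h.s98, h.s99, sz10 h.s99]
  try abel

theorem oZ_w (h : Sys10 a c b d w a' c' b' d' w') (hD : OddD δ a c b d w a' c' b' d' w' L1 L2)
    (h1 : ∀ x, L1 * x = x * L1) (h2 : ∀ x, L2 * x = x * L2) :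
    δ (w * oZ a c b d c') = oZ a c b d c' * L1 := by
  unfold oZ
  simp only [map_add, map_sub, map_neg, hD.ma, hD.mc, hD.mb, hD.md, hD.mw, hD.ma', hD.mc', hD.mb', hD.md',
    hD.mw', hD.da, hD.dc, hD.db, hD.dd, hD.dw, hD.da', hD.dc', hD.db', hD.dd', hD.dw']
  simp only [add_mul, mul_add, sub_mul, mul_sub, neg_mul, mul_neg, mul_assoc,
    h1 a, cw10 (h1 a), h1 c, cw10 (h1 c), h1 b, cw10 (h1 b), h1 d, cw10 (h1 d), h1 w,
    cw10 (h1 w), h1 a', cw10 (h1 a'), h1 c', cw10 (h1 c'), h1 b', cw10 (h1 b'), h1 d',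
    cw10 (h1 d'), h1 w', cw10 (h1 w'), h2 a, cw10 (h2 a), h2 c, cw10 (h2 c), h2 b, cw10 (h2 b),
    h2 d, cw10 (h2 d), h2 w, cw10 (h2 w), h2 a', cw10 (h2 a'), h2 c', cw10 (h2 c'), h2 b',
    cw10 (h2 b'), h2 d', cw10 (h2 d'), h2 w', cw10 (h2 w'), mul_zero, zero_mul, add_zero, zero_add,
    sub_zero, neg_zero, zero_sub]
  simp only [mul_add, add_mul, mul_sub, sub_mul, mul_neg,
    neg_mul, mul_assoc, neg_neg, mul_zero, zero_mul, neg_zero, sub_zero, zero_sub, add_zero,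
    zero_add, sub_self,
    h.s00, sz10 h.s00, h.s10, sw10 h.s10, h.s11, sz10 h.s11, h.s20,
    sw10 h.s20, h.s21, sw10 h.s21, h.s22, sz10 h.s22, h.s30, sw10 h.s30,
    h.s31, sw10 h.s31, h.s32, sw10 h.s32, h.s33, sz10 h.s33, h.s40,
    sw10 h.s40, h.s41, sw10 h.s41, h.s42, sw10 h.s42, h.s43, sw10 h.s43,
    h.s44, sz10 h.s44, h.s50, sw10 h.s50, h.s51, sw10 h.s51, h.s52,
    sw10 h.s52, h.s53, sw10 h.s53, h.s54, sw10 h.s54, h.s55, sz10 h.s55,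
    h.s60, sw10 h.s60, h.s61, sw10 h.s61, h.s62, sw10 h.s62, h.s63,
    sw10 h.s63, h.s64, sw10 h.s64, h.s65, sw10 h.s65, h.s66, sz10 h.s66,
    h.s70, sw10 h.s70, h.s71, sw10 h.s71, h.s72, sw10 h.s72, h.s73,
    sw10 h.s73, h.s74, sw10 h.s74, h.s75, sw10 h.s75, h.s76, sw10 h.s76,
    h.s77, sz10 h.s77, h.s80, sw10 h.s80, h.s81, sw10 h.s81, h.s82,
    sw10 h.s82, h.s83, sw10 h.s83, h.s84, sw10 h.s84, h.s85, sw10 h.s85,
    h.s86, sw10 h.s86, h.s87, sw10 h.s87, h.s88, sz10 h.s88, h.s90,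
    sw10 h.s90, h.s91, sw10 h.s91, h.s92, sw10 h.s92, h.s93, sw10 h.s93,
    h.s94, sw10 h.s94, h.s95, sw10 h.s95, h.s96, sw10 h.s96, h.s97,
    sw10 h.s97, h.s98, sw10 h.s98, h.s99, sz10 h.s99]
  try abel

theorem oZ_w' (h : Sys10 a c b d w a' c' b' d' w') (hD : OddD δ a c b d w a' c' b' d' w' L1 L2)
    (h1 : ∀ x, L1 * x = x * L1) (h2 : ∀ x, L2 * x = x * L2) :
    δ (w' * oZ a c b d c') = oZ a c b d c' * L2 := by
  unfold oZ
  simp only [map_add, map_sub, map_neg, hD.ma, hD.mc, hD.mb, hD.md, hD.mw, hD.ma', hD.mc', hD.mb', hD.md',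
    hD.mw', hD.da, hD.dc, hD.db, hD.dd, hD.dw, hD.da', hD.dc', hD.db', hD.dd', hD.dw']
  simp only [add_mul, mul_add, sub_mul, mul_sub, neg_mul, mul_neg, mul_assoc,
    h1 a, cw10 (h1 a), h1 c, cw10 (h1 c), h1 b, cw10 (h1 b), h1 d, cw10 (h1 d), h1 w,
    cw10 (h1 w), h1 a', cw10 (h1 a'), h1 c', cw10 (h1 c'), h1 b', cw10 (h1 b'), h1 d',
    cw10 (h1 d'), h1 w', cw10 (h1 w'), h2 a, cw10 (h2 a), h2 c, cw10 (h2 c), h2 b, cw10 (h2 b),
    h2 d, cw10 (h2 d), h2 w, cw10 (h2 w), h2 a', cw10 (h2 a'), h2 c', cw10 (h2 c'), h2 b',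
    cw10 (h2 b'), h2 d', cw10 (h2 d'), h2 w', cw10 (h2 w'), mul_zero, zero_mul, add_zero, zero_add,
    sub_zero, neg_zero, zero_sub]
  simp only [mul_add, add_mul, mul_sub, sub_mul, mul_neg,
    neg_mul, mul_assoc, neg_neg, mul_zero, zero_mul, neg_zero, sub_zero, zero_sub, add_zero,
    zero_add, sub_self,
    h.s00, sz10 h.s00, h.s10, sw10 h.s10, h.s11, sz10 h.s11, h.s20,
    sw10 h.s20, h.s21, sw10 h.s21, h.s22, sz10 h.s22, h.s30, sw10 h.s30,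
    h.s31, sw10 h.s31, h.s32, sw10 h.s32, h.s33, sz10 h.s33, h.s40,
    sw10 h.s40, h.s41, sw10 h.s41, h.s42, sw10 h.s42, h.s43, sw10 h.s43,
    h.s44, sz10 h.s44, h.s50, sw10 h.s50, h.s51, sw10 h.s51, h.s52,
    sw10 h.s52, h.s53, sw10 h.s53, h.s54, sw10 h.s54, h.s55, sz10 h.s55,
    h.s60, sw10 h.s60, h.s61, sw10 h.s61, h.s62, sw10 h.s62, h.s63,
    sw10 h.s63, h.s64, sw10 h.s64, h.s65, sw10 h.s65, h.s66, sz10 h.s66,
    h.s70, sw10 h.s70, h.s71, sw10 h.s71, h.s72, sw10 h.s72, h.s73,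
    sw10 h.s73, h.s74, sw10 h.s74, h.s75, sw10 h.s75, h.s76, sw10 h.s76,
    h.s77, sz10 h.s77, h.s80, sw10 h.s80, h.s81, sw10 h.s81, h.s82,
    sw10 h.s82, h.s83, sw10 h.s83, h.s84, sw10 h.s84, h.s85, sw10 h.s85,
    h.s86, sw10 h.s86, h.s87, sw10 h.s87, h.s88, sz10 h.s88, h.s90,
    sw10 h.s90, h.s91, sw10 h.s91, h.s92, sw10 h.s92, h.s93, sw10 h.s93,
    h.s94, sw10 h.s94, h.s95, sw10 h.s95, h.s96, sw10 h.s96, h.s97,
    sw10 h.s97, h.s98, sw10 h.s98, h.s99, sz10 h.s99]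
  try abel

theorem oY_w (h : Sys10 a c b d w a' c' b' d' w') (hD : OddD δ a c b d w a' c' b' d' w' L1 L2)
    (h1 : ∀ x, L1 * x = x * L1) (h2 : ∀ x, L2 * x = x * L2) :
    δ (w * oY a c b d a' c' b' d') = oY a c b d a' c' b' d' * L1 := by
  unfold oY
  simp only [map_add, map_sub, map_neg, hD.ma, hD.mc, hD.mb, hD.md, hD.mw, hD.ma', hD.mc', hD.mb', hD.md',
    hD.mw', hD.da, hD.dc, hD.db, hD.dd, hD.dw, hD.da', hD.dc', hD.db', hD.dd', hD.dw']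
  simp only [add_mul, mul_add, sub_mul, mul_sub, neg_mul, mul_neg, mul_assoc,
    h1 a, cw10 (h1 a), h1 c, cw10 (h1 c), h1 b, cw10 (h1 b), h1 d, cw10 (h1 d), h1 w,
    cw10 (h1 w), h1 a', cw10 (h1 a'), h1 c', cw10 (h1 c'), h1 b', cw10 (h1 b'), h1 d',
    cw10 (h1 d'), h1 w', cw10 (h1 w'), h2 a, cw10 (h2 a), h2 c, cw10 (h2 c), h2 b, cw10 (h2 b),
    h2 d, cw10 (h2 d), h2 w, cw10 (h2 w), h2 a', cw10 (h2 a'), h2 c', cw10 (h2 c'), h2 b',
    cw10 (h2 b'), h2 d', cw10 (h2 d'), h2 w', cw10 (h2 w'), mul_zero, zero_mul, add_zero, zero_add,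
    sub_zero, neg_zero, zero_sub]
  simp only [mul_add, add_mul, mul_sub, sub_mul, mul_neg,
    neg_mul, mul_assoc, neg_neg, mul_zero, zero_mul, neg_zero, sub_zero, zero_sub, add_zero,
    zero_add, sub_self,
    h.s00, sz10 h.s00, h.s10, sw10 h.s10, h.s11, sz10 h.s11, h.s20,
    sw10 h.s20, h.s21, sw10 h.s21, h.s22, sz10 h.s22, h.s30, sw10 h.s30,
    h.s31, sw10 h.s31, h.s32, sw10 h.s32, h.s33, sz10 h.s33, h.s40,
    sw10 h.s40, h.s41, sw10 h.s41, h.s42, sw10 h.s42, h.s43, sw10 h.s43,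
    h.s44, sz10 h.s44, h.s50, sw10 h.s50, h.s51, sw10 h.s51, h.s52,
    sw10 h.s52, h.s53, sw10 h.s53, h.s54, sw10 h.s54, h.s55, sz10 h.s55,
    h.s60, sw10 h.s60, h.s61, sw10 h.s61, h.s62, sw10 h.s62, h.s63,
    sw10 h.s63, h.s64, sw10 h.s64, h.s65, sw10 h.s65, h.s66, sz10 h.s66,
    h.s70, sw10 h.s70, h.s71, sw10 h.s71, h.s72, sw10 h.s72, h.s73,
    sw10 h.s73, h.s74, sw10 h.s74, h.s75, sw10 h.s75, h.s76, sw10 h.s76,
    h.s77, sz10 h.s77, h.s80, sw10 h.s80, h.s81, sw10 h.s81, h.s82,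
    sw10 h.s82, h.s83, sw10 h.s83, h.s84, sw10 h.s84, h.s85, sw10 h.s85,
    h.s86, sw10 h.s86, h.s87, sw10 h.s87, h.s88, sz10 h.s88, h.s90,
    sw10 h.s90, h.s91, sw10 h.s91, h.s92, sw10 h.s92, h.s93, sw10 h.s93,
    h.s94, sw10 h.s94, h.s95, sw10 h.s95, h.s96, sw10 h.s96, h.s97,
    sw10 h.s97, h.s98, sw10 h.s98, h.s99, sz10 h.s99]
  try abel

theorem oY_w' (h : Sys10 a c b d w a' c' b' d' w') (hD : OddD δ a c b d w a' c' b' d' w' L1 L2)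
    (h1 : ∀ x, L1 * x = x * L1) (h2 : ∀ x, L2 * x = x * L2) :
    δ (w' * oY a c b d a' c' b' d') = oY a c b d a' c' b' d' * L2 := by
  unfold oY
  simp only [map_add, map_sub, map_neg, hD.ma, hD.mc, hD.mb, hD.md, hD.mw, hD.ma', hD.mc', hD.mb', hD.md',
    hD.mw', hD.da, hD.dc, hD.db, hD.dd, hD.dw, hD.da', hD.dc', hD.db', hD.dd', hD.dw']
  simp only [add_mul, mul_add, sub_mul, mul_sub, neg_mul, mul_neg, mul_assoc,
    h1 a, cw10 (h1 a), h1 c, cw10 (h1 c), h1 b, cw10 (h1 b), h1 d, cw10 (h1 d), h1 w,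
    cw10 (h1 w), h1 a', cw10 (h1 a'), h1 c', cw10 (h1 c'), h1 b', cw10 (h1 b'), h1 d',
    cw10 (h1 d'), h1 w', cw10 (h1 w'), h2 a, cw10 (h2 a), h2 c, cw10 (h2 c), h2 b, cw10 (h2 b),
    h2 d, cw10 (h2 d), h2 w, cw10 (h2 w), h2 a', cw10 (h2 a'), h2 c', cw10 (h2 c'), h2 b',
    cw10 (h2 b'), h2 d', cw10 (h2 d'), h2 w', cw10 (h2 w'), mul_zero, zero_mul, add_zero, zero_add,
    sub_zero, neg_zero, zero_sub]
  simp only [mul_add, add_mul, mul_sub, sub_mul, mul_neg,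
    neg_mul, mul_assoc, neg_neg, mul_zero, zero_mul, neg_zero, sub_zero, zero_sub, add_zero,
    zero_add, sub_self,
    h.s00, sz10 h.s00, h.s10, sw10 h.s10, h.s11, sz10 h.s11, h.s20,
    sw10 h.s20, h.s21, sw10 h.s21, h.s22, sz10 h.s22, h.s30, sw10 h.s30,
    h.s31, sw10 h.s31, h.s32, sw10 h.s32, h.s33, sz10 h.s33, h.s40,
    sw10 h.s40, h.s41, sw10 h.s41, h.s42, sw10 h.s42, h.s43, sw10 h.s43,
    h.s44, sz10 h.s44, h.s50, sw10 h.s50, h.s51, sw10 h.s51, h.s52,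
    sw10 h.s52, h.s53, sw10 h.s53, h.s54, sw10 h.s54, h.s55, sz10 h.s55,
    h.s60, sw10 h.s60, h.s61, sw10 h.s61, h.s62, sw10 h.s62, h.s63,
    sw10 h.s63, h.s64, sw10 h.s64, h.s65, sw10 h.s65, h.s66, sz10 h.s66,
    h.s70, sw10 h.s70, h.s71, sw10 h.s71, h.s72, sw10 h.s72, h.s73,
    sw10 h.s73, h.s74, sw10 h.s74, h.s75, sw10 h.s75, h.s76, sw10 h.s76,
    h.s77, sz10 h.s77, h.s80, sw10 h.s80, h.s81, sw10 h.s81, h.s82,
    sw10 h.s82, h.s83, sw10 h.s83, h.s84, sw10 h.s84, h.s85, sw10 h.s85,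
    h.s86, sw10 h.s86, h.s87, sw10 h.s87, h.s88, sz10 h.s88, h.s90,
    sw10 h.s90, h.s91, sw10 h.s91, h.s92, sw10 h.s92, h.s93, sw10 h.s93,
    h.s94, sw10 h.s94, h.s95, sw10 h.s95, h.s96, sw10 h.s96, h.s97,
    sw10 h.s97, h.s98, sw10 h.s98, h.s99, sz10 h.s99]
  try abel

theorem oE_main (h : Sys10 a c b d w a' c' b' d' w') (hD : OddD δ a c b d w a' c' b' d' w' L1 L2)
    (h1 : ∀ x, L1 * x = x * L1) (h2 : ∀ x, L2 * x = x * L2) :
    δ (w * oE a c d c' b' d') = oY a c b d a' c' b' d' + oE a c d c' b' d' * L1 -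
      a * (c * (b * (d * (w * a')))) := by
  unfold oY oE
  simp only [map_add, map_sub, map_neg, hD.ma, hD.mc, hD.mb, hD.md, hD.mw, hD.ma', hD.mc', hD.mb', hD.md',
    hD.mw', hD.da, hD.dc, hD.db, hD.dd, hD.dw, hD.da', hD.dc', hD.db', hD.dd', hD.dw']
  simp only [add_mul, mul_add, sub_mul, mul_sub, neg_mul, mul_neg, mul_assoc,
    h1 a, cw10 (h1 a), h1 c, cw10 (h1 c), h1 b, cw10 (h1 b), h1 d, cw10 (h1 d), h1 w,
    cw10 (h1 w), h1 a', cw10 (h1 a'), h1 c', cw10 (h1 c'), h1 b', cw10 (h1 b'), h1 d',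
    cw10 (h1 d'), h1 w', cw10 (h1 w'), h2 a, cw10 (h2 a), h2 c, cw10 (h2 c), h2 b, cw10 (h2 b),
    h2 d, cw10 (h2 d), h2 w, cw10 (h2 w), h2 a', cw10 (h2 a'), h2 c', cw10 (h2 c'), h2 b',
    cw10 (h2 b'), h2 d', cw10 (h2 d'), h2 w', cw10 (h2 w'), mul_zero, zero_mul, add_zero, zero_add,
    sub_zero, neg_zero, zero_sub]
  simp only [mul_add, add_mul, mul_sub, sub_mul, mul_neg,
    neg_mul, mul_assoc, neg_neg, mul_zero, zero_mul, neg_zero, sub_zero, zero_sub, add_zero,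
    zero_add, sub_self,
    h.s00, sz10 h.s00, h.s10, sw10 h.s10, h.s11, sz10 h.s11, h.s20,
    sw10 h.s20, h.s21, sw10 h.s21, h.s22, sz10 h.s22, h.s30, sw10 h.s30,
    h.s31, sw10 h.s31, h.s32, sw10 h.s32, h.s33, sz10 h.s33, h.s40,
    sw10 h.s40, h.s41, sw10 h.s41, h.s42, sw10 h.s42, h.s43, sw10 h.s43,
    h.s44, sz10 h.s44, h.s50, sw10 h.s50, h.s51, sw10 h.s51, h.s52,
    sw10 h.s52, h.s53, sw10 h.s53, h.s54, sw10 h.s54, h.s55, sz10 h.s55,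
    h.s60, sw10 h.s60, h.s61, sw10 h.s61, h.s62, sw10 h.s62, h.s63,
    sw10 h.s63, h.s64, sw10 h.s64, h.s65, sw10 h.s65, h.s66, sz10 h.s66,
    h.s70, sw10 h.s70, h.s71, sw10 h.s71, h.s72, sw10 h.s72, h.s73,
    sw10 h.s73, h.s74, sw10 h.s74, h.s75, sw10 h.s75, h.s76, sw10 h.s76,
    h.s77, sz10 h.s77, h.s80, sw10 h.s80, h.s81, sw10 h.s81, h.s82,
    sw10 h.s82, h.s83, sw10 h.s83, h.s84, sw10 h.s84, h.s85, sw10 h.s85,
    h.s86, sw10 h.s86, h.s87, sw10 h.s87, h.s88, sz10 h.s88, h.s90,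
    sw10 h.s90, h.s91, sw10 h.s91, h.s92, sw10 h.s92, h.s93, sw10 h.s93,
    h.s94, sw10 h.s94, h.s95, sw10 h.s95, h.s96, sw10 h.s96, h.s97,
    sw10 h.s97, h.s98, sw10 h.s98, h.s99, sz10 h.s99]
  try abel

theorem oTop (h : Sys10 a c b d w a' c' b' d' w') :
    a * (c * (b * (d * (w * a')))) * oA a c b d w a' c' b' d' w' =
      a * (c * (b * (d * (w * (a' * (c' * (b' * (d' * w')))))))) := by
  unfold oA
  simp only [mul_add, add_mul, mul_sub, sub_mul, mul_neg,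
    neg_mul, mul_assoc, neg_neg, mul_zero, zero_mul, neg_zero, sub_zero, zero_sub, add_zero,
    zero_add, sub_self,
    h.s00, sz10 h.s00, h.s10, sw10 h.s10, h.s11, sz10 h.s11, h.s20,
    sw10 h.s20, h.s21, sw10 h.s21, h.s22, sz10 h.s22, h.s30, sw10 h.s30,
    h.s31, sw10 h.s31, h.s32, sw10 h.s32, h.s33, sz10 h.s33, h.s40,
    sw10 h.s40, h.s41, sw10 h.s41, h.s42, sw10 h.s42, h.s43, sw10 h.s43,
    h.s44, sz10 h.s44, h.s50, sw10 h.s50, h.s51, sw10 h.s51, h.s52,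
    sw10 h.s52, h.s53, sw10 h.s53, h.s54, sw10 h.s54, h.s55, sz10 h.s55,
    h.s60, sw10 h.s60, h.s61, sw10 h.s61, h.s62, sw10 h.s62, h.s63,
    sw10 h.s63, h.s64, sw10 h.s64, h.s65, sw10 h.s65, h.s66, sz10 h.s66,
    h.s70, sw10 h.s70, h.s71, sw10 h.s71, h.s72, sw10 h.s72, h.s73,
    sw10 h.s73, h.s74, sw10 h.s74, h.s75, sw10 h.s75, h.s76, sw10 h.s76,
    h.s77, sz10 h.s77, h.s80, sw10 h.s80, h.s81, sw10 h.s81, h.s82,
    sw10 h.s82, h.s83, sw10 h.s83, h.s84, sw10 h.s84, h.s85, sw10 h.s85,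
    h.s86, sw10 h.s86, h.s87, sw10 h.s87, h.s88, sz10 h.s88, h.s90,
    sw10 h.s90, h.s91, sw10 h.s91, h.s92, sw10 h.s92, h.s93, sw10 h.s93,
    h.s94, sw10 h.s94, h.s95, sw10 h.s95, h.s96, sw10 h.s96, h.s97,
    sw10 h.s97, h.s98, sw10 h.s98, h.s99, sz10 h.s99]

theorem oTop1 (h : Sys10 a c b d w a' c' b' d' w') :
    a * (c * (b * (d * (w * a')))) * (w * oZ a c b d c') = 0 := by
  unfold oZ
  simp only [mul_add, add_mul, mul_sub, sub_mul, mul_neg,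
    neg_mul, mul_assoc, neg_neg, mul_zero, zero_mul, neg_zero, sub_zero, zero_sub, add_zero,
    zero_add, sub_self,
    h.s00, sz10 h.s00, h.s10, sw10 h.s10, h.s11, sz10 h.s11, h.s20,
    sw10 h.s20, h.s21, sw10 h.s21, h.s22, sz10 h.s22, h.s30, sw10 h.s30,
    h.s31, sw10 h.s31, h.s32, sw10 h.s32, h.s33, sz10 h.s33, h.s40,
    sw10 h.s40, h.s41, sw10 h.s41, h.s42, sw10 h.s42, h.s43, sw10 h.s43,
    h.s44, sz10 h.s44, h.s50, sw10 h.s50, h.s51, sw10 h.s51, h.s52,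
    sw10 h.s52, h.s53, sw10 h.s53, h.s54, sw10 h.s54, h.s55, sz10 h.s55,
    h.s60, sw10 h.s60, h.s61, sw10 h.s61, h.s62, sw10 h.s62, h.s63,
    sw10 h.s63, h.s64, sw10 h.s64, h.s65, sw10 h.s65, h.s66, sz10 h.s66,
    h.s70, sw10 h.s70, h.s71, sw10 h.s71, h.s72, sw10 h.s72, h.s73,
    sw10 h.s73, h.s74, sw10 h.s74, h.s75, sw10 h.s75, h.s76, sw10 h.s76,
    h.s77, sz10 h.s77, h.s80, sw10 h.s80, h.s81, sw10 h.s81, h.s82,
    sw10 h.s82, h.s83, sw10 h.s83, h.s84, sw10 h.s84, h.s85, sw10 h.s85,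
    h.s86, sw10 h.s86, h.s87, sw10 h.s87, h.s88, sz10 h.s88, h.s90,
    sw10 h.s90, h.s91, sw10 h.s91, h.s92, sw10 h.s92, h.s93, sw10 h.s93,
    h.s94, sw10 h.s94, h.s95, sw10 h.s95, h.s96, sw10 h.s96, h.s97,
    sw10 h.s97, h.s98, sw10 h.s98, h.s99, sz10 h.s99]

theorem oTop2 (h : Sys10 a c b d w a' c' b' d' w') :
    a * (c * (b * (d * (w * a')))) * (w' * oZ a c b d c') = 0 := by
  unfold oZ
  simp only [mul_add, add_mul, mul_sub, sub_mul, mul_neg,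
    neg_mul, mul_assoc, neg_neg, mul_zero, zero_mul, neg_zero, sub_zero, zero_sub, add_zero,
    zero_add, sub_self,
    h.s00, sz10 h.s00, h.s10, sw10 h.s10, h.s11, sz10 h.s11, h.s20,
    sw10 h.s20, h.s21, sw10 h.s21, h.s22, sz10 h.s22, h.s30, sw10 h.s30,
    h.s31, sw10 h.s31, h.s32, sw10 h.s32, h.s33, sz10 h.s33, h.s40,
    sw10 h.s40, h.s41, sw10 h.s41, h.s42, sw10 h.s42, h.s43, sw10 h.s43,
    h.s44, sz10 h.s44, h.s50, sw10 h.s50, h.s51, sw10 h.s51, h.s52,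
    sw10 h.s52, h.s53, sw10 h.s53, h.s54, sw10 h.s54, h.s55, sz10 h.s55,
    h.s60, sw10 h.s60, h.s61, sw10 h.s61, h.s62, sw10 h.s62, h.s63,
    sw10 h.s63, h.s64, sw10 h.s64, h.s65, sw10 h.s65, h.s66, sz10 h.s66,
    h.s70, sw10 h.s70, h.s71, sw10 h.s71, h.s72, sw10 h.s72, h.s73,
    sw10 h.s73, h.s74, sw10 h.s74, h.s75, sw10 h.s75, h.s76, sw10 h.s76,
    h.s77, sz10 h.s77, h.s80, sw10 h.s80, h.s81, sw10 h.s81, h.s82,
    sw10 h.s82, h.s83, sw10 h.s83, h.s84, sw10 h.s84, h.s85, sw10 h.s85,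
    h.s86, sw10 h.s86, h.s87, sw10 h.s87, h.s88, sz10 h.s88, h.s90,
    sw10 h.s90, h.s91, sw10 h.s91, h.s92, sw10 h.s92, h.s93, sw10 h.s93,
    h.s94, sw10 h.s94, h.s95, sw10 h.s95, h.s96, sw10 h.s96, h.s97,
    sw10 h.s97, h.s98, sw10 h.s98, h.s99, sz10 h.s99]

theorem oY_comm (h : Sys10 a c b d w a' c' b' d' w') :
    w' * oY a c b d a' c' b' d' = oY a c b d a' c' b' d' * w' := by
  unfold oY
  simp only [mul_add, add_mul, mul_sub, sub_mul, mul_neg,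
    neg_mul, mul_assoc, neg_neg, mul_zero, zero_mul, neg_zero, sub_zero, zero_sub, add_zero,
    zero_add, sub_self,
    h.s00, sz10 h.s00, h.s10, sw10 h.s10, h.s11, sz10 h.s11, h.s20,
    sw10 h.s20, h.s21, sw10 h.s21, h.s22, sz10 h.s22, h.s30, sw10 h.s30,
    h.s31, sw10 h.s31, h.s32, sw10 h.s32, h.s33, sz10 h.s33, h.s40,
    sw10 h.s40, h.s41, sw10 h.s41, h.s42, sw10 h.s42, h.s43, sw10 h.s43,
    h.s44, sz10 h.s44, h.s50, sw10 h.s50, h.s51, sw10 h.s51, h.s52,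
    sw10 h.s52, h.s53, sw10 h.s53, h.s54, sw10 h.s54, h.s55, sz10 h.s55,
    h.s60, sw10 h.s60, h.s61, sw10 h.s61, h.s62, sw10 h.s62, h.s63,
    sw10 h.s63, h.s64, sw10 h.s64, h.s65, sw10 h.s65, h.s66, sz10 h.s66,
    h.s70, sw10 h.s70, h.s71, sw10 h.s71, h.s72, sw10 h.s72, h.s73,
    sw10 h.s73, h.s74, sw10 h.s74, h.s75, sw10 h.s75, h.s76, sw10 h.s76,
    h.s77, sz10 h.s77, h.s80, sw10 h.s80, h.s81, sw10 h.s81, h.s82,
    sw10 h.s82, h.s83, sw10 h.s83, h.s84, sw10 h.s84, h.s85, sw10 h.s85,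
    h.s86, sw10 h.s86, h.s87, sw10 h.s87, h.s88, sz10 h.s88, h.s90,
    sw10 h.s90, h.s91, sw10 h.s91, h.s92, sw10 h.s92, h.s93, sw10 h.s93,
    h.s94, sw10 h.s94, h.s95, sw10 h.s95, h.s96, sw10 h.s96, h.s97,
    sw10 h.s97, h.s98, sw10 h.s98, h.s99, sz10 h.s99]


end Abs

section Concrete

variable (k : ℕ)

theorem hDO (s : Idx 5 k ⊕ Idx 5 k) (v : Idx 5 k ⊕ Idx 5 k → ℂ) :
    DO k s * ExteriorAlgebra.ι ℂ v = ExteriorAlgebra.ι ℂ v * DO k s := by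
  suffices h : Ev (DO k s) from h v
  rcases s with (i | i) | (i | i)
  · fin_cases i
    · exact Ev.zero
    · exact Ev.zero
    · exact Ev.gen_mul _ _
    · exact ((Ev.gen_mul _ _).add (Ev.gen_mul _ _)).add (Ev.gen_mul _ _)
    · exact (Ev.gen_mul _ _).add L1_ev
  · exact Ev.zero
  · fin_cases i
    · exact Ev.zero
    · exact Ev.zero
    · exact Ev.gen_mul _ _
    · exact ((Ev.gen_mul _ _).add (Ev.gen_mul _ _)).add (Ev.gen_mul _ _)
    · exact (Ev.gen_mul _ _).add L2_ev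
  · exact Ev.zero

theorem sys : Sys10 (cg 5 k 0) (cg 5 k 1) (cg 5 k 2) (cg 5 k 3) (cg 5 k 4)
    (cg' 5 k 0) (cg' 5 k 1) (cg' 5 k 2) (cg' 5 k 3) (cg' 5 k 4) := by
  constructor <;> first | exact gen_sq _ | exact gen_anti _ _

theorem oddD : OddD (delta (DO k)).toAddMonoidHom (cg 5 k 0) (cg 5 k 1) (cg 5 k 2) (cg 5 k 3)
    (cg 5 k 4) (cg' 5 k 0) (cg' 5 k 1) (cg' 5 k 2) (cg' 5 k 3) (cg' 5 k 4) (L1 5 k) (L2 5 k) := by
  constructor <;> first | exact delta_gen (DO k) _ | exact delta_gen_mul (hDO k) _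

end Concrete

section Mem

variable {R : Type*} [Ring R] [Algebra ℂ R] {U W : Submodule ℂ R}

theorem wm {j : ℕ} {x y : R} (hx : x ∈ W) (hy : y ∈ W ^ j) : x * y ∈ W ^ (j + 1) := by
  rw [pow_succ']
  exact Submodule.mul_mem_mul hx hy

theorem um {j : ℕ} {x y : R} (hx : x ∈ U) (hy : y ∈ W ^ j) : x * y ∈ U ^ 1 * W ^ j := by
  rw [pow_one]
  exact Submodule.mul_mem_mul hx hy

theorem uum {i j : ℕ} {x y : R} (hx : x ∈ U) (hy : y ∈ U ^ i * W ^ j) :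
    x * y ∈ U ^ (i + 1) * W ^ j := by
  rw [pow_succ', mul_assoc]
  exact Submodule.mul_mem_mul hx hy

theorem w1 {x : R} (hx : x ∈ W) : x ∈ W ^ 1 := by rwa [pow_one]

variable {a c b d w a' c' b' d' w' : R}

theorem oA_mem (ha : a ∈ W) (hc : c ∈ W) (hb : b ∈ W) (hd : d ∈ W) (hw : w ∈ W)
    (ha' : a' ∈ W) (hc' : c' ∈ W) (hb' : b' ∈ W) (hd' : d' ∈ W) (hw' : w' ∈ W) :
    oA a c b d w a' c' b' d' w' ∈ W ^ 4 := by
  unfold oA
  with_reducible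
    repeat' (first | apply add_mem | apply sub_mem | apply neg_mem)
  all_goals exact wm (by assumption) (wm (by assumption) (wm (by assumption) (w1
    (by assumption))))

theorem oZ_mem (ha : a ∈ W) (hc : c ∈ W) (hb : b ∈ W) (hd : d ∈ W) (hc' : c' ∈ W) :
    oZ a c b d c' ∈ W ^ 5 := by
  unfold oZ
  with_reducible
    repeat' (first | apply add_mem | apply sub_mem | apply neg_mem)
  all_goals exact wm (by assumption) (wm (by assumption) (wm (by assumption) (wm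
    (by assumption) (w1 (by assumption)))))

theorem oE_mem (ha : a ∈ W) (hc : c ∈ W) (hd : d ∈ W)
    (hc' : c' ∈ W) (hb' : b' ∈ W) (hd' : d' ∈ W) :
    oE a c d c' b' d' ∈ W ^ 4 := by
  unfold oE
  with_reducible
    repeat' (first | apply add_mem | apply sub_mem | apply neg_mem)
  all_goals exact wm (by assumption) (wm (by assumption) (wm (by assumption) (w1
    (by assumption))))

theorem oY_mem (ha : a ∈ W) (hc : c ∈ W) (hb : b ∈ W) (hd : d ∈ W)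
    (ha' : a' ∈ W) (hc' : c' ∈ W) (hb' : b' ∈ W) (hd' : d' ∈ W) :
    oY a c b d a' c' b' d' ∈ W ^ 6 := by
  unfold oY
  with_reducible
    repeat' (first | apply add_mem | apply sub_mem | apply neg_mem)
  all_goals exact wm (by assumption) (wm (by assumption) (wm (by assumption) (wm
    (by assumption) (wm (by assumption) (w1 (by assumption))))))

theorem oB_mem (ha : a ∈ W) (hc : c ∈ W) (hb : b ∈ W) (hd : d ∈ W) (hw : w ∈ W)
    (ha' : a' ∈ W) (hc' : c' ∈ W) (hb' : b' ∈ W) (hd' : d' ∈ W) (hw' : w' ∈ W)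
    (ua : a ∈ U) (uc : c ∈ U) (ud : d ∈ U) (uw : w ∈ U) :
    oB a c b d w a' c' b' d' w' ∈ U ^ 1 * W ^ 4 := by
  unfold oB
  with_reducible
    repeat' (first | apply add_mem | apply sub_mem | apply neg_mem)
  all_goals exact um (by assumption) (wm (by assumption) (wm (by assumption) (wm
    (by assumption) (w1 (by assumption)))))

theorem oY_mem' (ha : a ∈ W) (hc : c ∈ W) (hb : b ∈ W) (hd : d ∈ W)
    (ha' : a' ∈ W) (hc' : c' ∈ W) (hb' : b' ∈ W) (hd' : d' ∈ W) (ua : a ∈ U) (uc : c ∈ U) :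
    oY a c b d a' c' b' d' ∈ U ^ 1 * W ^ 5 := by
  unfold oY
  with_reducible
    repeat' (first | apply add_mem | apply sub_mem | apply neg_mem)
  all_goals exact um (by assumption) (wm (by assumption) (wm (by assumption) (wm
    (by assumption) (wm (by assumption) (w1 (by assumption))))))

theorem mem4 (ha : a ∈ U) (hc : c ∈ U) (hb : b ∈ U) (hd : d ∈ U) :
    a * (c * (b * d)) ∈ U ^ 4 := by
  exact wm (by assumption) (wm (by assumption) (wm (by assumption) (w1 (by assumption))))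

theorem mem5 (ha : a ∈ U) (hc : c ∈ U) (hb : b ∈ U) (hd : d ∈ U) (hw : w ∈ U) :
    a * (c * (b * (d * w))) ∈ U ^ 5 := by
  exact wm (by assumption) (wm (by assumption) (wm (by assumption) (wm (by assumption) (w1
    (by assumption)))))

end Mem

section Final

variable (k : ℕ)

/-- the list of the generators in the order used for the top form -/
def topL : List (Idx 5 k ⊕ Idx 5 k) :=
  [Sum.inl (Sum.inl 0), Sum.inl (Sum.inl 1), Sum.inl (Sum.inl 2), Sum.inl (Sum.inl 3),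
    Sum.inl (Sum.inl 4)] ++
  ((List.finRange k).flatMap fun j => [Sum.inl (Sum.inr (j, 0)), Sum.inl (Sum.inr (j, 1))]) ++
  ([Sum.inr (Sum.inl 0), Sum.inr (Sum.inl 1), Sum.inr (Sum.inl 2), Sum.inr (Sum.inl 3),
    Sum.inr (Sum.inl 4)] ++
  ((List.finRange k).flatMap fun j => [Sum.inr (Sum.inr (j, 0)), Sum.inr (Sum.inr (j, 1))]))

theorem topL_length : (topL k).length = 2 * (5 + 2 * k) := by
  simp [topL, List.length_flatMap]
  ring

theorem topL_nodup : (topL k).Nodup := by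
  unfold topL
  simp only [List.nodup_append, List.nodup_flatMap, List.mem_append, List.mem_flatMap]
  refine ⟨⟨by simp, ⟨?_, ?_⟩, ?_⟩, ⟨by simp, ⟨?_, ?_⟩, ?_⟩, ?_⟩
  · intro x _
    simp
  · refine (List.nodup_finRange k).imp ?_
    intro x y hxy
    simp [Function.onFun, hxy, List.Disjoint]
  · intro x hx y hy
    aesop
  · intro x _
    simp
  · refine (List.nodup_finRange k).imp ?_
    intro x y hxy
    simp [Function.onFun, hxy, List.Disjoint]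
  · intro x hx y hy
    aesop
  · intro x hx y hy
    aesop

theorem topL_prod : ((topL k).map gen).prod =
    cg 5 k 0 * (cg 5 k 1 * (cg 5 k 2 * (cg 5 k 3 * cg 5 k 4))) * Pi1 5 k *
      (cg' 5 k 0 * (cg' 5 k 1 * (cg' 5 k 2 * (cg' 5 k 3 * cg' 5 k 4))) * Pi2 5 k) := by
  unfold topL
  rw [List.map_append, List.map_append, List.map_append, List.prod_append, List.prod_append,
    List.prod_append, pairs_prod, pairs_prod]
  simp only [List.map_cons, List.map_nil, List.prod_cons, List.prod_nil, mul_one]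
  rfl

end Final

section Main

variable {k : ℕ}

theorem smul_aux {A : Type*} [Ring A] [Algebra ℂ A] {L1 L2 p q z Rp Rq : A}
    (hp : L1 + (4 : ℂ) • L2 = (5 : ℂ) • p) (hq : (4 : ℂ) • L1 + L2 = (5 : ℂ) • q) :
    (1 / 5 : ℂ) • ((z * L1 + (4 : ℂ) • (z * L2)) * Rp) +
      (1 / 5 : ℂ) • (((4 : ℂ) • (z * L1) + z * L2) * Rq) = z * (p * Rp + q * Rq) := by
  have e1 : z * L1 + (4 : ℂ) • (z * L2) = (5 : ℂ) • (z * p) := by
    rw [← mul_smul_comm, ← mul_add, hp, mul_smul_comm]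
  have e2 : (4 : ℂ) • (z * L1) + z * L2 = (5 : ℂ) • (z * q) := by
    rw [← mul_smul_comm, ← mul_add, hq, mul_smul_comm]
  rw [e1, e2, smul_mul_assoc, smul_mul_assoc, smul_smul, smul_smul, mul_add, mul_assoc, mul_assoc]
  norm_num

theorem Ev.prod {σ : Type} [Fintype σ] [DecidableEq σ] {κ : Type} {f : κ → EA σ}
    (h : ∀ j, Ev (f j)) (l : List κ) : Ev (l.map f).prod := by
  induction l with
  | nil => exact Ev.one
  | cons i l ih =>
    rw [List.map_cons, List.prod_cons]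
    exact (h i).mul ih

theorem algOdd' (hP : PairMain 5 k) : AlgData (DO k) (5 + 2 * k) := by
  obtain ⟨N, Rp, Rq, κ, ν, hκ, hν, hpN, hqN, hPi, hPiN, hN, hk, hRp, hRq⟩ := hP
  have hs := sys k
  have hD := oddD k
  have hL1 : ∀ x, L1 5 k * x = x * L1 5 k := L1_ev.comm
  have hL2 : ∀ x, L2 5 k * x = x * L2 5 k := L2_ev.comm
  have hN1 := L1_mul_N hpN hqN
  have hN2 := L2_mul_N hpN hqN
  have uU : ∀ i, cg 5 k i ∈ UU (Idx 5 k) := fun i => Submodule.subset_span ⟨_, rfl⟩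
  have uW : ∀ i, cg 5 k i ∈ WW (Idx 5 k) := fun i => Submodule.subset_span ⟨_, rfl⟩
  have uW' : ∀ i, cg' 5 k i ∈ WW (Idx 5 k) := fun i => Submodule.subset_span ⟨_, rfl⟩
  have mA := oA_mem (uW 0) (uW 1) (uW 2) (uW 3) (uW 4) (uW' 0) (uW' 1) (uW' 2) (uW' 3) (uW' 4)
  have mB := oB_mem (uW 0) (uW 1) (uW 2) (uW 3) (uW 4) (uW' 0) (uW' 1) (uW' 2) (uW' 3) (uW' 4)
    (uU 0) (uU 1) (uU 3) (uU 4)
  have mZ := oZ_mem (uW 0) (uW 1) (uW 2) (uW 3) (uW' 1)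
  have mE := oE_mem (uW 0) (uW 1) (uW 3) (uW' 1) (uW' 2) (uW' 3)
  have mY := oY_mem (uW 0) (uW 1) (uW 2) (uW 3) (uW' 0) (uW' 1) (uW' 2) (uW' 3)
  have mY' := oY_mem' (uW 0) (uW 1) (uW 2) (uW 3) (uW' 0) (uW' 1) (uW' 2) (uW' 3) (uU 0) (uU 1)
  have m4 := mem4 (uU 0) (uU 1) (uU 2) (uU 3)
  have m5 := mem5 (uU 0) (uU 1) (uU 2) (uU 3) (uU 4)
  have q1 := fun {M : GA 5 k} e1 e2 => oA_main hs hD hL1 hL2 (N := M) e1 e2
  have q2 := fun {M : GA 5 k} e1 e2 => oB_main hs hD hL1 hL2 (N := M) e1 e2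
  have q3 := oZ_w hs hD hL1 hL2
  have q4 := oZ_w' hs hD hL1 hL2
  have q5 := oY_w hs hD hL1 hL2
  have q6 := oY_w' hs hD hL1 hL2
  have q7 := oE_main hs hD hL1 hL2
  have t1 := oTop hs
  have t2 := oTop1 hs
  have t3 := oTop2 hs
  have t4 := oY_comm hs
  have dN : delta (DO k) N = 0 := delta_WP (hDO k) (fun _ => rfl) (fun _ => rfl) _ hN
  have dP : delta (DO k) (Pi1 5 k) = 0 := delta_WP (hDO k) (fun _ => rfl) (fun _ => rfl) _ Pi1_mem
  have dRp : delta (DO k) Rp = 0 := delta_WP (hDO k) (fun _ => rfl) (fun _ => rfl) _ hRp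
  have dRq : delta (DO k) Rq = 0 := delta_WP (hDO k) (fun _ => rfl) (fun _ => rfl) _ hRq
  have cP : ∀ x, Pi1 5 k * x = x * Pi1 5 k := (WP_ev k Pi1_mem).comm
  have cN : ∀ x, N * x = x * N := (WP_ev k hN).comm
  simp only [LinearMap.toAddMonoidHom_coe] at q1 q2 q3 q4 q5 q6 q7
  -- names
  generalize ha : cg 5 k 0 = a at *
  generalize hc : cg 5 k 1 = c at *
  generalize hb : cg 5 k 2 = b at *
  generalize hd : cg 5 k 3 = d at *
  generalize hw : cg 5 k 4 = w at *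
  generalize ha' : cg' 5 k 0 = a' at *
  generalize hc' : cg' 5 k 1 = c' at *
  generalize hb' : cg' 5 k 2 = b' at *
  generalize hd' : cg' 5 k 3 = d' at *
  generalize hw' : cg' 5 k 4 = w' at *
  have hl := topL_prod k
  rw [ha, hc, hb, hd, hw, ha', hc', hb', hd', hw'] at hl
  set A := oA a c b d w a' c' b' d' w' with hA
  set B := oB a c b d w a' c' b' d' w' with hB
  set Z := oZ a c b d c' with hZ
  set Y := oY a c b d a' c' b' d' with hY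
  set E := oE a c d c' b' d' with hE
  have W1 : a ∈ WW (Idx 5 k) ^ 1 := by rw [pow_one, ← ha]; exact uW 0
  have Ww : w ∈ WW (Idx 5 k) ^ 1 := by rw [pow_one, ← hw]; exact uW 4
  have Ww' : w' ∈ WW (Idx 5 k) ^ 1 := by rw [pow_one, ← hw']; exact uW' 4
  have Wa' : a' ∈ WW (Idx 5 k) ^ 1 := by rw [pow_one, ← ha']; exact uW' 0
  have Wc' : c' ∈ WW (Idx 5 k) ^ 1 := by rw [pow_one, ← hc']; exact uW' 1
  have Uw : w ∈ UU (Idx 5 k) ^ 1 := by rw [pow_one, ← hw]; exact uU 4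
  have hn : 5 + 2 * k - 1 = 4 + 2 * k := by omega
  -- the two differentials
  have dα : delta (DO k) (κ • (A * N) + ((1 / 5 : ℂ) • ((w * Z + (4 : ℂ) • (w' * Z)) * Rp) +
      (1 / 5 : ℂ) • (((4 : ℂ) • (w * Z) + w' * Z) * Rq))) = Z * Pi1 5 k := by
    rw [map_add, map_add, map_smul, map_smul, map_smul, delta_mul_closed (hDO k) dN,
      delta_mul_closed (hDO k) dRp, delta_mul_closed (hDO k) dRq, map_add, map_add, map_smul,
      map_smul, q3, q4, q1 hN1 hN2, smul_aux L1_four_L2 four_L1_L2, hPi, add_assoc (κ • N),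
      mul_add Z (κ • N), mul_smul_comm]
  have dψ : delta (DO k) (-(w * E * Pi1 5 k) + (κ • (B * N) +
      ((1 / 5 : ℂ) • ((w * Y + (4 : ℂ) • (w' * Y)) * Rp) +
      (1 / 5 : ℂ) • (((4 : ℂ) • (w * Y) + w' * Y) * Rq)))) =
      a * (c * (b * (d * (w * a')))) * Pi1 5 k := by
    rw [map_add, map_add, map_add, map_neg, map_smul, map_smul, map_smul,
      delta_mul_closed (hDO k) dN, delta_mul_closed (hDO k) dP,
      delta_mul_closed (hDO k) dRp, delta_mul_closed (hDO k) dRq, map_add, map_add, map_smul,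
      map_smul, q5, q6, q7, q2 hN1 hN2, smul_aux L1_four_L2 four_L1_L2]
    have e : Y * Pi1 5 k = κ • (Y * N) + Y * (pp 5 k * Rp + qq 5 k * Rq) := by
      rw [hPi, add_assoc (κ • N), mul_add Y (κ • N), mul_smul_comm]
    rw [← e, sub_mul, add_mul, mul_assoc E, L1_mul_Pi1, mul_zero]
    abel
  refine ⟨κ • (A * N) + ((1 / 5 : ℂ) • ((w * Z + (4 : ℂ) • (w' * Z)) * Rp) +
      (1 / 5 : ℂ) • (((4 : ℂ) • (w * Z) + w' * Z) * Rq)),
    -(w * E * Pi1 5 k) + (κ • (B * N) +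
      ((1 / 5 : ℂ) • ((w * Y + (4 : ℂ) • (w' * Y)) * Rp) +
      (1 / 5 : ℂ) • (((4 : ℂ) • (w * Y) + w' * Y) * Rq))), topL k, κ * ν, topL_nodup k,
    topL_length k, mul_ne_zero hκ hν, ?_, ?_, ?_, ?_, ?_⟩
  · rw [hn]
    refine add_mem (Submodule.smul_mem _ _ (WW_mul' 4 (2 * k) rfl mA (WP_pow_le _ hN))) ?_
    rcases Nat.eq_zero_or_pos k with h0 | h0
    · obtain ⟨r1, r2⟩ := hk h0
      rw [r1, r2, mul_zero, mul_zero, smul_zero, add_zero]
      exact zero_mem _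
    · have m1 : w * Z ∈ WW (Idx 5 k) ^ 6 := WW_mul' 1 5 rfl Ww mZ
      have m2 : w' * Z ∈ WW (Idx 5 k) ^ 6 := WW_mul' 1 5 rfl Ww' mZ
      refine add_mem (Submodule.smul_mem _ _ (WW_mul' 6 (2 * k - 2) (by omega) ?_
        (WP_pow_le _ hRp))) (Submodule.smul_mem _ _ (WW_mul' 6 (2 * k - 2) (by omega) ?_
        (WP_pow_le _ hRq)))
      · exact add_mem m1 (Submodule.smul_mem _ _ m2)
      · exact add_mem (Submodule.smul_mem _ _ m1) m2
  · rw [hn, dα]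
    have e : Z * Pi1 5 k = (a * (c * (b * d))) * Pi1 5 k * c' := by
      rw [hZ, oZ, mul_assoc _ (Pi1 5 k) c', cP c']
      simp only [mul_assoc]
    rw [e]
    exact Submodule.mul_mem_mul (UU_mul' 4 (2 * k) rfl m4 Pi1_mem_UU) Wc'
  · rw [hn]
    refine add_mem (neg_mem ?_) (add_mem (Submodule.smul_mem _ _ ?_) ?_)
    · rw [mul_assoc]
      exact Submodule.mul_mem_mul Uw (WW_mul' 4 (2 * k) rfl mE (WP_pow_le _ Pi1_mem))
    · exact UW_mul 1 4 (2 * k) rfl mB (WP_pow_le _ hN)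
    rcases Nat.eq_zero_or_pos k with h0 | h0
    · obtain ⟨r1, r2⟩ := hk h0
      rw [r1, r2, mul_zero, mul_zero, smul_zero, add_zero]
      exact zero_mem _
    · have m1 : w * Y ∈ UU (Idx 5 k) ^ 1 * WW (Idx 5 k) ^ 6 := Submodule.mul_mem_mul Uw mY
      have m2 : w' * Y ∈ UU (Idx 5 k) ^ 1 * WW (Idx 5 k) ^ 6 := by
        rw [t4]
        exact UW_mul 1 5 1 rfl mY' Ww'
      refine add_mem (Submodule.smul_mem _ _ (UW_mul 1 6 (2 * k - 2) (by omega) ?_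
        (WP_pow_le _ hRp))) (Submodule.smul_mem _ _ (UW_mul 1 6 (2 * k - 2) (by omega) ?_
        (WP_pow_le _ hRq)))
      · exact add_mem m1 (Submodule.smul_mem _ _ m2)
      · exact add_mem (Submodule.smul_mem _ _ m1) m2
  · rw [dψ]
    have e : a * (c * (b * (d * (w * a')))) * Pi1 5 k =
        (a * (c * (b * (d * w)))) * Pi1 5 k * a' := by
      rw [mul_assoc _ (Pi1 5 k) a', cP a']
      simp only [mul_assoc]
    rw [e]
    exact Submodule.mul_mem_mul (UU_mul' 5 (2 * k) rfl m5 Pi1_mem_UU) Wa'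
  · rw [dψ, hl]
    have cT : ∀ x, a * (c * (b * (d * (w * a')))) * Pi1 5 k * x =
        Pi1 5 k * (a * (c * (b * (d * (w * a')))) * x) := by
      intro x
      rw [← cP, mul_assoc]
    have e1 : a * (c * (b * (d * (w * a')))) * ((w * Z + (4 : ℂ) • (w' * Z)) * Rp) = 0 := by
      rw [← mul_assoc, mul_add, mul_smul_comm, t2, t3, smul_zero, add_zero, zero_mul]
    have e2 : a * (c * (b * (d * (w * a')))) * (((4 : ℂ) • (w * Z) + w' * Z) * Rq) = 0 := by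
      rw [← mul_assoc, mul_add, mul_smul_comm, t2, t3, smul_zero, add_zero, zero_mul]
    have e3 : a * (c * (b * (d * (w * a')))) * (κ • (A * N) +
        ((1 / 5 : ℂ) • ((w * Z + (4 : ℂ) • (w' * Z)) * Rp) +
        (1 / 5 : ℂ) • (((4 : ℂ) • (w * Z) + w' * Z) * Rq))) =
        κ • (N * (a * (c * (b * (d * (w * (a' * (c' * (b' * (d' * w')))))))))) := by
      rw [mul_add, mul_add, mul_smul_comm, mul_smul_comm, mul_smul_comm, e1, e2, smul_zero,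
        add_zero, add_zero, ← mul_assoc _ A N, t1, cN]
    rw [cT, e3, mul_smul_comm, ← mul_assoc (Pi1 5 k) N, hPiN, smul_mul_assoc, smul_smul]
    congr 1
    have cP2 : ∀ x, Pi2 5 k * x = x * Pi2 5 k :=
      (Ev.prod (fun j => Ev.gen_mul _ _) (List.finRange k)).comm
    have e4 : a * (c * (b * (d * w))) * Pi1 5 k * (a' * (c' * (b' * (d' * w'))) * Pi2 5 k) =
        Pi1 5 k * (a * (c * (b * (d * w))) * (a' * (c' * (b' * (d' * w'))) * Pi2 5 k)) := by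
      rw [← cP, mul_assoc]
    rw [e4, ← cP2 (a' * (c' * (b' * (d' * w')))), ← mul_assoc (a * (c * (b * (d * w)))) (Pi2 5 k),
      ← cP2 (a * (c * (b * (d * w))))]
    simp only [mul_assoc]

end Main

section Three

theorem hD3 (s : Idx 3 0 ⊕ Idx 3 0) (v : Idx 3 0 ⊕ Idx 3 0 → ℂ) :
    D3 s * ExteriorAlgebra.ι ℂ v = ExteriorAlgebra.ι ℂ v * D3 s := by
  suffices h : Ev (D3 s) from h v
  rcases s with (i | i) | (i | i)
  · fin_cases i
    · exact Ev.zero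
    · exact Ev.gen_mul _ _
    · exact Ev.gen_mul _ _
  · exact Ev.zero
  · fin_cases i
    · exact Ev.zero
    · exact Ev.gen_mul _ _
    · exact Ev.gen_mul _ _
  · exact Ev.zero

/-- the identities in dimension 3 -/
theorem three_abs {R : Type*} [Ring R] {δ : R →+ R} {a b w a' b' w' : R}
    (da : δ a = 0) (db : δ b = a * a') (dw : δ w = b * a') (da' : δ a' = 0)
    (db' : δ b' = a' * a) (dw' : δ w' = b' * a)
    (mb : ∀ x, δ (b * x) = δ b * x - b * δ x) (mw : ∀ x, δ (w * x) = δ w * x - w * δ x)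
    (ma' : ∀ x, δ (a' * x) = δ a' * x - a' * δ x) (mb' : ∀ x, δ (b' * x) = δ b' * x - b' * δ x)
    (s1 : a' * a' = 0) (s2 : b' * b' = 0) (s3 : b * b = 0)
    (r1 : a' * a = -(a * a')) (r2 : b * a = -(a * b)) (r3 : w * a = -(a * w))
    (r4 : b' * a = -(a * b')) (r5 : w * b = -(b * w)) (r6 : a' * b = -(b * a'))
    (r7 : a' * w = -(w * a')) :
    δ (b * w' + b' * w') = -(a * (b * b')) ∧
    δ (w * (a' * w') - b * (w * b')) = a * (b * (w * a')) ∧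
    (a * (b * (w * a'))) * (b * w' + b' * w') = a * (b * (w * (a' * (b' * w')))) := by
  refine ⟨?_, ?_, ?_⟩
  · simp only [map_add, mb, mb', db, dw', db', mul_assoc, sub_mul, mul_sub, neg_mul, mul_neg,
      r1, sw10 r1, r2, sw10 r2, r4, sw10 r4, s2, sz10 s2, sub_zero, neg_zero, mul_zero, neg_neg]
    abel
  · simp only [map_sub, mb, mb', mw, ma', db, dw', db', dw, da', mul_assoc, sub_mul, mul_sub,
      neg_mul, mul_neg, zero_mul, r1, sw10 r1, r2, sw10 r2, r3, sw10 r3, r4, sw10 r4, s2, sz10 s2,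
      s1, sz10 s1, s3, sz10 s3, r7, sw10 r7, sub_zero, neg_zero, mul_zero, neg_neg]
    abel
  · simp only [mul_add, mul_assoc, r6, sw10 r6, r5, sw10 r5, s3, sz10 s3, mul_neg, neg_mul, mul_zero,
      neg_zero, zero_add, neg_neg]

theorem algThree' : AlgData D3 3 := by
  have h := three_abs (δ := (delta D3).toAddMonoidHom) (a := cg 3 0 0) (b := cg 3 0 1)
    (w := cg 3 0 2) (a' := cg' 3 0 0) (b' := cg' 3 0 1) (w' := cg' 3 0 2)
    (delta_gen D3 _) (delta_gen D3 _) (delta_gen D3 _) (delta_gen D3 _) (delta_gen D3 _)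
    (delta_gen D3 _) (delta_gen_mul hD3 _) (delta_gen_mul hD3 _) (delta_gen_mul hD3 _)
    (delta_gen_mul hD3 _) (gen_sq _) (gen_sq _) (gen_sq _) (gen_anti _ _) (gen_anti _ _)
    (gen_anti _ _) (gen_anti _ _) (gen_anti _ _) (gen_anti _ _)
    (gen_anti _ _)
  simp only [LinearMap.toAddMonoidHom_coe] at h
  obtain ⟨h1, h2, h3⟩ := h
  have uU : ∀ i, cg 3 0 i ∈ UU (Idx 3 0) := fun i => Submodule.subset_span ⟨_, rfl⟩
  have uW : ∀ i, cg 3 0 i ∈ WW (Idx 3 0) := fun i => Submodule.subset_span ⟨_, rfl⟩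
  have uW' : ∀ i, cg' 3 0 i ∈ WW (Idx 3 0) := fun i => Submodule.subset_span ⟨_, rfl⟩
  refine ⟨cg 3 0 1 * cg' 3 0 2 + cg' 3 0 1 * cg' 3 0 2,
    cg 3 0 2 * (cg' 3 0 0 * cg' 3 0 2) - cg 3 0 1 * (cg 3 0 2 * cg' 3 0 1), [Sum.inl (Sum.inl 0), Sum.inl (Sum.inl 1), Sum.inl (Sum.inl 2),
    Sum.inr (Sum.inl 0), Sum.inr (Sum.inl 1), Sum.inr (Sum.inl 2)], 1, by simp, rfl, one_ne_zero,
    ?_, ?_, ?_, ?_, ?_⟩
  · exact add_mem (wm (uW 1) (w1 (uW' 2))) (wm (uW' 1) (w1 (uW' 2)))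
  · rw [h1]
    refine neg_mem ?_
    rw [← mul_assoc]
    exact Submodule.mul_mem_mul (wm (uU 0) (w1 (uU 1))) (w1 (uW' 1))
  · exact sub_mem (um (uU 2) (wm (uW' 0) (w1 (uW' 2)))) (um (uU 1) (wm (uW 2) (w1 (uW' 1))))
  · have e : cg 3 0 0 * (cg 3 0 1 * (cg 3 0 2 * cg' 3 0 0)) =
        cg 3 0 0 * (cg 3 0 1 * cg 3 0 2) * cg' 3 0 0 := by simp only [mul_assoc]
    rw [h2, e]
    exact Submodule.mul_mem_mul (wm (uU 0) (wm (uU 1) (w1 (uU 2)))) (w1 (uW' 0))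
  · rw [h2, h3, one_smul]
    simp only [List.map_cons, List.map_nil, List.prod_cons, List.prod_nil, mul_one]
    rfl

end Three

end Pool.Agent.H73.Fro.Odd

namespace Pool.Agent.H73.Fro

/-- MODULE ALG-ODD -/
theorem algOdd (k : ℕ) (hP : PairMain 5 k) : AlgData (DO k) (5 + 2 * k) := Odd.algOdd' hP

/-- dimension 3 -/
theorem algThree : AlgData D3 3 := Odd.algThree'

end Pool.Agent.H73.Fro
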