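import Pool.Agent.H73.Fro.AlgDefs

set_option linter.unusedSectionVars false

/-!
# MODULE ALG-PAIR: the main properties of the pair part
-/

namespace Pool.Agent.H73.Fro

/-! ### commuting square-zero elements -/

section SquareZero

variable {R : Type*} [CommRing R]

theorem add_pow_sq_zero {a S : R} (ha : a * a = 0) (n : ℕ) :
    (a + S) ^ (n + 1) = S ^ (n + 1) + ((n : R) + 1) * (a * S ^ n) := by
  induction n with
  | zero => simp; ring
  | succ n ih =>
    rw [pow_succ, ih]
    have : (S ^ (n + 1) + ((n : R) + 1) * (a * S ^ n)) * (a + S) =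
        S ^ (n + 1 + 1) + ((n : R) + 1 + 1) * (a * S ^ (n + 1)) +
          ((n : R) + 1) * S ^ n * (a * a) := by ring
    rw [this, ha]
    push_cast
    ring

theorem sum_sq_zero_pow {ι : Type*} [DecidableEq ι] (a : ι → R) (ha : ∀ j, a j * a j = 0)
    (s : Finset ι) :
    (∑ j ∈ s, a j) ^ (s.card + 1) = 0 ∧
      (∑ j ∈ s, a j) ^ s.card = (s.card.factorial : R) * ∏ j ∈ s, a j := by
  induction s using Finset.induction with
  | empty => simp
  | insert j s hj ih =>
    obtain ⟨h1, h2⟩ := ih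
    rw [Finset.card_insert_of_notMem hj, Finset.sum_insert hj, Finset.prod_insert hj]
    constructor
    · rw [add_pow_sq_zero (ha j), h1, pow_succ, h1]
      ring
    · rw [add_pow_sq_zero (ha j), h1, h2, Nat.factorial_succ]
      push_cast
      ring

end SquareZero

/-! ### the commutative algebra of the pairs -/

section PairComm

variable {R : Type*} [CommRing R]

/-- the terms of `N` -/
def wN (k : ℕ) (p q n : R) (m : ℕ) : R :=
  if m % 2 = 1 then (((k + 1).choose m * m.choose ((m + 1) / 2) : ℕ) : R) *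
    ((p * q) ^ ((m - 1) / 2) * n ^ (k + 1 - m)) else 0

/-- the terms of `T` -/
def wT (k : ℕ) (p q n : R) (m : ℕ) : R :=
  if m % 2 = 1 ∧ 3 ≤ m then (((k + 1).choose m * m.choose ((m + 1) / 2) : ℕ) : R) *
    ((p * q) ^ ((m - 3) / 2) * n ^ (k + 1 - m)) else 0

/-- the element `N` -/
def NN (k : ℕ) (p q n : R) : R := ∑ m ∈ Finset.range (k + 2), wN k p q n m

/-- the element `T` -/
def TT' (k : ℕ) (p q n : R) : R := ∑ m ∈ Finset.range (k + 2), wT k p q n m

theorem NN_eq (k : ℕ) (p q n : R) :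
    NN k p q n = ((k : R) + 1) * n ^ k + p * q * TT' k p q n := by
  unfold NN TT'
  rw [Finset.mul_sum]
  have h1 : ∀ m ∈ Finset.range (k + 2), wN k p q n m =
      (if m = 1 then ((k : R) + 1) * n ^ k else 0) + p * q * wT k p q n m := by
    intro m _
    unfold wN wT
    by_cases hodd : m % 2 = 1
    · by_cases h3 : 3 ≤ m
      · rw [if_pos hodd, if_neg (show ¬ m = 1 by omega), if_pos (show m % 2 = 1 ∧ 3 ≤ m from
          ⟨hodd, h3⟩), zero_add]
        have : (m - 1) / 2 = (m - 3) / 2 + 1 := by omega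
        rw [this, pow_succ]
        ring
      · have hm : m = 1 := by omega
        subst hm
        simp
    · rw [if_neg hodd, if_neg (show ¬ m = 1 by omega), if_neg (show ¬ (m % 2 = 1 ∧ 3 ≤ m) from
        fun h => hodd h.1)]
      ring
  rw [Finset.sum_congr rfl h1, Finset.sum_add_distrib, Finset.sum_ite_eq',
    if_pos (Finset.mem_range.2 (by omega))]

open Polynomial in
theorem coeff_tri (K e : ℕ) (p q n : R) :
    ((C p * X ^ 2 + C q + C n * X) ^ K).coeff e =
      ∑ m ∈ Finset.range (K + 1), ∑ i ∈ Finset.range (m + 1),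
        if e = 2 * i + (K - m) then
          ((K.choose m * m.choose i : ℕ) : R) * (p ^ i * q ^ (m - i) * n ^ (K - m)) else 0 := by
  rw [add_pow, finsetSum_coeff]
  refine Finset.sum_congr rfl fun m _ => ?_
  rw [add_pow, Finset.sum_mul, Finset.sum_mul, finsetSum_coeff]
  refine Finset.sum_congr rfl fun i _ => ?_
  have e1 : (C p * X ^ 2) ^ i * C q ^ (m - i) * ((m.choose i : ℕ) : R[X]) * (C n * X) ^ (K - m) *
      ((K.choose m : ℕ) : R[X]) =
      C (((K.choose m * m.choose i : ℕ) : R) * (p ^ i * q ^ (m - i) * n ^ (K - m))) *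
        X ^ (2 * i + (K - m)) := by
    rw [← C_eq_natCast, ← C_eq_natCast]
    simp only [mul_pow, ← C_pow, ← pow_mul, C_mul, Nat.cast_mul, pow_add]
    ring
  rw [e1, coeff_C_mul, coeff_X_pow]
  split_ifs <;> simp

open Polynomial in
theorem mul_NN {k : ℕ} {p q n : R} (h : (C p * X ^ 2 + C q + C n * X : R[X]) ^ (k + 1) = 0) :
    p * NN k p q n = 0 ∧ q * NN k p q n = 0 := by
  constructor
  · have h1 := coeff_tri (k + 1) (k + 2) p q n
    rw [h, coeff_zero] at h1
    rw [h1]
    unfold NN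
    rw [Finset.mul_sum]
    refine Finset.sum_congr rfl fun m hm => ?_
    rw [Finset.mem_range] at hm
    unfold wN
    by_cases hodd : m % 2 = 1
    · rw [if_pos hodd, Finset.sum_eq_single ((m + 1) / 2)]
      · rw [if_pos (by omega)]
        have h2 : m - (m + 1) / 2 = (m - 1) / 2 := by omega
        have h3 : (m + 1) / 2 = (m - 1) / 2 + 1 := by omega
        rw [h2]
        have h4 : p ^ ((m + 1) / 2) = p * p ^ ((m - 1) / 2) := by rw [h3, pow_succ]; ring
        rw [h4, mul_pow]
        ring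
      · intro i _ hi
        rw [if_neg (by omega)]
      · intro hcon
        exact absurd (Finset.mem_range.2 (by omega)) hcon
    · rw [if_neg hodd, mul_zero, Finset.sum_eq_zero]
      intro i _
      rw [if_neg (by omega)]
  · have h1 := coeff_tri (k + 1) k p q n
    rw [h, coeff_zero] at h1
    rw [h1]
    unfold NN
    rw [Finset.mul_sum]
    refine Finset.sum_congr rfl fun m hm => ?_
    rw [Finset.mem_range] at hm
    unfold wN
    by_cases hodd : m % 2 = 1
    · rw [if_pos hodd, Finset.sum_eq_single ((m - 1) / 2)]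
      · rw [if_pos (by omega)]
        have h2 : m - (m - 1) / 2 = (m - 1) / 2 + 1 := by omega
        have h3 : m.choose ((m + 1) / 2) = m.choose ((m - 1) / 2) := by
          rw [← Nat.choose_symm (by omega : (m - 1) / 2 ≤ m), h2]
          congr 1
          omega
        rw [h2, h3, mul_pow, pow_succ]
        ring
      · intro i _ hi
        rw [if_neg (by omega)]
      · intro hcon
        exact absurd (Finset.mem_range.2 (by omega)) hcon
    · rw [if_neg hodd, mul_zero, Finset.sum_eq_zero]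
      intro i _
      rw [if_neg (by omega)]

end PairComm


section PairAlg

variable {R : Type*} [CommRing R]

theorem mul_pow_congr {P x y : R} (h : P * x = P * y) (i : ℕ) : P * x ^ i = P * y ^ i := by
  induction i with
  | zero => simp
  | succ i ih =>
    calc P * x ^ (i + 1) = (P * x ^ i) * x := by ring
      _ = (P * x) * y ^ i := by rw [ih]; ring
      _ = P * y ^ (i + 1) := by rw [h]; ring

theorem mul_wN_congr {P p q n p' q' n' : R} (hp : P * p = P * p') (hq : P * q = P * q')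
    (hn : P * n = P * n') (k m : ℕ) : P * wN k p q n m = P * wN k p' q' n' m := by
  unfold wN
  split_ifs
  · have h1 : P * (p * q) = P * (p' * q') := by
      calc P * (p * q) = (P * p) * q := by ring
        _ = (P * q) * p' := by rw [hp]; ring
        _ = P * (p' * q') := by rw [hq]; ring
    have h2 := mul_pow_congr h1 ((m - 1) / 2)
    have h3 := mul_pow_congr hn (k + 1 - m)
    set e := (m - 1) / 2
    set f := k + 1 - m
    calc P * ((((k + 1).choose m * m.choose ((m + 1) / 2) : ℕ) : R) * ((p * q) ^ e * n ^ f)) =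
        (((k + 1).choose m * m.choose ((m + 1) / 2) : ℕ) : R) * ((P * (p * q) ^ e) * n ^ f) := by
          ring
      _ = (((k + 1).choose m * m.choose ((m + 1) / 2) : ℕ) : R) * ((P * n ^ f) *
          (p' * q') ^ e) := by rw [h2]; ring
      _ = _ := by rw [h3]; ring
  · rfl

/-- the number in front of `B ^ k` -/
def nuN (k m : ℕ) : ℕ :=
  if m % 2 = 1 then (k + 1).choose m * m.choose ((m + 1) / 2) * 4 ^ ((m - 1) / 2 + (k + 1 - m))
  else 0

theorem wN_B (k m : ℕ) (hm : m ≤ k + 1) (B : R) :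
    wN k (4 * B) B (4 * B) m = (nuN k m : R) * B ^ k := by
  unfold wN nuN
  split_ifs with h
  · have e : B ^ k = (B * B) ^ ((m - 1) / 2) * B ^ (k + 1 - m) := by
      rw [← pow_two, ← pow_mul, ← pow_add]
      congr 1
      omega
    rw [e, pow_add]
    push_cast
    have h1 : (4 * B * B) = 4 * (B * B) := by ring
    rw [h1, mul_pow 4 (B * B), mul_pow 4 B]
    ring
  · simp

theorem nuN_pos (k : ℕ) : 0 < ∑ m ∈ Finset.range (k + 2), nuN k m := by
  apply Finset.sum_pos'
  · intro m _; exact Nat.zero_le _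
  · refine ⟨1, Finset.mem_range.2 (by omega), ?_⟩
    unfold nuN
    simp

variable [Algebra ℂ R]

theorem pair_alg (k : ℕ) (a b c d : Fin k → R)
    (haa : ∀ j, a j * a j = 0) (hbb : ∀ j, b j * b j = 0) (hcc : ∀ j, c j * c j = 0)
    (hdd : ∀ j, d j * d j = 0) (hab : ∀ j, a j * b j = 0) (hac : ∀ j, a j * c j = 0)
    (hbd : ∀ j, b j * d j = 0) (hcd : ∀ j, c j * d j = 0)
    (hbc : ∀ j, b j * c j = -(a j * d j))
    (W : ℕ → Submodule ℂ R) (hW1 : (1 : R) ∈ W 0)
    (hWm : ∀ i j x y, x ∈ W i → y ∈ W j → x * y ∈ W (i + j))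
    (haW : ∀ j, a j ∈ W 1) (hbW : ∀ j, b j ∈ W 1) (hcW : ∀ j, c j ∈ W 1) (hdW : ∀ j, d j ∈ W 1) :
    ∃ N Rp Rq : R, ∃ γ ν : ℂ, γ ≠ 0 ∧ ν ≠ 0 ∧
      (∑ j, (a j + 2 * b j + 2 * c j + 4 * d j)) * N = 0 ∧
      (∑ j, (4 * a j + 2 * b j + 2 * c j + d j)) * N = 0 ∧
      ∏ j, a j = γ • N + (∑ j, (a j + 2 * b j + 2 * c j + 4 * d j)) * Rp +
        (∑ j, (4 * a j + 2 * b j + 2 * c j + d j)) * Rq ∧
      (∏ j, a j) * N = ν • ((∏ j, a j) * ∏ j, d j) ∧
      N ∈ W k ∧ (k = 0 → Rp = 0 ∧ Rq = 0) ∧ Rp ∈ W (k - 1) ∧ Rq ∈ W (k - 1) := by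
  classical
  set p := ∑ j, (a j + 2 * b j + 2 * c j + 4 * d j) with hp
  set q := ∑ j, (4 * a j + 2 * b j + 2 * c j + d j) with hq
  set n := ∑ j, (4 * a j + 5 * b j + 5 * c j + 4 * d j) with hn
  set N := NN k p q n with hN
  set T := TT' k p q n with hT
  set u := p + 4 * q with hu
  set S := ∑ i ∈ Finset.range k, (u - 2 * n) ^ i * (-(2 * n)) ^ (k - 1 - i) with hS
  -- the tri-nomial power
  have hfk : (Polynomial.C p * Polynomial.X ^ 2 + Polynomial.C q +
      Polynomial.C n * Polynomial.X : Polynomial R) ^ (k + 1) = 0 := by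
    have h1 := (sum_sq_zero_pow (R := Polynomial R) (fun j : Fin k =>
      Polynomial.C (a j) * (2 + Polynomial.X) ^ 2 + (Polynomial.C (b j) + Polynomial.C (c j)) *
        ((2 + Polynomial.X) * (1 + 2 * Polynomial.X)) +
        Polynomial.C (d j) * (1 + 2 * Polynomial.X) ^ 2) (by
        intro j
        have e1 : Polynomial.C (a j) * Polynomial.C (a j) = (0 : Polynomial R) := by
          rw [← Polynomial.C_mul, haa, Polynomial.C_0]
        have e2 : Polynomial.C (b j) * Polynomial.C (b j) = (0 : Polynomial R) := by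
          rw [← Polynomial.C_mul, hbb, Polynomial.C_0]
        have e3 : Polynomial.C (c j) * Polynomial.C (c j) = (0 : Polynomial R) := by
          rw [← Polynomial.C_mul, hcc, Polynomial.C_0]
        have e4 : Polynomial.C (d j) * Polynomial.C (d j) = (0 : Polynomial R) := by
          rw [← Polynomial.C_mul, hdd, Polynomial.C_0]
        have e5 : Polynomial.C (a j) * Polynomial.C (b j) = (0 : Polynomial R) := by
          rw [← Polynomial.C_mul, hab, Polynomial.C_0]
        have e6 : Polynomial.C (a j) * Polynomial.C (c j) = (0 : Polynomial R) := by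
          rw [← Polynomial.C_mul, hac, Polynomial.C_0]
        have e7 : Polynomial.C (b j) * Polynomial.C (d j) = (0 : Polynomial R) := by
          rw [← Polynomial.C_mul, hbd, Polynomial.C_0]
        have e8 : Polynomial.C (c j) * Polynomial.C (d j) = (0 : Polynomial R) := by
          rw [← Polynomial.C_mul, hcd, Polynomial.C_0]
        have e9 : Polynomial.C (b j) * Polynomial.C (c j) =
            -(Polynomial.C (a j) * Polynomial.C (d j) : Polynomial R) := by
          rw [← Polynomial.C_mul, hbc, Polynomial.C_neg, Polynomial.C_mul]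
        set U : Polynomial R := 2 + Polynomial.X
        set V : Polynomial R := 1 + 2 * Polynomial.X
        linear_combination U ^ 4 * e1 + U ^ 2 * V ^ 2 * e2 + U ^ 2 * V ^ 2 * e3 + V ^ 4 * e4 +
          2 * U ^ 3 * V * e5 + 2 * U ^ 3 * V * e6 + 2 * U * V ^ 3 * e7 + 2 * U * V ^ 3 * e8 +
          2 * U ^ 2 * V ^ 2 * e9) Finset.univ).1
    rw [Finset.card_univ, Fintype.card_fin] at h1
    rw [← h1]
    congr 1
    rw [hp, hq, hn, map_sum, map_sum, map_sum, Finset.sum_mul, Finset.sum_mul,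
      ← Finset.sum_add_distrib, ← Finset.sum_add_distrib]
    refine Finset.sum_congr rfl fun j _ => ?_
    simp only [map_add, map_mul, Polynomial.C_ofNat]
    ring
  obtain ⟨hpN, hqN⟩ := mul_NN hfk
  -- the product of the `a`
  have hA : u - 2 * n = 9 * ∑ j, a j := by
    rw [hu, hp, hq, hn, Finset.mul_sum, Finset.mul_sum, Finset.mul_sum, ← Finset.sum_add_distrib,
      ← Finset.sum_sub_distrib]
    refine Finset.sum_congr rfl fun j _ => ?_
    ring
  have hPa : (∑ j, a j) ^ k = (k.factorial : R) * ∏ j, a j := by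
    have := (sum_sq_zero_pow a haa Finset.univ).2
    rwa [Finset.card_univ, Fintype.card_fin] at this
  have hPd : (∑ j, d j) ^ k = (k.factorial : R) * ∏ j, d j := by
    have := (sum_sq_zero_pow d hdd Finset.univ).2
    rwa [Finset.card_univ, Fintype.card_fin] at this
  have hgeom : (u - 2 * n) ^ k = (-(2 * n)) ^ k + u * S := by
    have h1 := (Commute.all (u - 2 * n) (-(2 * n))).mul_geom_sum₂ k
    have h2 : u - 2 * n - -(2 * n) = u := by ring
    rw [h2, ← hS] at h1
    rw [h1]
    ring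
  have hNeq : N = ((k : R) + 1) * n ^ k + p * q * T := NN_eq k p q n
  set κ : ℂ := 9 ^ k * (k.factorial : ℂ) with hκ
  have hκ0 : κ ≠ 0 := by
    rw [hκ]
    have : ((k.factorial : ℕ) : ℂ) ≠ 0 := by exact_mod_cast k.factorial_ne_zero
    exact mul_ne_zero (pow_ne_zero _ (by norm_num)) this
  have hk1 : ((k : ℂ) + 1) ≠ 0 := by exact_mod_cast Nat.succ_ne_zero k
  set γ : ℂ := κ⁻¹ * ((-2) ^ k * ((k : ℂ) + 1)⁻¹) with hγ
  have hγ0 : γ ≠ 0 := by
    rw [hγ]
    exact mul_ne_zero (inv_ne_zero hκ0) (mul_ne_zero (pow_ne_zero _ (by norm_num))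
      (inv_ne_zero hk1))
  have hfin : κ • ∏ j, a j = κ • (γ • N + p * (κ⁻¹ • S - γ • (q * T)) + q * (κ⁻¹ • (4 * S))) := by
    have e1 : κ • ∏ j, a j = (u - 2 * n) ^ k := by
      rw [hA, mul_pow, hPa, hκ, Algebra.smul_def]
      simp only [map_mul, map_pow, map_ofNat, map_natCast]
      ring
    rw [e1, hgeom]
    have e2 : (-(2 * n)) ^ k = (κ * γ) • (N - p * q * T) := by
      have h3 : κ * γ = (-2) ^ k * ((k : ℂ) + 1)⁻¹ := by
        rw [hγ, ← mul_assoc, mul_inv_cancel₀ hκ0, one_mul]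
      have h4 : N - p * q * T = ((k : ℂ) + 1) • n ^ k := by
        rw [hNeq, Algebra.smul_def]
        simp only [map_add, map_natCast, map_one]
        ring
      rw [h3, h4, smul_smul, mul_assoc, inv_mul_cancel₀ hk1, mul_one, Algebra.smul_def]
      simp only [map_pow, map_neg, map_ofNat]
      rw [← mul_pow]
      ring
    rw [e2]
    simp only [smul_add, smul_sub, mul_sub, smul_smul, mul_smul_comm,
      mul_inv_cancel₀ hκ0, one_smul, hu]
    simp only [← mul_assoc]
    ring
  have hfin' : ∏ j, a j = γ • N + p * (κ⁻¹ • S - γ • (q * T)) + q * (κ⁻¹ • (4 * S)) := by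
    have := congrArg (fun z => κ⁻¹ • z) hfin
    simpa only [smul_smul, inv_mul_cancel₀ hκ0, one_smul] using this
  -- the product with the other side
  set Pr := ∏ j, a j with hQ
  set B := ∑ j, d j with hB
  have hQx : ∀ (x : Fin k → R), (∀ j, a j * x j = 0) → ∀ j, Pr * x j = 0 := by
    intro x hx j
    rw [hQ, ← Finset.mul_prod_erase _ _ (Finset.mem_univ j)]
    calc a j * (∏ i ∈ Finset.univ.erase j, a i) * x j =
        (a j * x j) * ∏ i ∈ Finset.univ.erase j, a i := by ring
      _ = 0 := by rw [hx, zero_mul]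
  have hQa := hQx a haa
  have hQb := hQx b hab
  have hQc := hQx c hac
  have hQp : Pr * p = Pr * (4 * B) := by
    rw [hp, hB, Finset.mul_sum, Finset.mul_sum, Finset.mul_sum]
    refine Finset.sum_congr rfl fun j _ => ?_
    linear_combination hQa j + 2 * hQb j + 2 * hQc j
  have hQq : Pr * q = Pr * B := by
    rw [hq, hB, Finset.mul_sum, Finset.mul_sum]
    refine Finset.sum_congr rfl fun j _ => ?_
    linear_combination 4 * hQa j + 2 * hQb j + 2 * hQc j
  have hQn : Pr * n = Pr * (4 * B) := by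
    rw [hn, hB, Finset.mul_sum, Finset.mul_sum, Finset.mul_sum]
    refine Finset.sum_congr rfl fun j _ => ?_
    linear_combination 4 * hQa j + 5 * hQb j + 5 * hQc j
  set ν₀ : ℕ := ∑ m ∈ Finset.range (k + 2), nuN k m with hν₀
  have hQN : Pr * N = ((ν₀ : ℂ) * (k.factorial : ℂ)) • (Pr * ∏ j, d j) := by
    have e1 : Pr * N = Pr * ((ν₀ : R) * B ^ k) := by
      rw [hN, NN, Finset.mul_sum, hν₀]
      push_cast
      rw [Finset.sum_mul, Finset.mul_sum]
      refine Finset.sum_congr rfl fun m hm => ?_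
      rw [Finset.mem_range] at hm
      rw [mul_wN_congr hQp hQq hQn, wN_B k m (by omega)]
    rw [e1, hPd, Algebra.smul_def]
    simp only [map_mul, map_natCast]
    ring
  -- degrees
  have hWsum : ∀ (i : ℕ) (f : Fin k → R), (∀ j, f j ∈ W i) → ∑ j, f j ∈ W i :=
    fun i f hf => Submodule.sum_mem _ fun j _ => hf j
  have hWnat : ∀ (i m : ℕ) (x : R), x ∈ W i → (m : R) * x ∈ W i := by
    intro i m x hx
    rw [← nsmul_eq_mul]
    exact nsmul_mem hx m
  have hW2 : ∀ (i : ℕ) (x : R), x ∈ W i → 2 * x ∈ W i := by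
    intro i x hx
    have := hWnat i 2 x hx
    simpa using this
  have hW4 : ∀ (i : ℕ) (x : R), x ∈ W i → 4 * x ∈ W i := by
    intro i x hx
    have := hWnat i 4 x hx
    simpa using this
  have hW5 : ∀ (i : ℕ) (x : R), x ∈ W i → 5 * x ∈ W i := by
    intro i x hx
    have := hWnat i 5 x hx
    simpa using this
  have hpW : p ∈ W 1 := hWsum _ _ fun j => add_mem (add_mem (add_mem (haW j)
    (hW2 _ _ (hbW j))) (hW2 _ _ (hcW j))) (hW4 _ _ (hdW j))
  have hqW : q ∈ W 1 := hWsum _ _ fun j => add_mem (add_mem (add_mem (hW4 _ _ (haW j))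
    (hW2 _ _ (hbW j))) (hW2 _ _ (hcW j))) (hdW j)
  have hnW : n ∈ W 1 := hWsum _ _ fun j => add_mem (add_mem (add_mem (hW4 _ _ (haW j))
    (hW5 _ _ (hbW j))) (hW5 _ _ (hcW j))) (hW4 _ _ (hdW j))
  have hWpow : ∀ (i e : ℕ) (x : R), x ∈ W i → x ^ e ∈ W (i * e) := by
    intro i e x hx
    induction e with
    | zero => simpa using hW1
    | succ e ih =>
      rw [pow_succ, Nat.mul_succ]
      exact hWm _ _ _ _ ih hx
  have hpqW : p * q ∈ W 2 := hWm 1 1 _ _ hpW hqW
  have hNW : N ∈ W k := by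
    rw [hN, NN]
    refine Submodule.sum_mem _ fun m hm => ?_
    rw [Finset.mem_range] at hm
    unfold wN
    split_ifs with hodd
    · apply hWnat
      have := hWm _ _ _ _ (hWpow 2 ((m - 1) / 2) _ hpqW) (hWpow 1 (k + 1 - m) _ hnW)
      have e : 2 * ((m - 1) / 2) + 1 * (k + 1 - m) = k := by omega
      rwa [e] at this
    · exact zero_mem _
  have hTW : 2 ≤ k → T ∈ W (k - 2) := by
    intro h2
    rw [hT, TT']
    refine Submodule.sum_mem _ fun m hm => ?_
    rw [Finset.mem_range] at hm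
    unfold wT
    split_ifs with hodd
    · apply hWnat
      have := hWm _ _ _ _ (hWpow 2 ((m - 3) / 2) _ hpqW) (hWpow 1 (k + 1 - m) _ hnW)
      have e : 2 * ((m - 3) / 2) + 1 * (k + 1 - m) = k - 2 := by omega
      rwa [e] at this
    · exact zero_mem _
  have hT0 : k < 2 → T = 0 := by
    intro h2
    rw [hT, TT']
    refine Finset.sum_eq_zero fun m hm => ?_
    rw [Finset.mem_range] at hm
    unfold wT
    rw [if_neg]
    rintro ⟨h3, h4⟩
    omega
  have huW : u - 2 * n ∈ W 1 := sub_mem (add_mem hpW (hW4 _ _ hqW)) (hW2 _ _ hnW)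
  have hn2W : -(2 * n) ∈ W 1 := neg_mem (hW2 _ _ hnW)
  have hSW : S ∈ W (k - 1) := by
    rw [hS]
    refine Submodule.sum_mem _ fun i hi => ?_
    rw [Finset.mem_range] at hi
    have := hWm _ _ _ _ (hWpow 1 i _ huW) (hWpow 1 (k - 1 - i) _ hn2W)
    have e : 1 * i + 1 * (k - 1 - i) = k - 1 := by omega
    rwa [e] at this
  have hqTW : q * T ∈ W (k - 1) := by
    by_cases h2 : 2 ≤ k
    · have := hWm _ _ _ _ hqW (hTW h2)
      have e : 1 + (k - 2) = k - 1 := by omega
      rwa [e] at this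
    · rw [hT0 (by omega), mul_zero]
      exact zero_mem _
  refine ⟨N, κ⁻¹ • S - γ • (q * T), κ⁻¹ • (4 * S), γ, (ν₀ : ℂ) * (k.factorial : ℂ), hγ0, ?_, hpN,
    hqN, hfin', hQN, hNW, ?_, ?_, ?_⟩
  · refine mul_ne_zero ?_ ?_
    · have := nuN_pos k
      exact_mod_cast this.ne'
    · exact_mod_cast k.factorial_ne_zero
  · intro h0
    have hS0 : S = 0 := by rw [hS, h0]; simp
    rw [hS0, hT0 (by omega)]
    simp
  · exact sub_mem (Submodule.smul_mem _ _ hSW) (Submodule.smul_mem _ _ hqTW)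
  · exact Submodule.smul_mem _ _ (hW4 _ _ hSW)

end PairAlg

/-! ### transfer to the exterior algebra -/

section Transfer

variable {σ : Type} [Fintype σ] [DecidableEq σ]

theorem ι_swap (u v : σ → ℂ) : (ExteriorAlgebra.ι ℂ u * ExteriorAlgebra.ι ℂ v : EA σ) =
    -(ExteriorAlgebra.ι ℂ v * ExteriorAlgebra.ι ℂ u) :=
  eq_neg_of_add_eq_zero_left (ExteriorAlgebra.ι_add_mul_swap u v)

theorem ι_mul_ι_mem_center (u v : σ → ℂ) :
    (ExteriorAlgebra.ι ℂ u * ExteriorAlgebra.ι ℂ v : EA σ) ∈ Subalgebra.center ℂ (EA σ) := by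
  rw [Subalgebra.mem_center_iff]
  intro b
  induction b using CliffordAlgebra.left_induction with
  | algebraMap c => exact Algebra.commutes _ _
  | add x x' hx hx' => rw [add_mul, mul_add, hx, hx']
  | ι_mul x w hx =>
    have h1 := ι_swap w u
    have h2 := ι_swap w v
    rw [ExteriorAlgebra.ι] at hx h1 h2 ⊢
    rw [mul_assoc, hx, ← mul_assoc, ← mul_assoc, h1, neg_mul, mul_assoc _ _
      (CliffordAlgebra.ι _ v), h2, mul_neg, neg_neg, ← mul_assoc, ← mul_assoc]

theorem gen_mul_gen_mem_center (s t : σ) : (gen s * gen t : EA σ) ∈ Subalgebra.center ℂ (EA σ) :=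
  ι_mul_ι_mem_center _ _

theorem gen_swap (s t : σ) : (gen s * gen t : EA σ) = -(gen t * gen s) := ι_swap _ _

theorem gen_sq_pair (s : σ) : (gen s * gen s : EA σ) = 0 := ExteriorAlgebra.ι_sq_zero _

theorem gen_mul_left_zero (s t r : σ) : (gen s * gen t) * (gen s * gen r) = (0 : EA σ) := by
  rw [mul_assoc, ← mul_assoc (gen t), gen_swap t s, neg_mul, mul_neg, mul_assoc, ← mul_assoc,
    gen_sq_pair, zero_mul, neg_zero]

theorem gen_mul_right_zero (s t r : σ) : (gen s * gen t) * (gen r * gen t) = (0 : EA σ) := by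
  rw [gen_swap r t, mul_neg, mul_assoc, ← mul_assoc (gen t), gen_sq_pair, zero_mul, mul_zero, neg_zero]

theorem gen_cross (s t s' t' : σ) :
    (gen s * gen t') * (gen s' * gen t) = -((gen s * gen t) * (gen s' * gen t') : EA σ) := by
  have h1 : (gen s * gen t') * (gen s' * gen t) = -(gen s * gen s' * (gen t' * gen t) : EA σ) := by
    rw [mul_assoc, ← mul_assoc (gen t'), gen_swap t' s', neg_mul, mul_neg, mul_assoc, mul_assoc]
  have h2 : (gen s * gen t) * (gen s' * gen t') = -(gen s * gen s' * (gen t * gen t') : EA σ) := by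
    rw [mul_assoc, ← mul_assoc (gen t), gen_swap t s', neg_mul, mul_neg, mul_assoc, mul_assoc]
  rw [h1, h2, gen_swap t' t, mul_neg]

end Transfer

theorem pairMain (m k : ℕ) : PairMain m k := by
  classical
  set Z := Subalgebra.center ℂ (GA m k) with hZ
  let a : Fin k → Z := fun j => ⟨xg m k j * yg m k j, gen_mul_gen_mem_center _ _⟩
  let b : Fin k → Z := fun j => ⟨xg m k j * yg' m k j, gen_mul_gen_mem_center _ _⟩
  let c : Fin k → Z := fun j => ⟨xg' m k j * yg m k j, gen_mul_gen_mem_center _ _⟩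
  let d : Fin k → Z := fun j => ⟨xg' m k j * yg' m k j, gen_mul_gen_mem_center _ _⟩
  let W : ℕ → Submodule ℂ Z := fun i => (WP m k ^ (2 * i)).comap Z.val.toLinearMap
  have hx : ∀ j, xg m k j ∈ WP m k := fun j =>
    Submodule.subset_span (Or.inl (Or.inl (Or.inl ⟨j, rfl⟩)))
  have hy : ∀ j, yg m k j ∈ WP m k := fun j =>
    Submodule.subset_span (Or.inl (Or.inl (Or.inr ⟨j, rfl⟩)))
  have hx' : ∀ j, xg' m k j ∈ WP m k := fun j =>
    Submodule.subset_span (Or.inl (Or.inr ⟨j, rfl⟩))
  have hy' : ∀ j, yg' m k j ∈ WP m k := fun j =>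
    Submodule.subset_span (Or.inr ⟨j, rfl⟩)
  have hsq : ∀ u v : GA m k, u ∈ WP m k → v ∈ WP m k → u * v ∈ WP m k ^ (2 * 1) := by
    intro u v hu hv
    rw [mul_one, pow_two]
    exact Submodule.mul_mem_mul hu hv
  obtain ⟨N, Rp, Rq, γ, ν, h1, h2, h3, h4, h5, h6, h7, h8, h9, h10⟩ := pair_alg k a b c d
    (fun j => Subtype.ext (gen_mul_left_zero _ _ _)) (fun j => Subtype.ext (gen_mul_left_zero _ _ _))
    (fun j => Subtype.ext (gen_mul_left_zero _ _ _)) (fun j => Subtype.ext (gen_mul_left_zero _ _ _))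
    (fun j => Subtype.ext (gen_mul_left_zero _ _ _)) (fun j => Subtype.ext (gen_mul_right_zero _ _ _))
    (fun j => Subtype.ext (gen_mul_right_zero _ _ _))
    (fun j => Subtype.ext (gen_mul_left_zero _ _ _))
    (fun j => Subtype.ext (gen_cross _ _ _ _)) W
    (by
      change (1 : GA m k) ∈ WP m k ^ (2 * 0)
      rw [mul_zero, pow_zero]
      exact Submodule.one_le.1 le_rfl)
    (by
      intro i j x y hx hy
      change ((x : GA m k) * (y : GA m k)) ∈ WP m k ^ (2 * (i + j))
      rw [mul_add, pow_add]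
      exact Submodule.mul_mem_mul hx hy)
    (fun j => hsq _ _ (hx j) (hy j)) (fun j => hsq _ _ (hx j) (hy' j))
    (fun j => hsq _ _ (hx' j) (hy j)) (fun j => hsq _ _ (hx' j) (hy' j))
  have hpp : ((∑ j, (a j + 2 * b j + 2 * c j + 4 * d j) : Z) : GA m k) = pp m k := by
    rw [pp, AddSubmonoidClass.coe_finsetSum]
    refine Finset.sum_congr rfl fun j _ => ?_
    change xg m k j * yg m k j + 2 * (xg m k j * yg' m k j) + 2 * (xg' m k j * yg m k j) +
      4 * (xg' m k j * yg' m k j) = _
    simp only [Algebra.smul_def, map_ofNat]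
    noncomm_ring
  have hqq : ((∑ j, (4 * a j + 2 * b j + 2 * c j + d j) : Z) : GA m k) = qq m k := by
    rw [qq, AddSubmonoidClass.coe_finsetSum]
    refine Finset.sum_congr rfl fun j _ => ?_
    change 4 * (xg m k j * yg m k j) + 2 * (xg m k j * yg' m k j) + 2 * (xg' m k j * yg m k j) +
      (xg' m k j * yg' m k j) = _
    simp only [Algebra.smul_def, map_ofNat]
    noncomm_ring
  have hP1 : ((∏ j, a j : Z) : GA m k) = Pi1 m k := by
    rw [Fin.prod_univ_def, Pi1, ← Subalgebra.coe_val, map_list_prod, List.map_map]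
    rfl
  have hP2 : ((∏ j, d j : Z) : GA m k) = Pi2 m k := by
    rw [Fin.prod_univ_def, Pi2, ← Subalgebra.coe_val, map_list_prod, List.map_map]
    rfl
  refine ⟨N, Rp, Rq, γ, ν, h1, h2, ?_, ?_, ?_, ?_, h7, ?_, ?_, ?_⟩
  · rw [← hpp]
    exact congrArg Subtype.val h3
  · rw [← hqq]
    exact congrArg Subtype.val h4
  · rw [← hpp, ← hqq, ← hP1]
    exact congrArg Subtype.val h5
  · rw [← hP1, ← hP2]
    exact congrArg Subtype.val h6
  · intro h0
    obtain ⟨e1, e2⟩ := h8 h0
    rw [e1, e2]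
    exact ⟨rfl, rfl⟩
  · have e : 2 * k - 2 = 2 * (k - 1) := by omega
    rw [e]
    exact h9
  · have e : 2 * k - 2 = 2 * (k - 1) := by omega
    rw [e]
    exact h10

end Pool.Agent.H73.Fro
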