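import Mathlib

/-!
# Eight anticommuting elements: normal forms
-/

namespace Pool.Agent.H73.Fro

/-- eight anticommuting elements of square zero -/
structure Oct {R : Type*} [Ring R] (e : Fin 8 → R) : Prop where
  anti : ∀ i j, e i * e j = -(e j * e i)
  sq : ∀ i, e i * e i = 0

namespace Oct

variable {R : Type*} [Ring R] {e : Fin 8 → R} (h : Oct e)
include h

theorem anti' (i j : Fin 8) (x : R) : e i * (e j * x) = -(e j * (e i * x)) := by
  rw [← mul_assoc, h.anti i j, neg_mul, mul_assoc]

theorem sq' (i : Fin 8) (x : R) : e i * (e i * x) = 0 := by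
  rw [← mul_assoc, h.sq i, zero_mul]

end Oct

end Pool.Agent.H73.Fro
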