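import Pool.Agent.H73.Fro.Wedge

/-!
# Quotients of `ℂⁿ`: the complex manifold structure
-/

namespace Pool.Agent.H73.Fro

open Set
open scoped Manifold ContDiff ComplexConjugate Topology

/-- a local homeomorphism `ℂⁿ → X` whose fibres are the orbits of a family of holomorphic maps -/
structure CoverData (n : ℕ) (X : Type*) [TopologicalSpace X] where
  π : Cn n → X
  lh : IsLocalHomeomorph π
  surj : Function.Surjective π
  Γ : Type
  act : Γ → Cn n → Cn n
  hol : ∀ γ, ContDiff ℂ ω (act γ)
  π_act : ∀ γ y, π (act γ y) = π y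
  trans : ∀ y y', π y = π y' → ∃ γ, act γ y = y'

namespace CoverData

variable {n : ℕ} {X : Type*} [TopologicalSpace X] (C : CoverData n X)

/-- the atlas of the quotient consists of all local inverses of the projection -/
@[reducible] noncomputable def charted : ChartedSpace (Cn n) X where
  atlas := {e | ∀ y ∈ e.target, e.symm y = C.π y}
  chartAt x := (C.lh (C.surj x).choose).choose.symm
  mem_chart_source x := by
    have h := (C.lh (C.surj x).choose).choose_spec
    have h1 := (C.lh (C.surj x).choose).choose.map_source h.1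
    rw [← h.2, (C.surj x).choose_spec] at h1
    exact h1
  chart_mem_atlas x := by
    intro y _
    have h := (C.lh (C.surj x).choose).choose_spec
    rw [OpenPartialHomeomorph.symm_symm]
    exact (congrFun h.2 y).symm

theorem exists_act {U : Set (Cn n)} (hU : IsOpen U) {τ : Cn n → Cn n} (hτ : ContinuousOn τ U)
    (hp : ∀ y ∈ U, C.π (τ y) = C.π y) {y : Cn n} (hy : y ∈ U) :
    ∃ γ, τ =ᶠ[𝓝 y] C.act γ := by
  obtain ⟨γ, hγ⟩ := C.trans y (τ y) (hp y hy).symm
  obtain ⟨e, he, hef⟩ := C.lh (τ y)
  have hcont : ContinuousAt τ y := hτ.continuousAt (hU.mem_nhds hy)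
  have hV : e.source ∈ 𝓝 (τ y) := e.open_source.mem_nhds he
  have hcont2 : ContinuousAt (C.act γ) y := (C.hol γ).continuous.continuousAt
  have hV2 : e.source ∈ 𝓝 (C.act γ y) := by rw [hγ]; exact hV
  refine ⟨γ, ?_⟩
  filter_upwards [hcont.preimage_mem_nhds hV, hcont2.preimage_mem_nhds hV2, hU.mem_nhds hy]
    with w hw1 hw2 hw3
  apply e.injOn hw1 hw2
  rw [← hef, hp w hw3]
  exact (C.π_act γ w).symm

/-- the transition maps coincide locally with the maps `act γ` -/
theorem transition {e e' : OpenPartialHomeomorph X (Cn n)} (he : e ∈ C.charted.atlas)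
    (he' : e' ∈ C.charted.atlas) {y : Cn n} (hy : y ∈ e.target) (hy' : e.symm y ∈ e'.source) :
    ∃ γ, (fun z => e' (e.symm z)) =ᶠ[𝓝 y] C.act γ := by
  have hmem : y ∈ (e.symm ≫ₕ e').source := by
    rw [OpenPartialHomeomorph.trans_source]
    exact ⟨by simpa using hy, hy'⟩
  apply C.exists_act (e.symm ≫ₕ e').open_source (e.symm ≫ₕ e').continuousOn ?_ hmem
  intro z hz
  rw [OpenPartialHomeomorph.trans_source] at hz
  have h1 : z ∈ e.target := by simpa using hz.1
  have h2 : e.symm z ∈ e'.source := hz.2
  rw [OpenPartialHomeomorph.coe_trans, Function.comp_apply, ← he' _ (e'.map_source h2),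
    e'.left_inv h2, he z h1]

theorem isManifold : letI := C.charted; IsManifold 𝓘(ℂ, Cn n) ω X := by
  letI := C.charted
  apply isManifold_of_contDiffOn
  intro e e' he he'
  intro y hy
  have hy1 : y ∈ (e.symm ≫ₕ e').source := by simpa using hy
  rw [OpenPartialHomeomorph.trans_source] at hy1
  obtain ⟨γ, hγ⟩ := C.transition he he' (y := y) (by simpa using hy1.1) hy1.2
  have h1 : ContDiffAt ℂ ω (fun z => e' (e.symm z)) y :=
    (C.hol γ).contDiffAt.congr_of_eventuallyEq hγ
  exact h1.contDiffWithinAt

end CoverData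

end Pool.Agent.H73.Fro
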