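import Pool.Agent.H73.Fro.TopDeg

/-!
# A criterion for a nonzero differential on page `n - 1`
-/

namespace Pool.Agent.H73.Fro

open Set
open scoped Manifold ContDiff ComplexConjugate Topology

section One

variable {n : ℕ} {X : Type} [TopologicalSpace X] (C : CoverData n X)

/-- the constant function `1` as a zero-form -/
noncomputable def oneF : Form n C.Q 0 :=
  ⟨fun e => e.1.target.indicator
    fun _ => ContinuousAlternatingMap.constOfIsEmpty ℝ (Cn n) (Fin 0) 1,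
    by
    refine ⟨fun e => ?_, fun e y hy => indicator_of_notMem hy _, fun e e' y hy hy' => ?_⟩
    · exact (contDiffOn_const (c := ContinuousAlternatingMap.constOfIsEmpty ℝ (Cn n) (Fin 0)
        (1 : ℂ))).congr fun y hy => indicator_of_mem hy _
    · beta_reduce
      rw [indicator_of_mem hy, indicator_of_mem (e'.1.map_source hy')]
      ext v
      rfl⟩

theorem oneF_apply (e : atlas (Cn n) C.Q) {y : Cn n} (hy : y ∈ e.1.target) :
    (oneF C).1 e y = ContinuousAlternatingMap.constOfIsEmpty ℝ (Cn n) (Fin 0) (1 : ℂ) :=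
  indicator_of_mem hy (fun _ => ContinuousAlternatingMap.constOfIsEmpty ℝ (Cn n) (Fin 0) (1 : ℂ))

/-- the constant function `1` as an element of the complex of forms -/
noncomputable def oneA : AllForms n C.Q := fun k => match k with
  | 0 => oneF C
  | _ + 1 => 0

theorem ev_oneA (e : atlas (Cn n) C.Q) {y : Cn n} (hy : y ∈ e.1.target) :
    C.ev e y (oneA C) = oneT n := by
  funext k
  cases k with
  | zero => exact oneF_apply C e hy
  | succ k => rfl

theorem oneA_mem : oneA C ∈ filtration n C.Q 0 0 := by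
  intro k
  cases k with
  | zero =>
    refine ⟨fun _ => ?_, fun h => absurd rfl h⟩
    apply Apq_le_Fil (i := 0) (j := 0) rfl (by norm_num)
    intro e y c v
    have h : (fun i => c • v i) = v := funext fun i => i.elim0
    rw [h, pow_zero, pow_zero, one_mul, one_mul]
  | succ k => exact ⟨fun _ => zero_mem _, fun _ => rfl⟩

theorem totalD_oneA : totalD n C.Q (oneA C) = 0 := by
  funext k
  match k with
  | 0 => rfl
  | 1 =>
    apply form_ext
    intro e y hy
    change (extD n C.Q 0 (oneF C)).1 e y = 0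
    rw [extD_apply _ _ hy]
    have hev : (oneF C).1 e =ᶠ[𝓝 y] fun _ =>
        ContinuousAlternatingMap.constOfIsEmpty ℝ (Cn n) (Fin 0) (1 : ℂ) := by
      filter_upwards [e.1.open_target.mem_nhds hy] with z hz
      exact oneF_apply C e hz
    rw [hev.extDeriv_eq, extDeriv, fderiv_fun_const]
    exact map_zero (ContinuousAlternatingMap.alternatizeUncurryFinCLM ℝ (Cn n) ℂ)
  | k + 2 => exact map_zero (extD n C.Q (k + 1))

end One

section Crit

variable {n : ℕ} {X : Type} [TopologicalSpace X] {C : CoverData n X}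
variable {κ : Type} [Fintype κ] [DecidableEq κ] (Φ : C.Frame κ)

/-- the volume form of the coframe -/
noncomputable def volF (σ : Fin (2 * n) ≃ κ ⊕ κ) : Form n C.Q (2 * n) :=
  (Φ.act (volE σ) (oneA C)) (2 * n)

theorem volF_ne_zero [CompactSpace C.Q] [T2Space C.Q] {e : κ ≃ Fin n} (hstd : Φ.Std e)
    (σ : Fin (2 * n) ≃ κ ⊕ κ) (I : Form n C.Q (2 * n) →ₗ[ℂ] ℂ)
    (hI : ∀ μ : Form n C.Q (2 * n), Nonneg μ → μ ≠ 0 → 0 < (I μ).re) :
    I (volF Φ σ) ≠ 0 := by
  set d := Matrix.det (Matrix.of fun r j : Fin (2 * n) => stdF e (σ r) (stdB n j)) with hd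
  have hd0 : d ≠ 0 := det_std_ne_zero e σ
  have hval : ∀ (ch : atlas (Cn n) C.Q) (y : Cn n), y ∈ ch.1.target →
      ∃ r : ℝ, 0 < r ∧ (volF Φ σ).1 ch y (stdB n) = r * d := by
    intro ch y hy
    obtain ⟨r, hr, hr2⟩ := vol_value Φ hstd σ y
    refine ⟨r, hr, ?_⟩
    rw [← hr2, ← ev_oneA C ch hy, ← Φ.ev_act]
    rfl
  have hnn : Nonneg (conj d • volF Φ σ) := by
    intro ch y
    change 0 ≤ (conj d * ((volF Φ σ).1 ch y (stdB n))).re ∧
      (conj d * ((volF Φ σ).1 ch y (stdB n))).im = 0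
    by_cases hy : y ∈ ch.1.target
    · obtain ⟨r, hr, hr2⟩ := hval ch y hy
      have h1 : conj d * (r * d) = ((r * Complex.normSq d : ℝ) : ℂ) := by
        rw [Complex.ofReal_mul, Complex.normSq_eq_conj_mul_self]
        ring
      rw [hr2, h1, Complex.ofReal_re, Complex.ofReal_im]
      exact ⟨mul_nonneg hr.le (Complex.normSq_nonneg _), rfl⟩
    · rw [form_zero_off _ ch hy]
      simp
  have hne : conj d • volF Φ σ ≠ 0 := by
    intro h0
    let ch : atlas (Cn n) C.Q := ⟨chartAt (Cn n) (C.π 0 : C.Q), chart_mem_atlas (Cn n) _⟩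
    have hy : ch.1 (C.π 0 : C.Q) ∈ ch.1.target := ch.1.map_source (mem_chart_source (Cn n) _)
    obtain ⟨r, hr, hr2⟩ := hval ch _ hy
    have h1 : conj d * ((volF Φ σ).1 ch (ch.1 (C.π 0 : C.Q)) (stdB n)) = 0 := by
      have h2 : (conj d • volF Φ σ).1 ch (ch.1 (C.π 0 : C.Q)) (stdB n) = 0 := by
        rw [h0]
        rfl
      exact h2
    rw [hr2] at h1
    have h3 : (r : ℂ) ≠ 0 := by exact_mod_cast hr.ne'
    have h4 : conj d ≠ 0 := by simpa using hd0
    exact (mul_ne_zero h4 (mul_ne_zero h3 hd0)) h1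
  intro h0
  have h1 := hI _ hnn hne
  rw [map_smul, h0, smul_zero, Complex.zero_re] at h1
  exact lt_irrefl _ h1

omit [Fintype κ] in
theorem UUWW_le_WW (p m : ℕ) : UU κ ^ p * WW κ ^ m ≤ WW κ ^ (p + m) := by
  rw [pow_add]
  apply mul_le_mul_left
  apply pow_le_pow_left'
  rw [UU, WW, Submodule.span_le]
  rintro _ ⟨i, rfl⟩
  exact Submodule.subset_span ⟨Sum.inl i, rfl⟩

variable {Φ} {D : κ ⊕ κ → EA (κ ⊕ κ)}

theorem criterion [CompactSpace C.Q] [T2Space C.Q] (hn : 1 ≤ n) {e : κ ≃ Fin n} (hstd : Φ.Std e)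
    (hD : Φ.Struc D) {α ψ : EA (κ ⊕ κ)} (hα : α ∈ WW κ ^ (n - 1))
    (hdα : delta D α ∈ UU κ ^ (n - 1) * WW κ ^ 1) (hψ : ψ ∈ UU κ ^ 1 * WW κ ^ (n - 1))
    (hdψ : delta D ψ ∈ UU κ ^ n * WW κ ^ 1) (σ : Fin (2 * n) ≃ κ ⊕ κ) {c : ℂ} (hc : c ≠ 0)
    (hvol : delta D ψ * α = c • volE σ) :
    (frolicher n C.Q).d (n - 1) 0 (n - 1) ≠ 0 := by
  obtain ⟨I, hI1, hI2⟩ := exists_integral n C.Q
  have hn' : ((n - 1 : ℕ) : ℤ) = n - 1 := by omega
  have hψ' : ψ ∈ WW κ ^ n := by
    have := UUWW_le_WW 1 (n - 1) hψ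
    have e1 : 1 + (n - 1) = n := by omega
    rwa [e1] at this
  -- the functional
  have key : ∀ b : AllForms n C.Q, I ((Φ.act ψ (totalD n C.Q b)) (2 * n)) =
      - ((-1 : ℂ) ^ n * I ((Φ.act (delta D ψ) b) (2 * n))) := by
    intro b
    have h1 := hD.totalD_act (CliffordAlgebra.involute ψ) b
    rw [CliffordAlgebra.involute_involute, involute_WW n hψ', map_smul, map_smul, map_smul] at h1
    have h2 := hI1 (((-1 : ℂ) ^ n • Φ.act ψ) b)
    rw [h1] at h2
    have h3 : I (((-1 : ℂ) ^ n • Φ.act (delta D ψ)) b (2 * n) +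
      (Φ.act ψ (totalD n C.Q b)) (2 * n)) = 0 := h2
    rw [map_add] at h3
    have h4 : I (((-1 : ℂ) ^ n • Φ.act (delta D ψ)) b (2 * n)) =
        (-1 : ℂ) ^ n * I ((Φ.act (delta D ψ) b) (2 * n)) := by
      change I ((-1 : ℂ) ^ n • ((Φ.act (delta D ψ) b) (2 * n))) = _
      rw [map_smul, smul_eq_mul]
    rw [h4] at h3
    linear_combination h3
  have hα1 := Φ.WW_pow_le _ hα 0 0 _ (oneA_mem C)
  have hdα1 := Φ.UUWW_le _ _ hdα 0 0 _ (oneA_mem C)
  set a : AllForms n C.Q := Φ.act α (oneA C) with ha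
  have hDa : totalD n C.Q a = Φ.act (delta D α) (oneA C) := by
    rw [ha, hD.totalD_act, totalD_oneA, map_zero, add_zero]
  rw [FComplex.d_ne_zero_iff]
  refine ⟨a, ⟨?_, ?_⟩, ?_⟩
  · have h := hα1
    rw [hn'] at h
    exact h
  · change totalD n C.Q a ∈ filtration n C.Q _ _
    rw [hDa]
    have h := hdα1
    have e1 : (0 : ℤ) + ((n - 1 : ℕ) : ℤ) = 0 + ((n : ℤ) - 1) := by rw [hn']
    have e2 : (0 : ℤ) + (((n - 1 : ℕ) : ℤ) + ((1 : ℕ) : ℤ)) = 0 + ((n : ℤ) - 1) + 1 := by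
      rw [hn']; push_cast; ring
    rw [e1, e2] at h
    exact h
  · intro hB
    obtain ⟨(x : AllForms n C.Q), hx, _, ⟨(z : AllForms n C.Q), hz, rfl⟩, hxz⟩ :=
      Submodule.mem_sup.mp hB
    have hx1 : x ∈ filtration n C.Q n n := by
      have h := hx.1
      have e1 : (0 : ℤ) + ((n : ℤ) - 1) + 1 = n := by ring
      have e2 : (0 : ℤ) + ((n : ℤ) - 1) + 1 + ((n : ℤ) - 1 - ((n : ℤ) - 1) + 1 - 1) = n := by ring
      rw [SetLike.mem_coe, e2, e1] at h
      exact h
    have hz1 : z ∈ filtration n C.Q 1 (n - 1) := by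
      have h := hz.1
      have e1 : (0 : ℤ) + ((n : ℤ) - 1) - ((n : ℤ) - 1) + 1 = 1 := by ring
      have e2 : (0 : ℤ) + ((n : ℤ) - 1) - ((n : ℤ) - 1) + 1 + ((n : ℤ) - 1 - ((n : ℤ) - 1) + 1 +
        ((n : ℤ) - 1) - 2) = n - 1 := by ring
      rw [SetLike.mem_coe, e2, e1] at h
      exact h
    have hxz' : x + totalD n C.Q z = totalD n C.Q a := hxz
    have hJ := congrArg (fun b : AllForms n C.Q => I ((Φ.act ψ b) (2 * n))) hxz'
    have hsplit : I ((Φ.act ψ (x + totalD n C.Q z)) (2 * n)) =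
        I ((Φ.act ψ x) (2 * n)) + I ((Φ.act ψ (totalD n C.Q z)) (2 * n)) := by
      rw [map_add]
      exact map_add I _ _
    simp only [hsplit, key] at hJ
    have hJx : (Φ.act ψ x) (2 * n) = 0 := by
      apply filtration_top (p := (n : ℤ) + ((1 : ℕ) : ℤ)) (by push_cast; omega)
        (Φ.UUWW_le _ _ hψ _ _ _ hx1)
    have hJz : (Φ.act (delta D ψ) z) (2 * n) = 0 := by
      apply filtration_top (p := 1 + (n : ℤ)) (by omega) (Φ.UUWW_le _ _ hdψ _ _ _ hz1)
    have hJa : Φ.act (delta D ψ) a = c • Φ.act (volE σ) (oneA C) := by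
      rw [ha, ← Module.End.mul_apply, ← map_mul, hvol, map_smul]
      rfl
    rw [hJx, hJz, hJa, map_zero, mul_zero, neg_zero, add_zero] at hJ
    have hJ2 : I ((c • Φ.act (volE σ) (oneA C)) (2 * n)) = c * I (volF Φ σ) := by
      change I (c • ((Φ.act (volE σ) (oneA C)) (2 * n))) = _
      rw [map_smul, smul_eq_mul]
      rfl
    rw [hJ2] at hJ
    have h5 := volF_ne_zero Φ hstd σ I hI2
    have h6 : (-1 : ℂ) ^ n ≠ 0 := pow_ne_zero _ (by norm_num)
    exact (neg_ne_zero.mpr (mul_ne_zero h6 (mul_ne_zero hc h5))) hJ.symm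

end Crit

end Pool.Agent.H73.Fro
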