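import Pool.Agent.H73.Fro.Frame

/-!
# The action of the exterior algebra and the filtration
-/

namespace Pool.Agent.H73.Fro

open Set
open scoped Manifold ContDiff ComplexConjugate Topology

theorem isType_un {n p q k : ℕ} {ξ : Cn n →L[ℝ] ℂ} (hξ : ∀ (c : ℂ) v, ξ (c • v) = c * ξ v)
    {f : (Cn n) [⋀^Fin k]→L[ℝ] ℂ} (hf : IsType p q f) : IsType (p + 1) q (wBil ℂ k ξ f) := by
  intro c v
  rw [wBil_apply, wBil_apply, Finset.mul_sum]
  refine Finset.sum_congr rfl fun i _ => ?_
  have h1 : f (i.removeNth fun i => c • v i) = c ^ p * (conj c) ^ q * f (i.removeNth v) :=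
    hf c (i.removeNth v)
  rw [hξ, h1, mul_smul_comm]
  congr 1
  simp only [smul_eq_mul]
  ring

theorem isType_pr {n p q k : ℕ} {ξ : Cn n →L[ℝ] ℂ} (hξ : ∀ (c : ℂ) v, ξ (c • v) = conj c * ξ v)
    {f : (Cn n) [⋀^Fin k]→L[ℝ] ℂ} (hf : IsType p q f) : IsType p (q + 1) (wBil ℂ k ξ f) := by
  intro c v
  rw [wBil_apply, wBil_apply, Finset.mul_sum]
  refine Finset.sum_congr rfl fun i _ => ?_
  have h1 : f (i.removeNth fun i => c • v i) = c ^ p * (conj c) ^ q * f (i.removeNth v) :=
    hf c (i.removeNth v)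
  rw [hξ, h1, mul_smul_comm]
  congr 1
  simp only [smul_eq_mul]
  ring

theorem Apq_le_Fil {n : ℕ} {X : Type*} [TopologicalSpace X] [ChartedSpace (Cn n) X]
    {p : ℤ} {i j k : ℕ} (h : i + j = k) (hp : p ≤ i) : Apq n X i j k ≤ Fil n X p k :=
  le_iSup_of_le i (le_iSup_of_le j (le_iSup_of_le h (le_iSup_of_le hp le_rfl)))

theorem Fil_le {n : ℕ} {X : Type*} [TopologicalSpace X] [ChartedSpace (Cn n) X]
    {p : ℤ} {k : ℕ} {S : Submodule ℂ (Form n X k)}
    (h : ∀ i j : ℕ, i + j = k → p ≤ i → Apq n X i j k ≤ S) : Fil n X p k ≤ S :=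
  iSup_le fun i => iSup_le fun j => iSup_le fun hk => iSup_le fun hp => h i j hk hp

theorem Fil_mono {n : ℕ} {X : Type*} [TopologicalSpace X] [ChartedSpace (Cn n) X]
    {p p' : ℤ} (hp : p ≤ p') {k : ℕ} : Fil n X p' k ≤ Fil n X p k :=
  Fil_le fun _ _ h h' => Apq_le_Fil h (hp.trans h')

theorem filtration_anti {n : ℕ} {X : Type*} [TopologicalSpace X] [ChartedSpace (Cn n) X]
    {p p' : ℤ} (hp : p ≤ p') {m : ℤ} : filtration n X p' m ≤ filtration n X p m :=
  fun _ ha k => ⟨fun h => Fil_mono hp ((ha k).1 h), (ha k).2⟩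

namespace CoverData

variable {n : ℕ} {X : Type} [TopologicalSpace X] {C : CoverData n X}

theorem op_un {θ : C.Inv} (hθ : ∀ y (c : ℂ) v, θ.1 y (c • v) = c * θ.1 y v) {p : ℤ} {k : ℕ}
    {a : Form n C.Q k} (ha : a ∈ Fil n C.Q p k) : op θ k a ∈ Fil n C.Q (p + 1) (k + 1) := by
  have h : Fil n C.Q p k ≤ (Fil n C.Q (p + 1) (k + 1)).comap (op θ k) := by
    apply Fil_le
    intro i j hij hp a ha
    apply Apq_le_Fil (i := i + 1) (j := j) (by omega) (by push_cast; omega)
    intro e y
    exact isType_un (hθ y) (ha e y)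
  exact h ha

theorem op_pr {θ : C.Inv} (hθ : ∀ y (c : ℂ) v, θ.1 y (c • v) = conj c * θ.1 y v) {p : ℤ} {k : ℕ}
    {a : Form n C.Q k} (ha : a ∈ Fil n C.Q p k) : op θ k a ∈ Fil n C.Q p (k + 1) := by
  have h : Fil n C.Q p k ≤ (Fil n C.Q p (k + 1)).comap (op θ k) := by
    apply Fil_le
    intro i j hij hp a ha
    apply Apq_le_Fil (i := i) (j := j + 1) (by omega) hp
    intro e y
    exact isType_pr (hθ y) (ha e y)
  exact h ha

theorem opT_filtration {θ : C.Inv} {p p' : ℤ} {m : ℤ}
    (h : ∀ (k : ℕ), (k : ℤ) = m → ∀ a ∈ Fil n C.Q p k, op θ k a ∈ Fil n C.Q p' (k + 1))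
    {a : AllForms n C.Q} (ha : a ∈ filtration n C.Q p m) :
    opT θ a ∈ filtration n C.Q p' (m + 1) := by
  intro k
  cases k with
  | zero => exact ⟨fun _ => zero_mem _, fun _ => rfl⟩
  | succ k =>
    constructor
    · intro hk
      exact h k (by push_cast at hk; omega) _ ((ha k).1 (by push_cast at hk; omega))
    · intro hk
      change op θ k (a k) = 0
      rw [(ha k).2 (by intro hk'; apply hk; push_cast; omega), map_zero]

namespace Frame

variable {κ : Type} [Fintype κ] [DecidableEq κ] (Φ : C.Frame κ)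

/-- the elements of the exterior algebra which raise the filtration by `p` and the degree
by `m` -/
noncomputable def raise (p m : ℤ) : Submodule ℂ (EA (κ ⊕ κ)) where
  carrier := {x | ∀ q l a, a ∈ filtration n C.Q q l → Φ.act x a ∈ filtration n C.Q (q + p) (l + m)}
  add_mem' := by
    intro x y hx hy q l a ha
    rw [map_add, LinearMap.add_apply]
    exact add_mem (hx q l a ha) (hy q l a ha)
  zero_mem' := by
    intro q l a _
    rw [map_zero, LinearMap.zero_apply]
    exact zero_mem _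
  smul_mem' := by
    intro c x hx q l a ha
    rw [map_smul, LinearMap.smul_apply]
    exact Submodule.smul_mem _ _ (hx q l a ha)

theorem raise_mul {p m p' m' : ℤ} {x y : EA (κ ⊕ κ)} (hx : x ∈ Φ.raise p m)
    (hy : y ∈ Φ.raise p' m') : x * y ∈ Φ.raise (p + p') (m + m') := by
  intro q l a ha
  rw [map_mul, Module.End.mul_apply]
  have h := hx _ _ _ (hy q l a ha)
  have e1 : q + p' + p = q + (p + p') := by ring
  have e2 : l + m' + m = l + (m + m') := by ring
  rwa [e1, e2] at h

theorem raise_one : (1 : EA (κ ⊕ κ)) ∈ Φ.raise 0 0 := by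
  intro q l a ha
  rwa [map_one, Module.End.one_apply, add_zero, add_zero]

theorem raise_mono {p p' m : ℤ} (h : p ≤ p') : Φ.raise p' m ≤ Φ.raise p m :=
  fun _ hx q l a ha => filtration_anti (by omega) (hx q l a ha)

theorem raise_inl (i : κ) : gen (Sum.inl i) ∈ Φ.raise 1 1 := by
  intro q l a ha
  rw [act_gen]
  exact opT_filtration (fun k _ b hb => op_un (Φ.un i) hb) ha

theorem raise_inr (i : κ) : gen (Sum.inr i) ∈ Φ.raise 0 1 := by
  intro q l a ha
  rw [act_gen, add_zero]
  exact opT_filtration (fun k _ b hb => op_pr (Φ.pr i) hb) ha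

theorem raise_gen (s : κ ⊕ κ) : gen s ∈ Φ.raise 0 1 := by
  rcases s with i | i
  · exact Φ.raise_mono (by norm_num) (Φ.raise_inl i)
  · exact Φ.raise_inr i

end Frame

end CoverData

section UW

variable {κ : Type} [DecidableEq κ]

/-- the span of the generators of type `(1,0)` -/
noncomputable def UU (κ : Type) [DecidableEq κ] : Submodule ℂ (EA (κ ⊕ κ)) :=
  Submodule.span ℂ (Set.range fun i : κ => gen (Sum.inl i))

/-- the span of the generators -/
noncomputable def WW (κ : Type) [DecidableEq κ] : Submodule ℂ (EA (κ ⊕ κ)) :=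
  Submodule.span ℂ (Set.range fun s : κ ⊕ κ => gen s)

end UW

namespace CoverData.Frame

variable {n : ℕ} {X : Type} [TopologicalSpace X] {C : CoverData n X}
variable {κ : Type} [Fintype κ] [DecidableEq κ] (Φ : C.Frame κ)

theorem UU_pow_le (p : ℕ) : UU κ ^ p ≤ Φ.raise p p := by
  induction p with
  | zero =>
    rw [pow_zero, Submodule.one_le]
    exact Φ.raise_one
  | succ p ih =>
    rw [pow_succ, Submodule.mul_le]
    intro x hx y hy
    have h1 : UU κ ≤ Φ.raise 1 1 := by
      rw [UU, Submodule.span_le]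
      rintro _ ⟨i, rfl⟩
      exact Φ.raise_inl i
    have := Φ.raise_mul (ih hx) (h1 hy)
    push_cast
    exact this

theorem WW_pow_le (m : ℕ) : WW κ ^ m ≤ Φ.raise 0 m := by
  induction m with
  | zero =>
    rw [pow_zero, Submodule.one_le]
    exact Φ.raise_one
  | succ p ih =>
    rw [pow_succ, Submodule.mul_le]
    intro x hx y hy
    have h1 : WW κ ≤ Φ.raise 0 1 := by
      rw [WW, Submodule.span_le]
      rintro _ ⟨i, rfl⟩
      exact Φ.raise_gen i
    have := Φ.raise_mul (ih hx) (h1 hy)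
    push_cast
    rwa [add_zero] at this

theorem UUWW_le (p m : ℕ) : UU κ ^ p * WW κ ^ m ≤ Φ.raise p (p + m) := by
  rw [Submodule.mul_le]
  intro x hx y hy
  have := Φ.raise_mul (Φ.UU_pow_le p hx) (Φ.WW_pow_le m hy)
  rwa [add_zero] at this

end CoverData.Frame

theorem involute_WW {κ : Type} [DecidableEq κ] (m : ℕ) {x : EA (κ ⊕ κ)} (hx : x ∈ WW κ ^ m) :
    CliffordAlgebra.involute x = (-1 : ℂ) ^ m • x := by
  induction m generalizing x with
  | zero =>
    rw [pow_zero, Submodule.mem_one] at hx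
    obtain ⟨c, rfl⟩ := hx
    rw [AlgHom.commutes, pow_zero, one_smul]
  | succ m ih =>
    rw [pow_succ] at hx
    induction hx using Submodule.mul_induction_on' with
    | mem_mul_mem a ha b hb =>
      rw [map_mul, ih ha]
      have hb' : CliffordAlgebra.involute b = -b := by
        induction hb using Submodule.span_induction with
        | mem b hb =>
          obtain ⟨s, rfl⟩ := hb
          exact CliffordAlgebra.involute_ι _
        | zero => rw [map_zero, neg_zero]
        | add a b _ _ ha hb => rw [map_add, ha, hb, neg_add]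
        | smul c a _ ha => rw [map_smul, ha, smul_neg]
      rw [hb', pow_succ, mul_neg, smul_mul_assoc, mul_comm, mul_smul, neg_one_smul]
    | add a _ b _ ha hb => rw [map_add, ha, hb, smul_add]

end Pool.Agent.H73.Fro
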