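import Pool.Agent.H73.Fro.Oper

/-!
# The exterior algebra of an invariant coframe acts on forms
-/

namespace Pool.Agent.H73.Fro

open Set
open scoped Manifold ContDiff ComplexConjugate Topology

section Delta

variable {σ : Type} [Fintype σ] [DecidableEq σ]

/-- the exterior algebra with generators indexed by `σ` -/
abbrev EA (σ : Type) : Type := ExteriorAlgebra ℂ (σ → ℂ)

/-- the generators -/
noncomputable def gen (s : σ) : EA σ := ExteriorAlgebra.ι ℂ (Pi.single s (1 : ℂ))

/-- the antiderivation of the exterior algebra with given values on the generators -/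
noncomputable def delta (D : σ → EA σ) : EA σ →ₗ[ℂ] EA σ :=
  ∑ s, (LinearMap.mulLeft ℂ (D s)).comp (CliffordAlgebra.contractLeft (LinearMap.proj s))

theorem delta_apply (D : σ → EA σ) (x : EA σ) :
    delta D x = ∑ s, D s * CliffordAlgebra.contractLeft (LinearMap.proj s) x := by
  simp [delta]

theorem delta_ι (D : σ → EA σ) (v : σ → ℂ) :
    delta D (ExteriorAlgebra.ι ℂ v) = ∑ s, v s • D s := by
  rw [delta_apply]
  refine Finset.sum_congr rfl fun s _ => ?_
  rw [ExteriorAlgebra.ι, CliffordAlgebra.contractLeft_ι, LinearMap.proj_apply,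
    ← Algebra.commutes, Algebra.smul_def]

theorem delta_gen (D : σ → EA σ) (s : σ) : delta D (gen s) = D s := by
  rw [gen, delta_ι, Finset.sum_eq_single s]
  · simp
  · intro t _ hts
    simp [hts]
  · intro h
    exact absurd (Finset.mem_univ s) h

theorem delta_algebraMap (D : σ → EA σ) (c : ℂ) : delta D (algebraMap ℂ (EA σ) c) = 0 := by
  rw [delta_apply]
  refine Finset.sum_eq_zero fun s _ => ?_
  rw [CliffordAlgebra.contractLeft_algebraMap, mul_zero]

theorem delta_one (D : σ → EA σ) : delta D 1 = 0 := by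
  rw [← map_one (algebraMap ℂ (EA σ))]
  exact delta_algebraMap D 1

theorem delta_ι_mul {D : σ → EA σ}
    (hD : ∀ s (v : σ → ℂ), D s * ExteriorAlgebra.ι ℂ v = ExteriorAlgebra.ι ℂ v * D s)
    (v : σ → ℂ) (x : EA σ) :
    delta D (ExteriorAlgebra.ι ℂ v * x) =
      delta D (ExteriorAlgebra.ι ℂ v) * x - ExteriorAlgebra.ι ℂ v * delta D x := by
  rw [delta_ι, delta_apply, delta_apply, Finset.sum_mul, Finset.mul_sum, ← Finset.sum_sub_distrib]
  refine Finset.sum_congr rfl fun s _ => ?_
  rw [ExteriorAlgebra.ι, CliffordAlgebra.contractLeft_ι_mul, LinearMap.proj_apply, mul_sub,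
    ← mul_assoc, ← mul_assoc]
  have h := hD s v
  rw [ExteriorAlgebra.ι] at h
  rw [h, smul_mul_assoc, mul_smul_comm]

theorem delta_mul {D : σ → EA σ}
    (hD : ∀ s (v : σ → ℂ), D s * ExteriorAlgebra.ι ℂ v = ExteriorAlgebra.ι ℂ v * D s)
    (x y : EA σ) :
    delta D (x * y) = delta D x * y + CliffordAlgebra.involute x * delta D y := by
  induction x using CliffordAlgebra.left_induction with
  | algebraMap c =>
    rw [delta_algebraMap, zero_mul, zero_add, AlgHom.commutes, ← Algebra.smul_def,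
      ← Algebra.smul_def, map_smul]
  | add x x' hx hx' =>
    rw [add_mul, map_add, hx, hx', map_add, map_add, add_mul, add_mul]
    abel
  | ι_mul x v hx =>
    have h1 := delta_ι_mul hD v (x * y)
    have h2 := delta_ι_mul hD v x
    rw [ExteriorAlgebra.ι] at h1 h2
    rw [mul_assoc, h1, hx, h2, map_mul, CliffordAlgebra.involute_ι]
    noncomm_ring

end Delta

namespace CoverData

variable {n : ℕ} {X : Type} [TopologicalSpace X]

/-- an invariant coframe: one-forms `θ (inl i)` of type `(1,0)` and `θ (inr i)` of type `(0,1)` -/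
structure Frame (C : CoverData n X) (κ : Type) where
  θ : κ ⊕ κ → C.Inv
  un : ∀ i y (c : ℂ) v, (θ (Sum.inl i)).1 y (c • v) = c * (θ (Sum.inl i)).1 y v
  pr : ∀ i y (c : ℂ) v, (θ (Sum.inr i)).1 y (c • v) = conj c * (θ (Sum.inr i)).1 y v

namespace Frame

variable {C : CoverData n X} {κ : Type} [Fintype κ] [DecidableEq κ] (Φ : C.Frame κ)

/-- the linear combinations of the forms of the coframe -/
noncomputable def lin : (κ ⊕ κ → ℂ) →ₗ[ℂ] C.Inv := Fintype.linearCombination ℂ Φ.θ

theorem lin_single (s : κ ⊕ κ) : Φ.lin (Pi.single s 1) = Φ.θ s := by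
  rw [lin, Fintype.linearCombination_apply_single, one_smul]

/-- the linear combinations at a point -/
noncomputable def linp (y : Cn n) : (κ ⊕ κ → ℂ) →ₗ[ℂ] (Cn n →L[ℝ] ℂ) :=
  (LinearMap.proj y).comp (C.Inv.subtype.comp Φ.lin)

/-- the action of the exterior algebra on forms -/
noncomputable def act : EA (κ ⊕ κ) →ₐ[ℂ] Module.End ℂ (AllForms n C.Q) :=
  ExteriorAlgebra.lift ℂ ⟨opT.comp Φ.lin, fun v => LinearMap.ext fun a => opT_sq (Φ.lin v) a⟩

/-- the action of the exterior algebra at a point -/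
noncomputable def actp (y : Cn n) : EA (κ ⊕ κ) →ₐ[ℂ] Module.End ℂ (TT n) :=
  ExteriorAlgebra.lift ℂ ⟨pT.comp (Φ.linp y), fun v => LinearMap.ext fun a => pT_sq (Φ.linp y v) a⟩

theorem act_ι (v : κ ⊕ κ → ℂ) : Φ.act (ExteriorAlgebra.ι ℂ v) = opT (Φ.lin v) :=
  ExteriorAlgebra.lift_ι_apply ℂ _ _ _

theorem act_gen (s : κ ⊕ κ) : Φ.act (gen s) = opT (Φ.θ s) := by
  rw [gen, act_ι, lin_single]

theorem actp_ι (y : Cn n) (v : κ ⊕ κ → ℂ) :
    Φ.actp y (ExteriorAlgebra.ι ℂ v) = pT (Φ.linp y v) :=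
  ExteriorAlgebra.lift_ι_apply ℂ _ _ _

theorem actp_gen (y : Cn n) (s : κ ⊕ κ) : Φ.actp y (gen s) = pT ((Φ.θ s).1 y) := by
  rw [gen, actp_ι, linp, LinearMap.comp_apply, LinearMap.comp_apply, lin_single]
  rfl

theorem ev_act (x : EA (κ ⊕ κ)) (e : atlas (Cn n) C.Q) (y : Cn n) (a : AllForms n C.Q) :
    C.ev e y (Φ.act x a) = Φ.actp y x (C.ev e y a) := by
  induction x using CliffordAlgebra.left_induction generalizing a with
  | algebraMap c =>
    rw [AlgHom.commutes, AlgHom.commutes, Module.algebraMap_end_apply,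
      Module.algebraMap_end_apply, map_smul]
  | add x x' hx hx' =>
    rw [map_add, map_add, LinearMap.add_apply, LinearMap.add_apply, map_add, hx, hx']
  | ι_mul x v hx =>
    have h1 := Φ.act_ι v
    have h2 := Φ.actp_ι y v
    rw [ExteriorAlgebra.ι] at h1 h2
    rw [map_mul, map_mul, Module.End.mul_apply, Module.End.mul_apply, h1, h2, ev_opT, hx]
    rfl

/-- structure equations of the coframe -/
structure Struc (D : κ ⊕ κ → EA (κ ⊕ κ)) : Prop where
  comm : ∀ s (v : κ ⊕ κ → ℂ), D s * ExteriorAlgebra.ι ℂ v = ExteriorAlgebra.ι ℂ v * D s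
  eqn : ∀ s y, ∃ b : Cn n →L[ℝ] Cn n →L[ℝ] ℂ, (∀ a, Φ.actp y (D s) a = pW b a) ∧
    ∀ u v, fderiv ℝ (Φ.θ s).1 y u v - fderiv ℝ (Φ.θ s).1 y v u = b u v - b v u

variable {Φ} {D : κ ⊕ κ → EA (κ ⊕ κ)}

theorem Struc.totalD_gen (h : Φ.Struc D) (s : κ ⊕ κ) (a : AllForms n C.Q) :
    totalD n C.Q (opT (Φ.θ s) a) = Φ.act (D s) a - opT (Φ.θ s) (totalD n C.Q a) := by
  apply allForms_ext
  intro e y hy
  rw [map_sub, ev_act]
  obtain ⟨b, hb1, hb2⟩ := h.eqn s y
  rw [hb1]
  funext k
  match k with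
  | 0 => exact (sub_zero _).symm
  | 1 =>
    change (extD n C.Q 0 0).1 e y = 0 - wBil ℂ 0 ((Φ.θ s).1 y) 0
    rw [map_zero, map_zero, sub_zero]
    rfl
  | k + 2 =>
    change (extD n C.Q (k + 1) (op (Φ.θ s) k (a k))).1 e y = w2 b ((a k).1 e y) -
      wBil ℂ (k + 1) ((Φ.θ s).1 y) ((extD n C.Q k (a k)).1 e y)
    rw [extD_apply _ _ hy, extD_apply _ _ hy]
    change extDeriv (fun z => wBil ℂ k ((Φ.θ s).1 z) ((a k).1 e z)) y = _
    rw [extDeriv_wBil, w2_congr _ hb2]
    · exact ((Φ.θ s).2.1.contDiffAt).differentiableAt (by simp)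
    · exact ((form_smooth (a k) e).contDiffAt (e.1.open_target.mem_nhds hy)).differentiableAt
        (by simp)

theorem Struc.totalD_lin (h : Φ.Struc D) (v : κ ⊕ κ → ℂ) (a : AllForms n C.Q) :
    totalD n C.Q (opT (Φ.lin v) a) =
      Φ.act (delta D (ExteriorAlgebra.ι ℂ v)) a - opT (Φ.lin v) (totalD n C.Q a) := by
  have h1 : Φ.lin v = ∑ s, v s • Φ.θ s := Fintype.linearCombination_apply ℂ _ _
  rw [h1, delta_ι, map_sum, map_sum, LinearMap.sum_apply, LinearMap.sum_apply,
    LinearMap.sum_apply, map_sum, ← Finset.sum_sub_distrib]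
  refine Finset.sum_congr rfl fun s _ => ?_
  rw [map_smul, map_smul, LinearMap.smul_apply, LinearMap.smul_apply, LinearMap.smul_apply,
    map_smul, h.totalD_gen, smul_sub]

/-- the Leibniz rule -/
theorem Struc.totalD_act (h : Φ.Struc D) (x : EA (κ ⊕ κ)) (a : AllForms n C.Q) :
    totalD n C.Q (Φ.act x a) =
      Φ.act (delta D x) a + Φ.act (CliffordAlgebra.involute x) (totalD n C.Q a) := by
  induction x using CliffordAlgebra.left_induction generalizing a with
  | algebraMap c =>
    rw [AlgHom.commutes, Module.algebraMap_end_apply, map_smul, delta_algebraMap, map_zero,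
      LinearMap.zero_apply, zero_add, AlgHom.commutes, AlgHom.commutes,
      Module.algebraMap_end_apply]
  | add x x' hx hx' =>
    simp only [map_add, LinearMap.add_apply, hx, hx']
    abel
  | ι_mul x v hx =>
    have h1 := delta_ι_mul h.comm v x
    have h2 := h.totalD_lin v (Φ.act x a)
    have h3 := Φ.act_ι v
    rw [ExteriorAlgebra.ι] at h1 h2 h3
    rw [map_mul, Module.End.mul_apply, h3, h2, hx, h1, map_sub, map_mul, map_mul, map_mul,
      CliffordAlgebra.involute_ι, map_mul, map_neg, h3]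
    simp only [LinearMap.sub_apply, Module.End.mul_apply, map_add, LinearMap.neg_apply]
    abel

end Frame

end CoverData

end Pool.Agent.H73.Fro
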