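import Mathlib

/-!
# Gaussian integers in `ℂ`
-/

namespace Pool.Agent.H73.Fro

open Set
open scoped ComplexConjugate

/-- the Gaussian integers as a subset of `ℂ` -/
def Zi : Set ℂ := Set.range fun w : GaussianInt => (w : ℂ)

theorem Zi_zero : (0 : ℂ) ∈ Zi := ⟨0, by simp⟩

theorem Zi_add {a b : ℂ} (ha : a ∈ Zi) (hb : b ∈ Zi) : a + b ∈ Zi := by
  obtain ⟨x, rfl⟩ := ha
  obtain ⟨y, rfl⟩ := hb
  exact ⟨x + y, by simp⟩

theorem Zi_neg {a : ℂ} (ha : a ∈ Zi) : -a ∈ Zi := by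
  obtain ⟨x, rfl⟩ := ha
  exact ⟨-x, by simp⟩

theorem Zi_sub {a b : ℂ} (ha : a ∈ Zi) (hb : b ∈ Zi) : a - b ∈ Zi := by
  rw [sub_eq_add_neg]
  exact Zi_add ha (Zi_neg hb)

theorem Zi_mul {a b : ℂ} (ha : a ∈ Zi) (hb : b ∈ Zi) : a * b ∈ Zi := by
  obtain ⟨x, rfl⟩ := ha
  obtain ⟨y, rfl⟩ := hb
  exact ⟨x * y, by simp⟩

theorem Zi_conj {a : ℂ} (ha : a ∈ Zi) : conj a ∈ Zi := by
  obtain ⟨x, rfl⟩ := ha
  exact ⟨star x, by simp⟩

theorem Zi_sum {ι : Type*} {s : Finset ι} {f : ι → ℂ} (h : ∀ i ∈ s, f i ∈ Zi) :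
    ∑ i ∈ s, f i ∈ Zi := by
  classical
  induction s using Finset.induction_on with
  | empty => simpa using Zi_zero
  | insert a s ha ih =>
    rw [Finset.sum_insert ha]
    exact Zi_add (h a (Finset.mem_insert_self a s))
      (ih fun i hi => h i (Finset.mem_insert_of_mem hi))

theorem Zi_int (m : ℤ) : (m : ℂ) ∈ Zi := ⟨(m : GaussianInt), by simp⟩

theorem Zi_nat (m : ℕ) : (m : ℂ) ∈ Zi := by exact_mod_cast Zi_int m

theorem Zi_ofNat (m : ℕ) [m.AtLeastTwo] : (OfNat.ofNat m : ℂ) ∈ Zi := by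
  rw [← Nat.cast_ofNat]
  exact Zi_nat _

theorem Zi_finite (R : ℝ) : {w : ℂ | w ∈ Zi ∧ ‖w‖ ≤ R}.Finite := by
  set N : ℤ := ⌈R⌉ with hN
  have hfin : (Set.Icc (-N) N ×ˢ Set.Icc (-N) N).Finite :=
    (Set.finite_Icc _ _).prod (Set.finite_Icc _ _)
  apply (hfin.image fun p : ℤ × ℤ => ((⟨p.1, p.2⟩ : GaussianInt) : ℂ)).subset
  rintro w ⟨⟨x, rfl⟩, hw⟩
  refine ⟨(x.re, x.im), ?_, rfl⟩
  have h1 : |(x.re : ℝ)| ≤ R := by
    have := (Complex.abs_re_le_norm (x : ℂ)).trans hw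
    simpa using this
  have h2 : |(x.im : ℝ)| ≤ R := by
    have := (Complex.abs_im_le_norm (x : ℂ)).trans hw
    simpa using this
  have hc : R ≤ N := Int.le_ceil R
  rw [abs_le] at h1 h2
  simp only [Set.mem_prod, Set.mem_Icc]
  refine ⟨⟨?_, ?_⟩, ⟨?_, ?_⟩⟩
  · have : (-N : ℝ) ≤ x.re := by linarith
    exact_mod_cast this
  · have : (x.re : ℝ) ≤ N := by linarith
    exact_mod_cast this
  · have : (-N : ℝ) ≤ x.im := by linarith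
    exact_mod_cast this
  · have : (x.im : ℝ) ≤ N := by linarith
    exact_mod_cast this

theorem Zi_round (w : ℂ) : ∃ m ∈ Zi, ‖w + m‖ ≤ 2 := by
  refine ⟨_, ⟨⟨-⌊w.re⌋, -⌊w.im⌋⟩, rfl⟩, ?_⟩
  refine (Complex.norm_le_abs_re_add_abs_im _).trans ?_
  have h1 : (w + ((⟨-⌊w.re⌋, -⌊w.im⌋⟩ : GaussianInt) : ℂ)).re = Int.fract w.re := by
    simp [Int.fract, sub_eq_add_neg]
  have h2 : (w + ((⟨-⌊w.re⌋, -⌊w.im⌋⟩ : GaussianInt) : ℂ)).im = Int.fract w.im := by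
    simp [Int.fract, sub_eq_add_neg]
  rw [h1, h2, abs_of_nonneg (Int.fract_nonneg _), abs_of_nonneg (Int.fract_nonneg _)]
  have := Int.fract_lt_one w.re
  have := Int.fract_lt_one w.im
  linarith

/-- rounding to multiples of `c` -/
theorem Zi_round_mul {c : ℂ} (hc : c ≠ 0) (w : ℂ) : ∃ m ∈ Zi, ‖w + c * m‖ ≤ 2 * ‖c‖ := by
  obtain ⟨m, hm, hm2⟩ := Zi_round (w / c)
  refine ⟨m, hm, ?_⟩
  have : w + c * m = c * (w / c + m) := by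
    field_simp
  rw [this, norm_mul]
  nlinarith [norm_nonneg c]

theorem Zi_pi_finite {κ : Type*} [Finite κ] (R : ℝ) :
    {g : κ → ℂ | (∀ i, g i ∈ Zi) ∧ ∀ i, ‖g i‖ ≤ R}.Finite := by
  have h := Set.Finite.pi' (ι := κ) (fun _ => Zi_finite R)
  apply h.subset
  rintro g ⟨h1, h2⟩ i
  exact ⟨h1 i, h2 i⟩

end Pool.Agent.H73.Fro
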