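import Pool.Agent.H73.Fro.NilData
import Pool.Agent.H73.Fro.AlgDefs
import Pool.Agent.H73.Fro.GeoAux

/-!
# The group in dimension three
-/

namespace Pool.Agent.H73.Fro

open Set Filter
open scoped Manifold ContDiff ComplexConjugate Topology

namespace T3

/-- correction term of the third coordinate -/
noncomputable def Q (α u v : ℂ) : ℂ := conj α * v + conj α ^ 2 * u / 2

/-- the multiplication -/
noncomputable def mul (g z : Idx 3 0 → ℂ) : Idx 3 0 → ℂ
  | Sum.inl 0 => z (Sum.inl 0) + g (Sum.inl 0)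
  | Sum.inl 1 => z (Sum.inl 1) + g (Sum.inl 1) + conj (g (Sum.inl 0)) * z (Sum.inl 0)
  | Sum.inl 2 => z (Sum.inl 2) + g (Sum.inl 2) +
      Q (g (Sum.inl 0)) (z (Sum.inl 0)) (z (Sum.inl 1))
  | Sum.inr p => p.1.elim0

theorem mul_0 (g z : Idx 3 0 → ℂ) : mul g z (Sum.inl 0) = z (Sum.inl 0) + g (Sum.inl 0) := rfl
theorem mul_1 (g z : Idx 3 0 → ℂ) : mul g z (Sum.inl 1) =
    z (Sum.inl 1) + g (Sum.inl 1) + conj (g (Sum.inl 0)) * z (Sum.inl 0) := rfl
theorem mul_2 (g z : Idx 3 0 → ℂ) : mul g z (Sum.inl 2) = z (Sum.inl 2) + g (Sum.inl 2) +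
      Q (g (Sum.inl 0)) (z (Sum.inl 0)) (z (Sum.inl 1)) := rfl

theorem ext3 {x y : Idx 3 0 → ℂ} (h0 : x (Sum.inl 0) = y (Sum.inl 0))
    (h1 : x (Sum.inl 1) = y (Sum.inl 1)) (h2 : x (Sum.inl 2) = y (Sum.inl 2)) : x = y := by
  funext i
  rcases i with i | p
  · fin_cases i
    · exact h0
    · exact h1
    · exact h2
  · exact p.1.elim0

theorem mul_assoc' (x y z : Idx 3 0 → ℂ) : mul (mul x y) z = mul x (mul y z) := by
  apply ext3
  · simp only [mul_0]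
    ring
  · simp only [mul_0, mul_1, map_add]
    ring
  · simp only [mul_0, mul_1, mul_2, map_add, Q]
    ring

theorem zero_mul' (x : Idx 3 0 → ℂ) : mul 0 x = x := by
  apply ext3
  · simp [mul_0]
  · simp [mul_1]
  · simp [mul_2, Q]

theorem mul_zero' (x : Idx 3 0 → ℂ) : mul x 0 = x := by
  apply ext3
  · simp [mul_0]
  · simp [mul_1]
  · simp [mul_2, Q]

/-- the inverse -/
noncomputable def inv (z : Idx 3 0 → ℂ) : Idx 3 0 → ℂ :=
  let α := -z (Sum.inl 0)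
  let β := -z (Sum.inl 1) - conj α * z (Sum.inl 0)
  fun i => match i with
  | Sum.inl 0 => α
  | Sum.inl 1 => β
  | Sum.inl 2 => -z (Sum.inl 2) - Q α (z (Sum.inl 0)) (z (Sum.inl 1))
  | Sum.inr p => p.1.elim0

theorem inv_mul' (x : Idx 3 0 → ℂ) : mul (inv x) x = 0 := by
  apply ext3
  · simp [mul_0, inv]
  · simp [mul_1, inv]
  · simp only [mul_2, inv, Pi.zero_apply]
    ring

theorem continuous_mul' :
    Continuous fun p : (Idx 3 0 → ℂ) × (Idx 3 0 → ℂ) => mul p.1 p.2 := by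
  have h1 : ∀ i, Continuous fun p : (Idx 3 0 → ℂ) × (Idx 3 0 → ℂ) => p.1 i := fun i =>
    (continuous_apply i).comp continuous_fst
  have h2 : ∀ i, Continuous fun p : (Idx 3 0 → ℂ) × (Idx 3 0 → ℂ) => p.2 i := fun i =>
    (continuous_apply i).comp continuous_snd
  have h3 : ∀ i, Continuous fun p : (Idx 3 0 → ℂ) × (Idx 3 0 → ℂ) => conj (p.1 i) := fun i =>
    Complex.continuous_conj.comp (h1 i)
  apply continuous_pi
  intro i
  rcases i with i | p
  · fin_cases i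
    · simp only [Fin.zero_eta, mul_0]
      fun_prop
    · simp only [Fin.mk_one, mul_1]
      fun_prop
    · simp only [Fin.reduceFinMk, mul_2, Q]
      fun_prop
  · exact p.1.elim0

theorem continuous_inv' : Continuous (inv : (Idx 3 0 → ℂ) → (Idx 3 0 → ℂ)) := by
  have h2 : ∀ i, Continuous fun p : (Idx 3 0 → ℂ) => p i := fun i => continuous_apply i
  have h3 : ∀ i, Continuous fun p : (Idx 3 0 → ℂ) => conj (p i) := fun i =>
    Complex.continuous_conj.comp (h2 i)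
  apply continuous_pi
  intro i
  rcases i with i | p
  · fin_cases i
    · simp only [Fin.zero_eta, inv]
      fun_prop
    · simp only [Fin.mk_one, inv]
      fun_prop
    · simp only [Fin.reduceFinMk, inv, Q]
      fun_prop
  · exact p.1.elim0

theorem hol' (g : Idx 3 0 → ℂ) : ContDiff ℂ ω (mul g) := by
  have h2 : ∀ i, ContDiff ℂ ω fun p : (Idx 3 0 → ℂ) => p i := fun i => contDiff_apply ℂ ℂ i
  rw [contDiff_pi]
  intro i
  rcases i with i | p
  · fin_cases i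
    · simp only [Fin.zero_eta, mul_0]
      fun_prop
    · simp only [Fin.mk_one, mul_1]
      fun_prop
    · simp only [Fin.reduceFinMk, mul_2, Q]
      fun_prop
  · exact p.1.elim0

/-- complex coordinate functionals -/
noncomputable abbrev pc (i : Idx 3 0) : (Idx 3 0 → ℂ) →L[ℂ] ℂ :=
  ContinuousLinearMap.proj (R := ℂ) (φ := fun _ => ℂ) i

/-- the derivative of left multiplication -/
noncomputable def dmul (g _z : Idx 3 0 → ℂ) : (Idx 3 0 → ℂ) →L[ℂ] (Idx 3 0 → ℂ) :=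
  ContinuousLinearMap.pi fun i => match i with
  | Sum.inl 0 => pc (Sum.inl 0)
  | Sum.inl 1 => pc (Sum.inl 1) + conj (g (Sum.inl 0)) • pc (Sum.inl 0)
  | Sum.inl 2 => pc (Sum.inl 2) + conj (g (Sum.inl 0)) • pc (Sum.inl 1) +
      (conj (g (Sum.inl 0)) ^ 2 / 2) • pc (Sum.inl 0)
  | Sum.inr p => p.1.elim0

theorem hasD' (g z : Idx 3 0 → ℂ) : HasFDerivAt (mul g) (dmul g z) z := by
  have hc : ∀ i, HasFDerivAt (fun z : Idx 3 0 → ℂ => z i) (pc i) z := fun i =>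
    (pc i).hasFDerivAt
  rw [hasFDerivAt_pi']
  intro i
  rcases i with i | p
  · fin_cases i
    · have h := (hc (Sum.inl 0)).add_const (g (Sum.inl 0))
      exact h
    · have h := ((hc (Sum.inl 1)).add_const (g (Sum.inl 1))).add
        ((hc (Sum.inl 0)).const_mul (conj (g (Sum.inl 0))))
      exact h
    · have h1 := (hc (Sum.inl 2)).add_const (g (Sum.inl 2))
      have h2 := (hc (Sum.inl 1)).const_mul (conj (g (Sum.inl 0)))
      have h3 := (hc (Sum.inl 0)).const_mul (conj (g (Sum.inl 0)) ^ 2 / 2)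
      have h := h1.add (h2.add h3)
      refine (h.congr_of_eventuallyEq (Filter.Eventually.of_forall fun z => ?_)).congr_fderiv ?_
      · simp only [Fin.reduceFinMk, mul_2, Q, Pi.add_apply]
        ring
      · ext v
        simp [dmul]
        ring
  · exact p.1.elim0

/-- real-linear coordinate functionals -/
noncomputable abbrev pr (i : Idx 3 0) : (Idx 3 0 → ℂ) →L[ℝ] ℂ :=
  ContinuousLinearMap.proj (R := ℝ) (φ := fun _ => ℂ) i

/-- the coframe -/
noncomputable def θ (i : Idx 3 0) (z : Idx 3 0 → ℂ) : (Idx 3 0 → ℂ) →L[ℝ] ℂ :=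
  match i with
  | Sum.inl 0 => pr (Sum.inl 0)
  | Sum.inl 1 => pr (Sum.inl 1) + (-conj (z (Sum.inl 0))) • pr (Sum.inl 0)
  | Sum.inl 2 => pr (Sum.inl 2) + (-conj (z (Sum.inl 0))) • pr (Sum.inl 1) +
      (1 / 2 * conj (z (Sum.inl 0)) ^ 2) • pr (Sum.inl 0)
  | Sum.inr p => p.1.elim0

theorem θ_0 (z v : Idx 3 0 → ℂ) : θ (Sum.inl 0) z v = v (Sum.inl 0) := rfl
theorem θ_1 (z v : Idx 3 0 → ℂ) : θ (Sum.inl 1) z v =
    v (Sum.inl 1) + (-conj (z (Sum.inl 0))) * v (Sum.inl 0) := rfl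
theorem θ_2 (z v : Idx 3 0 → ℂ) : θ (Sum.inl 2) z v = v (Sum.inl 2) +
      (-conj (z (Sum.inl 0))) * v (Sum.inl 1) +
      (1 / 2 * conj (z (Sum.inl 0)) ^ 2) * v (Sum.inl 0) := rfl

theorem θ_lin' (i : Idx 3 0) (z : Idx 3 0 → ℂ) (c : ℂ) (v : Idx 3 0 → ℂ) :
    θ i z (c • v) = c * θ i z v := by
  rcases i with i | p
  · fin_cases i
    · simp [θ_0]
    · simp only [Fin.mk_one, θ_1, Pi.smul_apply, smul_eq_mul]
      ring
    · simp only [Fin.reduceFinMk, θ_2, Pi.smul_apply, smul_eq_mul]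
      ring
  · exact p.1.elim0

theorem θ_zero' (i : Idx 3 0) (v : Idx 3 0 → ℂ) : θ i 0 v = v i := by
  rcases i with i | p
  · fin_cases i
    · rfl
    · simp [θ_1]
    · simp [θ_2]
  · exact p.1.elim0

theorem dmul_0 (g z v : Idx 3 0 → ℂ) : dmul g z v (Sum.inl 0) = v (Sum.inl 0) := rfl
theorem dmul_1 (g z v : Idx 3 0 → ℂ) : dmul g z v (Sum.inl 1) =
    v (Sum.inl 1) + conj (g (Sum.inl 0)) * v (Sum.inl 0) := rfl
theorem dmul_2 (g z v : Idx 3 0 → ℂ) : dmul g z v (Sum.inl 2) =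
    v (Sum.inl 2) + conj (g (Sum.inl 0)) * v (Sum.inl 1) +
      (conj (g (Sum.inl 0)) ^ 2 / 2) * v (Sum.inl 0) := rfl

theorem θ_inv' (i : Idx 3 0) (g z v : Idx 3 0 → ℂ) : θ i (mul g z) (dmul g z v) = θ i z v := by
  rcases i with i | p
  · fin_cases i
    · rfl
    · simp only [Fin.mk_one, θ_1, dmul_0, dmul_1, mul_0, map_add]
      ring
    · simp only [Fin.reduceFinMk, θ_2, dmul_0, dmul_1, dmul_2, mul_0, map_add]
      ring
  · exact p.1.elim0

theorem θ_smooth' (i : Idx 3 0) : ContDiff ℝ ∞ (θ i) := by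
  have h2 : ∀ i, ContDiff ℝ ∞ fun p : (Idx 3 0 → ℂ) => p i := fun i => contDiff_apply ℝ ℂ i
  have h3 : ∀ i, ContDiff ℝ ∞ fun p : (Idx 3 0 → ℂ) => conj (p i) := fun i =>
    Complex.conjCLE.contDiff.comp (h2 i)
  rcases i with i | p
  · fin_cases i
    · exact contDiff_const
    · apply contDiff_const.add
      apply ContDiff.smul_const
      exact (h3 _).neg
    · refine (contDiff_const.add (ContDiff.smul_const ?_ _)).add (ContDiff.smul_const ?_ _)
      · fun_prop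
      · fun_prop
  · exact p.1.elim0

/-- `U s V t - V s U t` -/
noncomputable def w (s t : Idx 3 0 ⊕ Idx 3 0) (U V : Idx 3 0 ⊕ Idx 3 0 → ℂ) : ℂ :=
  U s * V t - V s * U t

/-- the alternating forms of the structure equations -/
noncomputable def β (s : Idx 3 0 ⊕ Idx 3 0) (U V : Idx 3 0 ⊕ Idx 3 0 → ℂ) : ℂ :=
  match s with
  | Sum.inl (Sum.inl 0) => 0
  | Sum.inl (Sum.inl 1) => w (Sum.inl (Sum.inl 0)) (Sum.inr (Sum.inl 0)) U V
  | Sum.inl (Sum.inl 2) => w (Sum.inl (Sum.inl 1)) (Sum.inr (Sum.inl 0)) U V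
  | Sum.inr (Sum.inl 0) => 0
  | Sum.inr (Sum.inl 1) => w (Sum.inr (Sum.inl 0)) (Sum.inl (Sum.inl 0)) U V
  | Sum.inr (Sum.inl 2) => w (Sum.inr (Sum.inl 1)) (Sum.inl (Sum.inl 0)) U V
  | Sum.inl (Sum.inr _) => 0
  | Sum.inr (Sum.inr _) => 0

theorem quad' (s : Idx 3 0 ⊕ Idx 3 0) : Quad (D3 s) (β s) := by
  rcases s with (i | p) | (i | p)
  · fin_cases i
    · exact Quad.zero
    · exact Quad.gg _ _
    · exact Quad.gg _ _
  · exact Quad.zero
  · fin_cases i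
    · exact Quad.zero
    · exact Quad.gg _ _
    · exact Quad.gg _ _
  · exact Quad.zero

theorem real_inl (U : Idx 3 0 → ℂ) (i) : real U (Sum.inl i) = U i := rfl
theorem real_inr (U : Idx 3 0 → ℂ) (i) : real U (Sum.inr i) = conj (U i) := rfl

theorem conj_β' (i : Idx 3 0) (U V : Idx 3 0 → ℂ) :
    β (Sum.inr i) (real U) (real V) = conj (β (Sum.inl i) (real U) (real V)) := by
  rcases i with i | p
  · fin_cases i
    · simp [β]
    · simp [β, w, real_inl, real_inr]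
    · simp [β, w, real_inl, real_inr]
  · exact p.1.elim0

theorem eqn' (i : Idx 3 0) (z u v : Idx 3 0 → ℂ) :
    fderiv ℝ (θ i) z u v - fderiv ℝ (θ i) z v u =
      β (Sum.inl i) (real fun j => θ j z u) (real fun j => θ j z v) := by
  have h2 : ∀ i, HasFDerivAt (fun p : (Idx 3 0 → ℂ) => p i) (pr i) z := fun i =>
    (pr i).hasFDerivAt
  have h3 : ∀ i, HasFDerivAt (fun p : (Idx 3 0 → ℂ) => conj (p i))
      ((Complex.conjCLE : ℂ →L[ℝ] ℂ).comp (pr i)) z := fun i =>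
    Complex.conjCLE.hasFDerivAt.comp z (h2 i)
  rcases i with i | p
  · fin_cases i
    · have h : HasFDerivAt (θ (Sum.inl 0)) (0 : (Idx 3 0 → ℂ) →L[ℝ] (Idx 3 0 → ℂ) →L[ℝ] ℂ) z :=
        hasFDerivAt_const (pr (Sum.inl 0)) z
      simp only [Fin.zero_eta]
      rw [h.fderiv]
      simp [β]
    · have h : HasFDerivAt (θ (Sum.inl 1)) _ z :=
        (hasFDerivAt_const (pr (Sum.inl 1)) z).add ((h3 (Sum.inl 0)).neg.smul_const
          (pr (Sum.inl 0)))
      simp only [Fin.mk_one]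
      rw [h.fderiv]
      simp [β, w, real_inl, real_inr, θ_0]
      ring
    · have h : HasFDerivAt (θ (Sum.inl 2)) _ z :=
        ((hasFDerivAt_const (pr (Sum.inl 2)) z).add
          ((h3 (Sum.inl 0)).neg.smul_const (pr (Sum.inl 1)))).add
          ((((h3 (Sum.inl 0)).pow 2).const_mul (1 / 2)).smul_const (pr (Sum.inl 0)))
      simp only [Fin.reduceFinMk]
      rw [h.fderiv]
      simp [β, w, real_inl, real_inr, θ_0, θ_1]
      ring
  · exact p.1.elim0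

/-- the lattice -/
def Lat : Set (Idx 3 0 → ℂ) := {z | (∃ m ∈ Zi, z (Sum.inl 0) = 2 * m) ∧ ∀ i, z i ∈ Zi}

theorem Q_mem {a b v : ℂ} (ha : a ∈ Zi) (hb : b ∈ Zi) (hv : v ∈ Zi) :
    Q (2 * a) (2 * b) v ∈ Zi := by
  obtain ⟨a, rfl⟩ := ha
  obtain ⟨b, rfl⟩ := hb
  obtain ⟨v, rfl⟩ := hv
  refine ⟨2 * star a * v + 4 * star a ^ 2 * b, ?_⟩
  simp only [Q, map_mul, map_ofNat, map_add, map_pow, GaussianInt.toComplex_star]
  ring

theorem fin' (R : ℝ) : {g : Idx 3 0 → ℂ | g ∈ Lat ∧ ∀ i, ‖g i‖ ≤ R}.Finite := by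
  apply (Zi_pi_finite (κ := Idx 3 0) R).subset
  rintro g ⟨⟨_, h1⟩, h2⟩
  exact ⟨h1, h2⟩

theorem mul_mem' (x : Idx 3 0 → ℂ) (hx : x ∈ Lat) (y : Idx 3 0 → ℂ) (hy : y ∈ Lat) :
    mul x y ∈ Lat := by
  obtain ⟨⟨a, ha, hxa⟩, hx⟩ := hx
  obtain ⟨⟨b, hb, hyb⟩, hy⟩ := hy
  refine ⟨⟨b + a, Zi_add hb ha, ?_⟩, ?_⟩
  · rw [mul_0, hxa, hyb]
    ring
  · intro i
    rcases i with i | p
    · fin_cases i
      · exact Zi_add (hy _) (hx _)
      · exact Zi_add (Zi_add (hy _) (hx _)) (Zi_mul (Zi_conj (hx _)) (hy _))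
      · simp only [Fin.reduceFinMk, mul_2]
        rw [hxa, hyb]
        exact Zi_add (Zi_add (hy _) (hx _)) (Q_mem ha hb (hy _))
    · exact p.1.elim0

theorem inv_mem' (x : Idx 3 0 → ℂ) (hx : x ∈ Lat) : inv x ∈ Lat := by
  obtain ⟨⟨a, ha, hxa⟩, hx⟩ := hx
  have h0 : inv x (Sum.inl 0) = 2 * (-a) := by
    change -x (Sum.inl 0) = _
    rw [hxa]
    ring
  have m0 : inv x (Sum.inl 0) ∈ Zi := Zi_neg (hx _)
  have m1 : inv x (Sum.inl 1) ∈ Zi := by
    change -x (Sum.inl 1) - conj (-x (Sum.inl 0)) * x (Sum.inl 0) ∈ Zi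
    exact Zi_sub (Zi_neg (hx _)) (Zi_mul (Zi_conj (Zi_neg (hx _))) (hx _))
  have m2 : inv x (Sum.inl 2) ∈ Zi := by
    change -x (Sum.inl 2) - Q (inv x (Sum.inl 0)) (x (Sum.inl 0)) (x (Sum.inl 1)) ∈ Zi
    rw [h0, hxa]
    exact Zi_sub (Zi_neg (hx _)) (Q_mem (Zi_neg ha) ha (hx _))
  refine ⟨⟨-a, Zi_neg ha, h0⟩, ?_⟩
  intro i
  rcases i with i | p
  · fin_cases i
    · exact m0
    · exact m1
    · exact m2
  · exact p.1.elim0

theorem cocompact' : ∃ R : ℝ, ∀ z : Idx 3 0 → ℂ, ∃ g ∈ Lat, ∀ i, ‖mul g z i‖ ≤ R := by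
  refine ⟨2 * ‖(2 : ℂ)‖, fun z => ?_⟩
  obtain ⟨a, ha, ha2⟩ := Zi_round_mul (c := 2) (by norm_num) (z (Sum.inl 0))
  obtain ⟨β, hβ, hβ2⟩ := Zi_round (z (Sum.inl 1) + conj (2 * a) * z (Sum.inl 0))
  obtain ⟨δ, hδ, hδ2⟩ := Zi_round (z (Sum.inl 2) + Q (2 * a) (z (Sum.inl 0))
    (z (Sum.inl 1)))
  let g : Idx 3 0 → ℂ := fun i => match i with
    | Sum.inl 0 => 2 * a
    | Sum.inl 1 => β
    | Sum.inl 2 => δ
    | Sum.inr p => p.1.elim0
  have h12 : (2 : ℝ) ≤ 2 * ‖(2 : ℂ)‖ := by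
    norm_num
  refine ⟨g, ⟨⟨a, ha, rfl⟩, ?_⟩, ?_⟩
  · intro i
    rcases i with i | p
    · fin_cases i
      · exact Zi_mul (Zi_ofNat 2) ha
      · exact hβ
      · exact hδ
    · exact p.1.elim0
  · intro i
    rcases i with i | p
    · fin_cases i
      · exact ha2
      · refine le_trans ?_ h12
        have : mul g z (Sum.inl 1) = z (Sum.inl 1) + conj (2 * a) * z (Sum.inl 0) + β := by
          rw [mul_1]
          ring
        simp only [Fin.mk_one]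
        rw [this]
        exact hβ2
      · refine le_trans ?_ h12
        have : mul g z (Sum.inl 2) = z (Sum.inl 2) + Q (2 * a) (z (Sum.inl 0))
            (z (Sum.inl 1)) + δ := by
          rw [mul_2]
          ring
        simp only [Fin.reduceFinMk]
        rw [this]
        exact hδ2
    · exact p.1.elim0

end T3

/-- the group in dimension three -/
noncomputable def nil3 : NilData (Idx 3 0) where
  mul := T3.mul
  inv := T3.inv
  mul_assoc' := T3.mul_assoc'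
  zero_mul' := T3.zero_mul'
  mul_zero' := T3.mul_zero'
  inv_mul' := T3.inv_mul'
  cont_mul := T3.continuous_mul'
  cont_inv := T3.continuous_inv'
  Λ := T3.Lat
  zero_mem' := ⟨⟨0, Zi_zero, by simp⟩, fun _ => Zi_zero⟩
  mul_mem' := T3.mul_mem'
  inv_mem' := T3.inv_mem'
  fin := T3.fin'
  cocompact := T3.cocompact'
  hol := T3.hol'
  dmul := T3.dmul
  hasD := T3.hasD'
  θ := T3.θ
  θ_smooth := T3.θ_smooth'
  θ_lin := T3.θ_lin'
  θ_inv := T3.θ_inv'
  θ_zero := T3.θ_zero'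
  D := D3
  β := T3.β
  quad := T3.quad'
  conj_β := T3.conj_β'
  eqn := T3.eqn'

end Pool.Agent.H73.Fro
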