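import Pool.Agent.H73.Fro.GeoEven

/-!
# The groups of the odd family and of dimension three
-/

namespace Pool.Agent.H73.Fro

open Set Filter
open scoped Manifold ContDiff ComplexConjugate Topology

namespace Od

variable {k : ℕ}

/-- correction term of the fourth coordinate -/
noncomputable def Q3 (α ρ β u r : ℂ) : ℂ :=
  -(conj α * u ^ 2 / 2) - (α * conj α - conj β) * u - (α - conj ρ) * r

/-- correction term of the fifth coordinate -/
noncomputable def Q4 (α u v : ℂ) : ℂ := conj α * v + conj α ^ 2 * u / 2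

/-- the multiplication -/
noncomputable def mul (g z : Idx 5 k → ℂ) : Idx 5 k → ℂ
  | Sum.inl 0 => z (Sum.inl 0) + g (Sum.inl 0)
  | Sum.inl 1 => z (Sum.inl 1) + g (Sum.inl 1)
  | Sum.inl 2 => z (Sum.inl 2) + g (Sum.inl 2) + conj (g (Sum.inl 0)) * z (Sum.inl 0)
  | Sum.inl 3 => z (Sum.inl 3) + g (Sum.inl 3) +
      Q3 (g (Sum.inl 0)) (g (Sum.inl 1)) (g (Sum.inl 2)) (z (Sum.inl 0)) (z (Sum.inl 1))
  | Sum.inl 4 => z (Sum.inl 4) + g (Sum.inl 4) +
      Q4 (g (Sum.inl 0)) (z (Sum.inl 0)) (z (Sum.inl 2)) + cz g z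
  | Sum.inr p => z (Sum.inr p) + g (Sum.inr p)

theorem mul_0 (g z : Idx 5 k → ℂ) : mul g z (Sum.inl 0) = z (Sum.inl 0) + g (Sum.inl 0) := rfl
theorem mul_1 (g z : Idx 5 k → ℂ) : mul g z (Sum.inl 1) = z (Sum.inl 1) + g (Sum.inl 1) := rfl
theorem mul_2 (g z : Idx 5 k → ℂ) : mul g z (Sum.inl 2) =
    z (Sum.inl 2) + g (Sum.inl 2) + conj (g (Sum.inl 0)) * z (Sum.inl 0) := rfl
theorem mul_3 (g z : Idx 5 k → ℂ) : mul g z (Sum.inl 3) = z (Sum.inl 3) + g (Sum.inl 3) +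
      Q3 (g (Sum.inl 0)) (g (Sum.inl 1)) (g (Sum.inl 2)) (z (Sum.inl 0)) (z (Sum.inl 1)) := rfl
theorem mul_4 (g z : Idx 5 k → ℂ) : mul g z (Sum.inl 4) = z (Sum.inl 4) + g (Sum.inl 4) +
      Q4 (g (Sum.inl 0)) (z (Sum.inl 0)) (z (Sum.inl 2)) + cz g z := rfl
theorem mul_r (g z : Idx 5 k → ℂ) (p) : mul g z (Sum.inr p) = z (Sum.inr p) + g (Sum.inr p) := rfl

theorem ext5 {x y : Idx 5 k → ℂ} (h0 : x (Sum.inl 0) = y (Sum.inl 0))
    (h1 : x (Sum.inl 1) = y (Sum.inl 1)) (h2 : x (Sum.inl 2) = y (Sum.inl 2))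
    (h3 : x (Sum.inl 3) = y (Sum.inl 3)) (h4 : x (Sum.inl 4) = y (Sum.inl 4))
    (hr : ∀ p, x (Sum.inr p) = y (Sum.inr p)) : x = y := by
  funext i
  rcases i with i | p
  · fin_cases i
    · exact h0
    · exact h1
    · exact h2
    · exact h3
    · exact h4
  · exact hr p

theorem mul_assoc' (x y z : Idx 5 k → ℂ) : mul (mul x y) z = mul x (mul y z) := by
  apply ext5
  · simp only [mul_0]
    ring
  · simp only [mul_1]
    ring
  · simp only [mul_0, mul_2, map_add]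
    ring
  · simp only [mul_0, mul_1, mul_2, mul_3, map_add, map_mul, Q3, Complex.conj_conj]
    ring
  · rw [mul_4, mul_4, mul_4, mul_4, cz_add_left (g := x) (h := y) (mul_r x y),
      cz_add_right (h := y) (z := z) (mul_r y z)]
    simp only [mul_0, mul_2, map_add, Q4]
    ring
  · intro p
    simp only [mul_r]
    ring

theorem zero_mul' (x : Idx 5 k → ℂ) : mul 0 x = x := by
  apply ext5
  · simp [mul_0]
  · simp [mul_1]
  · simp [mul_2]
  · simp [mul_3, Q3]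
  · rw [mul_4, cz_zero_left (fun p => rfl)]
    simp [Q4]
  · intro p
    simp [mul_r]

theorem mul_zero' (x : Idx 5 k → ℂ) : mul x 0 = x := by
  apply ext5
  · simp [mul_0]
  · simp [mul_1]
  · simp [mul_2]
  · simp [mul_3, Q3]
  · rw [mul_4, cz_zero_right (fun p => rfl)]
    simp [Q4]
  · intro p
    simp [mul_r]

/-- the inverse -/
noncomputable def inv (z : Idx 5 k → ℂ) : Idx 5 k → ℂ :=
  let α := -z (Sum.inl 0)
  let ρ := -z (Sum.inl 1)
  let β := -z (Sum.inl 2) - conj α * z (Sum.inl 0)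
  fun i => match i with
  | Sum.inl 0 => α
  | Sum.inl 1 => ρ
  | Sum.inl 2 => β
  | Sum.inl 3 => -z (Sum.inl 3) - Q3 α ρ β (z (Sum.inl 0)) (z (Sum.inl 1))
  | Sum.inl 4 => -z (Sum.inl 4) - Q4 α (z (Sum.inl 0)) (z (Sum.inl 2)) - cz (-z) z
  | Sum.inr p => -z (Sum.inr p)

theorem inv_mul' (x : Idx 5 k → ℂ) : mul (inv x) x = 0 := by
  apply ext5
  · simp [mul_0, inv]
  · simp [mul_1, inv]
  · simp [mul_2, inv]
  · simp only [mul_3, inv, Pi.zero_apply]
    ring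
  · have h : cz (inv x) x = cz (-x) x := rfl
    rw [mul_4, h]
    simp only [inv, Pi.zero_apply]
    ring
  · intro p
    simp [mul_r, inv]

theorem continuous_mul' :
    Continuous fun p : (Idx 5 k → ℂ) × (Idx 5 k → ℂ) => mul p.1 p.2 := by
  have h1 : ∀ i, Continuous fun p : (Idx 5 k → ℂ) × (Idx 5 k → ℂ) => p.1 i := fun i =>
    (continuous_apply i).comp continuous_fst
  have h2 : ∀ i, Continuous fun p : (Idx 5 k → ℂ) × (Idx 5 k → ℂ) => p.2 i := fun i =>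
    (continuous_apply i).comp continuous_snd
  have h3 : ∀ i, Continuous fun p : (Idx 5 k → ℂ) × (Idx 5 k → ℂ) => conj (p.1 i) := fun i =>
    Complex.continuous_conj.comp (h1 i)
  apply continuous_pi
  intro i
  rcases i with i | p
  · fin_cases i
    · simp only [Fin.zero_eta, mul_0]
      fun_prop
    · simp only [Fin.mk_one, mul_1]
      fun_prop
    · simp only [Fin.reduceFinMk, mul_2]
      fun_prop
    · simp only [Fin.reduceFinMk, mul_3, Q3]
      fun_prop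
    · simp only [Fin.reduceFinMk, mul_4, Q4, cz]
      fun_prop
  · simp only [mul_r]
    fun_prop

theorem continuous_inv' : Continuous (inv : (Idx 5 k → ℂ) → (Idx 5 k → ℂ)) := by
  have h2 : ∀ i, Continuous fun p : (Idx 5 k → ℂ) => p i := fun i => continuous_apply i
  have h3 : ∀ i, Continuous fun p : (Idx 5 k → ℂ) => conj (p i) := fun i =>
    Complex.continuous_conj.comp (h2 i)
  apply continuous_pi
  intro i
  rcases i with i | p
  · fin_cases i
    · simp only [Fin.zero_eta, inv]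
      fun_prop
    · simp only [Fin.mk_one, inv]
      fun_prop
    · simp only [Fin.reduceFinMk, inv]
      fun_prop
    · simp only [Fin.reduceFinMk, inv, Q3]
      fun_prop
    · simp only [Fin.reduceFinMk, inv, Q4, cz, Pi.neg_apply]
      fun_prop
  · simp only [inv]
    fun_prop

theorem hol' (g : Idx 5 k → ℂ) : ContDiff ℂ ω (mul g) := by
  have h2 : ∀ i, ContDiff ℂ ω fun p : (Idx 5 k → ℂ) => p i := fun i => contDiff_apply ℂ ℂ i
  rw [contDiff_pi]
  intro i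
  rcases i with i | p
  · fin_cases i
    · simp only [Fin.zero_eta, mul_0]
      fun_prop
    · simp only [Fin.mk_one, mul_1]
      fun_prop
    · simp only [Fin.reduceFinMk, mul_2]
      fun_prop
    · simp only [Fin.reduceFinMk, mul_3, Q3]
      fun_prop
    · simp only [Fin.reduceFinMk, mul_4, Q4, cz]
      fun_prop
  · simp only [mul_r]
    fun_prop

/-- complex coordinate functionals -/
noncomputable abbrev pc (i : Idx 5 k) : (Idx 5 k → ℂ) →L[ℂ] ℂ :=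
  ContinuousLinearMap.proj (R := ℂ) (φ := fun _ => ℂ) i

/-- the derivative of left multiplication -/
noncomputable def dmul (g z : Idx 5 k → ℂ) : (Idx 5 k → ℂ) →L[ℂ] (Idx 5 k → ℂ) :=
  ContinuousLinearMap.pi fun i => match i with
  | Sum.inl 0 => pc (Sum.inl 0)
  | Sum.inl 1 => pc (Sum.inl 1)
  | Sum.inl 2 => pc (Sum.inl 2) + conj (g (Sum.inl 0)) • pc (Sum.inl 0)
  | Sum.inl 3 => pc (Sum.inl 3) + (-(conj (g (Sum.inl 0)) * z (Sum.inl 0)) -
      (g (Sum.inl 0) * conj (g (Sum.inl 0)) - conj (g (Sum.inl 2)))) • pc (Sum.inl 0) +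
      (-(g (Sum.inl 0) - conj (g (Sum.inl 1)))) • pc (Sum.inl 1)
  | Sum.inl 4 => pc (Sum.inl 4) + conj (g (Sum.inl 0)) • pc (Sum.inl 2) +
      (conj (g (Sum.inl 0)) ^ 2 / 2) • pc (Sum.inl 0) +
      ∑ j, ((2 * conj (g (Sum.inr (j, 1)))) • pc (Sum.inr (j, 0)) -
        (5 * g (Sum.inr (j, 0)) + 2 * conj (g (Sum.inr (j, 0)))) • pc (Sum.inr (j, 1)))
  | Sum.inr p => pc (Sum.inr p)

theorem hasFDerivAt_cz (g z : Idx 5 k → ℂ) : HasFDerivAt (fun z => cz g z)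
    (∑ j, ((2 * conj (g (Sum.inr (j, 1)))) • pc (Sum.inr (j, 0)) -
        (5 * g (Sum.inr (j, 0)) + 2 * conj (g (Sum.inr (j, 0)))) • pc (Sum.inr (j, 1)))) z := by
  have hc : ∀ i, HasFDerivAt (fun z : Idx 5 k → ℂ => z i) (pc i) z := fun i =>
    (pc i).hasFDerivAt
  simp only [cz]
  apply HasFDerivAt.fun_sum
  intro j _
  exact ((hc (Sum.inr (j, 0))).const_mul (2 * conj (g (Sum.inr (j, 1))))).sub
    ((hc (Sum.inr (j, 1))).const_mul (5 * g (Sum.inr (j, 0)) + 2 * conj (g (Sum.inr (j, 0)))))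

theorem hasD' (g z : Idx 5 k → ℂ) : HasFDerivAt (mul g) (dmul g z) z := by
  have hc : ∀ i, HasFDerivAt (fun z : Idx 5 k → ℂ => z i) (pc i) z := fun i =>
    (pc i).hasFDerivAt
  rw [hasFDerivAt_pi']
  intro i
  rcases i with i | p
  · fin_cases i
    · have h := (hc (Sum.inl 0)).add_const (g (Sum.inl 0))
      exact h
    · have h := (hc (Sum.inl 1)).add_const (g (Sum.inl 1))
      exact h
    · have h := ((hc (Sum.inl 2)).add_const (g (Sum.inl 2))).add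
        ((hc (Sum.inl 0)).const_mul (conj (g (Sum.inl 0))))
      exact h
    · have h1 := (hc (Sum.inl 3)).add_const (g (Sum.inl 3))
      have h2 := (hc (Sum.inl 0)).const_mul
        (g (Sum.inl 0) * conj (g (Sum.inl 0)) - conj (g (Sum.inl 2)))
      have h3 := ((hc (Sum.inl 0)).pow 2).const_mul (conj (g (Sum.inl 0)) / 2)
      have h4 := (hc (Sum.inl 1)).const_mul (g (Sum.inl 0) - conj (g (Sum.inl 1)))
      have h := ((h1.sub h3).sub h2).sub h4
      refine (h.congr_of_eventuallyEq (Filter.Eventually.of_forall fun z => ?_)).congr_fderiv ?_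
      · simp only [Fin.reduceFinMk, mul_3, Q3, Pi.add_apply, Pi.sub_apply]
        ring
      · ext v
        simp [dmul]
        ring
    · have h1 := (hc (Sum.inl 4)).add_const (g (Sum.inl 4))
      have h2 := (hc (Sum.inl 2)).const_mul (conj (g (Sum.inl 0)))
      have h3 := (hc (Sum.inl 0)).const_mul (conj (g (Sum.inl 0)) ^ 2 / 2)
      have h := (h1.add (h2.add h3)).add (hasFDerivAt_cz g z)
      refine (h.congr_of_eventuallyEq (Filter.Eventually.of_forall fun z => ?_)).congr_fderiv ?_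
      · simp only [Fin.reduceFinMk, mul_4, Q4, Pi.add_apply]
        ring
      · ext v
        simp [dmul]
        ring
  · have h := (hc (Sum.inr p)).add_const (g (Sum.inr p))
    exact h

/-- real-linear coordinate functionals -/
noncomputable abbrev pr (i : Idx 5 k) : (Idx 5 k → ℂ) →L[ℝ] ℂ :=
  ContinuousLinearMap.proj (R := ℝ) (φ := fun _ => ℂ) i

/-- the pair part of the last form of the coframe -/
noncomputable def θz (z : Idx 5 k → ℂ) : (Idx 5 k → ℂ) →L[ℝ] ℂ :=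
  ∑ j, ((-2 * conj (z (Sum.inr (j, 1)))) • pr (Sum.inr (j, 0)) +
    (5 * z (Sum.inr (j, 0)) + 2 * conj (z (Sum.inr (j, 0)))) • pr (Sum.inr (j, 1)))

/-- the coframe -/
noncomputable def θ (i : Idx 5 k) (z : Idx 5 k → ℂ) : (Idx 5 k → ℂ) →L[ℝ] ℂ :=
  match i with
  | Sum.inl 0 => pr (Sum.inl 0)
  | Sum.inl 1 => pr (Sum.inl 1)
  | Sum.inl 2 => pr (Sum.inl 2) + (-conj (z (Sum.inl 0))) • pr (Sum.inl 0)
  | Sum.inl 3 => pr (Sum.inl 3) +
      (z (Sum.inl 0) * conj (z (Sum.inl 0)) - conj (z (Sum.inl 2))) • pr (Sum.inl 0) +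
      (z (Sum.inl 0) - conj (z (Sum.inl 1))) • pr (Sum.inl 1)
  | Sum.inl 4 => pr (Sum.inl 4) + (-conj (z (Sum.inl 0))) • pr (Sum.inl 2) +
      (1 / 2 * conj (z (Sum.inl 0)) ^ 2) • pr (Sum.inl 0) + θz z
  | Sum.inr p => pr (Sum.inr p)

theorem θz_apply (z v : Idx 5 k → ℂ) : θz z v = ∑ j, ((-2 * conj (z (Sum.inr (j, 1)))) *
    v (Sum.inr (j, 0)) +
    (5 * z (Sum.inr (j, 0)) + 2 * conj (z (Sum.inr (j, 0)))) * v (Sum.inr (j, 1))) := by
  rw [θz, _root_.sum_apply]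
  rfl

theorem θ_0 (z v : Idx 5 k → ℂ) : θ (Sum.inl 0) z v = v (Sum.inl 0) := rfl
theorem θ_1 (z v : Idx 5 k → ℂ) : θ (Sum.inl 1) z v = v (Sum.inl 1) := rfl
theorem θ_2 (z v : Idx 5 k → ℂ) : θ (Sum.inl 2) z v =
    v (Sum.inl 2) + (-conj (z (Sum.inl 0))) * v (Sum.inl 0) := rfl
theorem θ_3 (z v : Idx 5 k → ℂ) : θ (Sum.inl 3) z v =
    v (Sum.inl 3) + (z (Sum.inl 0) * conj (z (Sum.inl 0)) - conj (z (Sum.inl 2))) *
      v (Sum.inl 0) + (z (Sum.inl 0) - conj (z (Sum.inl 1))) * v (Sum.inl 1) := rfl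
theorem θ_4 (z v : Idx 5 k → ℂ) : θ (Sum.inl 4) z v = v (Sum.inl 4) +
      (-conj (z (Sum.inl 0))) * v (Sum.inl 2) +
      (1 / 2 * conj (z (Sum.inl 0)) ^ 2) * v (Sum.inl 0) + θz z v := rfl
theorem θ_r (p) (z v : Idx 5 k → ℂ) : θ (Sum.inr p) z v = v (Sum.inr p) := rfl

theorem θ_lin' (i : Idx 5 k) (z : Idx 5 k → ℂ) (c : ℂ) (v : Idx 5 k → ℂ) :
    θ i z (c • v) = c * θ i z v := by
  rcases i with i | p
  · fin_cases i
    · simp [θ_0]
    · simp [θ_1]
    · simp only [Fin.reduceFinMk, θ_2, Pi.smul_apply, smul_eq_mul]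
      ring
    · simp only [Fin.reduceFinMk, θ_3, Pi.smul_apply, smul_eq_mul]
      ring
    · have h : θz z (c • v) = c * θz z v := by
        rw [θz_apply, θz_apply, Finset.mul_sum]
        refine Finset.sum_congr rfl fun j _ => ?_
        simp only [Pi.smul_apply, smul_eq_mul]
        ring
      simp only [Fin.reduceFinMk, θ_4, h, Pi.smul_apply, smul_eq_mul]
      ring
  · simp [θ_r]

theorem θ_zero' (i : Idx 5 k) (v : Idx 5 k → ℂ) : θ i 0 v = v i := by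
  rcases i with i | p
  · fin_cases i
    · rfl
    · rfl
    · simp [θ_2]
    · simp [θ_3]
    · simp [θ_4, θz_apply]
  · rfl

theorem dmul_0 (g z v : Idx 5 k → ℂ) : dmul g z v (Sum.inl 0) = v (Sum.inl 0) := rfl
theorem dmul_1 (g z v : Idx 5 k → ℂ) : dmul g z v (Sum.inl 1) = v (Sum.inl 1) := rfl
theorem dmul_2 (g z v : Idx 5 k → ℂ) : dmul g z v (Sum.inl 2) =
    v (Sum.inl 2) + conj (g (Sum.inl 0)) * v (Sum.inl 0) := rfl
theorem dmul_3 (g z v : Idx 5 k → ℂ) : dmul g z v (Sum.inl 3) =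
    v (Sum.inl 3) + (-(conj (g (Sum.inl 0)) * z (Sum.inl 0)) -
      (g (Sum.inl 0) * conj (g (Sum.inl 0)) - conj (g (Sum.inl 2)))) * v (Sum.inl 0) +
      (-(g (Sum.inl 0) - conj (g (Sum.inl 1)))) * v (Sum.inl 1) := rfl
theorem dmul_4 (g z v : Idx 5 k → ℂ) : dmul g z v (Sum.inl 4) =
    v (Sum.inl 4) + conj (g (Sum.inl 0)) * v (Sum.inl 2) +
      (conj (g (Sum.inl 0)) ^ 2 / 2) * v (Sum.inl 0) +
      ∑ j, ((2 * conj (g (Sum.inr (j, 1)))) * v (Sum.inr (j, 0)) -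
        (5 * g (Sum.inr (j, 0)) + 2 * conj (g (Sum.inr (j, 0)))) * v (Sum.inr (j, 1))) := by
  simp [dmul]
theorem dmul_r (g z v : Idx 5 k → ℂ) (p) : dmul g z v (Sum.inr p) = v (Sum.inr p) := rfl

theorem θ_inv' (i : Idx 5 k) (g z v : Idx 5 k → ℂ) : θ i (mul g z) (dmul g z v) = θ i z v := by
  rcases i with i | p
  · fin_cases i
    · rfl
    · rfl
    · simp only [Fin.reduceFinMk, θ_2, dmul_0, dmul_2, mul_0, map_add]
      ring
    · simp only [Fin.reduceFinMk, θ_3, dmul_0, dmul_1, dmul_3, mul_0, mul_1, mul_2, map_add,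
        map_mul, Complex.conj_conj]
      ring
    · have h : θz (mul g z) (dmul g z v) = θz z v -
          ∑ j, ((2 * conj (g (Sum.inr (j, 1)))) * v (Sum.inr (j, 0)) -
        (5 * g (Sum.inr (j, 0)) + 2 * conj (g (Sum.inr (j, 0)))) * v (Sum.inr (j, 1))) := by
        rw [θz_apply, θz_apply, ← Finset.sum_sub_distrib]
        refine Finset.sum_congr rfl fun j _ => ?_
        simp only [mul_r, dmul_r, map_add]
        ring
      simp only [Fin.reduceFinMk, θ_4, h, dmul_0, dmul_2, dmul_4, mul_0, map_add]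
      ring
  · rfl

theorem θ_smooth' (i : Idx 5 k) : ContDiff ℝ ∞ (θ i) := by
  have h2 : ∀ i, ContDiff ℝ ∞ fun p : (Idx 5 k → ℂ) => p i := fun i => contDiff_apply ℝ ℂ i
  have h3 : ∀ i, ContDiff ℝ ∞ fun p : (Idx 5 k → ℂ) => conj (p i) := fun i =>
    Complex.conjCLE.contDiff.comp (h2 i)
  rcases i with i | p
  · fin_cases i
    · exact contDiff_const
    · exact contDiff_const
    · apply contDiff_const.add
      apply ContDiff.smul_const
      exact (h3 _).neg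
    · refine (contDiff_const.add (ContDiff.smul_const ?_ _)).add (ContDiff.smul_const ?_ _)
      · fun_prop
      · fun_prop
    · refine ((contDiff_const.add (ContDiff.smul_const ?_ _)).add
        (ContDiff.smul_const ?_ _)).add ?_
      · fun_prop
      · fun_prop
      · apply ContDiff.sum
        intro j _
        refine (ContDiff.smul_const ?_ _).add (ContDiff.smul_const ?_ _)
        · fun_prop
        · fun_prop
  · exact contDiff_const

/-- `U s V t - V s U t` -/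
noncomputable def w (s t : Idx 5 k ⊕ Idx 5 k) (U V : Idx 5 k ⊕ Idx 5 k → ℂ) : ℂ :=
  U s * V t - V s * U t

/-- the alternating forms of the structure equations -/
noncomputable def β (s : Idx 5 k ⊕ Idx 5 k) (U V : Idx 5 k ⊕ Idx 5 k → ℂ) : ℂ :=
  match s with
  | Sum.inl (Sum.inl 0) => 0
  | Sum.inl (Sum.inl 1) => 0
  | Sum.inl (Sum.inl 2) => w (Sum.inl (Sum.inl 0)) (Sum.inr (Sum.inl 0)) U V
  | Sum.inl (Sum.inl 3) => w (Sum.inl (Sum.inl 0)) (Sum.inl (Sum.inl 1)) U V +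
      w (Sum.inl (Sum.inl 0)) (Sum.inr (Sum.inl 2)) U V +
      w (Sum.inl (Sum.inl 1)) (Sum.inr (Sum.inl 1)) U V
  | Sum.inl (Sum.inl 4) => w (Sum.inl (Sum.inl 2)) (Sum.inr (Sum.inl 0)) U V +
      ∑ j, (5 * w (Sum.inl (Sum.inr (j, 0))) (Sum.inl (Sum.inr (j, 1))) U V +
        2 * (w (Sum.inl (Sum.inr (j, 0))) (Sum.inr (Sum.inr (j, 1))) U V +
          w (Sum.inr (Sum.inr (j, 0))) (Sum.inl (Sum.inr (j, 1))) U V))
  | Sum.inr (Sum.inl 0) => 0
  | Sum.inr (Sum.inl 1) => 0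
  | Sum.inr (Sum.inl 2) => w (Sum.inr (Sum.inl 0)) (Sum.inl (Sum.inl 0)) U V
  | Sum.inr (Sum.inl 3) => w (Sum.inr (Sum.inl 0)) (Sum.inr (Sum.inl 1)) U V +
      w (Sum.inr (Sum.inl 0)) (Sum.inl (Sum.inl 2)) U V +
      w (Sum.inr (Sum.inl 1)) (Sum.inl (Sum.inl 1)) U V
  | Sum.inr (Sum.inl 4) => w (Sum.inr (Sum.inl 2)) (Sum.inl (Sum.inl 0)) U V +
      ∑ j, (5 * w (Sum.inr (Sum.inr (j, 0))) (Sum.inr (Sum.inr (j, 1))) U V +
        2 * (w (Sum.inl (Sum.inr (j, 0))) (Sum.inr (Sum.inr (j, 1))) U V +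
          w (Sum.inr (Sum.inr (j, 0))) (Sum.inl (Sum.inr (j, 1))) U V))
  | Sum.inl (Sum.inr _) => 0
  | Sum.inr (Sum.inr _) => 0

theorem quad_L1 : Quad (L1 5 k) (fun U V =>
    ∑ j, (5 * w (Sum.inl (Sum.inr (j, 0))) (Sum.inl (Sum.inr (j, 1))) U V +
        2 * (w (Sum.inl (Sum.inr (j, 0))) (Sum.inr (Sum.inr (j, 1))) U V +
          w (Sum.inr (Sum.inr (j, 0))) (Sum.inl (Sum.inr (j, 1))) U V))) := by
  apply Quad.sum
  intro j _
  exact ((Quad.gg _ _).smul 5).add (((Quad.gg _ _).add (Quad.gg _ _)).smul 2)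

theorem quad_L2 : Quad (L2 5 k) (fun U V =>
    ∑ j, (5 * w (Sum.inr (Sum.inr (j, 0))) (Sum.inr (Sum.inr (j, 1))) U V +
        2 * (w (Sum.inl (Sum.inr (j, 0))) (Sum.inr (Sum.inr (j, 1))) U V +
          w (Sum.inr (Sum.inr (j, 0))) (Sum.inl (Sum.inr (j, 1))) U V))) := by
  apply Quad.sum
  intro j _
  exact ((Quad.gg _ _).smul 5).add (((Quad.gg _ _).add (Quad.gg _ _)).smul 2)

theorem quad' (s : Idx 5 k ⊕ Idx 5 k) : Quad (DO k s) (β s) := by
  rcases s with (i | p) | (i | p)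
  · fin_cases i
    · exact Quad.zero
    · exact Quad.zero
    · exact Quad.gg _ _
    · exact ((Quad.gg _ _).add (Quad.gg _ _)).add (Quad.gg _ _)
    · exact (Quad.gg _ _).add quad_L1
  · exact Quad.zero
  · fin_cases i
    · exact Quad.zero
    · exact Quad.zero
    · exact Quad.gg _ _
    · exact ((Quad.gg _ _).add (Quad.gg _ _)).add (Quad.gg _ _)
    · exact (Quad.gg _ _).add quad_L2
  · exact Quad.zero

theorem real_inl (U : Idx 5 k → ℂ) (i) : real U (Sum.inl i) = U i := rfl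
theorem real_inr (U : Idx 5 k → ℂ) (i) : real U (Sum.inr i) = conj (U i) := rfl

theorem conj_β' (i : Idx 5 k) (U V : Idx 5 k → ℂ) :
    β (Sum.inr i) (real U) (real V) = conj (β (Sum.inl i) (real U) (real V)) := by
  rcases i with i | p
  · fin_cases i
    · simp [β]
    · simp [β]
    · simp [β, w, real_inl, real_inr]
    · simp [β, w, real_inl, real_inr]
    · simp only [Fin.reduceFinMk, β, w, real_inl, real_inr, map_add, map_sub, map_mul, map_sum,
        Complex.conj_conj, map_ofNat]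
      congr 1
      refine Finset.sum_congr rfl fun j _ => ?_
      ring
  · simp [β]

theorem eqn_θz (z u v : Idx 5 k → ℂ) : ∃ T : (Idx 5 k → ℂ) →L[ℝ] (Idx 5 k → ℂ) →L[ℝ] ℂ,
    HasFDerivAt (θz (k := k)) T z ∧ T u v - T v u =
      ∑ j, (5 * (u (Sum.inr (j, 0)) * v (Sum.inr (j, 1)) - v (Sum.inr (j, 0)) * u (Sum.inr (j, 1))) +
        2 * (u (Sum.inr (j, 0)) * conj (v (Sum.inr (j, 1))) -
            v (Sum.inr (j, 0)) * conj (u (Sum.inr (j, 1))) +
          (conj (u (Sum.inr (j, 0))) * v (Sum.inr (j, 1)) -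
            conj (v (Sum.inr (j, 0))) * u (Sum.inr (j, 1))))) := by
  have h2 : ∀ i, HasFDerivAt (fun p : (Idx 5 k → ℂ) => p i) (pr i) z := fun i =>
    (pr i).hasFDerivAt
  have h3 : ∀ i, HasFDerivAt (fun p : (Idx 5 k → ℂ) => conj (p i))
      ((Complex.conjCLE : ℂ →L[ℝ] ℂ).comp (pr i)) z := fun i =>
    Complex.conjCLE.hasFDerivAt.comp z (h2 i)
  have h : ∀ j : Fin k, HasFDerivAt (fun z : Idx 5 k → ℂ =>
      ((-2 * conj (z (Sum.inr (j, 1)))) • pr (k := k) (Sum.inr (j, 0)) +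
      (5 * z (Sum.inr (j, 0)) + 2 * conj (z (Sum.inr (j, 0)))) • pr (k := k) (Sum.inr (j, 1)))) _ z :=
    fun j => (((h3 (Sum.inr (j, 1))).const_mul (-2)).smul_const (pr (k := k) (Sum.inr (j, 0)))).add
      ((((h2 (Sum.inr (j, 0))).const_mul 5).add ((h3 (Sum.inr (j, 0))).const_mul 2)).smul_const
        (pr (k := k) (Sum.inr (j, 1))))
  refine ⟨_, HasFDerivAt.fun_sum fun j _ => h j, ?_⟩
  simp only [_root_.sum_apply]
  rw [← Finset.sum_sub_distrib]
  refine Finset.sum_congr rfl fun j _ => ?_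
  simp
  ring

theorem eqn' (i : Idx 5 k) (z u v : Idx 5 k → ℂ) :
    fderiv ℝ (θ i) z u v - fderiv ℝ (θ i) z v u =
      β (Sum.inl i) (real fun j => θ j z u) (real fun j => θ j z v) := by
  have h2 : ∀ i, HasFDerivAt (fun p : (Idx 5 k → ℂ) => p i) (pr i) z := fun i =>
    (pr i).hasFDerivAt
  have h3 : ∀ i, HasFDerivAt (fun p : (Idx 5 k → ℂ) => conj (p i))
      ((Complex.conjCLE : ℂ →L[ℝ] ℂ).comp (pr i)) z := fun i =>
    Complex.conjCLE.hasFDerivAt.comp z (h2 i)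
  rcases i with i | p
  · fin_cases i
    · have h : HasFDerivAt (θ (Sum.inl 0)) (0 : (Idx 5 k → ℂ) →L[ℝ] (Idx 5 k → ℂ) →L[ℝ] ℂ) z :=
        hasFDerivAt_const (pr (Sum.inl 0)) z
      simp only [Fin.zero_eta]
      rw [h.fderiv]
      simp [β]
    · have h : HasFDerivAt (θ (Sum.inl 1)) (0 : (Idx 5 k → ℂ) →L[ℝ] (Idx 5 k → ℂ) →L[ℝ] ℂ) z :=
        hasFDerivAt_const (pr (Sum.inl 1)) z
      simp only [Fin.mk_one]
      rw [h.fderiv]
      simp [β]
    · have h : HasFDerivAt (θ (Sum.inl 2)) _ z :=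
        (hasFDerivAt_const (pr (Sum.inl 2)) z).add ((h3 (Sum.inl 0)).neg.smul_const
          (pr (Sum.inl 0)))
      simp only [Fin.reduceFinMk]
      rw [h.fderiv]
      simp [β, w, real_inl, real_inr, θ_0]
      ring
    · have h : HasFDerivAt (θ (Sum.inl 3)) _ z :=
        ((hasFDerivAt_const (pr (Sum.inl 3)) z).add ((((h2 (Sum.inl 0)).mul
          (h3 (Sum.inl 0))).sub (h3 (Sum.inl 2))).smul_const (pr (Sum.inl 0)))).add
          (((h2 (Sum.inl 0)).sub (h3 (Sum.inl 1))).smul_const (pr (Sum.inl 1)))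
      simp only [Fin.reduceFinMk]
      rw [h.fderiv]
      simp [β, w, real_inl, real_inr, θ_0, θ_1, θ_2]
      ring
    · obtain ⟨T, hT1, hT2⟩ := eqn_θz z u v
      have h : HasFDerivAt (θ (Sum.inl 4)) _ z :=
        (((hasFDerivAt_const (pr (Sum.inl 4)) z).add
          ((h3 (Sum.inl 0)).neg.smul_const (pr (Sum.inl 2)))).add
          ((((h3 (Sum.inl 0)).pow 2).const_mul (1 / 2)).smul_const (pr (Sum.inl 0)))).add hT1
      simp only [Fin.reduceFinMk]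
      rw [h.fderiv]
      simp only [β, w, real_inl, real_inr, θ_0, θ_1, θ_2, θ_r]
      rw [← hT2]
      simp
      ring
  · have h : HasFDerivAt (θ (Sum.inr p)) (0 : (Idx 5 k → ℂ) →L[ℝ] (Idx 5 k → ℂ) →L[ℝ] ℂ) z :=
        hasFDerivAt_const (pr (Sum.inr p)) z
    rw [h.fderiv]
    simp [β]

/-- the lattice -/
def Lat : Set (Idx 5 k → ℂ) := {z | (∃ m ∈ Zi, z (Sum.inl 0) = 2 * m) ∧ ∀ i, z i ∈ Zi}

theorem cz_mem {g z : Idx 5 k → ℂ} (hg : ∀ i, g i ∈ Zi) (hz : ∀ i, z i ∈ Zi) : cz g z ∈ Zi := by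
  apply Zi_sum
  intro j _
  exact Zi_sub (Zi_mul (Zi_mul (Zi_ofNat 2) (Zi_conj (hg _))) (hz _))
    (Zi_mul (Zi_add (Zi_mul (Zi_ofNat 5) (hg _)) (Zi_mul (Zi_ofNat 2) (Zi_conj (hg _)))) (hz _))

theorem Q3_mem {a ρ β b r : ℂ} (ha : a ∈ Zi) (hρ : ρ ∈ Zi) (hβ : β ∈ Zi) (hb : b ∈ Zi)
    (hr : r ∈ Zi) : Q3 (2 * a) ρ β (2 * b) r ∈ Zi := by
  obtain ⟨a, rfl⟩ := ha
  obtain ⟨ρ, rfl⟩ := hρ
  obtain ⟨β, rfl⟩ := hβ
  obtain ⟨b, rfl⟩ := hb
  obtain ⟨r, rfl⟩ := hr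
  refine ⟨-(4 * star a * b ^ 2) - (4 * a * star a - star β) * (2 * b) - (2 * a - star ρ) * r, ?_⟩
  simp only [Q3, map_mul, map_ofNat, map_sub, map_neg, map_pow, GaussianInt.toComplex_star]
  ring

theorem Q4_mem {a b v : ℂ} (ha : a ∈ Zi) (hb : b ∈ Zi) (hv : v ∈ Zi) :
    Q4 (2 * a) (2 * b) v ∈ Zi := by
  obtain ⟨a, rfl⟩ := ha
  obtain ⟨b, rfl⟩ := hb
  obtain ⟨v, rfl⟩ := hv
  refine ⟨2 * star a * v + 4 * star a ^ 2 * b, ?_⟩
  simp only [Q4, map_mul, map_ofNat, map_add, map_pow, GaussianInt.toComplex_star]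
  ring

theorem fin' (R : ℝ) : {g : Idx 5 k → ℂ | g ∈ Lat ∧ ∀ i, ‖g i‖ ≤ R}.Finite := by
  apply (Zi_pi_finite (κ := Idx 5 k) R).subset
  rintro g ⟨⟨_, h1⟩, h2⟩
  exact ⟨h1, h2⟩

theorem mul_mem' (x : Idx 5 k → ℂ) (hx : x ∈ Lat) (y : Idx 5 k → ℂ) (hy : y ∈ Lat) :
    mul x y ∈ Lat := by
  obtain ⟨⟨a, ha, hxa⟩, hx⟩ := hx
  obtain ⟨⟨b, hb, hyb⟩, hy⟩ := hy
  refine ⟨⟨b + a, Zi_add hb ha, ?_⟩, ?_⟩
  · rw [mul_0, hxa, hyb]
    ring
  · intro i
    rcases i with i | p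
    · fin_cases i
      · exact Zi_add (hy _) (hx _)
      · exact Zi_add (hy _) (hx _)
      · exact Zi_add (Zi_add (hy _) (hx _)) (Zi_mul (Zi_conj (hx _)) (hy _))
      · simp only [Fin.reduceFinMk, mul_3]
        rw [hxa, hyb]
        exact Zi_add (Zi_add (hy _) (hx _)) (Q3_mem ha (hx _) (hx _) hb (hy _))
      · simp only [Fin.reduceFinMk, mul_4]
        rw [hxa, hyb]
        exact Zi_add (Zi_add (Zi_add (hy _) (hx _)) (Q4_mem ha hb (hy _))) (cz_mem hx hy)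
    · exact Zi_add (hy _) (hx _)

theorem inv_mem' (x : Idx 5 k → ℂ) (hx : x ∈ Lat) : inv x ∈ Lat := by
  obtain ⟨⟨a, ha, hxa⟩, hx⟩ := hx
  have h0 : inv x (Sum.inl 0) = 2 * (-a) := by
    change -x (Sum.inl 0) = _
    rw [hxa]
    ring
  have m0 : inv x (Sum.inl 0) ∈ Zi := Zi_neg (hx _)
  have m1 : inv x (Sum.inl 1) ∈ Zi := Zi_neg (hx _)
  have m2 : inv x (Sum.inl 2) ∈ Zi := by
    change -x (Sum.inl 2) - conj (-x (Sum.inl 0)) * x (Sum.inl 0) ∈ Zi
    exact Zi_sub (Zi_neg (hx _)) (Zi_mul (Zi_conj (Zi_neg (hx _))) (hx _))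
  have m3 : inv x (Sum.inl 3) ∈ Zi := by
    change -x (Sum.inl 3) - Q3 (inv x (Sum.inl 0)) (inv x (Sum.inl 1)) (inv x (Sum.inl 2))
      (x (Sum.inl 0)) (x (Sum.inl 1)) ∈ Zi
    rw [h0, hxa]
    exact Zi_sub (Zi_neg (hx _)) (Q3_mem (Zi_neg ha) m1 m2 ha (hx _))
  have m4 : inv x (Sum.inl 4) ∈ Zi := by
    change -x (Sum.inl 4) - Q4 (inv x (Sum.inl 0)) (x (Sum.inl 0)) (x (Sum.inl 2)) -
      cz (-x) x ∈ Zi
    rw [h0, hxa]
    exact Zi_sub (Zi_sub (Zi_neg (hx _)) (Q4_mem (Zi_neg ha) ha (hx _)))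
      (cz_mem (fun i => Zi_neg (hx i)) hx)
  refine ⟨⟨-a, Zi_neg ha, h0⟩, ?_⟩
  intro i
  rcases i with i | p
  · fin_cases i
    · exact m0
    · exact m1
    · exact m2
    · exact m3
    · exact m4
  · exact Zi_neg (hx _)

theorem cocompact' : ∃ R : ℝ, ∀ z : Idx 5 k → ℂ, ∃ g ∈ Lat, ∀ i, ‖mul g z i‖ ≤ R := by
  refine ⟨2 * ‖(2 : ℂ)‖, fun z => ?_⟩
  obtain ⟨a, ha, ha2⟩ := Zi_round_mul (c := 2) (by norm_num) (z (Sum.inl 0))
  obtain ⟨ρ, hρ, hρ2⟩ := Zi_round (z (Sum.inl 1))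
  obtain ⟨β, hβ, hβ2⟩ := Zi_round (z (Sum.inl 2) + conj (2 * a) * z (Sum.inl 0))
  obtain ⟨γ, hγ, hγ2⟩ := Zi_round (z (Sum.inl 3) + Q3 (2 * a) ρ β (z (Sum.inl 0))
    (z (Sum.inl 1)))
  choose f hf hf2 using fun p : Fin k × Fin 2 => Zi_round (z (Sum.inr p))
  let g0 : Idx 5 k → ℂ := fun i => match i with
    | Sum.inl 0 => 2 * a
    | Sum.inl 1 => ρ
    | Sum.inl 2 => β
    | Sum.inl 3 => γ
    | Sum.inl 4 => 0
    | Sum.inr p => f p
  obtain ⟨δ, hδ, hδ2⟩ := Zi_round (z (Sum.inl 4) + Q4 (2 * a) (z (Sum.inl 0))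
    (z (Sum.inl 2)) + cz g0 z)
  let g : Idx 5 k → ℂ := fun i => match i with
    | Sum.inl 0 => 2 * a
    | Sum.inl 1 => ρ
    | Sum.inl 2 => β
    | Sum.inl 3 => γ
    | Sum.inl 4 => δ
    | Sum.inr p => f p
  have h12 : (2 : ℝ) ≤ 2 * ‖(2 : ℂ)‖ := by
    norm_num
  refine ⟨g, ⟨⟨a, ha, rfl⟩, ?_⟩, ?_⟩
  · intro i
    rcases i with i | p
    · fin_cases i
      · exact Zi_mul (Zi_ofNat 2) ha
      · exact hρ
      · exact hβ
      · exact hγ
      · exact hδ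
    · exact hf p
  · intro i
    rcases i with i | p
    · fin_cases i
      · exact ha2
      · exact hρ2.trans h12
      · refine le_trans ?_ h12
        have : mul g z (Sum.inl 2) = z (Sum.inl 2) + conj (2 * a) * z (Sum.inl 0) + β := by
          rw [mul_2]
          ring
        simp only [Fin.reduceFinMk]
        rw [this]
        exact hβ2
      · refine le_trans ?_ h12
        have : mul g z (Sum.inl 3) = z (Sum.inl 3) + Q3 (2 * a) ρ β (z (Sum.inl 0))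
            (z (Sum.inl 1)) + γ := by
          rw [mul_3]
          ring
        simp only [Fin.reduceFinMk]
        rw [this]
        exact hγ2
      · refine le_trans ?_ h12
        have : mul g z (Sum.inl 4) = z (Sum.inl 4) + Q4 (2 * a) (z (Sum.inl 0))
            (z (Sum.inl 2)) + cz g0 z + δ := by
          rw [mul_4]
          have hcz : cz g z = cz g0 z := rfl
          rw [hcz]
          ring
        simp only [Fin.reduceFinMk]
        rw [this]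
        exact hδ2
    · refine le_trans ?_ h12
      exact hf2 p

end Od

/-- the groups of the odd family -/
noncomputable def nilO (k : ℕ) : NilData (Idx 5 k) where
  mul := Od.mul
  inv := Od.inv
  mul_assoc' := Od.mul_assoc'
  zero_mul' := Od.zero_mul'
  mul_zero' := Od.mul_zero'
  inv_mul' := Od.inv_mul'
  cont_mul := Od.continuous_mul'
  cont_inv := Od.continuous_inv'
  Λ := Od.Lat
  zero_mem' := ⟨⟨0, Zi_zero, by simp⟩, fun _ => Zi_zero⟩
  mul_mem' := Od.mul_mem'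
  inv_mem' := Od.inv_mem'
  fin := Od.fin'
  cocompact := Od.cocompact'
  hol := Od.hol'
  dmul := Od.dmul
  hasD := Od.hasD'
  θ := Od.θ
  θ_smooth := Od.θ_smooth'
  θ_lin := Od.θ_lin'
  θ_inv := Od.θ_inv'
  θ_zero := Od.θ_zero'
  D := DO k
  β := Od.β
  quad := Od.quad'
  conj_β := Od.conj_β'
  eqn := Od.eqn'

end Pool.Agent.H73.Fro
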