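import Pool.Agent.H73.Fro.Int2

/-!
# Integration of top-degree forms on a compact complex manifold

`exists_integral`: there is a linear functional on the top-degree forms of a compact complex
manifold which vanishes on exact forms and is positive on nonzero nonnegative forms.
-/

namespace Pool.Agent.H73.Fro

open Set MeasureTheory
open scoped Manifold ContDiff ComplexConjugate Topology

/-- a top-degree form is nonnegative if in every chart its value on the standard oriented basis
is a nonnegative real number -/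
def Nonneg {n : ℕ} {X : Type*} [TopologicalSpace X] [ChartedSpace (Cn n) X]
    (μ : Form n X (2 * n)) : Prop :=
  ∀ e y, 0 ≤ (μ.1 e y (stdB n)).re ∧ (μ.1 e y (stdB n)).im = 0

section

variable {n : ℕ} {X : Type*} [TopologicalSpace X] [ChartedSpace (Cn n) X] {k : ℕ}

/-- Stokes' theorem on a compact complex manifold -/
theorem stokes [IsManifold 𝓘(ℂ, Cn n) ω X] [CompactSpace X]
    (b : Module.Basis (Fin (k + 1)) ℝ (Cn n))
    (t : Finset (atlas (Cn n) X)) (χ : t → SF n X)
    (hsub : ∀ i, tsupport (χ i).fn ⊆ i.1.1.source) (hsum : ∀ x, ∑ i, (χ i).fn x = 1)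
    (η : Form n X k) : ∑ i : t, J i.1 b (fmul (χ i) (extD n X k η)) = 0 := by
  have hK : ∀ i : t, IsCompact (tsupport (χ i).fn) := fun i => (isClosed_tsupport _).isCompact
  have h1 : extD n X k η = ∑ j : t, extD n X k (fmul (χ j) η) := by
    rw [← map_sum, sum_fmul Finset.univ χ hsum η]
  have h2 : ∀ i : t, J i.1 b (fmul (χ i) (extD n X k η)) =
      ∑ j : t, J i.1 b (fmul (χ i) (extD n X k (fmul (χ j) η))) := by
    intro i
    rw [h1, fmul_sum, J_sum Finset.univ i.1 b (K := tsupport (χ i).fn)
      (fun j _ => off_fmul_left _ _) (hK i) (hsub i)]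
  have hoff : ∀ j : t, Off (extD n X k (fmul (χ j) η)) (tsupport (χ j).fn) := fun j =>
    (off_fmul_left (χ j) η).extD (isClosed_tsupport _)
  have h3 : ∀ i j : t, J i.1 b (fmul (χ i) (extD n X k (fmul (χ j) η))) =
      J j.1 b (fmul (χ i) (extD n X k (fmul (χ j) η))) := by
    intro i j
    exact J_change b _ i.1 j.1 ((off_fmul_left _ _).mono (hsub i))
      (((hoff j).fmul (χ i)).mono (hsub j))
  rw [Finset.sum_congr rfl fun i _ => (h2 i).trans (Finset.sum_congr rfl fun j _ => h3 i j)]
  rw [Finset.sum_comm]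
  refine Finset.sum_eq_zero fun j _ => ?_
  rw [← J_sum Finset.univ j.1 b (K := tsupport (χ j).fn)
    (fun i _ => (hoff j).fmul (χ i)) (hK j) (hsub j), sum_fmul Finset.univ χ hsum]
  exact J_extD b (off_fmul_left (χ j) η) j.1 (hK j) (hsub j)

end

/-- MODULE INT: integration over a compact complex manifold. -/
theorem exists_integral (n : ℕ) (X : Type*) [TopologicalSpace X] [ChartedSpace (Cn n) X]
    [IsManifold 𝓘(ℂ, Cn n) ω X] [CompactSpace X] [T2Space X] :
    ∃ I : Form n X (2 * n) →ₗ[ℂ] ℂ, (∀ a : AllForms n X, I (totalD n X a (2 * n)) = 0) ∧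
      ∀ μ : Form n X (2 * n), Nonneg μ → μ ≠ 0 → 0 < (I μ).re := by
  obtain ⟨t, χ, hsub, hnn, hsum⟩ := exists_pou n X
  have hK : ∀ i : t, IsCompact (tsupport (χ i).fn) := fun i => (isClosed_tsupport _).isCompact
  let I : Form n X (2 * n) →ₗ[ℂ] ℂ :=
    { toFun := fun μ => ∑ i : t, J i.1 (stdBasis n) (fmul (χ i) μ)
      map_add' := by
        intro μ ν
        rw [← Finset.sum_add_distrib]
        refine Finset.sum_congr rfl fun i _ => ?_
        rw [fmul_add, J_add i.1 _ (off_fmul_left _ _) (off_fmul_left _ _) (hK i) (hsub i)]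
      map_smul' := by
        intro c μ
        rw [RingHom.id_apply, smul_eq_mul, Finset.mul_sum]
        refine Finset.sum_congr rfl fun i _ => ?_
        rw [fmul_smul, J_smul] }
  refine ⟨I, ?_, ?_⟩
  · intro a
    cases n with
    | zero => exact map_zero I
    | succ m => exact stokes (k := 2 * m + 1) (stdBasis (m + 1)) t χ hsub hsum (a (2 * m + 1))
  · intro μ hμ hne
    have hb : (fun i => stdBasis n i) = stdB n := funext (stdBasis_apply n)
    have hb' : (⇑(stdBasis n)) = stdB n := funext (stdBasis_apply n)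
    have h1 : (I μ).re = ∑ i : t, ∫ y, ((fmul (χ i) μ).1 i.1 y (stdBasis n)).re := by
      change (∑ i : t, J i.1 (stdBasis n) (fmul (χ i) μ)).re = _
      rw [Complex.re_sum]
      refine Finset.sum_congr rfl fun i _ => ?_
      exact (Complex.reCLM.integral_comp_comm
        ((off_fmul_left (χ i) μ).integrable i.1 (hK i) (hsub i) (stdBasis n))).symm
    have h2 : ∀ (i : t) (y : Cn n), ((fmul (χ i) μ).1 i.1 y (stdBasis n)).re =
        (χ i).fn (i.1.1.symm y) * (μ.1 i.1 y (stdBasis n)).re := by
      intro i y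
      rw [fmul_apply]
      change ((χ i).fn (i.1.1.symm y) • (μ.1 i.1 y (stdBasis n))).re = _
      rw [Complex.smul_re, smul_eq_mul]
    have h3 : ∀ (i : t) (y : Cn n), 0 ≤ ((fmul (χ i) μ).1 i.1 y (stdBasis n)).re := by
      intro i y
      rw [h2]
      refine mul_nonneg (hnn _ _) ?_
      rw [hb']
      exact (hμ _ _).1
    obtain ⟨e, y, hy, hey⟩ : ∃ e : atlas (Cn n) X, ∃ y ∈ e.1.target, μ.1 e y ≠ 0 := by
      by_contra hcon
      push Not at hcon
      exact hne (form_ext fun e y hy => hcon e y hy)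
    obtain ⟨i, -, hi⟩ : ∃ i ∈ (Finset.univ : Finset t), (χ i).fn (e.1.symm y) ≠ 0 := by
      apply Finset.exists_ne_zero_of_sum_ne_zero
      rw [hsum]
      exact one_ne_zero
    have hsi : e.1.symm y ∈ i.1.1.source := hsub i (subset_tsupport _ hi)
    have hz : μ.1 i.1 (i.1.1 (e.1.symm y)) ≠ 0 := by
      intro h0
      apply hey
      rw [form_compat μ e i.1 hy hsi, h0]
      ext v
      simp
    have hz2 := top_ne_zero (stdBasis n) _ hz
    have hz3 : (μ.1 i.1 (i.1.1 (e.1.symm y)) (stdBasis n)).re ≠ 0 := by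
      intro h0
      apply hz2
      apply Complex.ext h0
      rw [hb']
      exact (hμ _ _).2
    rw [h1]
    refine Finset.sum_pos' (fun i _ => integral_nonneg (h3 i)) ⟨i, Finset.mem_univ _, ?_⟩
    refine Continuous.integral_pos_of_hasCompactSupport_nonneg_nonzero
      (x := i.1.1 (e.1.symm y)) ?_ ?_ (h3 i) ?_
    · exact Complex.continuous_re.comp
        ((off_fmul_left (χ i) μ).contDiff_apply i.1 (hK i) (hsub i) (stdBasis n)).continuous
    · exact ((off_fmul_left (χ i) μ).hasCompactSupport_apply i.1 (hK i) (hsub i)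
        (stdBasis n)).comp_left (g := Complex.re) Complex.zero_re
    · rw [h2, i.1.1.left_inv hsi]
      exact mul_ne_zero hi hz3

end Pool.Agent.H73.Fro
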