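import Pool.Agent.H73.Fro.TypesX
import Pool.Agent.H73.Fro.Int

/-!
# Exact forms of type `(n,0)` on a compact complex `n`-manifold vanish
-/

namespace Pool.Agent.H73.Fro

open Set Function Equiv
open scoped Manifold ContDiff ComplexConjugate Topology
open Pool.Agent.H71.Wedge

variable {n m : ℕ}

/-- the matrix whose rows are the vectors and their conjugates -/
def MM (h : n + n = m) (v : Fin m → Cn n) : Matrix (Fin m) (Fin m) ℂ := fun i c =>
  Sum.elim (fun j => v i j) (fun j => conj (v i j)) ((finSumFinEquiv.trans (finCongr h)).symm c)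

theorem MM_il (h : n + n = m) (v : Fin m → Cn n) (i : Fin m) (j : Fin n) :
    MM h v i (il h j) = v i j := by
  unfold MM
  rw [il_eq, Equiv.symm_apply_apply]
  rfl

theorem MM_ir (h : n + n = m) (v : Fin m → Cn n) (i : Fin m) (j : Fin n) :
    MM h v i (ir h j) = conj (v i j) := by
  unfold MM
  rw [ir_eq, Equiv.symm_apply_apply]
  rfl

theorem prod_MM (h : n + n = m) (v : Fin m → Cn n) (σ : Perm (Fin m)) :
    ∏ c, MM h v (σ c) c = (∏ j, v (σ (il h j)) j) * ∏ j, conj (v (σ (ir h j)) j) := by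
  rw [← Equiv.prod_comp (finSumFinEquiv.trans (finCongr h)), Fintype.prod_sum_type]
  congr 1
  · exact Finset.prod_congr rfl fun j _ => MM_il h v _ j
  · exact Finset.prod_congr rfl fun j _ => MM_ir h v _ j

theorem top_sum {f : (Cn n) [⋀^Fin n]→L[ℝ] ℂ} (hf : IsType n 0 f) (v : Fin n → Cn n) :
    f v = f (fun i => Pi.single i (1 : ℂ)) *
      ∑ σ : Perm (Fin n), ((Perm.sign σ : ℤ) : ℂ) * ∏ i, v (σ i) i := by
  rw [top_det hf v]
  congr 1
  exact Matrix.det_apply' (fun i j => v i j)

theorem wedge_top (h : n + n = m) {f : (Cn n) [⋀^Fin n]→L[ℝ] ℂ} (hf : IsType n 0 f)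
    (v : Fin m → Cn n) :
    wedge h f (conjA n n f) v =
      (Complex.normSq (f (fun i => Pi.single i (1 : ℂ))) : ℂ) * (MM h v).det := by
  set F := f (fun i => Pi.single i (1 : ℂ)) with hF
  let Q : (Fin m → Cn n) → ℂ := fun v => (∏ j, v (il h j) j) * ∏ j, conj (v (ir h j) j)
  let P : (Fin m → Cn n) → ℂ := fun v =>
    ∑ τ : Perm (Fin n), ((Perm.sign τ : ℤ) : ℂ) * Q (v ∘ permR h τ)
  have hTT : TT h f (conjA n n f) = fun v => (Complex.normSq F : ℂ) *
      ∑ τ : Perm (Fin n), ((Perm.sign τ : ℤ) : ℂ) * P (v ∘ permL h τ) := by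
    funext v
    unfold TT
    rw [conjA_apply, top_sum hf (fun i => v (il h i)), top_sum hf (fun j => v (ir h j)), ← hF,
      map_mul, map_sum]
    have e1 : F * (∑ σ : Perm (Fin n), ((Perm.sign σ : ℤ) : ℂ) * ∏ i, v (il h (σ i)) i) *
        (conj F * ∑ σ : Perm (Fin n), conj (((Perm.sign σ : ℤ) : ℂ) * ∏ i, v (ir h (σ i)) i)) =
        (Complex.normSq F : ℂ) *
          ((∑ σ : Perm (Fin n), ((Perm.sign σ : ℤ) : ℂ) * ∏ i, v (il h (σ i)) i) *
          ∑ σ : Perm (Fin n), conj (((Perm.sign σ : ℤ) : ℂ) * ∏ i, v (ir h (σ i)) i)) := by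
      rw [← Complex.mul_conj]
      ring
    refine e1.trans ?_
    congr 1
    rw [Finset.sum_mul]
    refine Finset.sum_congr rfl fun τ _ => ?_
    rw [mul_assoc]
    congr 1
    rw [Finset.mul_sum]
    refine Finset.sum_congr rfl fun τ' _ => ?_
    rw [map_mul, map_intCast, map_prod]
    simp only [Q, comp_apply, permR_il, permR_ir, permL_il, permL_ir]
    ring
  have hQ : Alt Q v = (MM h v).det := by
    rw [Matrix.det_apply']
    unfold Alt
    refine Finset.sum_congr rfl fun σ _ => ?_
    rw [prod_MM]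
    rfl
  have h1 : Alt P v = (n.factorial : ℂ) * Alt Q v := alt_partial (permR h) (permR_sign h) Q v
  have h2 : Alt (fun v => ∑ τ : Perm (Fin n), ((Perm.sign τ : ℤ) : ℂ) * P (v ∘ permL h τ)) v =
      (n.factorial : ℂ) * Alt P v := alt_partial (permL h) (permL_sign h) P v
  rw [wedge_apply, hTT, alt_smul, h2, h1, hQ]
  have hn : (n.factorial : ℂ) ≠ 0 := by exact_mod_cast (Nat.factorial_pos n).ne'
  field_simp

theorem det_MM_ne_zero (n : ℕ) (h : n + n = 2 * n) : (MM h (stdB n)).det ≠ 0 := by
  intro h0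
  obtain ⟨w, hw, hw0⟩ := Matrix.exists_vecMul_eq_zero_iff.mpr h0
  apply hw
  have e1 : ∀ j : Fin n, ∑ i, w i * (stdB n i j) = 0 := by
    intro j
    have := congrFun hw0 (il h j)
    rw [Matrix.vecMul, dotProduct] at this
    simp_rw [MM_il] at this
    exact this
  have e2 : ∀ j : Fin n, ∑ i, w i * conj (stdB n i j) = 0 := by
    intro j
    have := congrFun hw0 (ir h j)
    rw [Matrix.vecMul, dotProduct] at this
    simp_rw [MM_ir] at this
    exact this
  have hval : ∀ (i : Fin (2 * n)) (j : Fin n), stdB n i j =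
      if i.1 / 2 = j.1 then (if i.1 % 2 = 0 then 1 else Complex.I) else 0 := by
    intro i j
    unfold stdB
    rw [Pi.single_apply]
    by_cases hij : i.1 / 2 = j.1
    · rw [if_pos hij, if_pos (Fin.ext hij.symm)]
    · rw [if_neg hij, if_neg fun hc => hij (congrArg Fin.val hc).symm]
  have e3 : ∀ j : Fin n, w ⟨2 * j.1, by omega⟩ = 0 := by
    intro j
    have h3 : ∑ i, w i * (stdB n i j + conj (stdB n i j)) = 0 := by
      simp_rw [mul_add]
      rw [Finset.sum_add_distrib, e1, e2, add_zero]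
    rw [Finset.sum_eq_single ⟨2 * j.1, by omega⟩] at h3
    · rw [hval] at h3
      have a1 : (2 * j.1) / 2 = j.1 := by omega
      have a2 : (2 * j.1) % 2 = 0 := by omega
      simp only [a1, a2, if_true, map_one] at h3
      rcases mul_eq_zero.mp h3 with h4 | h4
      · exact h4
      · norm_num at h4
    · intro i _ hi
      rw [hval]
      split_ifs with h5 h6
      · exfalso
        apply hi
        apply Fin.ext
        change i.1 = 2 * j.1
        omega
      · simp
      · simp
    · intro hc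
      exact absurd (Finset.mem_univ _) hc
  have e4 : ∀ j : Fin n, w ⟨2 * j.1 + 1, by omega⟩ = 0 := by
    intro j
    have h3 : ∑ i, w i * (stdB n i j - conj (stdB n i j)) = 0 := by
      simp_rw [mul_sub]
      rw [Finset.sum_sub_distrib, e1, e2, sub_zero]
    rw [Finset.sum_eq_single ⟨2 * j.1 + 1, by omega⟩] at h3
    · rw [hval] at h3
      have a1 : (2 * j.1 + 1) / 2 = j.1 := by omega
      have a2 : (2 * j.1 + 1) % 2 = 1 := by omega
      simp only [a1, a2, if_true] at h3
      rw [if_neg one_ne_zero, Complex.conj_I] at h3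
      rcases mul_eq_zero.mp h3 with h4 | h4
      · exact h4
      · exfalso
        have h5 : (2 : ℂ) * Complex.I = 0 := by linear_combination h4
        rcases mul_eq_zero.mp h5 with h6 | h6
        · norm_num at h6
        · exact Complex.I_ne_zero h6
    · intro i _ hi
      rw [hval]
      split_ifs with h5 h6
      · simp
      · exfalso
        apply hi
        apply Fin.ext
        change i.1 = 2 * j.1 + 1
        omega
      · simp
    · intro hc
      exact absurd (Finset.mem_univ _) hc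
  funext i
  rw [Pi.zero_apply]
  rcases Nat.mod_two_eq_zero_or_one i.1 with hi | hi
  · have := e3 ⟨i.1 / 2, by omega⟩
    have e : (⟨2 * (i.1 / 2), by omega⟩ : Fin (2 * n)) = i := by
      apply Fin.ext
      change 2 * (i.1 / 2) = i.1
      omega
    rwa [e] at this
  · have := e4 ⟨i.1 / 2, by omega⟩
    have e : (⟨2 * (i.1 / 2) + 1, by omega⟩ : Fin (2 * n)) = i := by
      apply Fin.ext
      change 2 * (i.1 / 2) + 1 = i.1
      omega
    rwa [e] at this

/-- MODULE HOLO: a smooth `(n,0)`-form on a compact complex `n`-manifold which is the exterior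
derivative of a form vanishes. -/
theorem exact_top (k : ℕ) (X : Type*) [TopologicalSpace X] [ChartedSpace (Cn (k + 1)) X]
    [IsManifold 𝓘(ℂ, Cn (k + 1)) ω X] [CompactSpace X] [T2Space X]
    (g : Form (k + 1) X k) (h : extD (k + 1) X k g ∈ Apq (k + 1) X (k + 1) 0 (k + 1)) :
    extD (k + 1) X k g = 0 := by
  set η := extD (k + 1) X k g with hη
  obtain ⟨I, hI, hpos⟩ := exists_integral (k + 1) X
  have hnn : (k + 1) + (k + 1) = 2 * (k + 1) := by ring
  set C := (MM hnn (stdB (k + 1))).det with hC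
  have hC0 : C ≠ 0 := det_MM_ne_zero (k + 1) hnn
  have hval : ∀ e y, (C⁻¹ • fwedge hnn η (conjF η)).1 e y (stdB (k + 1)) =
      (Complex.normSq (η.1 e y (fun i => Pi.single i (1 : ℂ))) : ℂ) := by
    intro e y
    change C⁻¹ * (wedge hnn (η.1 e y) (conjA (k + 1) (k + 1) (η.1 e y)) (stdB (k + 1))) = _
    rw [wedge_top hnn (h e y), ← hC]
    field_simp
  have hnonneg : Nonneg (C⁻¹ • fwedge hnn η (conjF η)) := by
    intro e y
    rw [hval]
    refine ⟨?_, Complex.ofReal_im _⟩
    rw [Complex.ofReal_re]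
    exact Complex.normSq_nonneg _
  have hclosed : extD (k + 1) X (k + 1) (conjF η) = 0 := by
    rw [extD_conjF, hη, extD_extD, conjF_zero]
  have hexact : fwedge hnn η (conjF η) =
      extD (k + 1) X (2 * k + 1) (fwedge (by ring : k + (k + 1) = 2 * k + 1) g (conjF η)) := by
    rw [extD_fwedge _ (by ring : (k + 1) + (k + 1) = 2 * k + 1 + 1)
      (by ring : k + (k + 1 + 1) = 2 * k + 1 + 1), hclosed, fwedge_zero_right, smul_zero, add_zero,
      ← hη]
  have hI0 : I (C⁻¹ • fwedge hnn η (conjF η)) = 0 := by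
    rw [map_smul, hexact]
    let a : AllForms (k + 1) X := fun j => if hj : j = 2 * k + 1 then
      hj ▸ (fwedge (by ring : k + (k + 1) = 2 * k + 1) g (conjF η)) else 0
    have h1 := hI a
    have h2 : totalD (k + 1) X a (2 * (k + 1)) = extD (k + 1) X (2 * k + 1) (a (2 * k + 1)) := rfl
    have h3 : a (2 * k + 1) = fwedge (by ring : k + (k + 1) = 2 * k + 1) g (conjF η) :=
      dif_pos rfl
    rw [h2, h3] at h1
    have h4 : I (extD (k + 1) X (2 * k + 1)
        (fwedge (by ring : k + (k + 1) = 2 * k + 1) g (conjF η))) = 0 := h1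
    rw [h4, smul_zero]
  have hzero : C⁻¹ • fwedge hnn η (conjF η) = 0 := by
    by_contra hne
    have := hpos _ hnonneg hne
    rw [hI0] at this
    exact lt_irrefl _ this
  apply form_ext
  intro e y _
  have h1 := hval e y
  rw [hzero] at h1
  have h2 : (0 : ℂ) = (Complex.normSq (η.1 e y (fun i => Pi.single i (1 : ℂ))) : ℂ) := h1
  have h3 : η.1 e y (fun i => Pi.single i (1 : ℂ)) = 0 := by
    have h4 : Complex.normSq (η.1 e y (fun i => Pi.single i (1 : ℂ))) = 0 := by
      exact_mod_cast h2.symm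
    exact Complex.normSq_eq_zero.mp h4
  ext v
  rw [top_det (h e y) v, h3, zero_mul]
  rfl

end Pool.Agent.H73.Fro
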