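import Pool.Agent.H73.Fro.Defs

/-!
# Integration of top-degree forms on a compact complex manifold: local part
-/

namespace Pool.Agent.H73.Fro

open Set MeasureTheory
open scoped Manifold ContDiff ComplexConjugate Topology

/-! ### Linear algebra -/

/-- the standard real basis `e_0, i e_0, e_1, i e_1, …` of `ℂⁿ`, in its complex orientation -/
noncomputable def stdB (n : ℕ) (i : Fin (2 * n)) : Cn n :=
  Pi.single ⟨i.1 / 2, by omega⟩ (if i.1 % 2 = 0 then 1 else Complex.I)

/-- `stdB` as a basis -/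
noncomputable def stdBasis (n : ℕ) : Module.Basis (Fin (2 * n)) ℝ (Cn n) :=
  (Pi.basis (fun _ : Fin n => Complex.basisOneI)).reindex
    ((Equiv.sigmaEquivProd (Fin n) (Fin 2)).trans
      (finProdFinEquiv.trans (finCongr (mul_comm n 2))))

theorem stdBasis_apply (n : ℕ) (i : Fin (2 * n)) : stdBasis n i = stdB n i := by
  rw [stdBasis, Module.Basis.reindex_apply, Pi.basis_apply, stdB]
  have h2 : (2 : ℕ) ≠ 0 := by norm_num
  have e1 : ((((Equiv.sigmaEquivProd (Fin n) (Fin 2)).trans
      (finProdFinEquiv.trans (finCongr (mul_comm n 2)))).symm i).1 : Fin n) =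
        ⟨i.1 / 2, by omega⟩ := by
    apply Fin.ext
    simp [finProdFinEquiv, Fin.divNat]
  have e2 : ((((Equiv.sigmaEquivProd (Fin n) (Fin 2)).trans
      (finProdFinEquiv.trans (finCongr (mul_comm n 2)))).symm i).2 : Fin 2) =
        ⟨i.1 % 2, Nat.mod_lt _ (by norm_num)⟩ := by
    apply Fin.ext
    simp [finProdFinEquiv, Fin.modNat]
  rw [e1, e2]
  congr 1
  rw [Complex.coe_basisOneI]
  rcases Nat.mod_two_eq_zero_or_one i.1 with h | h
  · simp [h]
  · simp [h]

/-- a top-degree form is determined by its value on a basis -/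
theorem top_eq {N : ℕ} {n : ℕ} (b : Module.Basis (Fin N) ℝ (Cn n))
    (φ : (Cn n) [⋀^Fin N]→L[ℝ] ℂ) (v : Fin N → Cn n) :
    φ v = b.det v • φ b := by
  have key : φ.toAlternatingMap =
      (LinearMap.toSpanSingleton ℝ ℂ (φ b)).compAlternatingMap b.det := by
    apply Module.Basis.ext_alternating b
    intro w hw
    let σ : Equiv.Perm (Fin N) := Equiv.ofBijective w (Finite.injective_iff_bijective.mp hw)
    have h1 : (fun i => b (w i)) = b ∘ σ := rfl
    rw [h1, AlternatingMap.map_perm, AlternatingMap.map_perm, LinearMap.coe_compAlternatingMap,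
      Function.comp_apply, Module.Basis.det_self]
    simp
  have := congrArg (fun f => f v) key
  simpa using this

theorem top_comp {N : ℕ} {n : ℕ} (b : Module.Basis (Fin N) ℝ (Cn n))
    (φ : (Cn n) [⋀^Fin N]→L[ℝ] ℂ) (L : Cn n →L[ℝ] Cn n) :
    φ (L ∘ b) = L.det • φ b := by
  rw [top_eq b φ (L ∘ b)]
  have h := b.det_comp (L : Cn n →ₗ[ℝ] Cn n) b
  rw [Module.Basis.det_self, mul_one] at h
  rw [ContinuousLinearMap.coe_coe] at h
  rw [h]

theorem top_ne_zero {N : ℕ} {n : ℕ} (b : Module.Basis (Fin N) ℝ (Cn n))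
    (φ : (Cn n) [⋀^Fin N]→L[ℝ] ℂ) (h : φ ≠ 0) : φ b ≠ 0 := by
  intro h0
  apply h
  ext v
  rw [top_eq b φ v, h0]
  simp

theorem det_restrict_nonneg {n : ℕ} (L : Cn n →L[ℂ] Cn n) :
    0 ≤ (L.restrictScalars ℝ).det := by
  have h : (L.restrictScalars ℝ).det =
      LinearMap.det ((L : Cn n →ₗ[ℂ] Cn n).restrictScalars ℝ) := rfl
  rw [h, LinearMap.det_restrictScalars, Algebra.norm_complex_apply]
  exact Complex.normSq_nonneg _

/-! ### Forms vanishing outside a set -/

section

variable {n : ℕ} {X : Type*} [TopologicalSpace X] [ChartedSpace (Cn n) X] {k : ℕ}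

/-- the local expressions of `ν` vanish outside `K` -/
def Off (ν : Form n X k) (K : Set X) : Prop :=
  ∀ e : atlas (Cn n) X, ∀ y ∈ e.1.target, e.1.symm y ∉ K → ν.1 e y = 0

theorem Off.mono {ν : Form n X k} {K L : Set X} (h : Off ν K) (hKL : K ⊆ L) : Off ν L :=
  fun e y hy hn => h e y hy fun hc => hn (hKL hc)

theorem Off.support_subset {ν : Form n X k} {K : Set X} (h : Off ν K) (e : atlas (Cn n) X) :
    Function.support (ν.1 e) ⊆ e.1 '' (K ∩ e.1.source) := by
  intro y hy
  have hyt : y ∈ e.1.target := by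
    by_contra hc
    exact hy (form_zero_off ν e hc)
  have hK : e.1.symm y ∈ K := by
    by_contra hc
    exact hy (h e y hyt hc)
  exact ⟨e.1.symm y, ⟨hK, e.1.map_target hyt⟩, e.1.right_inv hyt⟩

theorem isCompact_image_chart {K : Set X} (e : atlas (Cn n) X) (hK : IsCompact K)
    (hKe : K ⊆ e.1.source) : IsCompact (e.1 '' K) :=
  hK.image_of_continuousOn (e.1.continuousOn.mono hKe)

theorem Off.tsupport_subset {ν : Form n X k} {K : Set X} (h : Off ν K) (e : atlas (Cn n) X)
    (hK : IsCompact K) (hKe : K ⊆ e.1.source) : tsupport (ν.1 e) ⊆ e.1 '' K :=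
  closure_minimal ((h.support_subset e).trans (image_mono inter_subset_left))
    (isCompact_image_chart e hK hKe).isClosed

theorem Off.hasCompactSupport {ν : Form n X k} {K : Set X} (h : Off ν K) (e : atlas (Cn n) X)
    (hK : IsCompact K) (hKe : K ⊆ e.1.source) : HasCompactSupport (ν.1 e) :=
  (isCompact_image_chart e hK hKe).of_isClosed_subset (isClosed_tsupport _)
    (h.tsupport_subset e hK hKe)

theorem Off.contDiff {ν : Form n X k} {K : Set X} (h : Off ν K) (e : atlas (Cn n) X)
    (hK : IsCompact K) (hKe : K ⊆ e.1.source) : ContDiff ℝ ∞ (ν.1 e) := by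
  rw [contDiff_iff_contDiffAt]
  intro y
  by_cases hy : y ∈ tsupport (ν.1 e)
  · obtain ⟨x, hx, rfl⟩ := h.tsupport_subset e hK hKe hy
    exact (form_smooth ν e).contDiffAt (e.1.open_target.mem_nhds (e.1.map_source (hKe hx)))
  · have h0 : ν.1 e =ᶠ[𝓝 y] 0 := notMem_tsupport_iff_eventuallyEq.1 hy
    exact contDiffAt_const.congr_of_eventuallyEq h0

/-- evaluation of the local expression on fixed vectors -/
theorem Off.contDiff_apply {ν : Form n X k} {K : Set X} (h : Off ν K) (e : atlas (Cn n) X)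
    (hK : IsCompact K) (hKe : K ⊆ e.1.source) (B : Fin k → Cn n) :
    ContDiff ℝ ∞ (fun y => ν.1 e y B) :=
  (ContinuousAlternatingMap.apply ℝ (Cn n) ℂ B).contDiff.comp (h.contDiff e hK hKe)

theorem Off.hasCompactSupport_apply {ν : Form n X k} {K : Set X} (h : Off ν K)
    (e : atlas (Cn n) X)
    (hK : IsCompact K) (hKe : K ⊆ e.1.source) (B : Fin k → Cn n) :
    HasCompactSupport (fun y => ν.1 e y B) :=
  (h.hasCompactSupport e hK hKe).comp_left
    (g := fun φ : (Cn n) [⋀^Fin k]→L[ℝ] ℂ => φ B) (by simp)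

theorem Off.integrable {ν : Form n X k} {K : Set X} (h : Off ν K) (e : atlas (Cn n) X)
    (hK : IsCompact K) (hKe : K ⊆ e.1.source) (B : Fin k → Cn n) :
    Integrable (fun y => ν.1 e y B) :=
  (h.contDiff_apply e hK hKe B).continuous.integrable_of_hasCompactSupport
    (h.hasCompactSupport_apply e hK hKe B)

/-- integral of a form in a chart -/
noncomputable def J (e : atlas (Cn n) X) (B : Fin k → Cn n) (ν : Form n X k) : ℂ :=
  ∫ y, ν.1 e y B

theorem J_smul (e : atlas (Cn n) X) (B : Fin k → Cn n) (c : ℂ) (ν : Form n X k) :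
    J e B (c • ν) = c * J e B ν := by
  have : (fun y => (c • ν).1 e y B) = fun y => c * ν.1 e y B := rfl
  rw [J, this, J, integral_const_mul]

theorem J_add (e : atlas (Cn n) X) (B : Fin k → Cn n) {ν ξ : Form n X k} {K : Set X}
    (hν : Off ν K) (hξ : Off ξ K) (hK : IsCompact K) (hKe : K ⊆ e.1.source) :
    J e B (ν + ξ) = J e B ν + J e B ξ :=
  integral_add (hν.integrable e hK hKe B) (hξ.integrable e hK hKe B)

theorem coe_sum_apply {ι : Type*} (s : Finset ι) (f : ι → Form n X k) (e : atlas (Cn n) X)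
    (y : Cn n) : (∑ i ∈ s, f i).1 e y = ∑ i ∈ s, (f i).1 e y := by
  have h1 : (∑ i ∈ s, f i).1 = ∑ i ∈ s, (f i).1 := by
    simp
  rw [h1, Finset.sum_apply, Finset.sum_apply]

theorem J_sum {ι : Type*} (s : Finset ι) (e : atlas (Cn n) X) (B : Fin k → Cn n)
    {f : ι → Form n X k} {K : Set X}
    (hf : ∀ i ∈ s, Off (f i) K) (hK : IsCompact K) (hKe : K ⊆ e.1.source) :
    J e B (∑ i ∈ s, f i) = ∑ i ∈ s, J e B (f i) := by
  have : (fun y => (∑ i ∈ s, f i).1 e y B) = fun y => ∑ i ∈ s, (f i).1 e y B := by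
    funext y
    rw [coe_sum_apply]
    simp
  rw [J, this, integral_finsetSum]
  · rfl
  · intro i hi
    exact (hf i hi).integrable e hK hKe B

end

end Pool.Agent.H73.Fro
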