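import Pool.Agent.H73.Fro.Int1

/-!
# Integration of top-degree forms on a compact complex manifold: change of charts, Stokes
-/

namespace Pool.Agent.H73.Fro

open Set MeasureTheory
open scoped Manifold ContDiff ComplexConjugate Topology

section

variable {n : ℕ} {X : Type*} [TopologicalSpace X] [ChartedSpace (Cn n) X] {k : ℕ}

theorem hasFDerivAt_transition [IsManifold 𝓘(ℂ, Cn n) ω X] (e e' : atlas (Cn n) X) {y : Cn n}
    (hy : y ∈ e.1.target) (hy' : e.1.symm y ∈ e'.1.source) :
    HasFDerivAt (fun z => e'.1 (e.1.symm z)) (fderiv ℝ (fun z => e'.1 (e.1.symm z)) y) y ∧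
      0 ≤ (fderiv ℝ (fun z => e'.1 (e.1.symm z)) y).det := by
  have h1 : DifferentiableAt ℂ (fun z => e'.1 (e.1.symm z)) y :=
    (contDiffAt_transition e e' hy hy').differentiableAt (by simp)
  refine ⟨(h1.restrictScalars ℝ).hasFDerivAt, ?_⟩
  rw [h1.fderiv_restrictScalars ℝ]
  exact det_restrict_nonneg _

/-- change of charts -/
theorem J_change [IsManifold 𝓘(ℂ, Cn n) ω X] (b : Module.Basis (Fin k) ℝ (Cn n))
    (ν : Form n X k) (e e' : atlas (Cn n) X) (h : Off ν e.1.source) (h' : Off ν e'.1.source) :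
    J e b ν = J e' b ν := by
  set s : Set (Cn n) := (e.1.symm ≫ₕ e'.1).source with hs
  set f : Cn n → Cn n := fun z => e'.1 (e.1.symm z) with hf
  have hmem : ∀ y ∈ s, y ∈ e.1.target ∧ e.1.symm y ∈ e'.1.source := by
    intro y hy
    rw [hs, OpenPartialHomeomorph.trans_source] at hy
    exact ⟨by simpa using hy.1, hy.2⟩
  have hmem' : ∀ y, y ∈ e.1.target → e.1.symm y ∈ e'.1.source → y ∈ s := by
    intro y hy hy'
    rw [hs, OpenPartialHomeomorph.trans_source]
    exact ⟨by simpa using hy, hy'⟩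
  have hinj : InjOn f s := (e.1.symm ≫ₕ e'.1).injOn
  have hso : IsOpen s := (e.1.symm ≫ₕ e'.1).open_source
  have e1 : J e' b ν = ∫ z in f '' s, ν.1 e' z b := by
    rw [J]
    refine (setIntegral_eq_integral_of_forall_compl_eq_zero ?_).symm
    intro z hz
    by_cases hzt : z ∈ e'.1.target
    · by_cases hze : e'.1.symm z ∈ e.1.source
      · exfalso
        apply hz
        refine ⟨e.1 (e'.1.symm z), hmem' _ (e.1.map_source hze) ?_, ?_⟩
        · rw [e.1.left_inv hze]
          exact e'.1.map_target hzt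
        · change e'.1 (e.1.symm (e.1 (e'.1.symm z))) = z
          rw [e.1.left_inv hze, e'.1.right_inv hzt]
      · rw [h e' z hzt hze]
        rfl
    · rw [form_zero_off ν e' hzt]
      rfl
  have e2 : J e b ν = ∫ y in s, ν.1 e y b := by
    rw [J]
    refine (setIntegral_eq_integral_of_forall_compl_eq_zero ?_).symm
    intro y hy
    by_cases hyt : y ∈ e.1.target
    · rw [h' e y hyt fun hc => hy (hmem' y hyt hc)]
      rfl
    · rw [form_zero_off ν e hyt]
      rfl
  rw [e1, e2, integral_image_eq_integral_abs_det_fderiv_smul volume hso.measurableSet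
    (fun y hy => (hasFDerivAt_transition e e' (hmem y hy).1 (hmem y hy).2).1.hasFDerivWithinAt)
    hinj]
  refine setIntegral_congr_fun hso.measurableSet fun y hy => ?_
  have h2 := hasFDerivAt_transition e e' (hmem y hy).1 (hmem y hy).2
  change ν.1 e y b = |(fderiv ℝ f y).det| • ν.1 e' (f y) b
  rw [abs_of_nonneg h2.2, form_compat ν e e' (hmem y hy).1 (hmem y hy).2,
    ContinuousAlternatingMap.compContinuousLinearMap_apply]
  exact top_comp b _ _

/-- derivatives of compactly supported functions have zero integral -/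
theorem integral_fderiv_zero {g : Cn n → ℂ} (hg : ContDiff ℝ ∞ g) (hc : HasCompactSupport g)
    (v : Cn n) : ∫ y, fderiv ℝ g y v = 0 := by
  have h1 : Continuous (fun y => fderiv ℝ g y v) :=
    (hg.continuous_fderiv (by simp)).clm_apply continuous_const
  have h2 : HasCompactSupport (fun y => fderiv ℝ g y v) := hc.fderiv_apply (𝕜 := ℝ) v
  have key := integral_smul_fderiv_eq_neg_fderiv_smul_of_integrable (μ := (volume : Measure (Cn n)))
    (𝕜 := ℝ) (f := fun _ : Cn n => (1 : ℝ)) (g := g) (v := v)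
    (by simp) (by simpa using h1.integrable_of_hasCompactSupport h2)
    (by simpa using hg.continuous.integrable_of_hasCompactSupport hc)
    (fun _ _ => differentiableAt_const _)
    (fun x _ => hg.differentiable (by simp) x)
  simpa using key

/-- Stokes in a chart -/
theorem J_extD [IsManifold 𝓘(ℂ, Cn n) ω X] (B : Fin (k + 1) → Cn n) {θ : Form n X k} {K : Set X}
    (h : Off θ K) (e : atlas (Cn n) X) (hK : IsCompact K) (hKe : K ⊆ e.1.source) :
    J e B (extD n X k θ) = 0 := by
  have hcd := h.contDiff e hK hKe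
  have h0 : ∀ y, (extD n X k θ).1 e y = extDeriv (θ.1 e) y := by
    intro y
    by_cases hy : y ∈ e.1.target
    · exact extD_apply θ e hy
    · rw [form_zero_off _ e hy]
      have hy2 : y ∉ tsupport (θ.1 e) := by
        intro hc
        obtain ⟨x, hx, rfl⟩ := h.tsupport_subset e hK hKe hc
        exact hy (e.1.map_source (hKe hx))
      have h3 : θ.1 e =ᶠ[𝓝 y] 0 := notMem_tsupport_iff_eventuallyEq.1 hy2
      rw [h3.extDeriv_eq]
      ext v
      rw [extDeriv, ContinuousAlternatingMap.alternatizeUncurryFin_apply]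
      have : fderiv ℝ (0 : Cn n → (Cn n) [⋀^Fin k]→L[ℝ] ℂ) y = 0 := by
        exact fderiv_const_apply _
      rw [this]
      simp
  have h1 : ∀ y, (extD n X k θ).1 e y B =
      ∑ i : Fin (k + 1), (-1) ^ (i : ℕ) • fderiv ℝ (fun z => θ.1 e z (i.removeNth B)) y (B i) := by
    intro y
    rw [h0 y, extDeriv, ContinuousAlternatingMap.alternatizeUncurryFin_apply]
    refine Finset.sum_congr rfl fun i _ => ?_
    congr 1
    have h4 : HasFDerivAt (fun z => θ.1 e z (i.removeNth B))
        ((ContinuousAlternatingMap.apply ℝ (Cn n) ℂ (i.removeNth B)).comp (fderiv ℝ (θ.1 e) y)) y :=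
      (ContinuousAlternatingMap.apply ℝ (Cn n) ℂ (i.removeNth B)).hasFDerivAt.comp y
        ((hcd.differentiable (by simp)) y).hasFDerivAt
    rw [h4.fderiv]
    rfl
  have h2 : ∀ i : Fin (k + 1), ∫ y, fderiv ℝ (fun z => θ.1 e z (i.removeNth B)) y (B i) = 0 :=
    fun i => integral_fderiv_zero (h.contDiff_apply e hK hKe _)
      (h.hasCompactSupport_apply e hK hKe _) _
  have h5 : ∀ i : Fin (k + 1),
      Integrable (fun y => fderiv ℝ (fun z => θ.1 e z (i.removeNth B)) y (B i)) := by
    intro i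
    have h6 := h.contDiff_apply e hK hKe (i.removeNth B)
    exact (((h6.continuous_fderiv (by simp)).clm_apply
      continuous_const)).integrable_of_hasCompactSupport
      ((h.hasCompactSupport_apply e hK hKe _).fderiv_apply (𝕜 := ℝ) _)
  rw [J]
  simp_rw [h1]
  rw [integral_finsetSum]
  · refine Finset.sum_eq_zero fun i _ => ?_
    have h7 : ∀ y, ((-1) ^ (i : ℕ) : ℤ) • fderiv ℝ (fun z => θ.1 e z (i.removeNth B)) y (B i) =
        ((-1 : ℝ) ^ (i : ℕ)) • fderiv ℝ (fun z => θ.1 e z (i.removeNth B)) y (B i) := by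
      intro y
      rcases neg_one_pow_eq_or ℤ (i : ℕ) with h | h <;>
      rcases Nat.even_or_odd (i : ℕ) with h' | h' <;> simp_all
    simp_rw [h7]
    rw [integral_smul, h2 i, smul_zero]
  · intro i _
    exact (h5 i).smul _

theorem Off.extD [IsManifold 𝓘(ℂ, Cn n) ω X] {θ : Form n X k} {K : Set X}
    (h : Off θ K) (hK : IsClosed K) : Off (Fro.extD n X k θ) K := by
  intro e y hy hyK
  rw [extD_apply θ e hy]
  have h3 : θ.1 e =ᶠ[𝓝 y] 0 := by
    have h4 : ∀ᶠ z in 𝓝 y, e.1.symm z ∈ Kᶜ :=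
      (e.1.continuousAt_symm hy).eventually (hK.isOpen_compl.mem_nhds hyK)
    filter_upwards [h4, e.1.open_target.mem_nhds hy] with z hz hz2
    exact h e z hz2 hz
  rw [h3.extDeriv_eq]
  ext v
  rw [extDeriv, ContinuousAlternatingMap.alternatizeUncurryFin_apply]
  have : fderiv ℝ (0 : Cn n → (Cn n) [⋀^Fin k]→L[ℝ] ℂ) y = 0 := by
    exact fderiv_const_apply _
  rw [this]
  simp

/-! ### Multiplication by smooth functions -/

variable (n X) in
/-- smooth real functions, tested in the charts -/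
structure SF where
  /-- the function -/
  fn : X → ℝ
  smooth : ∀ e : atlas (Cn n) X, ContDiffOn ℝ ∞ (fun y => fn (e.1.symm y)) e.1.target

/-- the product of a smooth function and a form -/
noncomputable def fmul (ψ : SF n X) (ν : Form n X k) : Form n X k :=
  ⟨fun e y => ψ.fn (e.1.symm y) • ν.1 e y, by
    refine ⟨fun e => (ψ.smooth e).smul (form_smooth ν e), fun e y hy => ?_, fun e e' y hy hy' => ?_⟩
    · change ψ.fn (e.1.symm y) • ν.1 e y = 0
      rw [form_zero_off ν e hy]
      exact smul_zero (A := (Cn n) [⋀^Fin k]→L[ℝ] ℂ) (ψ.fn (e.1.symm y))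
    · have h1 := form_compat ν e e' hy hy'
      have h2 : e'.1.symm (e'.1 (e.1.symm y)) = e.1.symm y := e'.1.left_inv hy'
      simp only [h2, h1]
      ext v
      simp⟩

theorem fmul_apply (ψ : SF n X) (ν : Form n X k) (e : atlas (Cn n) X) (y : Cn n) :
    (fmul ψ ν).1 e y = ψ.fn (e.1.symm y) • ν.1 e y := rfl

theorem fmul_add (ψ : SF n X) (ν ξ : Form n X k) : fmul ψ (ν + ξ) = fmul ψ ν + fmul ψ ξ := by
  apply form_ext
  intro e y _
  change ψ.fn (e.1.symm y) • (ν.1 e y + ξ.1 e y) = ψ.fn (e.1.symm y) • ν.1 e y +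
    ψ.fn (e.1.symm y) • ξ.1 e y
  exact smul_add _ _ _

theorem fmul_smul (ψ : SF n X) (c : ℂ) (ν : Form n X k) : fmul ψ (c • ν) = c • fmul ψ ν := by
  apply form_ext
  intro e y _
  change ψ.fn (e.1.symm y) • (c • ν.1 e y) = c • (ψ.fn (e.1.symm y) • ν.1 e y)
  exact smul_comm _ _ _

theorem fmul_sum {ι : Type*} (s : Finset ι) (ψ : SF n X) (f : ι → Form n X k) :
    fmul ψ (∑ i ∈ s, f i) = ∑ i ∈ s, fmul ψ (f i) := by
  apply form_ext
  intro e y _
  rw [fmul_apply, coe_sum_apply, coe_sum_apply, Finset.smul_sum]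
  rfl

theorem off_fmul_left (ψ : SF n X) (ν : Form n X k) : Off (fmul ψ ν) (tsupport ψ.fn) := by
  intro e y hy hyK
  rw [fmul_apply, image_eq_zero_of_notMem_tsupport hyK]
  exact zero_smul ℝ (ν.1 e y)

theorem Off.fmul {ν : Form n X k} {K : Set X} (h : Off ν K) (ψ : SF n X) :
    Off (Fro.fmul ψ ν) K := by
  intro e y hy hyK
  rw [fmul_apply, h e y hy hyK]
  exact smul_zero (A := (Cn n) [⋀^Fin k]→L[ℝ] ℂ) (ψ.fn (e.1.symm y))

theorem sum_fmul {ι : Type*} (s : Finset ι) (χ : ι → SF n X)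
    (h : ∀ x, ∑ i ∈ s, (χ i).fn x = 1) (ν : Form n X k) : ∑ i ∈ s, fmul (χ i) ν = ν := by
  apply form_ext
  intro e y _
  rw [coe_sum_apply]
  simp_rw [fmul_apply]
  rw [← Finset.sum_smul, h, one_smul]

/-! ### Partition of unity -/

theorem isManifold_real [IsManifold 𝓘(ℂ, Cn n) ω X] : IsManifold 𝓘(ℝ, Cn n) ∞ X := by
  apply isManifold_of_contDiffOn
  intro e e' he he'
  simp only [modelWithCornersSelf_coe, modelWithCornersSelf_coe_symm,
      Function.comp_id, Function.id_comp, preimage_id, range_id, inter_univ]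
  intro y hy
  rw [OpenPartialHomeomorph.trans_source] at hy
  have := contDiffAt_transition (n := n) (X := X) ⟨e, he⟩ ⟨e', he'⟩ (y := y)
    (by simpa using hy.1) hy.2
  exact ((this.restrict_scalars ℝ).of_le le_top).contDiffWithinAt

variable (n X) in
theorem exists_pou [IsManifold 𝓘(ℂ, Cn n) ω X] [CompactSpace X] [T2Space X] :
    ∃ (t : Finset (atlas (Cn n) X)) (χ : t → SF n X),
      (∀ i, tsupport (χ i).fn ⊆ i.1.1.source) ∧ (∀ i x, 0 ≤ (χ i).fn x) ∧
      ∀ x, ∑ i, (χ i).fn x = 1 := by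
  have : IsManifold 𝓘(ℝ, Cn n) ∞ X := isManifold_real
  obtain ⟨t, ht⟩ := isCompact_univ.elim_finite_subcover
    (fun e : atlas (Cn n) X => e.1.source) (fun e => e.1.open_source) (by
      intro x _
      exact mem_iUnion.2 ⟨⟨chartAt (Cn n) x, chart_mem_atlas (Cn n) x⟩, mem_chart_source _ x⟩)
  obtain ⟨f, hf⟩ := SmoothPartitionOfUnity.exists_isSubordinate (ι := t) 𝓘(ℝ, Cn n)
    (isClosed_univ : IsClosed (univ : Set X)) (fun i => i.1.1.source)
    (fun i => i.1.1.open_source) (by
      intro x hx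
      have := ht hx
      simp only [mem_iUnion] at this ⊢
      obtain ⟨i, hi, hx2⟩ := this
      exact ⟨⟨i, hi⟩, hx2⟩)
  refine ⟨t, fun i => ⟨f i, fun e => ?_⟩, fun i => hf i, fun i x => f.nonneg i x, fun x => ?_⟩
  · have h1 : ContMDiffOn 𝓘(ℝ, Cn n) 𝓘(ℝ, Cn n) ∞ e.1.symm e.1.target :=
      contMDiffOn_symm_of_mem_maximalAtlas (IsManifold.subset_maximalAtlas e.2)
    have h2 := (f i).contMDiff.comp_contMDiffOn h1
    rw [contMDiffOn_iff_contDiffOn] at h2
    exact h2
  · have := f.sum_eq_one (mem_univ x)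
    rw [finsum_eq_sum_of_fintype] at this
    exact this

end

end Pool.Agent.H73.Fro
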