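import Pool.Agent.H73.Fro.NilData
import Pool.Agent.H73.Fro.AlgDefs
import Pool.Agent.H73.Fro.AlgPair
import Pool.Agent.H73.Fro.AlgEven
import Pool.Agent.H73.Fro.GeoEven

/-!
# The lower bound
-/

namespace Pool.Agent.H73.Fro

open Set
open scoped Manifold ContDiff ComplexConjugate Topology

/-- there is a connected compact complex manifold of dimension `n` with a nonzero differential
on page `n - 1` -/
def Lower (n : ℕ) : Prop :=
  ∃ (X : Type) (_ : TopologicalSpace X) (_ : ChartedSpace (Cn n) X)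
    (_ : IsManifold 𝓘(ℂ, Cn n) ω X), CompactSpace X ∧ T2Space X ∧ ConnectedSpace X ∧
      (frolicher n X).d ((n - 1 : ℕ) : ℤ) 0 (n - 1) ≠ 0

theorem lower_of {m k n : ℕ} (N : NilData (Idx m k)) (hcard : m + 2 * k = n) (hn : 1 ≤ n)
    (hA : AlgData N.D n) : Lower n := by
  have hc : Fintype.card (Idx m k) = n := by
    simp only [Fintype.card_sum, Fintype.card_prod, Fintype.card_fin]
    omega
  let e : Idx m k ≃ Fin n := Fintype.equivFinOfCardEq hc
  obtain ⟨α, ψ, l, c, hl, hl2, hc0, hα, hdα, hψ, hdψ, hvol⟩ := hA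
  have h := N.main e hn α ψ l c hl hl2 hc0 hα hdα hψ hdψ hvol
  have hn' : ((n - 1 : ℕ) : ℤ) = n - 1 := by omega
  refine ⟨(N.cover e).Q, inferInstance, inferInstance, inferInstance, inferInstance,
    inferInstance, inferInstance, ?_⟩
  rw [hn']
  exact h

theorem lower_even (k : ℕ) : Lower (4 + 2 * k) :=
  lower_of (nilE k) rfl (by omega) (algEven k (pairMain 4 k))

end Pool.Agent.H73.Fro
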