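import Pool.Agent.H73.Fro.Lower
import Pool.Agent.H73.Fro.AlgOdd
import Pool.Agent.H73.Fro.GeoOdd
import Pool.Agent.H73.Fro.Geo3

/-!
# The lower bound in all dimensions `n ≥ 3`
-/

namespace Pool.Agent.H73.Fro

open Set
open scoped Manifold ContDiff ComplexConjugate Topology

theorem lower_odd (k : ℕ) : Lower (5 + 2 * k) :=
  lower_of (nilO k) rfl (by omega) (algOdd k (pairMain 5 k))

theorem lower_three : Lower 3 := lower_of nil3 rfl (by omega) algThree

theorem lower_all' (n : ℕ) (hn : 3 ≤ n) : Lower n := by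
  rcases Nat.even_or_odd n with h | h
  · obtain ⟨j, rfl⟩ := h
    obtain ⟨k, hk⟩ := Nat.exists_eq_add_of_le (show 2 ≤ j by omega)
    have e : j + j = 4 + 2 * k := by omega
    rw [e]
    exact lower_even k
  · obtain ⟨j, rfl⟩ := h
    rcases Nat.lt_or_ge j 2 with hj | hj
    · have e : j = 1 := by omega
      rw [e]
      exact lower_three
    · obtain ⟨k, hk⟩ := Nat.exists_eq_add_of_le hj
      have e : 2 * j + 1 = 5 + 2 * k := by omega
      rw [e]
      exact lower_odd k

/-- for every `n ≥ 3` there is a connected compact complex manifold of dimension `n` with a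
nonzero differential on page `n - 1` -/
theorem lower_all (n : ℕ) (hn : 3 ≤ n) :
    ∃ (X : Type) (_ : TopologicalSpace X) (_ : ChartedSpace (Cn n) X)
      (_ : IsManifold 𝓘(ℂ, Cn n) ω X), CompactSpace X ∧ T2Space X ∧ ConnectedSpace X ∧
        (frolicher n X).d (n - 1) 0 (n - 1) ≠ 0 := by
  obtain ⟨X, h1, h2, h3, h4, h5, h6, h7⟩ := lower_all' n hn
  refine ⟨X, h1, h2, h3, h4, h5, h6, ?_⟩
  have hn' : ((n - 1 : ℕ) : ℤ) = n - 1 := by omega
  rwa [hn'] at h7

end Pool.Agent.H73.Fro
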