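import Pool.Agent.H73.Fro.Quad

/-!
# Compact quotients of simply connected nilpotent complex-type groups

`NilData κ`: a group structure on `κ → ℂ` with holomorphic left translations, an invariant
coframe and a cocompact discrete subgroup.
-/

namespace Pool.Agent.H73.Fro

open Set Filter
open scoped Manifold ContDiff ComplexConjugate Topology

/-- extension of a vector of values of the `(1,0)`-coframe to the whole coframe -/
noncomputable def real {κ : Type} (U : κ → ℂ) : κ ⊕ κ → ℂ := Sum.elim U (fun i => conj (U i))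

structure NilData (κ : Type) [Fintype κ] [DecidableEq κ] where
  mul : (κ → ℂ) → (κ → ℂ) → (κ → ℂ)
  inv : (κ → ℂ) → (κ → ℂ)
  mul_assoc' : ∀ x y z, mul (mul x y) z = mul x (mul y z)
  zero_mul' : ∀ x, mul 0 x = x
  mul_zero' : ∀ x, mul x 0 = x
  inv_mul' : ∀ x, mul (inv x) x = 0
  cont_mul : Continuous fun p : (κ → ℂ) × (κ → ℂ) => mul p.1 p.2
  cont_inv : Continuous inv
  Λ : Set (κ → ℂ)
  zero_mem' : 0 ∈ Λ
  mul_mem' : ∀ x ∈ Λ, ∀ y ∈ Λ, mul x y ∈ Λ
  inv_mem' : ∀ x ∈ Λ, inv x ∈ Λ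
  fin : ∀ R : ℝ, {g | g ∈ Λ ∧ ∀ i, ‖g i‖ ≤ R}.Finite
  cocompact : ∃ R : ℝ, ∀ z, ∃ g ∈ Λ, ∀ i, ‖mul g z i‖ ≤ R
  hol : ∀ g, ContDiff ℂ ω (mul g)
  dmul : (κ → ℂ) → (κ → ℂ) → ((κ → ℂ) →L[ℂ] (κ → ℂ))
  hasD : ∀ g z, HasFDerivAt (mul g) (dmul g z) z
  θ : κ → (κ → ℂ) → ((κ → ℂ) →L[ℝ] ℂ)
  θ_smooth : ∀ i, ContDiff ℝ ∞ (θ i)
  θ_lin : ∀ i z (c : ℂ) v, θ i z (c • v) = c * θ i z v
  θ_inv : ∀ i g z v, θ i (mul g z) (dmul g z v) = θ i z v
  θ_zero : ∀ i v, θ i 0 v = v i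
  D : κ ⊕ κ → EA (κ ⊕ κ)
  β : κ ⊕ κ → (κ ⊕ κ → ℂ) → (κ ⊕ κ → ℂ) → ℂ
  quad : ∀ s, Quad (D s) (β s)
  conj_β : ∀ i U V, β (Sum.inr i) (real U) (real V) = conj (β (Sum.inl i) (real U) (real V))
  eqn : ∀ i z u v, fderiv ℝ (θ i) z u v - fderiv ℝ (θ i) z v u =
    β (Sum.inl i) (real fun j => θ j z u) (real fun j => θ j z v)

namespace NilData

variable {κ : Type} [Fintype κ] [DecidableEq κ] (N : NilData κ)

/-- the group -/
def G (_ : NilData κ) : Type := κ → ℂ

noncomputable instance : TopologicalSpace N.G := inferInstanceAs (TopologicalSpace (κ → ℂ))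

instance : T2Space N.G := inferInstanceAs (T2Space (κ → ℂ))

instance : LocallyCompactSpace N.G := inferInstanceAs (LocallyCompactSpace (κ → ℂ))

instance : ConnectedSpace N.G := inferInstanceAs (ConnectedSpace (κ → ℂ))

instance : Mul N.G := ⟨N.mul⟩

instance : One N.G := ⟨(0 : κ → ℂ)⟩

instance : Inv N.G := ⟨N.inv⟩

instance : Group N.G := Group.ofLeftAxioms N.mul_assoc' N.zero_mul' N.inv_mul'

instance : IsTopologicalGroup N.G where
  continuous_mul := N.cont_mul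
  continuous_inv := N.cont_inv

/-- the lattice -/
def L : Subgroup N.G where
  carrier := N.Λ
  one_mem' := N.zero_mem'
  mul_mem' := fun {x y} hx hy => N.mul_mem' x hx y hy
  inv_mem' := fun {x} hx => N.inv_mem' x hx

theorem norm_le_of_compact {K : Set (κ → ℂ)} (hK : IsCompact K) :
    ∃ R : ℝ, ∀ g ∈ K, ∀ i, ‖g i‖ ≤ R := by
  obtain ⟨R, hR⟩ := hK.isBounded.exists_norm_le
  exact ⟨R, fun g hg i => (norm_le_pi_norm g i).trans (hR g hg)⟩

instance : ProperlyDiscontinuousSMul N.L N.G := by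
  apply Subgroup.properlyDiscontinuousSMul_of_tendsto_cofinite
  intro S hS
  obtain ⟨K, hK, hKS⟩ := Filter.mem_cocompact.mp hS
  obtain ⟨R, hR⟩ := norm_le_of_compact (κ := κ) hK
  change (N.L.subtype ⁻¹' S)ᶜ.Finite
  have h1 : ((N.L.subtype ⁻¹' S)ᶜ) ⊆ (Subtype.val) ⁻¹' {g : κ → ℂ | g ∈ N.Λ ∧ ∀ i, ‖g i‖ ≤ R} := by
    intro g hg
    have hgK : g.1 ∈ K := by
      by_contra hgK
      exact hg (hKS hgK)
    exact ⟨g.2, hR g.1 hgK⟩
  exact ((N.fin R).preimage Subtype.val_injective.injOn).subset h1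

/-- the quotient -/
abbrev X : Type := MulAction.orbitRel.Quotient N.L N.G

/-- the projection -/
def proj : N.G → N.X := Quotient.mk (MulAction.orbitRel N.L N.G)

theorem proj_covering : IsQuotientCoveringMap N.proj N.L :=
  isQuotientCoveringMap_quotientMk_of_properlyDiscontinuousSMul

theorem proj_surjective : Function.Surjective N.proj := Quotient.mk_surjective

theorem proj_localHomeo : IsLocalHomeomorph N.proj :=
  N.proj_covering.isCoveringMap.isLocalHomeomorph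

instance : T2Space N.X := t2Space_of_properlyDiscontinuousSMul_of_t2Space

instance : ConnectedSpace N.X := N.proj_surjective.connectedSpace N.proj_covering.continuous

instance : CompactSpace N.X := by
  obtain ⟨R, hR⟩ := N.cocompact
  let B : Set N.G := (Metric.closedBall (0 : κ → ℂ) (max R 0) : Set (κ → ℂ))
  have hK : IsCompact B := isCompact_closedBall (0 : κ → ℂ) (max R 0)
  have himg : N.proj '' B = Set.univ := by
    apply Set.eq_univ_of_forall
    intro q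
    obtain ⟨z, rfl⟩ := N.proj_surjective q
    obtain ⟨g, hg, hgz⟩ := hR z
    refine ⟨(⟨g, hg⟩ : N.L) • z, ?_, ?_⟩
    · change N.mul g z ∈ Metric.closedBall (0 : κ → ℂ) (max R 0)
      rw [mem_closedBall_zero_iff]
      apply (pi_norm_le_iff_of_nonneg (le_max_right _ _)).mpr
      intro i
      exact (hgz i).trans (le_max_left _ _)
    · exact N.proj_covering.map_smul _
  have := hK.image N.proj_covering.continuous
  rw [himg] at this
  exact ⟨this⟩

section Cover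

variable {n : ℕ} (e : κ ≃ Fin n)

/-- renumbering of the coordinates -/
noncomputable def Ψ : Cn n ≃L[ℂ] (κ → ℂ) :=
  (LinearEquiv.funCongrLeft ℂ ℂ e).toContinuousLinearEquiv

theorem Ψ_apply (y : Cn n) (i : κ) : Ψ e y i = y (e i) := rfl

/-- the quotient as a covering of `ℂⁿ` -/
noncomputable def cover : CoverData n N.X where
  π y := N.proj (Ψ e y)
  lh := N.proj_localHomeo.comp (Ψ e).toHomeomorph.isLocalHomeomorph
  surj := N.proj_surjective.comp (Ψ e).surjective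
  Γ := N.L
  act γ y := (Ψ e).symm (N.mul γ.1 (Ψ e y))
  hol γ := (Ψ e).symm.contDiff.comp ((N.hol γ.1).comp (Ψ e).contDiff)
  π_act γ y := by
    rw [ContinuousLinearEquiv.apply_symm_apply]
    exact N.proj_covering.map_smul γ
  trans y y' h := by
    obtain ⟨γ, hγ⟩ := (N.proj_covering.apply_eq_iff_mem_orbit).mp h.symm
    refine ⟨γ, ?_⟩
    have hγ' : N.mul γ.1 (Ψ e y) = Ψ e y' := hγ
    rw [hγ', ContinuousLinearEquiv.symm_apply_apply]

theorem hasFDerivAt_act (γ : (N.cover e).Γ) (y : Cn n) :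
    HasFDerivAt ((N.cover e).act γ)
      ((((Ψ e).symm : (κ → ℂ) →L[ℂ] Cn n).comp
        ((N.dmul γ.1 (Ψ e y)).comp (Ψ e : Cn n →L[ℂ] (κ → ℂ)))).restrictScalars ℝ) y := by
  have h1 := N.hasD γ.1 (Ψ e y)
  have h2 : HasFDerivAt (fun y => Ψ e y) (Ψ e : Cn n →L[ℂ] (κ → ℂ)) y := (Ψ e).hasFDerivAt
  have h3 := (((Ψ e).symm.hasFDerivAt (x := N.mul γ.1 (Ψ e y))).comp y (h1.comp y h2))
  exact h3.restrictScalars ℝ

/-- the real-linear version of the renumbering -/
noncomputable def ΨR : Cn n →L[ℝ] (κ → ℂ) := (Ψ e : Cn n →L[ℂ] (κ → ℂ)).restrictScalars ℝ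

/-- the coframe on `ℂⁿ`, as invariant one-forms -/
noncomputable def frm (s : κ ⊕ κ) : (N.cover e).Inv :=
  match s with
  | Sum.inl i => ⟨fun y => (N.θ i (Ψ e y)).comp (ΨR e), by
      refine ⟨?_, fun γ y => ?_⟩
      · exact ((N.θ_smooth i).comp (ΨR e).contDiff).clm_comp contDiff_const
      · rw [(N.hasFDerivAt_act e γ y).fderiv]
        ext v
        change N.θ i (Ψ e ((Ψ e).symm (N.mul γ.1 (Ψ e y))))
          (Ψ e ((Ψ e).symm (N.dmul γ.1 (Ψ e y) (Ψ e v)))) = N.θ i (Ψ e y) (Ψ e v)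
        rw [ContinuousLinearEquiv.apply_symm_apply, ContinuousLinearEquiv.apply_symm_apply,
          N.θ_inv]⟩
  | Sum.inr i => ⟨fun y => (Complex.conjCLE : ℂ →L[ℝ] ℂ).comp
      ((N.θ i (Ψ e y)).comp (ΨR e)), by
      refine ⟨?_, fun γ y => ?_⟩
      · exact contDiff_const.clm_comp
          (((N.θ_smooth i).comp (ΨR e).contDiff).clm_comp contDiff_const)
      · rw [(N.hasFDerivAt_act e γ y).fderiv]
        ext v
        change conj (N.θ i (Ψ e ((Ψ e).symm (N.mul γ.1 (Ψ e y))))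
          (Ψ e ((Ψ e).symm (N.dmul γ.1 (Ψ e y) (Ψ e v))))) = conj (N.θ i (Ψ e y) (Ψ e v))
        rw [ContinuousLinearEquiv.apply_symm_apply, ContinuousLinearEquiv.apply_symm_apply,
          N.θ_inv]⟩

theorem frm_inl (i : κ) (y v : Cn n) :
    (N.frm e (Sum.inl i)).1 y v = N.θ i (Ψ e y) (Ψ e v) := rfl

theorem frm_inr (i : κ) (y v : Cn n) :
    (N.frm e (Sum.inr i)).1 y v = conj (N.θ i (Ψ e y) (Ψ e v)) := rfl

/-- the coframe -/
noncomputable def frame : (N.cover e).Frame κ where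
  θ := N.frm e
  un i y c v := by
    rw [frm_inl, frm_inl, map_smul, N.θ_lin]
  pr i y c v := by
    rw [frm_inr, frm_inr, map_smul, N.θ_lin, map_mul]

theorem frame_std : (N.frame e).Std e := by
  intro y
  refine ⟨(((Ψ e).symm : (κ → ℂ) →L[ℂ] Cn n).comp
        ((N.dmul (Ψ e y) 0).comp (Ψ e : Cn n →L[ℂ] (κ → ℂ)))).toLinearMap, fun i v => ?_⟩
  have h : N.θ i (Ψ e y) (N.dmul (Ψ e y) 0 (Ψ e v)) = v (e i) := by
    have h1 := N.θ_inv i (Ψ e y) 0 (Ψ e v)
    rw [N.mul_zero', N.θ_zero] at h1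
    exact h1
  constructor
  · change N.θ i (Ψ e y) (Ψ e ((Ψ e).symm (N.dmul (Ψ e y) 0 (Ψ e v)))) = v (e i)
    rw [ContinuousLinearEquiv.apply_symm_apply, h]
  · change conj (N.θ i (Ψ e y) (Ψ e ((Ψ e).symm (N.dmul (Ψ e y) 0 (Ψ e v))))) = conj (v (e i))
    rw [ContinuousLinearEquiv.apply_symm_apply, h]

theorem fderiv_frm_inl (i : κ) (y u v : Cn n) :
    fderiv ℝ (N.frm e (Sum.inl i)).1 y u v = fderiv ℝ (N.θ i) (Ψ e y) (Ψ e u) (Ψ e v) := by
  have h1 : HasFDerivAt (N.θ i) (fderiv ℝ (N.θ i) (Ψ e y)) (ΨR e y) :=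
    ((N.θ_smooth i).contDiffAt.differentiableAt (by simp)).hasFDerivAt
  have h2 := h1.comp y (ΨR e).hasFDerivAt
  have h3 := h2.clm_comp (hasFDerivAt_const (ΨR e) y)
  have h4 : fderiv ℝ (N.frm e (Sum.inl i)).1 y = _ := h3.fderiv
  rw [h4]
  simp
  rfl

theorem fderiv_frm_inr (i : κ) (y u v : Cn n) :
    fderiv ℝ (N.frm e (Sum.inr i)).1 y u v =
      conj (fderiv ℝ (N.θ i) (Ψ e y) (Ψ e u) (Ψ e v)) := by
  have h1 : HasFDerivAt (N.θ i) (fderiv ℝ (N.θ i) (Ψ e y)) (ΨR e y) :=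
    ((N.θ_smooth i).contDiffAt.differentiableAt (by simp)).hasFDerivAt
  have h2 := h1.comp y (ΨR e).hasFDerivAt
  have h3 := (hasFDerivAt_const (Complex.conjCLE : ℂ →L[ℝ] ℂ) y).clm_comp
    (h2.clm_comp (hasFDerivAt_const (ΨR e) y))
  have h4 : fderiv ℝ (N.frm e (Sum.inr i)).1 y = _ := h3.fderiv
  rw [h4]
  simp
  rfl

theorem frame_real (y v : Cn n) :
    (fun t => ((N.frame e).θ t).1 y v) = real fun j => N.θ j (Ψ e y) (Ψ e v) := by
  funext t
  rcases t with j | j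
  · rfl
  · rfl

theorem frame_struc : (N.frame e).Struc N.D := by
  apply CoverData.Frame.struc_of_quad (N.frame e) N.D N.β N.quad
  intro s y u v
  rw [frame_real, frame_real]
  rcases s with i | i
  · change fderiv ℝ (N.frm e (Sum.inl i)).1 y u v - fderiv ℝ (N.frm e (Sum.inl i)).1 y v u = _
    rw [fderiv_frm_inl, fderiv_frm_inl, N.eqn]
  · change fderiv ℝ (N.frm e (Sum.inr i)).1 y u v - fderiv ℝ (N.frm e (Sum.inr i)).1 y v u = _
    rw [fderiv_frm_inr, fderiv_frm_inr, ← map_sub, N.eqn, N.conj_β]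

instance : CompactSpace (N.cover e).Q := inferInstanceAs (CompactSpace N.X)

instance : T2Space (N.cover e).Q := inferInstanceAs (T2Space N.X)

instance : ConnectedSpace (N.cover e).Q := inferInstanceAs (ConnectedSpace N.X)

/-- the lower bound from the algebraic data -/
theorem main (hn : 1 ≤ n) (α ψ : EA (κ ⊕ κ)) (l : List (κ ⊕ κ)) (c : ℂ) (hl : l.Nodup)
    (hl2 : l.length = 2 * n) (hc : c ≠ 0) (hα : α ∈ WW κ ^ (n - 1))
    (hdα : delta N.D α ∈ UU κ ^ (n - 1) * WW κ ^ 1) (hψ : ψ ∈ UU κ ^ 1 * WW κ ^ (n - 1))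
    (hdψ : delta N.D ψ ∈ UU κ ^ n * WW κ ^ 1) (hvol : delta N.D ψ * α = c • (l.map gen).prod) :
    (frolicher n (N.cover e).Q).d (n - 1) 0 (n - 1) ≠ 0 := by
  have hcard : Fintype.card (κ ⊕ κ) = l.length := by
    rw [Fintype.card_sum, Fintype.card_congr e, Fintype.card_fin, hl2]
    ring
  have hbij : Function.Bijective l.get :=
    (Fintype.bijective_iff_injective_and_card _).mpr ⟨List.nodup_iff_injective_get.mp hl, by
      rw [hcard, Fintype.card_fin]⟩
  let σ : Fin (2 * n) ≃ κ ⊕ κ := (finCongr hl2.symm).trans (Equiv.ofBijective _ hbij)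
  have hvolE : volE σ = (l.map gen).prod := by
    rw [volE, ExteriorAlgebra.ιMulti_apply]
    congr 1
    apply List.ext_get
    · simp [hl2]
    · intro i h1 h2
      simp [σ, gen]
      rfl
  exact criterion hn (N.frame_std e) (N.frame_struc e) hα hdα hψ hdψ σ hc (by rw [hvolE, hvol])

end Cover

end NilData

end Pool.Agent.H73.Fro
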