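import Pool.Agent.H73.Fro.Cover
import Mathlib.LinearAlgebra.ExteriorAlgebra.Basic
import Mathlib.LinearAlgebra.CliffordAlgebra.Contraction

/-!
# The exterior algebra of an invariant coframe acts on forms
-/

namespace Pool.Agent.H73.Fro

open Set
open scoped Manifold ContDiff ComplexConjugate Topology

/-- alternating forms of all degrees at a point -/
abbrev TT (n : ℕ) : Type := (k : ℕ) → (Cn n) [⋀^Fin k]→L[ℝ] ℂ

/-- the wedge product with a one-form, on forms of all degrees at a point -/
noncomputable def pT {n : ℕ} : (Cn n →L[ℝ] ℂ) →ₗ[ℂ] TT n →ₗ[ℂ] TT n where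
  toFun ξ :=
    { toFun := fun a k => match k with
        | 0 => 0
        | k + 1 => wBil ℂ k ξ (a k)
      map_add' := fun a b => by
        funext k
        cases k with
        | zero => exact (add_zero _).symm
        | succ k => exact map_add (wBil ℂ k ξ) (a k) (b k)
      map_smul' := fun c a => by
        funext k
        cases k with
        | zero => exact (smul_zero (A := (Cn n) [⋀^Fin 0]→L[ℝ] ℂ) c).symm
        | succ k => exact wBil_smul_right c ξ (a k) }
  map_add' ξ η := by
    apply LinearMap.ext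
    intro a
    funext k
    cases k with
    | zero => exact (add_zero _).symm
    | succ k =>
      change wBil ℂ k (ξ + η) (a k) = wBil ℂ k ξ (a k) + wBil ℂ k η (a k)
      rw [map_add]
      rfl
  map_smul' c ξ := by
    apply LinearMap.ext
    intro a
    funext k
    cases k with
    | zero => exact (smul_zero (A := (Cn n) [⋀^Fin 0]→L[ℝ] ℂ) c).symm
    | succ k => exact wBil_smul_left c ξ (a k)

theorem pT_sq {n : ℕ} (ξ : Cn n →L[ℝ] ℂ) (a : TT n) : pT ξ (pT ξ a) = 0 := by
  funext k
  match k with
  | 0 => rfl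
  | 1 => exact map_zero (wBil ℂ 0 ξ)
  | k + 2 => exact wBil_self ξ (a k)

/-- the product with a two-form -/
noncomputable def pW {n : ℕ} (b : Cn n →L[ℝ] Cn n →L[ℝ] ℂ) (a : TT n) : TT n :=
  fun k => match k with
    | 0 => 0
    | 1 => 0
    | k + 2 => w2 b (a k)

theorem pT_pT {n : ℕ} (ξ η : Cn n →L[ℝ] ℂ) (a : TT n) : pT ξ (pT η a) = pW (tens ξ η) a := by
  funext k
  match k with
  | 0 => rfl
  | 1 => exact map_zero (wBil ℂ 0 ξ)
  | k + 2 => exact (w2_tens ξ η (a k)).symm

namespace CoverData

variable {n : ℕ} {X : Type} [TopologicalSpace X] (C : CoverData n X)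

/-- the quotient, as a complex manifold -/
def Q (_ : CoverData n X) : Type := X

instance : TopologicalSpace C.Q := inferInstanceAs (TopologicalSpace X)

noncomputable instance : ChartedSpace (Cn n) C.Q := C.charted

instance : IsManifold 𝓘(ℂ, Cn n) ω C.Q := C.isManifold

/-- smooth invariant one-forms -/
def Inv : Submodule ℂ (Cn n → (Cn n →L[ℝ] ℂ)) where
  carrier := {θ | ContDiff ℝ ∞ θ ∧
    ∀ γ y, (θ (C.act γ y)).comp (fderiv ℝ (C.act γ) y) = θ y}
  add_mem' := by
    rintro θ η ⟨h1, h2⟩ ⟨g1, g2⟩
    refine ⟨h1.add g1, fun γ y => ?_⟩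
    rw [Pi.add_apply, Pi.add_apply, ContinuousLinearMap.add_comp, h2, g2]
  zero_mem' := ⟨contDiff_const, fun γ y => rfl⟩
  smul_mem' := by
    rintro c θ ⟨h1, h2⟩
    refine ⟨h1.const_smul c, fun γ y => ?_⟩
    rw [Pi.smul_apply, Pi.smul_apply, ContinuousLinearMap.smul_comp, h2]

variable {C}

/-- the wedge product with an invariant one-form -/
noncomputable def op (θ : C.Inv) (k : ℕ) : Form n C.Q k →ₗ[ℂ] Form n C.Q (k + 1) where
  toFun a := ⟨fun e y => wBil ℂ k (θ.1 y) (a.1 e y), by
    refine ⟨fun e => ?_, fun e y hy => ?_, fun e e' y hy hy' => ?_⟩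
    · have h1 := form_smooth a e
      have h2 : ContDiffOn ℝ ∞ θ.1 e.1.target := θ.2.1.contDiffOn
      exact ((wBil ℂ k).isBoundedBilinearMap.contDiff.comp_contDiffOn (h2.prodMk h1))
    · change wBil ℂ k (θ.1 y) (a.1 e y) = 0
      rw [form_zero_off a e hy, map_zero]
    · change wBil ℂ k (θ.1 y) (a.1 e y) = (wBil ℂ k (θ.1 _) (a.1 e' _)).compContinuousLinearMap _
      obtain ⟨γ, hγ⟩ := C.transition e.2 e'.2 hy hy'
      have h1 : e'.1 (e.1.symm y) = C.act γ y := hγ.eq_of_nhds
      have h2 : fderiv ℝ (fun z => e'.1 (e.1.symm z)) y = fderiv ℝ (C.act γ) y := hγ.fderiv_eq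
      rw [wBil_comp, form_compat a e e' hy hy']
      congr 1
      rw [h2, h1, θ.2.2 γ y]⟩
  map_add' a b := by
    apply form_ext
    intro e y _
    exact map_add (wBil ℂ k (θ.1 y)) (a.1 e y) (b.1 e y)
  map_smul' c a := by
    apply form_ext
    intro e y _
    exact wBil_smul_right c (θ.1 y) (a.1 e y)

theorem op_apply (θ : C.Inv) (k : ℕ) (a : Form n C.Q k) (e y) :
    (op θ k a).1 e y = wBil ℂ k (θ.1 y) (a.1 e y) := rfl

/-- the wedge product with an invariant one-form, on forms of all degrees -/
noncomputable def opT : C.Inv →ₗ[ℂ] AllForms n C.Q →ₗ[ℂ] AllForms n C.Q where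
  toFun θ :=
    { toFun := fun a k => match k with
        | 0 => 0
        | k + 1 => op θ k (a k)
      map_add' := fun a b => by
        funext k
        cases k with
        | zero => exact (add_zero (0 : Form n C.Q 0)).symm
        | succ k => exact map_add (op θ k) (a k) (b k)
      map_smul' := fun c a => by
        funext k
        cases k with
        | zero => exact (smul_zero c (A := Form n C.Q 0)).symm
        | succ k => exact map_smul (op θ k) c (a k) }
  map_add' θ η := by
    apply LinearMap.ext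
    intro a
    funext k
    cases k with
    | zero => exact (add_zero (0 : Form n C.Q 0)).symm
    | succ k =>
      apply form_ext
      intro e y _
      change wBil ℂ k (θ.1 y + η.1 y) ((a k).1 e y) =
        wBil ℂ k (θ.1 y) ((a k).1 e y) + wBil ℂ k (η.1 y) ((a k).1 e y)
      rw [map_add]
      rfl
  map_smul' c θ := by
    apply LinearMap.ext
    intro a
    funext k
    cases k with
    | zero => exact (smul_zero c (A := Form n C.Q 0)).symm
    | succ k =>
      apply form_ext
      intro e y _
      exact wBil_smul_left c (θ.1 y) ((a k).1 e y)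

theorem opT_sq (θ : C.Inv) (a : AllForms n C.Q) : opT θ (opT θ a) = 0 := by
  funext k
  match k with
  | 0 => rfl
  | 1 => exact map_zero (op θ 0)
  | k + 2 =>
    apply form_ext
    intro e y _
    exact wBil_self (θ.1 y) ((a k).1 e y)

variable (C) in
/-- the values of a form in a chart at a point -/
def ev (e : atlas (Cn n) C.Q) (y : Cn n) : AllForms n C.Q →ₗ[ℂ] TT n where
  toFun a := fun k => (a k).1 e y
  map_add' _ _ := rfl
  map_smul' _ _ := rfl

theorem allForms_ext {a b : AllForms n C.Q}
    (h : ∀ e : atlas (Cn n) C.Q, ∀ y ∈ e.1.target, C.ev e y a = C.ev e y b) : a = b := by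
  funext k
  apply form_ext
  intro e y hy
  exact congrFun (h e y hy) k

theorem ev_opT (θ : C.Inv) (e : atlas (Cn n) C.Q) (y : Cn n) (a : AllForms n C.Q) :
    C.ev e y (opT θ a) = pT (θ.1 y) (C.ev e y a) := by
  funext k
  cases k with
  | zero => rfl
  | succ k => rfl

end CoverData

end Pool.Agent.H73.Fro
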