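import Pool.Agent.H73.Fro.Criterion

/-!
# Quadratic elements with constant coefficients
-/

namespace Pool.Agent.H73.Fro

open Set
open scoped Manifold ContDiff ComplexConjugate Topology

/-- `x` is a quadratic element with constant coefficients, `β` the associated alternating form -/
inductive Quad {κ : Type} [DecidableEq κ] :
    EA (κ ⊕ κ) → ((κ ⊕ κ → ℂ) → (κ ⊕ κ → ℂ) → ℂ) → Prop
  | gg (s t : κ ⊕ κ) : Quad (gen s * gen t) (fun U V => U s * V t - V s * U t)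
  | zero : Quad 0 (fun _ _ => 0)
  | add {x y : EA (κ ⊕ κ)} {β γ : (κ ⊕ κ → ℂ) → (κ ⊕ κ → ℂ) → ℂ} :
      Quad x β → Quad y γ → Quad (x + y) (fun U V => β U V + γ U V)
  | smul (c : ℂ) {x : EA (κ ⊕ κ)} {β : (κ ⊕ κ → ℂ) → (κ ⊕ κ → ℂ) → ℂ} :
      Quad x β → Quad (c • x) (fun U V => c * β U V)

theorem pT_mul_comm {κ : Type} [DecidableEq κ] (s t : κ ⊕ κ) (v : κ ⊕ κ → ℂ) :
    gen s * gen t * ExteriorAlgebra.ι ℂ v = ExteriorAlgebra.ι ℂ v * (gen s * gen t) := by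
  have h1 := eq_neg_of_add_eq_zero_left
    (ExteriorAlgebra.ι_add_mul_swap (R := ℂ) (Pi.single t (1 : ℂ)) v)
  have h2 := eq_neg_of_add_eq_zero_left
    (ExteriorAlgebra.ι_add_mul_swap (R := ℂ) (Pi.single s (1 : ℂ)) v)
  rw [gen, gen, mul_assoc, h1, mul_neg, ← mul_assoc, h2, neg_mul, neg_neg, mul_assoc]

theorem Quad.comm {κ : Type} [DecidableEq κ] {x : EA (κ ⊕ κ)}
    {β : (κ ⊕ κ → ℂ) → (κ ⊕ κ → ℂ) → ℂ} (h : Quad x β) (v : κ ⊕ κ → ℂ) :
    x * ExteriorAlgebra.ι ℂ v = ExteriorAlgebra.ι ℂ v * x := by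
  induction h with
  | gg s t => exact pT_mul_comm s t v
  | zero => rw [zero_mul, mul_zero]
  | add _ _ h1 h2 => rw [add_mul, mul_add, h1, h2]
  | smul c _ h1 => rw [smul_mul_assoc, mul_smul_comm, h1]

theorem Quad.sum {κ : Type} [DecidableEq κ] {ι : Type} (s : Finset ι) {x : ι → EA (κ ⊕ κ)}
    {β : ι → (κ ⊕ κ → ℂ) → (κ ⊕ κ → ℂ) → ℂ} (h : ∀ i ∈ s, Quad (x i) (β i)) :
    Quad (∑ i ∈ s, x i) (fun U V => ∑ i ∈ s, β i U V) := by
  classical
  induction s using Finset.induction_on with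
  | empty => exact Quad.zero
  | insert a s ha ih =>
    rw [Finset.sum_insert ha]
    simp only [Finset.sum_insert ha]
    exact (h a (Finset.mem_insert_self a s)).add
      (ih fun i hi => h i (Finset.mem_insert_of_mem hi))

theorem Quad.congr {κ : Type} [DecidableEq κ] {x : EA (κ ⊕ κ)}
    {β γ : (κ ⊕ κ → ℂ) → (κ ⊕ κ → ℂ) → ℂ} (h : Quad x β) (hβ : ∀ U V, β U V = γ U V) :
    Quad x γ := by
  have : β = γ := by
    funext U V
    exact hβ U V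
  rwa [← this]

theorem pW_add {n : ℕ} (b b' : Cn n →L[ℝ] Cn n →L[ℝ] ℂ) (a : TT n) :
    pW (b + b') a = pW b a + pW b' a := by
  funext k
  match k with
  | 0 => exact (add_zero _).symm
  | 1 => exact (add_zero _).symm
  | k + 2 => exact w2_add b b' (a k)

theorem pW_zero {n : ℕ} (a : TT n) : pW (0 : Cn n →L[ℝ] Cn n →L[ℝ] ℂ) a = 0 := by
  funext k
  match k with
  | 0 => rfl
  | 1 => rfl
  | k + 2 => exact w2_zero (a k)

/-- multiplication of a bilinear form by a complex number -/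
noncomputable def cbil {n : ℕ} (c : ℂ) (b : Cn n →L[ℝ] Cn n →L[ℝ] ℂ) :
    Cn n →L[ℝ] Cn n →L[ℝ] ℂ :=
  (ContinuousLinearMap.compL ℝ (Cn n) ℂ ℂ (ContinuousLinearMap.mul ℝ ℂ c)).comp b

theorem cbil_apply {n : ℕ} (c : ℂ) (b : Cn n →L[ℝ] Cn n →L[ℝ] ℂ) (u v : Cn n) :
    cbil c b u v = c * b u v := rfl

theorem w2_cbil {n k : ℕ} (c : ℂ) (b : Cn n →L[ℝ] Cn n →L[ℝ] ℂ) (f : (Cn n) [⋀^Fin k]→L[ℝ] ℂ) :
    w2 (cbil c b) f = c • w2 b f := by
  ext v
  rw [w2_eq, w2_eq, ContinuousAlternatingMap.smul_apply,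
    ContinuousAlternatingMap.alternatizeUncurryFin_apply,
    ContinuousAlternatingMap.alternatizeUncurryFin_apply, Finset.smul_sum]
  refine Finset.sum_congr rfl fun i _ => ?_
  rw [smul_comm c]
  congr 1
  change wBil ℂ k (cbil c b (v i)) f (i.removeNth v) = c • wBil ℂ k (b (v i)) f (i.removeNth v)
  have h : cbil c b (v i) = c • b (v i) := rfl
  rw [h, wBil_smul_left]
  rfl

theorem pW_cbil {n : ℕ} (c : ℂ) (b : Cn n →L[ℝ] Cn n →L[ℝ] ℂ) (a : TT n) :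
    pW (cbil c b) a = c • pW b a := by
  funext k
  match k with
  | 0 => exact (smul_zero (A := (Cn n) [⋀^Fin 0]→L[ℝ] ℂ) c).symm
  | 1 => exact (smul_zero (A := (Cn n) [⋀^Fin 1]→L[ℝ] ℂ) c).symm
  | k + 2 => exact w2_cbil c b (a k)

theorem Quad.exists_pW {n : ℕ} {X : Type} [TopologicalSpace X] {C : CoverData n X}
    {κ : Type} [Fintype κ] [DecidableEq κ] (Φ : C.Frame κ) (y : Cn n) {x : EA (κ ⊕ κ)}
    {β : (κ ⊕ κ → ℂ) → (κ ⊕ κ → ℂ) → ℂ} (h : Quad x β) :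
    ∃ b : Cn n →L[ℝ] Cn n →L[ℝ] ℂ, (∀ a, Φ.actp y x a = pW b a) ∧
      ∀ u v, b u v - b v u = β (fun s => (Φ.θ s).1 y u) (fun s => (Φ.θ s).1 y v) := by
  induction h with
  | gg s t =>
    refine ⟨tens ((Φ.θ s).1 y) ((Φ.θ t).1 y), fun a => ?_, fun u v => ?_⟩
    · rw [map_mul, Module.End.mul_apply, Φ.actp_gen, Φ.actp_gen, pT_pT]
    · rw [tens_apply, tens_apply]
  | zero =>
    refine ⟨0, fun a => ?_, fun u v => ?_⟩
    · rw [map_zero, pW_zero]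
      rfl
    · exact sub_self _
  | add _ _ h1 h2 =>
    obtain ⟨b1, h11, h12⟩ := h1
    obtain ⟨b2, h21, h22⟩ := h2
    refine ⟨b1 + b2, fun a => ?_, fun u v => ?_⟩
    · rw [map_add, LinearMap.add_apply, h11, h21, pW_add]
    · change b1 u v + b2 u v - (b1 v u + b2 v u) = _
      beta_reduce
      rw [← h12, ← h22]
      ring
  | smul c _ h1 =>
    obtain ⟨b1, h11, h12⟩ := h1
    refine ⟨cbil c b1, fun a => ?_, fun u v => ?_⟩
    · rw [map_smul, LinearMap.smul_apply, h11, pW_cbil]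
    · beta_reduce
      rw [← h12, cbil_apply, cbil_apply, mul_sub]

/-- structure equations from quadratic elements -/
theorem CoverData.Frame.struc_of_quad {n : ℕ} {X : Type} [TopologicalSpace X] {C : CoverData n X}
    {κ : Type} [Fintype κ] [DecidableEq κ] (Φ : C.Frame κ) (D : κ ⊕ κ → EA (κ ⊕ κ))
    (β : κ ⊕ κ → (κ ⊕ κ → ℂ) → (κ ⊕ κ → ℂ) → ℂ) (hq : ∀ s, Quad (D s) (β s))
    (h : ∀ s y u v, fderiv ℝ (Φ.θ s).1 y u v - fderiv ℝ (Φ.θ s).1 y v u =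
      β s (fun t => (Φ.θ t).1 y u) (fun t => (Φ.θ t).1 y v)) : Φ.Struc D where
  comm s v := (hq s).comm v
  eqn s y := by
    obtain ⟨b, h1, h2⟩ := (hq s).exists_pW Φ y
    refine ⟨b, h1, fun u v => ?_⟩
    rw [h2, h]

end Pool.Agent.H73.Fro
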