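import Pool.Agent.H73.Fro.Filt
import Pool.Agent.H73.Fro.Int

/-!
# Forms of top degree
-/

namespace Pool.Agent.H73.Fro

open Set
open scoped Manifold ContDiff ComplexConjugate Topology

theorem finrank_Cn (n : ℕ) : Module.finrank ℝ (Cn n) = 2 * n := by
  rw [finrank_real_of_complex, Module.finrank_fin_fun]

/-- a form of top degree is multiplied by the determinant -/
theorem top_comp_det {n : ℕ} (f : (Cn n) [⋀^Fin (2 * n)]→L[ℝ] ℂ) (A : Cn n →ₗ[ℝ] Cn n)
    (v : Fin (2 * n) → Cn n) : f (fun i => A (v i)) = ((LinearMap.det A : ℝ) : ℂ) * f v := by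
  set b := Module.finBasisOfFinrankEq ℝ (Cn n) (finrank_Cn n)
  have key : ∀ g : (Cn n) [⋀^Fin (2 * n)]→ₗ[ℝ] ℝ,
      g (fun i => A (v i)) = LinearMap.det A * g v := by
    intro g
    rw [g.eq_smul_basis_det b]
    have h := b.det_comp A v
    simp only [AlternatingMap.smul_apply, smul_eq_mul]
    have h2 : b.det (fun i => A (v i)) = LinearMap.det A * b.det v := h
    rw [h2]
    ring
  have hre := key (Complex.reLm.compAlternatingMap f.toAlternatingMap)
  have him := key (Complex.imLm.compAlternatingMap f.toAlternatingMap)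
  apply Complex.ext
  · rw [Complex.re_ofReal_mul]
    exact hre
  · rw [Complex.im_ofReal_mul]
    exact him

theorem det_smul_Cn (n : ℕ) (c : ℂ) (hc : ‖c‖ = 1) :
    LinearMap.det ((c • (LinearMap.id : Cn n →ₗ[ℂ] Cn n)).restrictScalars ℝ) = 1 := by
  rw [LinearMap.det_restrictScalars, LinearMap.det_smul, LinearMap.det_id, mul_one, map_pow,
    Algebra.norm_complex_apply, Complex.normSq_eq_norm_sq, hc]
  simp

theorem top_isType {n p q : ℕ} {f : (Cn n) [⋀^Fin (2 * n)]→L[ℝ] ℂ} (hf : IsType p q f)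
    (hpq : p ≠ q) : f = 0 := by
  ext v
  set t : ℝ := Real.pi / ((p : ℝ) - q) with ht
  have hpq' : (p : ℝ) - q ≠ 0 := by
    rw [sub_ne_zero]
    exact_mod_cast hpq
  set c : ℂ := Complex.exp (t * Complex.I) with hc
  have hnorm : ‖c‖ = 1 := Complex.norm_exp_ofReal_mul_I t
  have h1 := top_comp_det f ((c • (LinearMap.id : Cn n →ₗ[ℂ] Cn n)).restrictScalars ℝ) v
  rw [det_smul_Cn n c hnorm] at h1
  have h2 : f (fun i => ((c • (LinearMap.id : Cn n →ₗ[ℂ] Cn n)).restrictScalars ℝ) (v i)) =
      c ^ p * (conj c) ^ q * f v := hf c v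
  rw [h2] at h1
  have h3 : c ^ p * (conj c) ^ q = -1 := by
    have hcc : conj c = Complex.exp (-(t * Complex.I)) := by
      rw [hc, ← Complex.exp_conj, map_mul, Complex.conj_ofReal, Complex.conj_I, mul_neg]
    rw [hcc, hc, ← Complex.exp_nat_mul, ← Complex.exp_nat_mul, ← Complex.exp_add,
      ← Complex.exp_pi_mul_I]
    congr 1
    have h4 : (t : ℂ) * ((p : ℂ) - q) = Real.pi := by
      have : t * ((p : ℝ) - q) = Real.pi := by
        rw [ht]
        field_simp
      exact_mod_cast congrArg (fun x : ℝ => (x : ℂ)) this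
    rw [← h4]
    ring
  rw [h3] at h1
  have h5 : f v = 0 := by
    have : f v + f v = 0 := by
      push_cast at h1
      linear_combination -h1
    exact self_eq_neg.mp (by linear_combination this)
  rw [h5]
  rfl

theorem Fil_top {n : ℕ} {X : Type*} [TopologicalSpace X] [ChartedSpace (Cn n) X] {p : ℤ}
    (hp : (n : ℤ) < p) : Fil n X p (2 * n) = ⊥ := by
  rw [eq_bot_iff]
  apply Fil_le
  intro i j hij hpi a ha
  rw [Submodule.mem_bot]
  apply form_ext
  intro e y _
  exact top_isType (ha e y) (by omega)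

theorem filtration_top {n : ℕ} {X : Type*} [TopologicalSpace X] [ChartedSpace (Cn n) X] {p m : ℤ}
    (hp : (n : ℤ) < p) {a : AllForms n X} (ha : a ∈ filtration n X p m) : a (2 * n) = 0 := by
  by_cases h : ((2 * n : ℕ) : ℤ) = m
  · have h1 := (ha (2 * n)).1 h
    rw [Fil_top hp] at h1
    exact h1
  · exact (ha (2 * n)).2 h

section Det

/-- the constant zero-form `1` at a point -/
noncomputable def oneT (n : ℕ) : TT n := fun k => match k with
  | 0 => ContinuousAlternatingMap.constOfIsEmpty ℝ (Cn n) (Fin 0) 1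
  | _ + 1 => 0

variable {n : ℕ} {X : Type} [TopologicalSpace X] {C : CoverData n X}
variable {κ : Type} [Fintype κ] [DecidableEq κ] (Φ : C.Frame κ)

theorem actp_ιMulti (y : Cn n) (m : ℕ) (w : Fin m → (κ ⊕ κ → ℂ)) (v : Fin m → Cn n) :
    (Φ.actp y (ExteriorAlgebra.ιMulti ℂ m w) (oneT n)) m v =
      Matrix.det (Matrix.of fun r j : Fin m => Φ.linp y (w r) (v j)) := by
  induction m with
  | zero =>
    rw [ExteriorAlgebra.ιMulti_zero_apply, map_one, Module.End.one_apply, Matrix.det_fin_zero]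
    rfl
  | succ m ih =>
    rw [ExteriorAlgebra.ιMulti_succ_apply, map_mul, Module.End.mul_apply, Φ.actp_ι]
    change wBil ℂ m (Φ.linp y (w 0)) ((Φ.actp y (ExteriorAlgebra.ιMulti ℂ m
      (Matrix.vecTail w)) (oneT n)) m) v = _
    rw [wBil_apply, Matrix.det_succ_row_zero]
    refine Finset.sum_congr rfl fun j _ => ?_
    rw [ih, zsmul_eq_mul, smul_eq_mul, mul_assoc]
    push_cast
    rfl

/-- the coframe is, at every point, a complex linear transform of the standard coframe -/
def CoverData.Frame.Std (e : κ ≃ Fin n) : Prop :=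
  ∀ y, ∃ B : Cn n →ₗ[ℂ] Cn n, ∀ i v, (Φ.θ (Sum.inl i)).1 y (B v) = v (e i) ∧
    (Φ.θ (Sum.inr i)).1 y (B v) = conj (v (e i))

/-- the standard coframe -/
noncomputable def stdF (e : κ ≃ Fin n) (s : κ ⊕ κ) (v : Cn n) : ℂ :=
  match s with
  | Sum.inl i => v (e i)
  | Sum.inr i => conj (v (e i))

omit [DecidableEq κ] in
theorem det_std_ne_zero (e : κ ≃ Fin n) (σ : Fin (2 * n) ≃ κ ⊕ κ) :
    Matrix.det (Matrix.of fun r j : Fin (2 * n) => stdF e (σ r) (stdB n j)) ≠ 0 := by
  intro h0
  obtain ⟨c, hc, hc2⟩ := Matrix.exists_vecMul_eq_zero_iff.mpr h0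
  apply hc
  have key : ∀ j : Fin (2 * n), ∑ i, c (σ.symm (Sum.inl i)) * (stdB n j (e i)) +
      ∑ i, c (σ.symm (Sum.inr i)) * conj (stdB n j (e i)) = 0 := by
    intro j
    have h1 := congrFun hc2 j
    have h2 : ∑ r, c r * stdF e (σ r) (stdB n j) = 0 := h1
    rw [← Equiv.sum_comp σ.symm, Fintype.sum_sum_type] at h2
    simpa [stdF] using h2
  have key2 : ∀ i : κ, c (σ.symm (Sum.inl i)) = 0 ∧ c (σ.symm (Sum.inr i)) = 0 := by
    intro i
    have hlt := (e i).2
    have h1 := key ⟨2 * (e i).1, by omega⟩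
    have h2 := key ⟨2 * (e i).1 + 1, by omega⟩
    have hs1 : stdB n ⟨2 * (e i).1, by omega⟩ = Pi.single (e i) 1 := by
      rw [stdB]
      have a1 : (⟨2 * (e i).1 / 2, by omega⟩ : Fin n) = e i := Fin.ext (by simp)
      have a2 : 2 * (e i).1 % 2 = 0 := by omega
      simp only [a1, a2, if_true]
    have hs2 : stdB n ⟨2 * (e i).1 + 1, by omega⟩ = Pi.single (e i) Complex.I := by
      rw [stdB]
      have a1 : (⟨(2 * (e i).1 + 1) / 2, by omega⟩ : Fin n) = e i := Fin.ext (by simp; omega)
      have a2 : (2 * (e i).1 + 1) % 2 = 1 := by omega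
      simp only [a1, a2]
      simp
    have hsum : ∀ (d : κ → ℂ) (z : ℂ),
        ∑ i', d i' * (Pi.single (e i) z : Cn n) (e i') = d i * z := by
      intro d z
      rw [Finset.sum_eq_single i]
      · rw [Pi.single_eq_same]
      · intro i' _ hi'
        rw [Pi.single_eq_of_ne (fun h => hi' (e.injective h)), mul_zero]
      · intro h
        exact absurd (Finset.mem_univ i) h
    have hsum' : ∀ (d : κ → ℂ) (z : ℂ),
        ∑ i', d i' * conj ((Pi.single (e i) z : Cn n) (e i')) = d i * conj z := by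
      intro d z
      rw [Finset.sum_eq_single i]
      · rw [Pi.single_eq_same]
      · intro i' _ hi'
        rw [Pi.single_eq_of_ne (fun h => hi' (e.injective h)), map_zero, mul_zero]
      · intro h
        exact absurd (Finset.mem_univ i) h
    rw [hs1, hsum, hsum', map_one, mul_one, mul_one] at h1
    rw [hs2, hsum, hsum', Complex.conj_I] at h2
    have h3 : c (σ.symm (Sum.inl i)) - c (σ.symm (Sum.inr i)) = 0 := by
      have : (c (σ.symm (Sum.inl i)) - c (σ.symm (Sum.inr i))) * Complex.I = 0 := by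
        linear_combination h2
      exact (mul_eq_zero.mp this).resolve_right Complex.I_ne_zero
    constructor
    · linear_combination (h1 + h3) / 2
    · linear_combination (h1 - h3) / 2
  funext r
  obtain ⟨s, rfl⟩ := σ.symm.surjective r
  rcases s with i | i
  · exact (key2 i).1
  · exact (key2 i).2

/-- the volume form of the coframe in an arbitrary order -/
noncomputable def volE (σ : Fin (2 * n) ≃ κ ⊕ κ) : EA (κ ⊕ κ) :=
  ExteriorAlgebra.ιMulti ℂ (2 * n) (fun r => Pi.single (σ r) 1)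

theorem vol_value {e : κ ≃ Fin n} (hstd : Φ.Std e) (σ : Fin (2 * n) ≃ κ ⊕ κ) (y : Cn n) :
    ∃ r : ℝ, 0 < r ∧ (Φ.actp y (volE σ) (oneT n)) (2 * n) (stdB n) =
      r * Matrix.det (Matrix.of fun r j : Fin (2 * n) => stdF e (σ r) (stdB n j)) := by
  obtain ⟨B, hB⟩ := hstd y
  set f := (Φ.actp y (volE σ) (oneT n)) (2 * n) with hf
  have h1 := top_comp_det f (B.restrictScalars ℝ) (stdB n)
  have h2 : f (fun i => (B.restrictScalars ℝ) (stdB n i)) =
      Matrix.det (Matrix.of fun r j : Fin (2 * n) => stdF e (σ r) (stdB n j)) := by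
    rw [hf, volE, actp_ιMulti]
    congr 1
    ext r j
    simp only [Matrix.of_apply]
    have h3 : Φ.linp y (Pi.single (σ r) 1) = (Φ.θ (σ r)).1 y := by
      rw [CoverData.Frame.linp, LinearMap.comp_apply, LinearMap.comp_apply,
        CoverData.Frame.lin_single]
      rfl
    rw [h3]
    rcases hs : σ r with i | i
    · exact (hB i _).1
    · exact (hB i _).2
  rw [h2, LinearMap.det_restrictScalars, Algebra.norm_complex_apply] at h1
  have h0 := det_std_ne_zero e σ
  have hne : Complex.normSq (LinearMap.det B) ≠ 0 := by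
    intro hz
    rw [hz] at h1
    apply h0
    rw [h1]
    simp
  have hpos : 0 < Complex.normSq (LinearMap.det B) :=
    lt_of_le_of_ne (Complex.normSq_nonneg _) (Ne.symm hne)
  refine ⟨(Complex.normSq (LinearMap.det B))⁻¹, inv_pos.mpr hpos, ?_⟩
  rw [h1, Complex.ofReal_inv, inv_mul_cancel_left₀]
  exact_mod_cast hne

end Det

end Pool.Agent.H73.Fro
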