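import Pool.Agent.H73.Fro.Int2

/-!
# Types of alternating forms on `ℂⁿ`
-/

namespace Pool.Agent.H73.Fro

open Set
open scoped Manifold ContDiff ComplexConjugate Topology

variable {n k : ℕ}

/-- the space of functions of `c` spanned by `c ^ (k - j) * conj c ^ j` -/
theorem poly_prod (A B : Fin k → ℂ) : ∃ β : ℕ → ℂ, ∀ c : ℂ,
    ∏ i, (A i * c + B i * conj c) = ∑ j ∈ Finset.range (k + 1), β j * (c ^ (k - j) * conj c ^ j) := by
  classical
  refine ⟨fun j => ∑ s ∈ (Finset.univ : Finset (Finset (Fin k))) with (Finset.univ \ s).card = j,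
    (∏ i ∈ s, A i) * ∏ i ∈ Finset.univ \ s, B i, fun c => ?_⟩
  rw [Finset.prod_add]
  simp_rw [Finset.prod_mul_distrib, Finset.prod_const, Finset.sum_mul]
  rw [Finset.powerset_univ]
  rw [← Finset.sum_fiberwise_of_maps_to (s := (Finset.univ : Finset (Finset (Fin k))))
    (t := Finset.range (k + 1)) (g := fun s => (Finset.univ \ s).card)]
  · refine Finset.sum_congr rfl fun j _ => ?_
    refine Finset.sum_congr rfl fun s hs => ?_
    rw [Finset.mem_filter] at hs
    have h1 : s.card = k - j := by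
      have h2 := Finset.card_sdiff_add_card_eq_card (Finset.subset_univ s)
      rw [Finset.card_univ, Fintype.card_fin, hs.2] at h2
      omega
    rw [hs.2, h1]
    ring
  · intro s _
    rw [Finset.mem_range]
    have h2 := Finset.card_sdiff_add_card_eq_card (Finset.subset_univ s)
    rw [Finset.card_univ, Fintype.card_fin] at h2
    omega

/-- the values `f (c v)` are a homogeneous polynomial in `c` and its conjugate -/
theorem poly_form (f : (Cn n) [⋀^Fin k]→L[ℝ] ℂ) (v : Fin k → Cn n) : ∃ β : ℕ → ℂ, ∀ c : ℂ,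
    f (fun i => c • v i) = ∑ j ∈ Finset.range (k + 1), β j * (c ^ (k - j) * conj c ^ j) := by
  classical
  have h1 : ∀ c : ℂ, f (fun i => c • v i) =
      ∑ s : Finset (Fin k), (∏ i, if i ∈ s then (c.re : ℂ) else (c.im : ℂ)) *
        f (s.piecewise v (fun i => Complex.I • v i)) := by
    intro c
    have h2 : (fun i => c • v i) = (fun i => c.re • v i) + fun i => c.im • (Complex.I • v i) := by
      funext i
      rw [Pi.add_apply]
      ext j
      simp only [Pi.smul_apply, Pi.add_apply, smul_eq_mul, Complex.real_smul]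
      conv_lhs => rw [← Complex.re_add_im c]
      ring
    have h3 := f.toContinuousMultilinearMap.toMultilinearMap.map_add_univ
      (fun i => c.re • v i) (fun i => c.im • (Complex.I • v i))
    rw [h2]
    refine h3.trans (Finset.sum_congr rfl fun s _ => ?_)
    have h4 : s.piecewise (fun i => c.re • v i) (fun i => c.im • (Complex.I • v i)) =
        fun i => (if i ∈ s then c.re else c.im) • s.piecewise v (fun i => Complex.I • v i) i := by
      funext i
      by_cases hi : i ∈ s <;> simp [hi, Finset.piecewise]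
    rw [h4, MultilinearMap.map_smul_univ, Complex.real_smul]
    push_cast
    congr 1
    exact Finset.prod_congr rfl fun i _ => by split_ifs <;> rfl
  have h5 : ∀ s : Finset (Fin k), ∃ β : ℕ → ℂ, ∀ c : ℂ,
      (∏ i : Fin k, if i ∈ s then (c.re : ℂ) else (c.im : ℂ)) =
        ∑ j ∈ Finset.range (k + 1), β j * (c ^ (k - j) * conj c ^ j) := by
    intro s
    obtain ⟨β, hβ⟩ := poly_prod (fun i : Fin k => if i ∈ s then (1 / 2 : ℂ) else 1 / (2 * Complex.I))
      (fun i : Fin k => if i ∈ s then (1 / 2 : ℂ) else -(1 / (2 * Complex.I)))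
    refine ⟨β, fun c => ?_⟩
    rw [← hβ c]
    refine Finset.prod_congr rfl fun i _ => ?_
    split_ifs
    · rw [Complex.re_eq_add_conj]
      ring
    · rw [Complex.im_eq_sub_conj]
      ring
  choose β hβ using h5
  refine ⟨fun j => ∑ s : Finset (Fin k), β s j * f (s.piecewise v (fun i => Complex.I • v i)),
    fun c => ?_⟩
  rw [h1 c]
  simp_rw [hβ, Finset.sum_mul]
  rw [Finset.sum_comm]
  exact Finset.sum_congr rfl fun j _ => Finset.sum_congr rfl fun s _ => by ring

/-! ### Roots of unity -/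

/-- a root of unity of order `2 k + 3` -/
noncomputable def zt (k : ℕ) : ℂ := Complex.exp (2 * Real.pi * Complex.I / ((2 * k + 3 : ℕ) : ℂ))

theorem zt_prim (k : ℕ) : IsPrimitiveRoot (zt k) (2 * k + 3) :=
  Complex.isPrimitiveRoot_exp _ (by omega)

theorem zt_conj (k : ℕ) : zt k * conj (zt k) = 1 := by
  rw [Complex.mul_conj, Complex.normSq_eq_norm_sq]
  have h := (zt_prim k).norm'_eq_one (by omega)
  rw [h]
  simp

theorem zt_conj_pow (k r : ℕ) : (zt k) ^ r * (conj (zt k)) ^ r = 1 := by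
  rw [← mul_pow, zt_conj, one_pow]

/-- orthogonality -/
theorem zt_sum (k : ℕ) {a b : ℕ} (ha : a < 2 * k + 3) (hb : b < 2 * k + 3) :
    ∑ r ∈ Finset.range (2 * k + 3), ((zt k) ^ r) ^ a * (conj ((zt k) ^ r)) ^ b =
      if a = b then ((2 * k + 3 : ℕ) : ℂ) else 0 := by
  split_ifs with hab
  · subst hab
    have : ∀ r ∈ Finset.range (2 * k + 3), ((zt k) ^ r) ^ a * (conj ((zt k) ^ r)) ^ a = 1 := by
      intro r _
      rw [map_pow, ← mul_pow, zt_conj_pow, one_pow]
    rw [Finset.sum_congr rfl this]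
    simp
  · set x : ℂ := (zt k) ^ a * (conj (zt k)) ^ b with hx
    have h1 : ∀ r ∈ Finset.range (2 * k + 3),
        ((zt k) ^ r) ^ a * (conj ((zt k) ^ r)) ^ b = x ^ r := by
      intro r _
      rw [map_pow, hx, mul_pow]
      ring
    rw [Finset.sum_congr rfl h1]
    have h2 : x ^ (2 * k + 3) = 1 := by
      have e1 : (zt k) ^ (2 * k + 3) = 1 := (zt_prim k).pow_eq_one
      rw [hx, mul_pow, ← pow_mul, ← pow_mul, mul_comm a, mul_comm b, pow_mul, pow_mul, e1,
        ← map_pow, e1, map_one, one_pow, one_pow, one_mul]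
    have h3 : x ≠ 1 := by
      intro h
      apply hab
      apply (zt_prim k).pow_inj ha hb
      calc (zt k) ^ a = (zt k) ^ a * ((zt k) ^ b * (conj (zt k)) ^ b) := by
            rw [zt_conj_pow, mul_one]
        _ = x * (zt k) ^ b := by rw [hx]; ring
        _ = (zt k) ^ b := by rw [h, one_mul]
    have h4 := mul_neg_geom_sum x (2 * k + 3)
    rw [h2, sub_self] at h4
    rcases mul_eq_zero.mp h4 with h5 | h5
    · exact absurd (sub_eq_zero.mp h5).symm h3
    · exact h5

/-- multiplication by a complex number, as a real-linear map -/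
noncomputable def mulC (c : ℂ) : Cn n →L[ℝ] Cn n :=
  (c • ContinuousLinearMap.id ℂ (Cn n)).restrictScalars ℝ

theorem mulC_apply (c : ℂ) (v : Cn n) : mulC c v = c • v := rfl

/-- the projection of a `k`-form to its part of type `(k - j, j)` -/
noncomputable def prT (n k j : ℕ) :
    ((Cn n) [⋀^Fin k]→L[ℝ] ℂ) →L[ℝ] ((Cn n) [⋀^Fin k]→L[ℝ] ℂ) :=
  ∑ r ∈ Finset.range (2 * k + 3),
    ((1 / ((2 * k + 3 : ℕ) : ℂ)) * (((zt k) ^ r) ^ j * (conj ((zt k) ^ r)) ^ (k - j))) •
      ContinuousAlternatingMap.compContinuousLinearMapCLM (mulC ((zt k) ^ r))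

theorem prT_apply (j : ℕ) (f : (Cn n) [⋀^Fin k]→L[ℝ] ℂ) (v : Fin k → Cn n) :
    prT n k j f v = ∑ r ∈ Finset.range (2 * k + 3),
      ((1 / ((2 * k + 3 : ℕ) : ℂ)) * (((zt k) ^ r) ^ j * (conj ((zt k) ^ r)) ^ (k - j))) *
        f (fun i => (zt k) ^ r • v i) := by
  rw [prT, sum_apply, ContinuousAlternatingMap.sum_apply]
  rfl

theorem prT_poly {j : ℕ} (hj : j ≤ k) (f : (Cn n) [⋀^Fin k]→L[ℝ] ℂ) (v : Fin k → Cn n)
    (β : ℕ → ℂ) (hβ : ∀ c : ℂ, f (fun i => c • v i) =
      ∑ l ∈ Finset.range (k + 1), β l * (c ^ (k - l) * conj c ^ l)) (c : ℂ) :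
    prT n k j f (fun i => c • v i) = β j * (c ^ (k - j) * conj c ^ j) := by
  rw [prT_apply]
  have h1 : ∀ r ∈ Finset.range (2 * k + 3),
      ((1 / ((2 * k + 3 : ℕ) : ℂ)) * (((zt k) ^ r) ^ j * (conj ((zt k) ^ r)) ^ (k - j))) *
        f (fun i => (zt k) ^ r • c • v i) =
      ∑ l ∈ Finset.range (k + 1), (1 / ((2 * k + 3 : ℕ) : ℂ)) * (β l * (c ^ (k - l) * conj c ^ l)) *
        (((zt k) ^ r) ^ (j + (k - l)) * (conj ((zt k) ^ r)) ^ (k - j + l)) := by
    intro r _
    have h2 : (fun i => (zt k) ^ r • c • v i) = fun i => ((zt k) ^ r * c) • v i := by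
      funext i
      rw [mul_smul]
    rw [h2, hβ, Finset.mul_sum]
    refine Finset.sum_congr rfl fun l _ => ?_
    rw [map_mul, mul_pow, mul_pow, pow_add, pow_add]
    ring
  rw [Finset.sum_congr rfl h1, Finset.sum_comm]
  simp_rw [← Finset.mul_sum]
  have h2 : ∀ l ∈ Finset.range (k + 1), (1 / ((2 * k + 3 : ℕ) : ℂ)) *
      (β l * (c ^ (k - l) * conj c ^ l)) * ∑ r ∈ Finset.range (2 * k + 3),
        (((zt k) ^ r) ^ (j + (k - l)) * (conj ((zt k) ^ r)) ^ (k - j + l)) =
      if l = j then β j * (c ^ (k - j) * conj c ^ j) else 0 := by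
    intro l hl
    rw [Finset.mem_range] at hl
    rw [zt_sum k (by omega) (by omega)]
    have hN : ((2 * k + 3 : ℕ) : ℂ) ≠ 0 := Nat.cast_ne_zero.mpr (by omega)
    by_cases hlj : l = j
    · subst hlj
      rw [if_pos (by omega), if_pos rfl]
      field_simp
    · rw [if_neg (by omega), if_neg hlj, mul_zero]
  rw [Finset.sum_congr rfl h2, Finset.sum_ite_eq' , if_pos (Finset.mem_range.mpr (by omega))]

theorem prT_isType {j : ℕ} (hj : j ≤ k) (f : (Cn n) [⋀^Fin k]→L[ℝ] ℂ) :
    IsType (k - j) j (prT n k j f) := by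
  intro c v
  obtain ⟨β, hβ⟩ := poly_form f v
  have h1 := prT_poly hj f v β hβ c
  have h2 := prT_poly hj f v β hβ 1
  simp only [one_smul, map_one, one_pow, mul_one] at h2
  rw [h1, h2]
  ring

theorem sum_prT (f : (Cn n) [⋀^Fin k]→L[ℝ] ℂ) :
    ∑ j ∈ Finset.range (k + 1), prT n k j f = f := by
  ext v
  obtain ⟨β, hβ⟩ := poly_form f v
  rw [ContinuousAlternatingMap.sum_apply]
  have h3 := hβ 1
  simp only [one_smul, map_one, one_pow, mul_one] at h3
  rw [h3]
  refine Finset.sum_congr rfl fun j hj => ?_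
  rw [Finset.mem_range] at hj
  have h2 := prT_poly (j := j) (by omega) f v β hβ 1
  simp only [one_smul, map_one, one_pow, mul_one] at h2
  exact h2

/-- real-linear maps which are complex-linear -/
def CLin (L : Cn n →L[ℝ] Cn n) : Prop := ∀ (c : ℂ) v, L (c • v) = c • L v

theorem prT_comp (j : ℕ) (f : (Cn n) [⋀^Fin k]→L[ℝ] ℂ) {L : Cn n →L[ℝ] Cn n} (hL : CLin L) :
    prT n k j (f.compContinuousLinearMap L) = (prT n k j f).compContinuousLinearMap L := by
  ext v
  rw [ContinuousAlternatingMap.compContinuousLinearMap_apply, prT_apply, prT_apply]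
  refine Finset.sum_congr rfl fun r _ => ?_
  congr 1
  rw [ContinuousAlternatingMap.compContinuousLinearMap_apply]
  congr 1
  funext i
  exact hL _ _

theorem prT_csmul (j : ℕ) (c : ℂ) (f : (Cn n) [⋀^Fin k]→L[ℝ] ℂ) :
    prT n k j (c • f) = c • prT n k j f := by
  ext v
  rw [ContinuousAlternatingMap.smul_apply, prT_apply, prT_apply, smul_eq_mul, Finset.mul_sum]
  refine Finset.sum_congr rfl fun r _ => ?_
  rw [ContinuousAlternatingMap.smul_apply, smul_eq_mul]
  ring

/-- sums over the pairs `(p,q)` with unequal second index vanish -/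
theorem prT_of_poly {j : ℕ} (hj : j ≤ k) (f : (Cn n) [⋀^Fin k]→L[ℝ] ℂ) (v : Fin k → Cn n)
    (β : ℕ → ℂ) (hβ : ∀ c : ℂ, f (fun i => c • v i) =
      ∑ l ∈ Finset.range (k + 1), β l * (c ^ (k - l) * conj c ^ l)) :
    prT n k j f v = β j := by
  have h2 := prT_poly hj f v β hβ 1
  simp only [one_smul, map_one, one_pow, mul_one] at h2
  exact h2

theorem prT_of_isType {p q j : ℕ} (hpq : p + q = k) (hj : j ≤ k)
    {f : (Cn n) [⋀^Fin k]→L[ℝ] ℂ} (hf : IsType p q f) :
    prT n k j f = if j = q then f else 0 := by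
  ext v
  rw [prT_of_poly hj f v (fun l => if l = q then f v else 0)]
  · split_ifs <;> rfl
  · intro c
    rw [hf c v]
    simp only [ite_mul, zero_mul]
    rw [Finset.sum_ite_eq', if_pos (Finset.mem_range.mpr (by omega))]
    have : k - q = p := by omega
    rw [this]
    ring

end Pool.Agent.H73.Fro
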