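import Pool.Agent.H73.Fro.Types

/-!
# Forms of type `(p,q)` with `p > n` or `q > n` vanish; forms of type `(p,0)` are complex
multilinear
-/

namespace Pool.Agent.H73.Fro

open Set Function
open scoped Manifold ContDiff ComplexConjugate Topology

variable {n k : ℕ}

theorem cI_smul (w : Cn n) : Complex.I • (Complex.I • w) = -w := by
  rw [← mul_smul, Complex.I_mul_I, neg_smul, one_smul]

theorem lin_of_I {φ : Cn n →ₗ[ℝ] ℂ} (h : ∀ w, φ (Complex.I • w) = Complex.I * φ w) (c : ℂ)
    (w : Cn n) : φ (c • w) = c * φ w := by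
  have e1 : c • w = c.re • w + c.im • (Complex.I • w) := by
    ext j
    simp only [Pi.smul_apply, Pi.add_apply, smul_eq_mul, Complex.real_smul]
    conv_lhs => rw [← Complex.re_add_im c]
    ring
  rw [e1, map_add, map_smul, map_smul, h, Complex.real_smul, Complex.real_smul]
  conv_rhs => rw [← Complex.re_add_im c]
  ring

theorem clin_of_I {φ : Cn n →ₗ[ℝ] ℂ} (h : ∀ w, φ (Complex.I • w) = -Complex.I * φ w) (c : ℂ)
    (w : Cn n) : φ (c • w) = conj c * φ w := by
  have e1 : c • w = c.re • w + c.im • (Complex.I • w) := by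
    ext j
    simp only [Pi.smul_apply, Pi.add_apply, smul_eq_mul, Complex.real_smul]
    conv_lhs => rw [← Complex.re_add_im c]
    ring
  rw [e1, map_add, map_smul, map_smul, h, Complex.real_smul, Complex.real_smul]
  have e2 : conj c = c.re - c.im * Complex.I := by
    apply Complex.ext <;> simp
  rw [e2]
  ring

/-- the value of `f` as a function of its `i`-th argument -/
noncomputable def slot (f : (Cn n) [⋀^Fin k]→L[ℝ] ℂ) (v : Fin k → Cn n) (i : Fin k) :
    Cn n →ₗ[ℝ] ℂ := f.toContinuousMultilinearMap.toMultilinearMap.toLinearMap v i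

theorem slot_apply (f : (Cn n) [⋀^Fin k]→L[ℝ] ℂ) (v : Fin k → Cn n) (i : Fin k) (w : Cn n) :
    slot f v i w = f (update v i w) := rfl

/-- the value of `f` as a function of its first argument -/
noncomputable def slot0 (f : (Cn n) [⋀^Fin (k + 1)]→L[ℝ] ℂ) (v : Fin k → Cn n) :
    Cn n →ₗ[ℝ] ℂ where
  toFun w := f (Fin.cons w v)
  map_add' a b := by
    have h := (f.curryLeft.map_add a b)
    have h2 := congrArg (fun g => g v) h
    exact h2
  map_smul' c a := by
    have h := (f.curryLeft.map_smul c a)
    have h2 := congrArg (fun g => g v) h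
    exact h2

theorem slot0_apply (f : (Cn n) [⋀^Fin (k + 1)]→L[ℝ] ℂ) (v : Fin k → Cn n) (w : Cn n) :
    slot0 f v w = f (Fin.cons w v) := rfl

/-- moving the `i`-th slot to the front -/
theorem update_eq (f : (Cn n) [⋀^Fin (k + 1)]→L[ℝ] ℂ) (v : Fin (k + 1) → Cn n)
    (i : Fin (k + 1)) : ∃ (ε : ℂ) (v' : Fin k → Cn n), ε ≠ 0 ∧
      ∀ x, f (Fin.cons x v') = ε * f (update v i x) := by
  classical
  have h1 : ∀ x, (update v i x) ∘ Equiv.swap 0 i = Fin.cons x (Fin.tail (v ∘ Equiv.swap 0 i)) := by
    intro x
    funext j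
    refine Fin.cases ?_ (fun j => ?_) j
    · simp
    · rw [Fin.cons_succ, comp_apply, Fin.tail, comp_apply, update_of_ne]
      intro hc
      have h9 : Equiv.swap 0 i j.succ = Equiv.swap 0 i 0 := by
        rw [hc, Equiv.swap_apply_left]
      exact Fin.succ_ne_zero j ((Equiv.swap 0 i).injective h9)
  refine ⟨((Equiv.Perm.sign (Equiv.swap 0 i) : ℤ) : ℂ), Fin.tail (v ∘ Equiv.swap 0 i), ?_, ?_⟩
  · rcases Int.units_eq_one_or (Equiv.Perm.sign (Equiv.swap 0 i)) with h | h <;> rw [h] <;> simp
  · intro x
    rw [← h1]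
    have h := f.toAlternatingMap.map_perm (update v i x) (Equiv.swap 0 i)
    have h2 : f ((update v i x) ∘ Equiv.swap 0 i) =
      Equiv.Perm.sign (Equiv.swap 0 i) • f (update v i x) := h
    rw [h2]
    rcases Int.units_eq_one_or (Equiv.Perm.sign (Equiv.swap 0 i)) with h | h <;> rw [h] <;> simp

theorem isType_of_ne_zero {p q : ℕ} (hpq : p + q = k) {f : (Cn n) [⋀^Fin k]→L[ℝ] ℂ}
    (h : ∀ c : ℂ, c ≠ 0 → ∀ v : Fin k → Cn n, f (fun i => c • v i) = c ^ p * conj c ^ q * f v) :
    IsType p q f := by
  intro c v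
  by_cases hc : c = 0
  · subst hc
    rcases Nat.eq_zero_or_pos k with hk | hk
    · subst hk
      have hp : p = 0 := by omega
      have hq : q = 0 := by omega
      subst hp
      subst hq
      have : (fun i => (0 : ℂ) • v i) = v := Subsingleton.elim _ _
      rw [this]
      simp
    · have h1 : f (fun i => (0 : ℂ) • v i) = 0 := by
        have := f.map_coord_zero (m := fun i => (0 : ℂ) • v i) ⟨0, hk⟩ (zero_smul ℂ _)
        exact this
      rw [h1, map_zero]
      rcases Nat.eq_zero_or_pos p with hp | hp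
      · rw [zero_pow (by omega : q ≠ 0)]
        simp
      · rw [zero_pow hp.ne']
        simp
  · exact h c hc v

/-- a form which is conjugate-linear in every slot and of type `(p,q)` with `p > 0` vanishes -/
theorem eq_zero_of_conj_lin {p q : ℕ} (hpq : p + q = k) (hp : 0 < p)
    {f : (Cn n) [⋀^Fin k]→L[ℝ] ℂ} (hf : IsType p q f)
    (h : ∀ (v : Fin k → Cn n) (i : Fin k) (w : Cn n),
      f (update v i (Complex.I • w)) = -Complex.I * f (update v i w)) : f = 0 := by
  let g : MultilinearMap ℂ (fun _ : Fin k => Cn n) ℂ :=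
    { toFun := fun v => conj (f v)
      map_update_add' := by
        intro hd v i x y
        rw [Subsingleton.elim hd (instDecidableEqFin k)]
        rw [← map_add]
        congr 1
        exact (slot f v i).map_add x y
      map_update_smul' := by
        intro hd v i c x
        rw [Subsingleton.elim hd (instDecidableEqFin k)]
        have h2 := clin_of_I (φ := slot f v i) (fun w => h v i w) c x
        rw [slot_apply, slot_apply] at h2
        rw [h2, map_mul, Complex.conj_conj, smul_eq_mul] }
  have h0 : IsType 0 k f := by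
    intro c v
    have h3 := g.map_smul_univ (fun _ => c) v
    have h4 : conj (f fun i => c • v i) = (∏ _i : Fin k, c) • conj (f v) := h3
    have h5 := congrArg conj h4
    rw [Complex.conj_conj, Finset.prod_const, Finset.card_univ, Fintype.card_fin, smul_eq_mul,
      map_mul, Complex.conj_conj, map_pow] at h5
    rw [h5]
    ring
  have e1 := prT_of_isType (j := q) hpq (by omega) hf
  have e2 := prT_of_isType (j := q) (by omega : 0 + k = k) (by omega) h0
  rw [if_pos rfl] at e1
  rw [if_neg (by omega)] at e2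
  rw [← e1, e2]

/-- contraction, holomorphic part -/
noncomputable def ctr (w : Cn n) (f : (Cn n) [⋀^Fin (k + 1)]→L[ℝ] ℂ) : (Cn n) [⋀^Fin k]→L[ℝ] ℂ :=
  f.curryLeft w - Complex.I • f.curryLeft (Complex.I • w)

theorem ctr_apply (w : Cn n) (f : (Cn n) [⋀^Fin (k + 1)]→L[ℝ] ℂ) (v : Fin k → Cn n) :
    ctr w f v = f (Fin.cons w v) - Complex.I * f (Fin.cons (Complex.I • w) v) := rfl

theorem smul_cons (c : ℂ) (w : Cn n) (v : Fin k → Cn n) :
    (fun i => c • (Fin.cons w v : Fin (k + 1) → Cn n) i) = Fin.cons (c • w) (fun i => c • v i) := by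
  funext i
  refine Fin.cases ?_ (fun j => ?_) i
  · simp
  · simp

theorem ctr_isType {p q : ℕ} (hpq : p + q = k) {f : (Cn n) [⋀^Fin (k + 1)]→L[ℝ] ℂ}
    (hf : IsType (p + 1) q f) (w : Cn n) : IsType p q (ctr w f) := by
  refine isType_of_ne_zero hpq fun c hc v => ?_
  have hlin : ∀ (c : ℂ) (u : Cn n), slot0 f v (c • u) - Complex.I * slot0 f v (Complex.I • c • u) =
      c * (slot0 f v u - Complex.I * slot0 f v (Complex.I • u)) := by
    intro c u
    let ψ : Cn n →ₗ[ℝ] ℂ :=
      { toFun := fun u => slot0 f v u - Complex.I * slot0 f v (Complex.I • u)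
        map_add' := by
          intro a b
          rw [smul_add, map_add, map_add]
          ring
        map_smul' := by
          intro r a
          rw [smul_comm, map_smul, map_smul, RingHom.id_apply, Complex.real_smul,
            Complex.real_smul, Complex.real_smul]
          ring }
    have hψ : ∀ u, ψ (Complex.I • u) = Complex.I * ψ u := by
      intro u
      change slot0 f v (Complex.I • u) - Complex.I * slot0 f v (Complex.I • Complex.I • u) =
        Complex.I * (slot0 f v u - Complex.I * slot0 f v (Complex.I • u))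
      rw [cI_smul, map_neg]
      linear_combination (slot0 f v (Complex.I • u)) * Complex.I_mul_I
    exact lin_of_I hψ c u
  have h1 : ∀ u : Cn n, f (Fin.cons u (fun i => c • v i)) =
      c ^ (p + 1) * conj c ^ q * slot0 f v (c⁻¹ • u) := by
    intro u
    have h2 := hf c (Fin.cons (c⁻¹ • u) v)
    rw [smul_cons, smul_inv_smul₀ hc] at h2
    rw [h2, slot0_apply]
  rw [ctr_apply, ctr_apply, h1, h1]
  have h3 := hlin c⁻¹ w
  rw [smul_comm Complex.I c⁻¹ w] at h3
  have h4 : c ^ (p + 1) * conj c ^ q * slot0 f v (c⁻¹ • w) -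
      Complex.I * (c ^ (p + 1) * conj c ^ q * slot0 f v (c⁻¹ • Complex.I • w)) =
      c ^ (p + 1) * conj c ^ q * (c⁻¹ * (slot0 f v w - Complex.I * slot0 f v (Complex.I • w))) := by
    rw [← h3]
    ring
  rw [h4, slot0_apply, slot0_apply]
  field_simp
  ring

/-- `f` is conjugate-linear along `e_l` -/
def Kill (l : Fin n) (f : (Cn n) [⋀^Fin k]→L[ℝ] ℂ) : Prop :=
  ∀ (v : Fin k → Cn n) (i : Fin k), f (update v i (Complex.I • Pi.single l (1 : ℂ))) =
    -Complex.I * f (update v i (Pi.single l (1 : ℂ)))

theorem kill_of_ctr {l : Fin n} {f : (Cn n) [⋀^Fin (k + 1)]→L[ℝ] ℂ}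
    (h : ctr (Pi.single l (1 : ℂ)) f = 0) : Kill l f := by
  intro v i
  obtain ⟨ε, v', hε, hv'⟩ := update_eq f v i
  have h1 : ctr (Pi.single l (1 : ℂ)) f v' = 0 := by rw [h]; rfl
  rw [ctr_apply, hv', hv'] at h1
  have h2 : ε * (f (update v i (Complex.I • Pi.single l (1 : ℂ))) -
      -Complex.I * f (update v i (Pi.single l (1 : ℂ)))) = 0 := by
    have h3 : Complex.I * (Complex.I * f (update v i (Complex.I • Pi.single l (1 : ℂ)))) =
      -f (update v i (Complex.I • Pi.single l (1 : ℂ))) := by
      rw [← mul_assoc, Complex.I_mul_I]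
      ring
    linear_combination Complex.I * h1 + ε * h3
  rcases mul_eq_zero.mp h2 with h3 | h3
  · exact absurd h3 hε
  · exact sub_eq_zero.mp h3

theorem kill_ctr {l m : Fin n} {f : (Cn n) [⋀^Fin (k + 1)]→L[ℝ] ℂ} (h : Kill l f) :
    Kill l (ctr (Pi.single m (1 : ℂ)) f) := by
  intro v i
  rw [ctr_apply, ctr_apply, Fin.cons_update, Fin.cons_update, Fin.cons_update, Fin.cons_update,
    h, h]
  ring

theorem kill_ctr_self (l : Fin n) (f : (Cn n) [⋀^Fin (k + 1)]→L[ℝ] ℂ) :
    Kill l (ctr (Pi.single l (1 : ℂ)) f) := by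
  classical
  intro v i
  set e : Cn n := Pi.single l (1 : ℂ) with he
  have hsame : ∀ x : Cn n, f (Fin.cons x (update v i x)) = 0 := by
    intro x
    apply f.map_eq_zero_of_eq (i := 0) (j := i.succ)
    · rw [Fin.cons_zero, Fin.cons_succ, update_self]
    · exact (Fin.succ_ne_zero i).symm
  have hswap : f (Fin.cons e (update v i (Complex.I • e))) =
      -f (Fin.cons (Complex.I • e) (update v i e)) := by
    have h1 := hsame (e + Complex.I • e)
    rw [← slot0_apply, map_add, slot0_apply, slot0_apply, Fin.cons_update, Fin.cons_update,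
      ← slot_apply, ← slot_apply, map_add, map_add, slot_apply, slot_apply, slot_apply,
      slot_apply, ← Fin.cons_update, ← Fin.cons_update, ← Fin.cons_update, ← Fin.cons_update,
      hsame, hsame] at h1
    linear_combination h1
  rw [ctr_apply, ctr_apply, hsame, hsame, hswap]
  linear_combination (-f (Fin.cons (Complex.I • e) (update v i e))) * Complex.I_mul_I

theorem vanish_aux (m : ℕ) : ∀ (k p q : ℕ) (f : (Cn n) [⋀^Fin k]→L[ℝ] ℂ) (L : Finset (Fin n)),
    p + q = k → IsType p q f → n ≤ L.card + m → m < p → (∀ l ∈ L, Kill l f) → f = 0 := by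
  classical
  induction m with
  | zero =>
    intro k p q f L hpq hf hL hp hk
    have hLu : L = Finset.univ := by
      apply Finset.eq_univ_of_card
      rw [Fintype.card_fin]
      have := L.card_le_univ
      rw [Fintype.card_fin] at this
      omega
    refine eq_zero_of_conj_lin hpq hp hf fun v i w => ?_
    have h1 : (slot f v i).comp ((mulC Complex.I : Cn n →L[ℝ] Cn n) : Cn n →ₗ[ℝ] Cn n) =
        (LinearMap.mulLeft ℝ (-Complex.I)).comp (slot f v i) := by
      apply (stdBasis n).ext
      intro a
      rw [stdBasis_apply, LinearMap.comp_apply, LinearMap.comp_apply, LinearMap.mulLeft_apply]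
      change slot f v i (Complex.I • stdB n a) = _
      have hl := hk ⟨a.1 / 2, by omega⟩ (by rw [hLu]; exact Finset.mem_univ _) v i
      unfold stdB
      split_ifs
      · rw [slot_apply, slot_apply]
        exact hl
      · have h2 : (Pi.single ⟨a.1 / 2, by omega⟩ Complex.I : Cn n) =
          Complex.I • Pi.single ⟨a.1 / 2, by omega⟩ (1 : ℂ) := by
          rw [← Pi.single_smul, smul_eq_mul, mul_one]
        rw [h2, cI_smul, map_neg, slot_apply, slot_apply, hl]
        linear_combination (-f (update v i (Pi.single ⟨a.1 / 2, by omega⟩ 1))) * Complex.I_mul_I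
    have h2 := LinearMap.congr_fun h1 w
    exact h2
  | succ m ih =>
    intro k p q f L hpq hf hL hp hk
    cases k with
    | zero => omega
    | succ k =>
      obtain ⟨p', rfl⟩ : ∃ p', p = p' + 1 := ⟨p - 1, by omega⟩
      refine ih (k + 1) (p' + 1) q f Finset.univ hpq hf ?_ (by omega) fun l _ => ?_
      · rw [Finset.card_univ, Fintype.card_fin]
        omega
      · by_cases hl : l ∈ L
        · exact hk l hl
        · apply kill_of_ctr
          refine ih k p' q _ (insert l L) (by omega) (ctr_isType (by omega) hf _) ?_ (by omega) ?_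
          · rw [Finset.card_insert_of_notMem hl]
            omega
          · intro m' hm'
            rcases Finset.mem_insert.mp hm' with rfl | hm'
            · exact kill_ctr_self _ f
            · exact kill_ctr (hk m' hm')

/-- forms of type `(p,q)` with `p > n` vanish -/
theorem vanish_left {p q : ℕ} (hpq : p + q = k) {f : (Cn n) [⋀^Fin k]→L[ℝ] ℂ}
    (hf : IsType p q f) (hp : n < p) : f = 0 :=
  vanish_aux n k p q f ∅ hpq hf (by simp) hp (by simp)

/-- complex conjugation of forms -/
noncomputable def conjA (n k : ℕ) :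
    ((Cn n) [⋀^Fin k]→L[ℝ] ℂ) →L[ℝ] ((Cn n) [⋀^Fin k]→L[ℝ] ℂ) :=
  ContinuousLinearMap.compContinuousAlternatingMapCLM ℝ (Cn n) ℂ ℂ (Fin k)
    (Complex.conjCLE : ℂ →L[ℝ] ℂ)

theorem conjA_apply (f : (Cn n) [⋀^Fin k]→L[ℝ] ℂ) (v : Fin k → Cn n) :
    conjA n k f v = conj (f v) := rfl

theorem conjA_conjA (f : (Cn n) [⋀^Fin k]→L[ℝ] ℂ) : conjA n k (conjA n k f) = f := by
  ext v
  rw [conjA_apply, conjA_apply, Complex.conj_conj]

theorem conjA_isType {p q : ℕ} {f : (Cn n) [⋀^Fin k]→L[ℝ] ℂ} (hf : IsType p q f) :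
    IsType q p (conjA n k f) := by
  intro c v
  rw [conjA_apply, conjA_apply, hf c v, map_mul, map_mul, map_pow, map_pow, Complex.conj_conj]
  ring

/-- forms of type `(p,q)` with `q > n` vanish -/
theorem vanish_right {p q : ℕ} (hpq : p + q = k) {f : (Cn n) [⋀^Fin k]→L[ℝ] ℂ}
    (hf : IsType p q f) (hq : n < q) : f = 0 := by
  have h := vanish_left (by omega : q + p = k) (conjA_isType hf) hq
  rw [← conjA_conjA f, h, map_zero]

/-- a form of type `(k+1,0)` is complex-linear in its first slot -/
theorem linear_of_type {f : (Cn n) [⋀^Fin (k + 1)]→L[ℝ] ℂ} (hf : IsType (k + 1) 0 f)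
    (w : Cn n) (v : Fin k → Cn n) :
    f (Fin.cons (Complex.I • w) v) = Complex.I * f (Fin.cons w v) := by
  let h : (Cn n) [⋀^Fin k]→L[ℝ] ℂ := f.curryLeft w + Complex.I • f.curryLeft (Complex.I • w)
  have hap : ∀ v, h v = slot0 f v w + Complex.I * slot0 f v (Complex.I • w) := fun v => rfl
  have key : ∀ c : ℂ, c * conj c = 1 → ∀ v : Fin k → Cn n,
      h (fun i => c • v i) = c ^ (k + 2) * h v := by
    intro c hc v
    have hc0 : c ≠ 0 := by
      rintro rfl
      simp at hc
    have hinv : c⁻¹ = conj c := by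
      field_simp
      exact hc.symm
    have h1 : ∀ u : Cn n, slot0 f (fun i => c • v i) u = c ^ (k + 1) * slot0 f v (c⁻¹ • u) := by
      intro u
      have h2 := hf c (Fin.cons (c⁻¹ • u) v)
      rw [smul_cons, smul_inv_smul₀ hc0, pow_zero, mul_one] at h2
      rw [slot0_apply, slot0_apply, h2]
    let ψ : Cn n →ₗ[ℝ] ℂ :=
      { toFun := fun u => slot0 f v u + Complex.I * slot0 f v (Complex.I • u)
        map_add' := by
          intro a b
          rw [smul_add, map_add, map_add]
          ring
        map_smul' := by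
          intro r a
          rw [smul_comm, map_smul, map_smul, RingHom.id_apply, Complex.real_smul,
            Complex.real_smul, Complex.real_smul]
          ring }
    have hψ : ∀ u, ψ (Complex.I • u) = -Complex.I * ψ u := by
      intro u
      change slot0 f v (Complex.I • u) + Complex.I * slot0 f v (Complex.I • Complex.I • u) =
        -Complex.I * (slot0 f v u + Complex.I * slot0 f v (Complex.I • u))
      rw [cI_smul, map_neg]
      linear_combination (slot0 f v (Complex.I • u)) * Complex.I_mul_I
    have h3 := clin_of_I hψ c⁻¹ w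
    have h4 : slot0 f v (c⁻¹ • w) + Complex.I * slot0 f v (Complex.I • c⁻¹ • w) =
        conj c⁻¹ * (slot0 f v w + Complex.I * slot0 f v (Complex.I • w)) := h3
    rw [smul_comm Complex.I c⁻¹ w, hinv, Complex.conj_conj] at h4
    rw [hap, hap, h1, h1, hinv]
    linear_combination (c ^ (k + 1)) * h4
  have hzero : h = 0 := by
    rw [← sum_prT h]
    apply Finset.sum_eq_zero
    intro j hj
    rw [Finset.mem_range] at hj
    ext v
    rw [prT_apply]
    have h5 : ∀ r ∈ Finset.range (2 * k + 3),
        ((1 / ((2 * k + 3 : ℕ) : ℂ)) * (((zt k) ^ r) ^ j * (conj ((zt k) ^ r)) ^ (k - j))) *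
          h (fun i => (zt k) ^ r • v i) = (1 / ((2 * k + 3 : ℕ) : ℂ)) * h v *
        (((zt k) ^ r) ^ (j + (k + 2)) * (conj ((zt k) ^ r)) ^ (k - j)) := by
      intro r _
      rw [key _ (by rw [map_pow, zt_conj_pow]) v, pow_add]
      ring
    rw [Finset.sum_congr rfl h5, ← Finset.mul_sum, zt_sum k (by omega) (by omega),
      if_neg (by omega), mul_zero]
    rfl
  have h6 := hap v
  rw [hzero] at h6
  have h7 : (0 : ℂ) = slot0 f v w + Complex.I * slot0 f v (Complex.I • w) := h6
  rw [slot0_apply, slot0_apply] at h7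
  linear_combination Complex.I * h7 + f (Fin.cons (Complex.I • w) v) * Complex.I_mul_I

/-- a form of type `(n,0)` on `ℂⁿ` is a multiple of the complex determinant -/
theorem top_det {f : (Cn n) [⋀^Fin n]→L[ℝ] ℂ} (hf : IsType n 0 f) (v : Fin n → Cn n) :
    f v = f (fun i => Pi.single i (1 : ℂ)) * Matrix.det (fun i j => v i j) := by
  let g : (Cn n) [⋀^Fin n]→ₗ[ℂ] ℂ :=
    { toFun := fun v => f v
      map_update_add' := by
        intro hd v i x y
        rw [Subsingleton.elim hd (instDecidableEqFin n)]
        exact (slot f v i).map_add x y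
      map_update_smul' := by
        intro hd v i c x
        obtain rfl : hd = instDecidableEqFin n := Subsingleton.elim _ _
        refine lin_of_I (φ := slot f v i) (fun w => ?_) c x
        rw [slot_apply, slot_apply]
        cases n with
        | zero => exact i.elim0
        | succ n =>
          obtain ⟨ε, v', hε, hv'⟩ := update_eq f v i
          have h1 := linear_of_type hf w v'
          rw [hv', hv'] at h1
          have h2 : ε * f (update v i (Complex.I • w)) = ε * (Complex.I * f (update v i w)) := by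
            linear_combination h1
          exact mul_left_cancel₀ hε h2
      map_eq_zero_of_eq' := fun v i j h hij => f.map_eq_zero_of_eq v h hij }
  have h1 := AlternatingMap.eq_smul_basis_det (Pi.basisFun ℂ (Fin n)) g
  have h2 := congrArg (fun F => F v) h1
  have h3 : f v = g (Pi.basisFun ℂ (Fin n)) • (Pi.basisFun ℂ (Fin n)).det v := h2
  rw [h3, Pi.basisFun_det_apply, smul_eq_mul]
  congr 1
  change f _ = f _
  congr 1
  funext i
  rw [Pi.basisFun_apply]

end Pool.Agent.H73.Fro
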