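import Pool.Agent.H73.Fro.Types2
import Pool.Agent.H71.Wedge

/-!
# Type decomposition, conjugation and wedge product of smooth forms on a complex manifold
-/

namespace Pool.Agent.H73.Fro

open Set Function
open scoped Manifold ContDiff ComplexConjugate Topology
open Pool.Agent.H71.Wedge (wedge)

variable {n : ℕ} {X : Type*} [TopologicalSpace X] [ChartedSpace (Cn n) X] {k l m : ℕ}

theorem clin_transition [IsManifold 𝓘(ℂ, Cn n) ω X] (e e' : atlas (Cn n) X) {y : Cn n}
    (hy : y ∈ e.1.target) (hy' : e.1.symm y ∈ e'.1.source) :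
    CLin (fderiv ℝ (fun z => e'.1 (e.1.symm z)) y) := by
  have h1 : DifferentiableAt ℂ (fun z => e'.1 (e.1.symm z)) y :=
    (contDiffAt_transition e e' hy hy').differentiableAt (by simp)
  rw [h1.fderiv_restrictScalars ℝ]
  intro c v
  exact (fderiv ℂ (fun z => e'.1 (e.1.symm z)) y).map_smul c v

/-! ### Projections to the types -/

/-- the component of type `(k - j, j)` of a `k`-form -/
noncomputable def projF [IsManifold 𝓘(ℂ, Cn n) ω X] (j : ℕ) : Form n X k →ₗ[ℂ] Form n X k where
  toFun a := ⟨fun e y => prT n k j (a.1 e y), by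
    refine ⟨fun e => (prT n k j).contDiff.comp_contDiffOn (form_smooth a e), fun e y hy => ?_,
      fun e e' y hy hy' => ?_⟩
    · change prT n k j (a.1 e y) = 0
      rw [form_zero_off a e hy, map_zero]
    · change prT n k j (a.1 e y) = _
      rw [form_compat a e e' hy hy', prT_comp j _ (clin_transition e e' hy hy')]⟩
  map_add' a b := by
    apply form_ext
    intro e y _
    exact map_add (prT n k j) (a.1 e y) (b.1 e y)
  map_smul' c a := by
    apply form_ext
    intro e y _
    exact prT_csmul j c (a.1 e y)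

theorem projF_apply [IsManifold 𝓘(ℂ, Cn n) ω X] (j : ℕ) (a : Form n X k) (e : atlas (Cn n) X)
    (y : Cn n) : (projF j a).1 e y = prT n k j (a.1 e y) := rfl

theorem projF_mem [IsManifold 𝓘(ℂ, Cn n) ω X] {j : ℕ} (hj : j ≤ k) (a : Form n X k) :
    projF j a ∈ Apq n X (k - j) j k := fun _ _ => prT_isType hj _

theorem sum_projF [IsManifold 𝓘(ℂ, Cn n) ω X] (a : Form n X k) :
    ∑ j ∈ Finset.range (k + 1), projF j a = a := by
  apply form_ext
  intro e y _
  rw [coe_sum_apply]
  exact sum_prT (a.1 e y)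

theorem projF_of_mem [IsManifold 𝓘(ℂ, Cn n) ω X] {p q j : ℕ} (hpq : p + q = k) (hj : j ≤ k)
    {a : Form n X k} (ha : a ∈ Apq n X p q k) : projF j a = if j = q then a else 0 := by
  apply form_ext
  intro e y _
  rw [projF_apply, prT_of_isType hpq hj (ha e y)]
  split_ifs <;> rfl

theorem apq_le_fil {p : ℤ} {i j : ℕ} (hij : i + j = k) (hp : p ≤ i) :
    Apq n X i j k ≤ Fil n X p k := by
  unfold Fil
  exact le_iSup₂_of_le i j (le_iSup₂_of_le hij hp le_rfl)

theorem fil_le {p : ℤ} {S : Submodule ℂ (Form n X k)}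
    (h : ∀ i j : ℕ, i + j = k → p ≤ i → Apq n X i j k ≤ S) : Fil n X p k ≤ S := by
  unfold Fil
  exact iSup₂_le fun i j => iSup₂_le fun hij hp => h i j hij hp

/-- every form is in `F^0` -/
theorem fil_nonpos [IsManifold 𝓘(ℂ, Cn n) ω X] {p : ℤ} (hp : p ≤ 0) (a : Form n X k) :
    a ∈ Fil n X p k := by
  rw [← sum_projF a]
  refine Submodule.sum_mem _ fun j hj => ?_
  rw [Finset.mem_range] at hj
  exact apq_le_fil (by omega) (by omega) (projF_mem (by omega) a)

/-- a `k`-form is the sum of its part of type `(0,k)` and of an element of `F^1` -/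
theorem sub_projF_mem [IsManifold 𝓘(ℂ, Cn n) ω X] (a : Form n X k) :
    a - projF k a ∈ Fil n X 1 k := by
  have h : a - projF k a = ∑ j ∈ Finset.range k, projF j a := by
    have h1 := sum_projF a
    rw [Finset.sum_range_succ] at h1
    apply Subtype.ext
    have h2 := congrArg Subtype.val h1
    rw [Submodule.coe_add] at h2
    rw [AddSubgroupClass.coe_sub]
    exact (eq_sub_of_add_eq h2).symm
  rw [h]
  refine Submodule.sum_mem _ fun j hj => ?_
  rw [Finset.mem_range] at hj
  exact apq_le_fil (by omega) (by omega) (projF_mem (by omega) a)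

theorem projF_top_mem [IsManifold 𝓘(ℂ, Cn n) ω X] (a : Form n X k) :
    projF k a ∈ Apq n X 0 k k := by
  have h := projF_mem (le_refl k) a
  rwa [Nat.sub_self] at h

/-- forms of type `(p,q)` with `p > n` or `q > n` vanish -/
theorem apq_eq_bot {p q : ℕ} (hpq : p + q = k) (h : n < p ∨ n < q) : Apq n X p q k = ⊥ := by
  rw [eq_bot_iff]
  intro a ha
  rw [Submodule.mem_bot]
  apply form_ext
  intro e y _
  rcases h with h | h
  · exact vanish_left hpq (ha e y) h
  · exact vanish_right hpq (ha e y) h

theorem fil_eq_bot {p : ℤ} (hp : (n : ℤ) < p) : Fil n X p k = ⊥ := by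
  rw [eq_bot_iff]
  refine fil_le fun i j hij hpi => ?_
  rw [apq_eq_bot hij (Or.inl (by omega))]

/-! ### The exterior derivative and types -/

theorem isType_fderiv {a : Form n X k} {p q : ℕ} (ha : a ∈ Apq n X p q k)
    (e : atlas (Cn n) X) {y : Cn n} (hy : y ∈ e.1.target) (w : Cn n) :
    IsType p q (fderiv ℝ (a.1 e) y w) := by
  have hd : DifferentiableAt ℝ (a.1 e) y :=
    ((form_smooth a e).contDiffAt (e.1.open_target.mem_nhds hy)).differentiableAt (by simp)
  intro c v
  have h1 : HasFDerivAt (fun z => a.1 e z (fun i => c • v i))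
      ((ContinuousAlternatingMap.apply ℝ (Cn n) ℂ (fun i => c • v i)).comp
        (fderiv ℝ (a.1 e) y)) y :=
    (ContinuousAlternatingMap.apply ℝ (Cn n) ℂ (fun i => c • v i)).hasFDerivAt.comp y
      hd.hasFDerivAt
  have h2 : HasFDerivAt (fun z => a.1 e z v)
      ((ContinuousAlternatingMap.apply ℝ (Cn n) ℂ v).comp (fderiv ℝ (a.1 e) y)) y :=
    (ContinuousAlternatingMap.apply ℝ (Cn n) ℂ v).hasFDerivAt.comp y hd.hasFDerivAt
  have h3 : (fun z => a.1 e z (fun i => c • v i)) =
      fun z => (c ^ p * conj c ^ q) * a.1 e z v := by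
    funext z
    exact ha e z c v
  have h4 := h2.const_mul (c ^ p * conj c ^ q)
  rw [h3] at h1
  have h5 := h1.unique h4
  have h6 := congrArg (fun L => L w) h5
  exact h6

theorem extD_type (n : ℕ) (X : Type*) [TopologicalSpace X] [ChartedSpace (Cn n) X]
    [IsManifold 𝓘(ℂ, Cn n) ω X] (p q k : ℕ) (hk : p + q = k) {a : Form n X k}
    (ha : a ∈ Apq n X p q k) :
    extD n X k a ∈ Apq n X (p + 1) q (k + 1) ⊔ Apq n X p (q + 1) (k + 1) := by
  have key : ∀ (e : atlas (Cn n) X) (y : Cn n), y ∈ e.1.target → ∀ v : Fin (k + 1) → Cn n,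
      ∃ A B : ℂ, ∀ c : ℂ, (extD n X k a).1 e y (fun i => c • v i) =
        A * (c ^ (p + 1) * conj c ^ q) + B * (c ^ p * conj c ^ (q + 1)) := by
    intro e y hy v
    set L := fderiv ℝ (a.1 e) y with hL
    refine ⟨∑ i : Fin (k + 1), (-1 : ℂ) ^ (i : ℕ) * ((L (v i) (i.removeNth v) -
        Complex.I * L (Complex.I • v i) (i.removeNth v)) / 2),
      ∑ i : Fin (k + 1), (-1 : ℂ) ^ (i : ℕ) * ((L (v i) (i.removeNth v) +
        Complex.I * L (Complex.I • v i) (i.removeNth v)) / 2), fun c => ?_⟩
    rw [extD_apply a e hy, extDeriv, ContinuousAlternatingMap.alternatizeUncurryFin_apply,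
      Finset.sum_mul, Finset.sum_mul, ← Finset.sum_add_distrib]
    refine Finset.sum_congr rfl fun i _ => ?_
    have h1 : i.removeNth (fun i => c • v i) = fun j => c • (i.removeNth v) j := rfl
    have h2 := isType_fderiv ha e hy (c • v i) c (i.removeNth v)
    have h3 : c • v i = c.re • v i + c.im • (Complex.I • v i) := by
      ext j
      simp only [Pi.smul_apply, Pi.add_apply, smul_eq_mul, Complex.real_smul]
      conv_lhs => rw [← Complex.re_add_im c]
      ring
    rw [h1]
    rw [← hL] at h2
    rw [h2]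
    have h4 : L (c • v i) (i.removeNth v) = (c.re : ℂ) * L (v i) (i.removeNth v) +
        (c.im : ℂ) * L (Complex.I • v i) (i.removeNth v) := by
      rw [h3, map_add, map_smul, map_smul]
      rfl
    rw [h4, Complex.re_eq_add_conj, Complex.im_eq_sub_conj, zsmul_eq_mul]
    push_cast
    have hI : (Complex.I) ≠ 0 := Complex.I_ne_zero
    field_simp
    ring_nf
    rw [Complex.I_sq]
    ring
  have h0 : ∀ j, j ≤ k + 1 → j ≠ q → j ≠ q + 1 → projF j (extD n X k a) = 0 := by
    intro j hj h1 h2
    apply form_ext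
    intro e y hy
    ext v
    obtain ⟨A, B, hAB⟩ := key e y hy v
    rw [projF_apply, prT_of_poly hj _ v (fun l => (if l = q then A else 0) +
      (if l = q + 1 then B else 0))]
    · rw [if_neg h1, if_neg h2, add_zero]
      rfl
    · intro c
      rw [hAB c]
      simp only [add_mul, ite_mul, zero_mul]
      rw [Finset.sum_add_distrib, Finset.sum_ite_eq', Finset.sum_ite_eq',
        if_pos (Finset.mem_range.mpr (by omega)), if_pos (Finset.mem_range.mpr (by omega))]
      have e1 : k + 1 - q = p + 1 := by omega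
      have e2 : k + 1 - (q + 1) = p := by omega
      rw [e1, e2]
  have hsum : extD n X k a = projF q (extD n X k a) + projF (q + 1) (extD n X k a) := by
    conv_lhs => rw [← sum_projF (extD n X k a)]
    rw [← Finset.sum_pair (f := fun j => projF j (extD n X k a)) (by omega : q ≠ q + 1)]
    symm
    apply Finset.sum_subset
    · intro j hj
      rw [Finset.mem_insert, Finset.mem_singleton] at hj
      rw [Finset.mem_range]
      omega
    · intro j hj hj2
      rw [Finset.mem_insert, Finset.mem_singleton, not_or] at hj2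
      rw [Finset.mem_range] at hj
      exact h0 j (by omega) hj2.1 hj2.2
  rw [hsum]
  refine Submodule.add_mem_sup ?_ ?_
  · have h := projF_mem (j := q) (by omega) (extD n X k a)
    have e1 : k + 1 - q = p + 1 := by omega
    rwa [e1] at h
  · have h := projF_mem (j := q + 1) (by omega) (extD n X k a)
    have e1 : k + 1 - (q + 1) = p := by omega
    rwa [e1] at h

/-! ### Conjugation -/

/-- the complex conjugate of a form -/
noncomputable def conjF (a : Form n X k) : Form n X k :=
  ⟨fun e y => conjA n k (a.1 e y), by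
    refine ⟨fun e => (conjA n k).contDiff.comp_contDiffOn (form_smooth a e), fun e y hy => ?_,
      fun e e' y hy hy' => ?_⟩
    · change conjA n k (a.1 e y) = 0
      rw [form_zero_off a e hy, map_zero]
    · change conjA n k (a.1 e y) = _
      rw [form_compat a e e' hy hy']
      rfl⟩

theorem conjF_apply (a : Form n X k) (e : atlas (Cn n) X) (y : Cn n) :
    (conjF a).1 e y = conjA n k (a.1 e y) := rfl

theorem conjF_conjF (a : Form n X k) : conjF (conjF a) = a := by
  apply form_ext
  intro e y _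
  rw [conjF_apply, conjF_apply, conjA_conjA]

theorem conjF_add (a b : Form n X k) : conjF (a + b) = conjF a + conjF b := by
  apply form_ext
  intro e y _
  exact map_add (conjA n k) (a.1 e y) (b.1 e y)

theorem conjF_zero : conjF (0 : Form n X k) = 0 := by
  apply form_ext
  intro e y _
  exact map_zero (conjA n k)

theorem conjF_smul (c : ℂ) (a : Form n X k) : conjF (c • a) = conj c • conjF a := by
  apply form_ext
  intro e y _
  ext v
  exact map_mul (starRingEnd ℂ) c (a.1 e y v)

theorem conjF_mem {p q : ℕ} {a : Form n X k} (ha : a ∈ Apq n X p q k) :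
    conjF a ∈ Apq n X q p k := fun e y => conjA_isType (ha e y)

theorem extD_conjF [IsManifold 𝓘(ℂ, Cn n) ω X] (a : Form n X k) :
    extD n X k (conjF a) = conjF (extD n X k a) := by
  apply form_ext
  intro e y hy
  rw [extD_apply _ _ hy, conjF_apply, extD_apply _ _ hy]
  have hd : DifferentiableAt ℝ (a.1 e) y :=
    ((form_smooth a e).contDiffAt (e.1.open_target.mem_nhds hy)).differentiableAt (by simp)
  have h1 : HasFDerivAt ((conjF a).1 e) ((conjA n k).comp (fderiv ℝ (a.1 e) y)) y :=
    (conjA n k).hasFDerivAt.comp y hd.hasFDerivAt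
  ext v
  rw [extDeriv, h1.fderiv, ContinuousAlternatingMap.alternatizeUncurryFin_apply, conjA_apply,
    extDeriv, ContinuousAlternatingMap.alternatizeUncurryFin_apply, map_sum]
  refine Finset.sum_congr rfl fun i _ => ?_
  rw [zsmul_eq_mul, zsmul_eq_mul, map_mul]
  congr 1
  push_cast
  rw [map_pow, map_neg, map_one]

/-! ### The wedge product -/

theorem wedge_zero_left (h : k + l = m) (g : (Cn n) [⋀^Fin l]→L[ℝ] ℂ) :
    wedge h (0 : (Cn n) [⋀^Fin k]→L[ℝ] ℂ) g = 0 := by
  ext v
  rw [Pool.Agent.H71.Wedge.wedge_eq]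
  simp

theorem wedge_zero_right (h : k + l = m) (f : (Cn n) [⋀^Fin k]→L[ℝ] ℂ) :
    wedge h f (0 : (Cn n) [⋀^Fin l]→L[ℝ] ℂ) = 0 := by
  ext v
  rw [Pool.Agent.H71.Wedge.wedge_eq]
  simp

/-- the wedge product of forms -/
noncomputable def fwedge (h : k + l = m) (a : Form n X k) (b : Form n X l) : Form n X m :=
  ⟨fun e y => wedge h (a.1 e y) (b.1 e y), by
    refine ⟨fun e => Pool.Agent.H71.Wedge.contDiffOn_wedge h (form_smooth a e) (form_smooth b e),
      fun e y hy => ?_, fun e e' y hy hy' => ?_⟩
    · change wedge h (a.1 e y) (b.1 e y) = 0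
      rw [form_zero_off a e hy]
      exact wedge_zero_left h (b.1 e y)
    · change wedge h (a.1 e y) (b.1 e y) = _
      rw [form_compat a e e' hy hy', form_compat b e e' hy hy',
        Pool.Agent.H71.Wedge.wedge_comp]⟩

theorem fwedge_apply (h : k + l = m) (a : Form n X k) (b : Form n X l) (e : atlas (Cn n) X)
    (y : Cn n) : (fwedge h a b).1 e y = wedge h (a.1 e y) (b.1 e y) := rfl

theorem fwedge_add_left (h : k + l = m) (a a' : Form n X k) (b : Form n X l) :
    fwedge h (a + a') b = fwedge h a b + fwedge h a' b := by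
  apply form_ext
  intro e y _
  exact Pool.Agent.H71.Wedge.wedge_add_left h _ _ _

theorem fwedge_add_right (h : k + l = m) (a : Form n X k) (b b' : Form n X l) :
    fwedge h a (b + b') = fwedge h a b + fwedge h a b' := by
  apply form_ext
  intro e y _
  exact Pool.Agent.H71.Wedge.wedge_add_right h _ _ _

theorem fwedge_smul_left (h : k + l = m) (c : ℂ) (a : Form n X k) (b : Form n X l) :
    fwedge h (c • a) b = c • fwedge h a b := by
  apply form_ext
  intro e y _
  exact Pool.Agent.H71.Wedge.wedge_smul_left h _ _ _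

theorem fwedge_smul_right (h : k + l = m) (c : ℂ) (a : Form n X k) (b : Form n X l) :
    fwedge h a (c • b) = c • fwedge h a b := by
  apply form_ext
  intro e y _
  exact Pool.Agent.H71.Wedge.wedge_smul_right h _ _ _

theorem fwedge_zero_left (h : k + l = m) (b : Form n X l) : fwedge h (0 : Form n X k) b = 0 := by
  have h1 := fwedge_smul_left h (0 : ℂ) (0 : Form n X k) b
  rwa [zero_smul, zero_smul] at h1

theorem fwedge_zero_right (h : k + l = m) (a : Form n X k) : fwedge h a (0 : Form n X l) = 0 := by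
  have h1 := fwedge_smul_right h (0 : ℂ) a (0 : Form n X l)
  rwa [zero_smul, zero_smul] at h1

/-- graded commutativity -/
theorem fwedge_comm (h : k + l = m) (h' : l + k = m) (a : Form n X k) (b : Form n X l) :
    fwedge h a b = (-1 : ℂ) ^ (k * l) • fwedge h' b a := by
  apply form_ext
  intro e y _
  exact Pool.Agent.H71.Wedge.wedge_comm h h' (a.1 e y) (b.1 e y)

/-- the Leibniz rule -/
theorem extD_fwedge [IsManifold 𝓘(ℂ, Cn n) ω X] (h : k + l = m) (h1 : (k + 1) + l = m + 1)
    (h2 : k + (l + 1) = m + 1) (a : Form n X k) (b : Form n X l) :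
    extD n X m (fwedge h a b) =
      fwedge h1 (extD n X k a) b + (-1 : ℂ) ^ k • fwedge h2 a (extD n X l b) := by
  apply form_ext
  intro e y hy
  rw [extD_apply _ _ hy]
  change extDeriv (fun y => wedge h (a.1 e y) (b.1 e y)) y =
    wedge h1 ((extD n X k a).1 e y) (b.1 e y) +
      (-1 : ℂ) ^ k • wedge h2 (a.1 e y) ((extD n X l b).1 e y)
  rw [extD_apply _ _ hy, extD_apply _ _ hy]
  exact Pool.Agent.H71.Wedge.extDeriv_wedge h h1 h2
    (((form_smooth a e).contDiffAt (e.1.open_target.mem_nhds hy)).differentiableAt (by simp))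
    (((form_smooth b e).contDiffAt (e.1.open_target.mem_nhds hy)).differentiableAt (by simp))

theorem wedge_isType (h : k + l = m) {p q p' q' : ℕ} {f : (Cn n) [⋀^Fin k]→L[ℝ] ℂ}
    {g : (Cn n) [⋀^Fin l]→L[ℝ] ℂ} (hf : IsType p q f) (hg : IsType p' q' g) :
    IsType (p + p') (q + q') (wedge h f g) := by
  intro c v
  rw [Pool.Agent.H71.Wedge.wedge_eq, Pool.Agent.H71.Wedge.wedge_eq, mul_left_comm]
  refine congrArg (fun z : ℂ => (1 / ((k.factorial : ℂ) * l.factorial)) * z) ?_
  rw [Finset.mul_sum]
  refine Finset.sum_congr rfl fun σ _ => ?_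
  rw [hf c (fun i => v (σ (Pool.Agent.H71.Wedge.il h i))),
    hg c (fun i => v (σ (Pool.Agent.H71.Wedge.ir h i)))]
  ring

theorem fwedge_mem (h : k + l = m) {p q p' q' : ℕ} {a : Form n X k} {b : Form n X l}
    (ha : a ∈ Apq n X p q k) (hb : b ∈ Apq n X p' q' l) :
    fwedge h a b ∈ Apq n X (p + p') (q + q') m := fun e y => wedge_isType h (ha e y) (hb e y)

end Pool.Agent.H73.Fro
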