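import Pool.Agent.H73.Fro.Defs

/-!
# Wedge product with one-forms

Pointwise wedge product with a one-form, as an operator on alternating maps; the operators
square to zero; formula for the exterior derivative of a wedge product with a one-form.
-/

namespace Pool.Agent.H73.Fro

open Set
open ContinuousAlternatingMap (alternatizeUncurryFin alternatizeUncurryFinCLM
  alternatizeUncurryFin_apply alternatizeUncurryFin_add)
open scoped Manifold ContDiff ComplexConjugate Topology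

section Alt2

variable {E F : Type*} [NormedAddCommGroup E] [NormedSpace ℝ E]
  [NormedAddCommGroup F] [NormedSpace ℝ F]

/-- the double alternatization of `(u, v) ↦ h u v` -/
noncomputable def alt2 {k : ℕ} (h : E →L[ℝ] E →L[ℝ] (E [⋀^Fin k]→L[ℝ] F)) :
    E [⋀^Fin (k + 2)]→L[ℝ] F :=
  alternatizeUncurryFin ((alternatizeUncurryFinCLM ℝ E F).comp h)

theorem alt2_add {k : ℕ} (h h' : E →L[ℝ] E →L[ℝ] (E [⋀^Fin k]→L[ℝ] F)) :
    alt2 (h + h') = alt2 h + alt2 h' := by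
  rw [alt2, ContinuousLinearMap.comp_add, alternatizeUncurryFin_add]
  rfl

theorem alt2_eq_zero {k : ℕ} {h : E →L[ℝ] E →L[ℝ] (E [⋀^Fin k]→L[ℝ] F)}
    (hs : ∀ u v, h u v = h v u) : alt2 h = 0 :=
  ContinuousAlternatingMap.alternatizeUncurryFin_alternatizeUncurryFinCLM_comp_of_symmetric hs

theorem alt2_flip {k : ℕ} (h h' : E →L[ℝ] E →L[ℝ] (E [⋀^Fin k]→L[ℝ] F))
    (hs : ∀ u v, h' u v = h v u) : alt2 h + alt2 h' = 0 := by
  rw [← alt2_add]
  apply alt2_eq_zero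
  intro u v
  change h u v + h' u v = h v u + h' v u
  rw [hs, hs]
  exact add_comm _ _

theorem alt2_congr {k : ℕ} {h h' : E →L[ℝ] E →L[ℝ] (E [⋀^Fin k]→L[ℝ] F)}
    (hs : ∀ u v, h u v - h v u = h' u v - h' v u) : alt2 h = alt2 h' := by
  have h1 : alt2 (h - h') = 0 := by
    apply alt2_eq_zero
    intro u v
    change h u v - h' u v = h v u - h' v u
    have := hs u v
    rw [sub_eq_sub_iff_add_eq_add] at this ⊢
    rw [this, add_comm]
  have h2 : h = h' + (h - h') := by abel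
  rw [h2, alt2_add, h1, add_zero]

end Alt2

section Pointwise

variable {E F : Type*} [NormedAddCommGroup E] [NormedSpace ℝ E]
  [NormedAddCommGroup F] [NormedSpace ℝ F] [NormedSpace ℂ F] [IsScalarTower ℝ ℂ F]

variable (F) in
/-- the real bilinear map `(ξ, f) ↦ (u ↦ ξ u • f)` -/
noncomputable def sBil : (E →L[ℝ] ℂ) →L[ℝ] F →L[ℝ] (E →L[ℝ] F) :=
  ((ContinuousLinearMap.compL ℝ E ℂ F).comp
    ((ContinuousLinearMap.lsmul ℝ ℂ (E := F)).flip)).flip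

theorem sBil_apply (ξ : E →L[ℝ] ℂ) (f : F) (u : E) : sBil F ξ f u = ξ u • f := by
  simp [sBil]

variable (F) in
/-- the real bilinear map `(ξ, f) ↦ ξ ∧ f` -/
noncomputable def wBil (k : ℕ) :
    (E →L[ℝ] ℂ) →L[ℝ] (E [⋀^Fin k]→L[ℝ] F) →L[ℝ] (E [⋀^Fin (k + 1)]→L[ℝ] F) :=
  (ContinuousLinearMap.compL ℝ _ _ _ (alternatizeUncurryFinCLM ℝ E F)).comp
    (sBil (E [⋀^Fin k]→L[ℝ] F))

theorem wBil_eq {k : ℕ} (ξ : E →L[ℝ] ℂ) (f : E [⋀^Fin k]→L[ℝ] F) :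
    wBil F k ξ f = alternatizeUncurryFin (sBil (E [⋀^Fin k]→L[ℝ] F) ξ f) := rfl

theorem wBil_apply {k : ℕ} (ξ : E →L[ℝ] ℂ) (f : E [⋀^Fin k]→L[ℝ] F) (v : Fin (k + 1) → E) :
    wBil F k ξ f v = ∑ i : Fin (k + 1), (-1) ^ (i : ℕ) • (ξ (v i) • f (i.removeNth v)) := by
  rw [wBil_eq, alternatizeUncurryFin_apply]
  simp [sBil_apply]

theorem wBil_smul_left {k : ℕ} (c : ℂ) (ξ : E →L[ℝ] ℂ) (f : E [⋀^Fin k]→L[ℝ] F) :
    wBil F k (c • ξ) f = c • wBil F k ξ f := by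
  ext v
  rw [ContinuousAlternatingMap.smul_apply, wBil_apply, wBil_apply, Finset.smul_sum]
  refine Finset.sum_congr rfl fun i _ => ?_
  rw [smul_comm c, smul_smul c]
  rfl

theorem wBil_smul_right {k : ℕ} (c : ℂ) (ξ : E →L[ℝ] ℂ) (f : E [⋀^Fin k]→L[ℝ] F) :
    wBil F k ξ (c • f) = c • wBil F k ξ f := by
  ext v
  rw [ContinuousAlternatingMap.smul_apply, wBil_apply, wBil_apply, Finset.smul_sum]
  refine Finset.sum_congr rfl fun i _ => ?_
  rw [smul_comm c, smul_comm c]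
  rfl

theorem wBil_comp {E' : Type*} [NormedAddCommGroup E'] [NormedSpace ℝ E'] {k : ℕ}
    (ξ : E →L[ℝ] ℂ) (f : E [⋀^Fin k]→L[ℝ] F) (A : E' →L[ℝ] E) :
    (wBil F k ξ f).compContinuousLinearMap A =
      wBil F k (ξ.comp A) (f.compContinuousLinearMap A) := by
  ext v
  rw [ContinuousAlternatingMap.compContinuousLinearMap_apply, wBil_apply, wBil_apply]
  rfl

/-- the wedge product of a two-form, given by a bilinear map, and of `f` -/
noncomputable def w2 {k : ℕ} (b : E →L[ℝ] E →L[ℝ] ℂ) (f : E [⋀^Fin k]→L[ℝ] F) :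
    E [⋀^Fin (k + 2)]→L[ℝ] F :=
  alt2 (((sBil (E [⋀^Fin k]→L[ℝ] F)).flip f).comp b)

theorem w2_eq {k : ℕ} (b : E →L[ℝ] E →L[ℝ] ℂ) (f : E [⋀^Fin k]→L[ℝ] F) :
    w2 b f = alternatizeUncurryFin (((wBil F k).flip f).comp b) := rfl

theorem w2_congr {k : ℕ} {b b' : E →L[ℝ] E →L[ℝ] ℂ} (f : E [⋀^Fin k]→L[ℝ] F)
    (h : ∀ u v, b u v - b v u = b' u v - b' v u) : w2 b f = w2 b' f := by
  apply alt2_congr
  intro u v
  change sBil _ (b u) f v - sBil _ (b v) f u = sBil _ (b' u) f v - sBil _ (b' v) f u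
  simp only [sBil_apply]
  rw [← sub_smul, ← sub_smul, h]

theorem w2_add {k : ℕ} (b b' : E →L[ℝ] E →L[ℝ] ℂ) (f : E [⋀^Fin k]→L[ℝ] F) :
    w2 (b + b') f = w2 b f + w2 b' f := by
  rw [w2, ContinuousLinearMap.comp_add, alt2_add]
  rfl

theorem w2_zero {k : ℕ} (f : E [⋀^Fin k]→L[ℝ] F) : w2 (0 : E →L[ℝ] E →L[ℝ] ℂ) f = 0 := by
  apply alt2_eq_zero
  intro u v
  change sBil _ ((0 : E →L[ℝ] E →L[ℝ] ℂ) u) f v = sBil _ ((0 : E →L[ℝ] E →L[ℝ] ℂ) v) f u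
  simp only [sBil_apply]
  rfl

/-- `u ↦ ξ u • η` -/
noncomputable def tens (ξ η : E →L[ℝ] ℂ) : E →L[ℝ] E →L[ℝ] ℂ := sBil (E →L[ℝ] ℂ) ξ η

theorem tens_apply (ξ η : E →L[ℝ] ℂ) (u v : E) : tens ξ η u v = ξ u * η v := by
  change sBil (E →L[ℝ] ℂ) ξ η u v = _
  rw [sBil_apply]
  rfl

theorem w2_tens {k : ℕ} (ξ η : E →L[ℝ] ℂ) (f : E [⋀^Fin k]→L[ℝ] F) :
    w2 (tens ξ η) f = wBil F (k + 1) ξ (wBil F k η f) := by
  rw [w2_eq, wBil_eq]
  congr 1
  apply ContinuousLinearMap.ext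
  intro u
  change wBil F k (sBil (E →L[ℝ] ℂ) ξ η u) f = sBil _ ξ (wBil F k η f) u
  rw [sBil_apply, sBil_apply, wBil_smul_left]

theorem wBil_wBil {k : ℕ} (ξ η : E →L[ℝ] ℂ) (f : E [⋀^Fin k]→L[ℝ] F) :
    wBil F (k + 1) ξ (wBil F k η f) + wBil F (k + 1) η (wBil F k ξ f) = 0 := by
  rw [← w2_tens, ← w2_tens]
  apply alt2_flip
  intro u v
  change sBil _ (tens η ξ u) f v = sBil _ (tens ξ η v) f u
  rw [sBil_apply, sBil_apply, tens_apply, tens_apply, mul_comm]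

theorem wBil_self {k : ℕ} (ξ : E →L[ℝ] ℂ) (f : E [⋀^Fin k]→L[ℝ] F) :
    wBil F (k + 1) ξ (wBil F k ξ f) = 0 := by
  have h := wBil_wBil ξ ξ f
  rw [← two_smul ℝ] at h
  exact (smul_eq_zero.mp h).resolve_left two_ne_zero

/-- the exterior derivative of `θ ∧ g` -/
theorem extDeriv_wBil {k : ℕ} {θ : E → E →L[ℝ] ℂ} {g : E → E [⋀^Fin k]→L[ℝ] F} {x : E}
    (hθ : DifferentiableAt ℝ θ x) (hg : DifferentiableAt ℝ g x) :
    extDeriv (fun y => wBil F k (θ y) (g y)) x =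
      w2 (fderiv ℝ θ x) (g x) - wBil F (k + 1) (θ x) (extDeriv g x) := by
  have h1 := ((wBil F k).hasFDerivAt_of_bilinear (E := E →L[ℝ] ℂ) hθ.hasFDerivAt
    hg.hasFDerivAt).fderiv
  rw [extDeriv, h1, alternatizeUncurryFin_add, sub_eq_add_neg]
  refine (add_comm _ _).trans ?_
  congr 1
  rw [eq_neg_iff_add_eq_zero, extDeriv, wBil_eq]
  have h := alt2_flip ((sBil (E [⋀^Fin k]→L[ℝ] F) (θ x)).comp (fderiv ℝ g x))
    (sBil (E →L[ℝ] E [⋀^Fin k]→L[ℝ] F) (θ x) (fderiv ℝ g x)) (by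
      intro u v
      change sBil _ (θ x) (fderiv ℝ g x) u v = sBil _ (θ x) (fderiv ℝ g x v) u
      rw [sBil_apply, sBil_apply]
      rfl)
  convert h using 2
  · rfl
  · rw [alt2]
    congr 1
    apply ContinuousLinearMap.ext
    intro u
    change sBil _ (θ x) _ u = alternatizeUncurryFin (sBil _ (θ x) (fderiv ℝ g x) u)
    rw [sBil_apply, sBil_apply, ContinuousAlternatingMap.alternatizeUncurryFin_smul]

end Pointwise

end Pool.Agent.H73.Fro
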